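import Pool.Agent.H32.Ramanujan

/-!
# The j-function and its first two derivatives
-/

open UpperHalfPlane hiding I
open Complex EisensteinSeries ModularForm MatrixGroups Manifold
open scoped Real Topology
open Derivative

namespace H32

section

variable {E4 E6 J : ℂ → ℂ}

lemma exp_eq_qq (m : ℕ) (τ : ℍ) :
    Complex.exp (2 * (Real.pi : ℂ) * Complex.I * ((m : ℂ) + 1) * τ) = qq τ ^ (m + 1) := by
  rw [qq_eq, ← Complex.exp_nat_mul]
  congr 1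
  push_cast
  ring

lemma E4_eq (h4 : ∀ τ : ℂ, E4 τ = 1 + 240 * ∑' m : ℕ, ((ArithmeticFunction.sigma 3 (m + 1) : ℕ) : ℂ) *
    Complex.exp (2 * (Real.pi : ℂ) * Complex.I * ((m : ℂ) + 1) * τ)) (τ : ℍ) : E4 τ = E₄ τ := by
  rw [h4]
  have h := hasSum_E4 τ
  have h1 := (hasSum_nat_add_iff' 1).mpr h
  simp only [Finset.sum_range_one, if_true, Int.cast_one, pow_zero, mul_one] at h1
  have h2 : ∑' m : ℕ, ((ArithmeticFunction.sigma 3 (m + 1) : ℕ) : ℂ) *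
      Complex.exp (2 * (Real.pi : ℂ) * Complex.I * ((m : ℂ) + 1) * τ) = (E₄ τ - 1) / 240 := by
    have h3 := h1.div_const (240 : ℂ)
    refine HasSum.tsum_eq (h3.congr_fun fun m ↦ ?_)
    rw [exp_eq_qq, if_neg (Nat.succ_ne_zero m)]
    push_cast
    ring
  rw [h2]
  ring

lemma E6_eq (h6 : ∀ τ : ℂ, E6 τ = 1 - 504 * ∑' m : ℕ, ((ArithmeticFunction.sigma 5 (m + 1) : ℕ) : ℂ) *
    Complex.exp (2 * (Real.pi : ℂ) * Complex.I * ((m : ℂ) + 1) * τ)) (τ : ℍ) : E6 τ = E₆ τ := by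
  rw [h6]
  have h := hasSum_E6 τ
  have h1 := (hasSum_nat_add_iff' 1).mpr h
  simp only [Finset.sum_range_one, if_true, Int.cast_one, pow_zero, mul_one] at h1
  have h2 : ∑' m : ℕ, ((ArithmeticFunction.sigma 5 (m + 1) : ℕ) : ℂ) *
      Complex.exp (2 * (Real.pi : ℂ) * Complex.I * ((m : ℂ) + 1) * τ) = (E₆ τ - 1) / (-504) := by
    have h3 := h1.div_const (-504 : ℂ)
    refine HasSum.tsum_eq (h3.congr_fun fun m ↦ ?_)
    rw [exp_eq_qq, if_neg (Nat.succ_ne_zero m)]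
    push_cast
    ring
  rw [h2]
  ring

/-- `e2, e4, e6` as functions on `ℂ`. -/
noncomputable def e2 (w : ℂ) : ℂ := E2 (ofComplex w)
/-- `e2, e4, e6` as functions on `ℂ`. -/
noncomputable def e4 (w : ℂ) : ℂ := E₄ (ofComplex w)
/-- `e2, e4, e6` as functions on `ℂ`. -/
noncomputable def e6 (w : ℂ) : ℂ := E₆ (ofComplex w)

lemma hasDeriv_e4 {w : ℂ} (hw : 0 < w.im) :
    HasDerivAt e4 (2 * π * I * ((e2 w * e4 w - e6 w) / 3)) w := by
  have h1 := D_E4 ⟨w, hw⟩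
  have hm : MDiff (fun τ : ℍ ↦ E₄ τ) := IntQ_E4'.mdiff
  rw [UpperHalfPlane.mdifferentiable_iff] at hm
  have h2 := (hm w hw).differentiableAt (isOpen_upperHalfPlaneSet.mem_nhds hw)
  have hpi : (2 * π * I : ℂ) ≠ 0 := by
    have : (π : ℂ) ≠ 0 := by exact_mod_cast Real.pi_ne_zero
    simp [this]
  have h3 : deriv e4 w = 2 * π * I * ((e2 w * e4 w - e6 w) / 3) := by
    unfold normalizedDerivOfComplex at h1
    have h4 : deriv ((fun τ : ℍ ↦ E₄ τ) ∘ ofComplex) w = deriv e4 w := rfl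
    change (2 * π * I)⁻¹ * deriv ((fun τ : ℍ ↦ E₄ τ) ∘ ofComplex) w = _ at h1
    rw [h4] at h1
    have h5 : ofComplex w = ⟨w, hw⟩ := ofComplex_apply_of_im_pos hw
    rw [e2, e4, e6, h5, ← h1]
    field_simp
  rw [← h3]
  exact h2.hasDerivAt

lemma hasDeriv_e6 {w : ℂ} (hw : 0 < w.im) :
    HasDerivAt e6 (2 * π * I * ((e2 w * e6 w - e4 w ^ 2) / 2)) w := by
  have h1 := D_E6 ⟨w, hw⟩
  have hm : MDiff (fun τ : ℍ ↦ E₆ τ) := IntQ_E6'.mdiff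
  rw [UpperHalfPlane.mdifferentiable_iff] at hm
  have h2 := (hm w hw).differentiableAt (isOpen_upperHalfPlaneSet.mem_nhds hw)
  have hpi : (2 * π * I : ℂ) ≠ 0 := by
    have : (π : ℂ) ≠ 0 := by exact_mod_cast Real.pi_ne_zero
    simp [this]
  have h3 : deriv e6 w = 2 * π * I * ((e2 w * e6 w - e4 w ^ 2) / 2) := by
    unfold normalizedDerivOfComplex at h1
    have h4 : deriv ((fun τ : ℍ ↦ E₆ τ) ∘ ofComplex) w = deriv e6 w := rfl
    change (2 * π * I)⁻¹ * deriv ((fun τ : ℍ ↦ E₆ τ) ∘ ofComplex) w = _ at h1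
    rw [h4] at h1
    have h5 : ofComplex w = ⟨w, hw⟩ := ofComplex_apply_of_im_pos hw
    rw [e2, e4, e6, h5, ← h1]
    field_simp
  rw [← h3]
  exact h2.hasDerivAt

lemma disc_ne {w : ℂ} : e4 w ^ 3 - e6 w ^ 2 ≠ 0 := by
  have h1 := discriminant_eq_E₄_cube_sub_E₆_sq (ofComplex w)
  have h2 := discriminant_ne_zero (ofComplex w)
  intro h
  apply h2
  rw [h1]
  unfold e4 e6 at h
  rw [h, zero_div]

/-- The first derivative of `J`. -/
noncomputable def J1 (w : ℂ) : ℂ :=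
  -1728 * (2 * π * I) * (e4 w ^ 2 * e6 w) / (e4 w ^ 3 - e6 w ^ 2)

/-- The second derivative of `J`. -/
noncomputable def J2 (w : ℂ) : ℂ :=
  -1728 * (2 * π * I) ^ 2 * ((1 / 6) * e2 w * e4 w ^ 2 * e6 w - (2 / 3) * e4 w * e6 w ^ 2 -
    (1 / 2) * e4 w ^ 4) / (e4 w ^ 3 - e6 w ^ 2)

lemma hasDeriv_J {w : ℂ} (hw : 0 < w.im) :
    HasDerivAt (fun w ↦ 1728 * e4 w ^ 3 / (e4 w ^ 3 - e6 w ^ 2)) (J1 w) w := by
  have h4 := hasDeriv_e4 hw
  have h6 := hasDeriv_e6 hw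
  have h := ((h4.pow 3).const_mul 1728).div ((h4.pow 3).sub (h6.pow 2)) (disc_ne (w := w))
  refine h.congr_deriv ?_
  have hd := disc_ne (w := w)
  unfold J1
  simp only [Pi.pow_apply, Pi.sub_apply]
  field_simp
  push_cast
  ring

lemma hasDeriv_J1 {w : ℂ} (hw : 0 < w.im) : HasDerivAt J1 (J2 w) w := by
  have h4 := hasDeriv_e4 hw
  have h6 := hasDeriv_e6 hw
  have h := (((h4.pow 2).mul h6).const_mul (-1728 * (2 * π * I : ℂ))).div
    ((h4.pow 3).sub (h6.pow 2)) (disc_ne (w := w))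
  refine h.congr_deriv ?_
  have hd := disc_ne (w := w)
  unfold J2
  simp only [Pi.pow_apply, Pi.sub_apply, Pi.mul_apply]
  field_simp
  push_cast
  ring

lemma J_values (h4 : ∀ τ : ℂ, E4 τ = 1 + 240 * ∑' m : ℕ,
      ((ArithmeticFunction.sigma 3 (m + 1) : ℕ) : ℂ) *
      Complex.exp (2 * (Real.pi : ℂ) * Complex.I * ((m : ℂ) + 1) * τ))
    (h6 : ∀ τ : ℂ, E6 τ = 1 - 504 * ∑' m : ℕ, ((ArithmeticFunction.sigma 5 (m + 1) : ℕ) : ℂ) *
      Complex.exp (2 * (Real.pi : ℂ) * Complex.I * ((m : ℂ) + 1) * τ))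
    (hJ : ∀ τ : ℂ, J τ = 1728 * E4 τ ^ 3 / (E4 τ ^ 3 - E6 τ ^ 2)) {w : ℂ} (hw : 0 < w.im) :
    J w = 1728 * e4 w ^ 3 / (e4 w ^ 3 - e6 w ^ 2) ∧ deriv J w = J1 w ∧
      deriv (deriv J) w = J2 w := by
  have hopen : {w : ℂ | 0 < w.im} ∈ 𝓝 w := isOpen_upperHalfPlaneSet.mem_nhds hw
  have hval : ∀ v : ℂ, 0 < v.im → J v = 1728 * e4 v ^ 3 / (e4 v ^ 3 - e6 v ^ 2) := by
    intro v hv
    have h1 := E4_eq h4 ⟨v, hv⟩
    have h2 := E6_eq h6 ⟨v, hv⟩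
    have h3 : ofComplex v = ⟨v, hv⟩ := ofComplex_apply_of_im_pos hv
    rw [hJ, e4, e6, h3, ← h1, ← h2]
  have hd : ∀ v : ℂ, 0 < v.im → deriv J v = J1 v := by
    intro v hv
    have hopen' : {w : ℂ | 0 < w.im} ∈ 𝓝 v := isOpen_upperHalfPlaneSet.mem_nhds hv
    have he : J =ᶠ[𝓝 v] fun w ↦ 1728 * e4 w ^ 3 / (e4 w ^ 3 - e6 w ^ 2) := by
      filter_upwards [hopen'] with u hu using hval u hu
    rw [he.deriv_eq, (hasDeriv_J hv).deriv]
  refine ⟨hval w hw, hd w hw, ?_⟩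
  have he : deriv J =ᶠ[𝓝 w] J1 := by
    filter_upwards [hopen] with u hu using hd u hu
  rw [he.deriv_eq, (hasDeriv_J1 hw).deriv]

end

end H32
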