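import Mathlib

/-!
# Lower bounds for analytic functions of several variables along hierarchical sequences
-/

namespace H32

open Filter Asymptotics Metric
open scoped Topology

variable {m : ℕ}

/-- The derivative in the first variable. -/
noncomputable def DF (F : (Fin (m + 1) → ℂ) → ℂ) (s : Fin (m + 1) → ℂ) : ℂ :=
  fderiv ℂ F s (Pi.single 0 1)

lemma DF_analytic {F : (Fin (m + 1) → ℂ) → ℂ} {U : Set (Fin (m + 1) → ℂ)}
    (hF : AnalyticOnNhd ℂ F U) : AnalyticOnNhd ℂ (DF F) U := by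
  have h1 := hF.fderiv
  exact (ContinuousLinearMap.apply ℂ ℂ (Pi.single 0 1 : Fin (m + 1) → ℂ)).comp_analyticOnNhd h1

lemma DF_iter_analytic {F : (Fin (m + 1) → ℂ) → ℂ} {U : Set (Fin (m + 1) → ℂ)}
    (hF : AnalyticOnNhd ℂ F U) (k : ℕ) : AnalyticOnNhd ℂ (DF^[k] F) U := by
  induction k with
  | zero => exact hF
  | succ k ih =>
    rw [Function.iterate_succ_apply']
    exact DF_analytic ih

lemma cons_mem_ball {t : Fin (m + 1) → ℂ} {ρ : ℝ} (hρ : 0 < ρ) {ζ : ℂ} {s' : Fin m → ℂ} :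
    (Fin.cons ζ s' : Fin (m + 1) → ℂ) ∈ ball t ρ ↔ ζ ∈ ball (t 0) ρ ∧ s' ∈ ball (Fin.tail t) ρ := by
  rw [mem_ball, mem_ball, mem_ball, dist_pi_lt_iff hρ, dist_pi_lt_iff hρ, Fin.forall_fin_succ]
  rfl

lemma hasDerivAt_cons {G : (Fin (m + 1) → ℂ) → ℂ} {ζ : ℂ} {s' : Fin m → ℂ}
    (hG : DifferentiableAt ℂ G (Fin.cons ζ s')) :
    HasDerivAt (fun z : ℂ ↦ G (Fin.cons z s')) (DF G (Fin.cons ζ s')) ζ := by
  have h1 : HasDerivAt (fun z : ℂ ↦ (Fin.cons z s' : Fin (m + 1) → ℂ)) (Pi.single 0 1) ζ := by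
    rw [hasDerivAt_pi]
    intro i
    refine Fin.cases ?_ (fun j ↦ ?_) i
    · simp only [Fin.cons_zero, Pi.single_eq_same]
      exact hasDerivAt_id' ζ
    · have h0 : (Pi.single 0 1 : Fin (m + 1) → ℂ) j.succ = 0 := by simp
      simp only [Fin.cons_succ, h0]
      exact hasDerivAt_const ζ (s' j)
  exact hG.hasFDerivAt.comp_hasDerivAt ζ h1

lemma iteratedDeriv_eq {F : (Fin (m + 1) → ℂ) → ℂ} {t : Fin (m + 1) → ℂ} {ρ : ℝ} (hρ : 0 < ρ)
    (hF : AnalyticOnNhd ℂ F (ball t ρ)) {s' : Fin m → ℂ} (hs' : s' ∈ ball (Fin.tail t) ρ) (k : ℕ) :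
    ∀ ζ ∈ ball (t 0) ρ, iteratedDeriv k (fun z : ℂ ↦ F (Fin.cons z s')) ζ =
      (DF^[k] F) (Fin.cons ζ s') := by
  induction k with
  | zero => intro ζ _; simp
  | succ k ih =>
    intro ζ hζ
    rw [iteratedDeriv_succ, Function.iterate_succ_apply']
    have h1 : iteratedDeriv k (fun z : ℂ ↦ F (Fin.cons z s')) =ᶠ[𝓝 ζ]
        fun z ↦ (DF^[k] F) (Fin.cons z s') := by
      filter_upwards [isOpen_ball.mem_nhds hζ] with z hz using ih z hz
    rw [h1.deriv_eq]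
    refine (hasDerivAt_cons ?_).deriv
    exact (DF_iter_analytic hF k _ ((cons_mem_ball hρ).mpr ⟨hζ, hs'⟩)).differentiableAt

/-- The Taylor coefficients in the first variable. -/
noncomputable def tc (F : (Fin (m + 1) → ℂ) → ℂ) (t₀ : ℂ) (k : ℕ) (s' : Fin m → ℂ) : ℂ :=
  (k.factorial : ℂ)⁻¹ * (DF^[k] F) (Fin.cons t₀ s')

lemma analytic_cons (t₀ : ℂ) (s' : Fin m → ℂ) :
    AnalyticAt ℂ (fun s' : Fin m → ℂ ↦ (Fin.cons t₀ s' : Fin (m + 1) → ℂ)) s' := by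
  rw [analyticAt_pi_iff]
  intro i
  refine Fin.cases ?_ (fun j ↦ ?_) i
  · simp only [Fin.cons_zero]
    exact analyticAt_const
  · simp only [Fin.cons_succ]
    exact (ContinuousLinearMap.proj (R := ℂ) (φ := fun _ : Fin m ↦ ℂ) j).analyticAt s'

lemma tc_analytic {F : (Fin (m + 1) → ℂ) → ℂ} {t : Fin (m + 1) → ℂ} {ρ : ℝ} (hρ : 0 < ρ)
    (hF : AnalyticOnNhd ℂ F (ball t ρ)) (k : ℕ) :
    AnalyticOnNhd ℂ (tc F (t 0) k) (ball (Fin.tail t) ρ) := by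
  intro s' hs'
  have h1 : AnalyticAt ℂ (DF^[k] F) (Fin.cons (t 0) s') :=
    DF_iter_analytic hF k _ ((cons_mem_ball hρ).mpr ⟨mem_ball_self hρ, hs'⟩)
  exact analyticAt_const.mul (AnalyticAt.fun_comp (g := DF^[k] F) (f := fun s' : Fin m → ℂ ↦
    (Fin.cons (t 0) s' : Fin (m + 1) → ℂ)) h1 (analytic_cons _ _))

lemma hasSum_tc {F : (Fin (m + 1) → ℂ) → ℂ} {t : Fin (m + 1) → ℂ} {ρ : ℝ} (hρ : 0 < ρ)
    (hF : AnalyticOnNhd ℂ F (ball t ρ)) {s' : Fin m → ℂ} (hs' : s' ∈ ball (Fin.tail t) ρ)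
    {ζ : ℂ} (hζ : ζ ∈ ball (t 0) ρ) :
    HasSum (fun k ↦ tc F (t 0) k s' * (ζ - t 0) ^ k) (F (Fin.cons ζ s')) := by
  have hd : DifferentiableOn ℂ (fun z : ℂ ↦ F (Fin.cons z s')) (ball (t 0) ρ) := fun z hz ↦
    (hasDerivAt_cons (hF _ ((cons_mem_ball hρ).mpr ⟨hz, hs'⟩)).differentiableAt).differentiableAt.differentiableWithinAt
  have h1 := Complex.hasSum_taylorSeries_on_ball hd hζ
  refine h1.congr_fun fun k ↦ ?_
  rw [iteratedDeriv_eq hρ hF hs' k (t 0) (mem_ball_self hρ), tc]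
  simp only [smul_eq_mul]
  ring

lemma tc_bound {F : (Fin (m + 1) → ℂ) → ℂ} {t : Fin (m + 1) → ℂ} {ρ R B : ℝ} (hR : 0 < R)
    (hRρ : R < ρ) (hF : AnalyticOnNhd ℂ F (ball t ρ)) (hB : ∀ s ∈ closedBall t R, ‖F s‖ ≤ B)
    {s' : Fin m → ℂ} (hs' : s' ∈ closedBall (Fin.tail t) R) (k : ℕ) :
    ‖tc F (t 0) k s'‖ ≤ B / R ^ k := by
  have hρ : 0 < ρ := hR.trans hRρ
  have hs'' : s' ∈ ball (Fin.tail t) ρ := closedBall_subset_ball hRρ hs'
  have hd : DiffContOnCl ℂ (fun z : ℂ ↦ F (Fin.cons z s')) (ball (t 0) R) := by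
    have h1 : DifferentiableOn ℂ (fun z : ℂ ↦ F (Fin.cons z s')) (ball (t 0) ρ) := fun z hz ↦
      (hasDerivAt_cons (hF _ ((cons_mem_ball hρ).mpr
        ⟨hz, hs''⟩)).differentiableAt).differentiableAt.differentiableWithinAt
    exact (h1.mono (closedBall_subset_ball hRρ)).diffContOnCl_ball le_rfl
  have h2 := Complex.norm_iteratedDeriv_le_of_forall_mem_sphere_norm_le k hR hd (C := B)
    (fun z hz ↦ hB _ (by
      rw [mem_closedBall, dist_pi_le_iff hR.le, Fin.forall_fin_succ]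
      refine ⟨?_, fun j ↦ ?_⟩
      · rw [Fin.cons_zero]; exact (mem_sphere.mp hz).le
      · rw [Fin.cons_succ]
        exact (dist_le_pi_dist s' (Fin.tail t) j).trans (mem_closedBall.mp hs')))
  rw [iteratedDeriv_eq hρ hF hs'' k (t 0) (mem_ball_self hρ)] at h2
  rw [tc, norm_mul, norm_inv, Complex.norm_natCast]
  have hk : (0 : ℝ) < k.factorial := by exact_mod_cast k.factorial_pos
  rw [inv_mul_le_iff₀ hk]
  calc _ ≤ k.factorial * B / R ^ k := h2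
    _ = _ := by ring

lemma exists_leading {F : (Fin (m + 1) → ℂ) → ℂ} {t : Fin (m + 1) → ℂ} (hF : AnalyticAt ℂ F t)
    (hne : ¬ ∀ᶠ s in 𝓝 t, F s = 0) : ∃ (k₀ : ℕ) (G : (Fin m → ℂ) → ℂ),
      AnalyticAt ℂ G (Fin.tail t) ∧ (¬ ∀ᶠ s in 𝓝 (Fin.tail t), G s = 0) ∧
      ∃ C : ℝ, 0 < C ∧ ∀ᶠ s in 𝓝 t, ‖F s - G (Fin.tail s) * (s 0 - t 0) ^ k₀‖ ≤
        C * ‖s 0 - t 0‖ ^ (k₀ + 1) := by
  obtain ⟨ρ, hρ, hball⟩ := Metric.eventually_nhds_iff_ball.mp hF.eventually_analyticAt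
  have hana : AnalyticOnNhd ℂ F (ball t ρ) := fun s hs ↦ hball s hs
  have hpre : IsPreconnected (ball (Fin.tail t) ρ) := (convex_ball _ _).isPreconnected
  have hmem : Fin.tail t ∈ ball (Fin.tail t) ρ := mem_ball_self hρ
  have hex : ∃ k, ¬ ∀ᶠ s' in 𝓝 (Fin.tail t), tc F (t 0) k s' = 0 := by
    by_contra hcon
    push Not at hcon
    apply hne
    filter_upwards [isOpen_ball.mem_nhds (mem_ball_self hρ)] with s hs
    have hs2 : (Fin.cons (s 0) (Fin.tail s) : Fin (m + 1) → ℂ) ∈ ball t ρ := by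
      rwa [Fin.cons_self_tail]
    obtain ⟨h1, h2⟩ := (cons_mem_ball hρ).mp hs2
    have h3 := hasSum_tc hρ hana h2 h1
    have h4 : (fun k ↦ tc F (t 0) k (Fin.tail s) * (s 0 - t 0) ^ k) = fun _ ↦ 0 := by
      ext k
      have := (tc_analytic hρ hana k).eqOn_zero_of_preconnected_of_eventuallyEq_zero hpre hmem
        (hcon k) h2
      rw [this]
      simp
    rw [h4, Fin.cons_self_tail] at h3
    exact h3.unique hasSum_zero
  classical
  set k₀ := Nat.find hex with hk₀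
  have hk0 := Nat.find_spec hex
  have hlt : ∀ k < k₀, ∀ s' ∈ ball (Fin.tail t) ρ, tc F (t 0) k s' = 0 := fun k hk s' hs' ↦ by
    have h1 : ∀ᶠ s' in 𝓝 (Fin.tail t), tc F (t 0) k s' = 0 := by
      by_contra h
      exact Nat.find_min hex hk h
    exact (tc_analytic hρ hana k).eqOn_zero_of_preconnected_of_eventuallyEq_zero hpre hmem h1 hs'
  obtain ⟨R, hR0, hRρ⟩ : ∃ R : ℝ, 0 < R ∧ R < ρ := ⟨ρ / 2, by positivity, by linarith⟩
  have hcomp : IsCompact (closedBall t R) := isCompact_closedBall t R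
  have hcont : ContinuousOn F (closedBall t R) :=
    (hana.mono (closedBall_subset_ball hRρ)).continuousOn
  obtain ⟨B, hB⟩ := hcomp.exists_bound_of_continuousOn hcont
  have hB0 : 0 ≤ B := (norm_nonneg _).trans (hB t (mem_closedBall_self hR0.le))
  refine ⟨k₀, tc F (t 0) k₀, tc_analytic hρ hana k₀ _ hmem, hk0, 2 * B / R ^ (k₀ + 1) + 1,
    by positivity, ?_⟩
  filter_upwards [isOpen_ball.mem_nhds (mem_ball_self (half_pos hR0) : t ∈ ball t (R / 2))]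
    with s hs
  have hs' : (Fin.cons (s 0) (Fin.tail s) : Fin (m + 1) → ℂ) ∈ ball t (R / 2) := by
    rwa [Fin.cons_self_tail]
  obtain ⟨h1, h2⟩ := (cons_mem_ball (half_pos hR0)).mp hs'
  have h1' : s 0 ∈ ball (t 0) ρ := ball_subset_ball (by linarith) h1
  have h2' : Fin.tail s ∈ ball (Fin.tail t) ρ := ball_subset_ball (by linarith) h2
  have h2c : Fin.tail s ∈ closedBall (Fin.tail t) R :=
    ball_subset_closedBall (ball_subset_ball (by linarith) h2)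
  have h3 := hasSum_tc hρ hana h2' h1'
  rw [Fin.cons_self_tail] at h3
  have h4 := (hasSum_nat_add_iff' (k₀ + 1)).mpr h3
  have h5 : ∑ i ∈ Finset.range (k₀ + 1), tc F (t 0) i (Fin.tail s) * (s 0 - t 0) ^ i =
      tc F (t 0) k₀ (Fin.tail s) * (s 0 - t 0) ^ k₀ := by
    rw [Finset.sum_range_succ, Finset.sum_eq_zero, zero_add]
    intro k hk
    rw [hlt k (Finset.mem_range.mp hk) _ h2', zero_mul]
  rw [h5] at h4
  set x : ℝ := ‖s 0 - t 0‖ / R with hx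
  have hx0 : 0 ≤ x := by positivity
  have hx1 : x ≤ 1 / 2 := by
    rw [hx, div_le_iff₀ hR0]
    have := (mem_ball_iff_norm.mp h1).le
    linarith
  have hg : HasSum (fun k ↦ B * x ^ (k₀ + 1) * x ^ k) (B * x ^ (k₀ + 1) * (1 - x)⁻¹) :=
    (hasSum_geometric_of_lt_one hx0 (by linarith)).mul_left _
  have h6 := tsum_of_norm_bounded hg (f := fun k ↦
    tc F (t 0) (k + (k₀ + 1)) (Fin.tail s) * (s 0 - t 0) ^ (k + (k₀ + 1))) (fun k ↦ by
      rw [norm_mul, norm_pow]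
      have h7 := tc_bound hR0 hRρ hana hB h2c (k + (k₀ + 1))
      calc ‖tc F (t 0) (k + (k₀ + 1)) (Fin.tail s)‖ * ‖s 0 - t 0‖ ^ (k + (k₀ + 1)) ≤
          B / R ^ (k + (k₀ + 1)) * ‖s 0 - t 0‖ ^ (k + (k₀ + 1)) := by gcongr
        _ = B * x ^ (k₀ + 1) * x ^ k := by
            rw [mul_assoc, ← pow_add, add_comm (k₀ + 1) k, hx, div_pow]
            ring)
  rw [h4.tsum_eq] at h6
  refine h6.trans ?_
  have h8 : (1 - x)⁻¹ ≤ 2 := by
    rw [inv_le_comm₀ (by linarith) (by norm_num)]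
    linarith
  calc B * x ^ (k₀ + 1) * (1 - x)⁻¹ ≤ B * x ^ (k₀ + 1) * 2 := by gcongr
    _ = 2 * B / R ^ (k₀ + 1) * ‖s 0 - t 0‖ ^ (k₀ + 1) := by rw [hx, div_pow]; ring
    _ ≤ _ := by
      have : 0 ≤ ‖s 0 - t 0‖ ^ (k₀ + 1) := by positivity
      nlinarith

theorem nonvanish_multi {ι : Type*} {l : Filter ι} (m : ℕ) :
    ∀ (F : (Fin m → ℂ) → ℂ) (t : Fin m → ℂ) (r : ι → Fin m → ℂ) (_ : AnalyticAt ℂ F t)
      (_ : ¬ ∀ᶠ s in 𝓝 t, F s = 0) (_ : Tendsto r l (𝓝 t))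
      (_ : ∀ C : ℕ, ∀ᶠ i in l, ∀ j k, j < k → ‖r i j - t j‖ ≤ ‖r i k - t k‖ ^ C),
      ∃ c : ℝ, 0 < c ∧ ∃ M : ℕ, ∀ᶠ i in l, c * (∏ j, ‖r i j - t j‖) ^ M ≤ ‖F (r i)‖ := by
  induction m with
  | zero =>
    intro F t r _ hne _ _
    have h1 : F t ≠ 0 := fun h ↦ hne (Eventually.of_forall fun s ↦ by
      rw [Subsingleton.elim s t]; exact h)
    refine ⟨‖F t‖, norm_pos_iff.mpr h1, 0, Eventually.of_forall fun i ↦ ?_⟩
    rw [Subsingleton.elim (r i) t]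
    simp
  | succ n ih =>
    intro F t r hF hne hr hh
    obtain ⟨k₀, G, hG, hGne, C, hC, hexp⟩ := exists_leading hF hne
    have htail : Tendsto (fun i ↦ Fin.tail (r i)) l (𝓝 (Fin.tail t)) :=
      tendsto_pi_nhds.mpr fun j ↦ (tendsto_pi_nhds.mp hr) j.succ
    obtain ⟨c, hc, M, hM⟩ := ih G (Fin.tail t) (fun i ↦ Fin.tail (r i)) hG hGne htail
      (fun C ↦ (hh C).mono fun i hi j k hjk ↦ hi j.succ k.succ (Fin.succ_lt_succ_iff.mpr hjk))
    set ρ : Fin (n + 1) → ι → ℝ := fun j i ↦ ‖r i j - t j‖ with hρ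
    have hρ0 : ∀ j, Tendsto (ρ j) l (𝓝 0) := fun j ↦ by
      have := (((tendsto_pi_nhds.mp hr) j).sub_const (t j)).norm
      simpa using this
    have hρnn : ∀ j i, 0 ≤ ρ j i := fun j i ↦ norm_nonneg _
    have hsum : Tendsto (fun i ↦ ∑ j, ρ j i) l (𝓝 0) := by
      have := tendsto_finsetSum Finset.univ fun j (_ : j ∈ (Finset.univ : Finset (Fin (n + 1)))) ↦
        hρ0 j
      simpa using this
    have hsmall : ∀ᶠ i in l, C * ∑ j, ρ j i ≤ c / 2 := by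
      have h1 : Tendsto (fun i ↦ C * ∑ j, ρ j i) l (𝓝 (C * 0)) := hsum.const_mul C
      rw [mul_zero] at h1
      exact (h1.eventually_lt_const (by positivity)).mono fun i hi ↦ hi.le
    have hle1 : ∀ᶠ i in l, ∀ j, ρ j i ≤ 1 := by
      rw [Filter.eventually_all]
      exact fun j ↦ ((hρ0 j).eventually_lt_const one_pos).mono fun i hi ↦ hi.le
    refine ⟨c / 2, by positivity, max k₀ M, ?_⟩
    filter_upwards [hM, hr.eventually hexp, hsmall, hle1, hh (n * M + 1)] with i h1 h2 h3 h4 h5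
    set Δ : ℝ := ∏ j : Fin n, ρ j.succ i with hΔ
    have hΔ0 : 0 ≤ Δ := Finset.prod_nonneg fun j _ ↦ hρnn _ _
    have hΔ1 : Δ ≤ 1 := Finset.prod_le_one (fun j _ ↦ hρnn _ _) fun j _ ↦ h4 _
    have h1' : c * Δ ^ M ≤ ‖G (Fin.tail (r i))‖ := h1
    have h6 : ρ 0 i ≤ Δ ^ M * ∑ j, ρ j i := by
      rcases Nat.eq_zero_or_pos n with hn | hn
      · subst hn
        have : Δ = 1 := by simp [hΔ]
        rw [this, one_pow, one_mul]
        exact Finset.single_le_sum (f := fun j ↦ ρ j i) (fun j _ ↦ hρnn j i) (Finset.mem_univ 0)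
      · have : Nonempty (Fin n) := ⟨⟨0, hn⟩⟩
        obtain ⟨j₀, -, hj₀⟩ := Finset.exists_min_image (Finset.univ : Finset (Fin n))
          (fun j ↦ ρ j.succ i) Finset.univ_nonempty
        have h7 : ρ j₀.succ i ^ n ≤ Δ := by
          calc ρ j₀.succ i ^ n = ∏ _j : Fin n, ρ j₀.succ i := by simp
            _ ≤ Δ := Finset.prod_le_prod (fun _ _ ↦ hρnn _ _) fun j hj ↦ hj₀ j hj
        have h8 : ρ 0 i ≤ ρ j₀.succ i ^ (n * M + 1) := h5 0 j₀.succ (Fin.succ_pos j₀)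
        calc ρ 0 i ≤ ρ j₀.succ i ^ (n * M + 1) := h8
          _ = (ρ j₀.succ i ^ n) ^ M * ρ j₀.succ i := by rw [pow_succ, pow_mul]
          _ ≤ Δ ^ M * ∑ j, ρ j i := by
              have h9 : ρ j₀.succ i ≤ ∑ j, ρ j i :=
                Finset.single_le_sum (f := fun j ↦ ρ j i) (fun j _ ↦ hρnn j i)
                  (Finset.mem_univ j₀.succ)
              have h10 : 0 ≤ ρ j₀.succ i := hρnn _ _
              gcongr
    have h7 : C * ρ 0 i ≤ c / 2 * Δ ^ M := by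
      calc C * ρ 0 i ≤ C * (Δ ^ M * ∑ j, ρ j i) := by gcongr
        _ = (C * ∑ j, ρ j i) * Δ ^ M := by ring
        _ ≤ c / 2 * Δ ^ M := by gcongr
    have h8 : ‖F (r i) - G (Fin.tail (r i)) * (r i 0 - t 0) ^ k₀‖ ≤
        ρ 0 i ^ k₀ * (c / 2 * Δ ^ M) := by
      calc _ ≤ C * ‖r i 0 - t 0‖ ^ (k₀ + 1) := h2
        _ = ρ 0 i ^ k₀ * (C * ρ 0 i) := by rw [pow_succ]; ring
        _ ≤ _ := by have := hρnn 0 i; gcongr
    have h9 : ρ 0 i ^ k₀ * (c * Δ ^ M) ≤ ‖G (Fin.tail (r i)) * (r i 0 - t 0) ^ k₀‖ := by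
      rw [norm_mul, norm_pow, mul_comm]
      have := hρnn 0 i
      gcongr
    have h10 : ρ 0 i ^ k₀ * (c / 2 * Δ ^ M) ≤ ‖F (r i)‖ := by
      have h11 := norm_sub_norm_le (G (Fin.tail (r i)) * (r i 0 - t 0) ^ k₀)
        (G (Fin.tail (r i)) * (r i 0 - t 0) ^ k₀ - F (r i))
      rw [sub_sub_cancel, norm_sub_rev] at h11
      have h12 : ρ 0 i ^ k₀ * (c * Δ ^ M) = ρ 0 i ^ k₀ * (c / 2 * Δ ^ M) +
          ρ 0 i ^ k₀ * (c / 2 * Δ ^ M) := by ring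
      linarith
    refine le_trans ?_ h10
    have hprod : ∏ j, ‖r i j - t j‖ = ρ 0 i * Δ := by
      rw [Fin.prod_univ_succ]
    rw [hprod, mul_pow]
    have h13 : ρ 0 i ^ max k₀ M ≤ ρ 0 i ^ k₀ :=
      pow_le_pow_of_le_one (hρnn 0 i) (h4 0) (le_max_left _ _)
    have h14 : Δ ^ max k₀ M ≤ Δ ^ M := pow_le_pow_of_le_one hΔ0 hΔ1 (le_max_right _ _)
    calc c / 2 * (ρ 0 i ^ max k₀ M * Δ ^ max k₀ M) ≤ c / 2 * (ρ 0 i ^ k₀ * Δ ^ M) := by
          have := hρnn 0 i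
          gcongr
      _ = _ := by ring

end H32
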