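import Pool.Agent.H32.Algebra

/-!
# Transcendence degree bookkeeping
-/

open MvPolynomial

namespace H32

section

variable {σ : Type} [Fintype σ]

lemma countable_mv' : Countable (MvPolynomial σ ℤ) := by
  rw [← Cardinal.mk_le_aleph0_iff]
  refine (MvPolynomial.cardinalMk_le_max).trans ?_
  exact max_le (max_le Cardinal.mk_le_aleph0 Cardinal.mk_le_aleph0) le_rfl

lemma exists_transcendental' (ξ : σ → ℂ) :
    ∃ μ : ℂ, Transcendental (aeval ξ : MvPolynomial σ ℤ →ₐ[ℤ] ℂ).range μ := by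
  have hcount : Countable (aeval ξ : MvPolynomial σ ℤ →ₐ[ℤ] ℂ).range := by
    have := countable_mv' (σ := σ)
    exact Function.Surjective.countable
      (AlgHom.rangeRestrict_surjective (aeval ξ : MvPolynomial σ ℤ →ₐ[ℤ] ℂ))
  by_contra hcon
  push Not at hcon
  have h1 := Algebraic.countable (aeval ξ : MvPolynomial σ ℤ →ₐ[ℤ] ℂ).range ℂ
  have h2 : {x : ℂ | IsAlgebraic (aeval ξ : MvPolynomial σ ℤ →ₐ[ℤ] ℂ).range x} =
      Set.univ := by
    ext x
    have := hcon x
    rw [Transcendental, not_not] at this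
    exact iff_of_true this trivial
  rw [h2] at h1
  exact not_countable_complex h1

lemma scaled_indep' (w : σ → ℕ) (ξ : σ → ℂ)
    (hξ : ∀ (Φ : MvPolynomial σ ℤ) (W : ℕ), IsWeightedHomogeneous w Φ W →
      Φ ≠ 0 → aeval ξ Φ ≠ 0) :
    ∃ μ : ℂ, μ ≠ 0 ∧ AlgebraicIndependent ℤ (fun x ↦ μ ^ (w x) * ξ x) := by
  classical
  obtain ⟨μ, hμ⟩ := exists_transcendental' ξ
  refine ⟨μ, ?_, ?_⟩
  · rintro rfl
    exact hμ isAlgebraic_zero
  rw [algebraicIndependent_iff]
  intro P hP
  by_contra hne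
  obtain ⟨m₀, hm₀⟩ := MvPolynomial.support_nonempty.mpr hne
  set rr := AlgHom.rangeRestrict (aeval ξ : MvPolynomial σ ℤ →ₐ[ℤ] ℂ) with hrr
  have hrrv : ∀ p, ((rr p : (aeval ξ : MvPolynomial σ ℤ →ₐ[ℤ] ℂ).range) : ℂ) =
    aeval ξ p := fun p ↦ rfl
  set Q : Polynomial (aeval ξ : MvPolynomial σ ℤ →ₐ[ℤ] ℂ).range :=
    ∑ m ∈ P.support, Polynomial.monomial (Finsupp.weight w m)
      (rr (monomial m (P.coeff m))) with hQ
  have hQ0 : Polynomial.aeval μ Q = 0 := by
    rw [hQ, map_sum, ← hP]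
    conv_rhs => rw [P.as_sum, map_sum]
    refine Finset.sum_congr rfl fun m _ ↦ ?_
    rw [Polynomial.aeval_monomial]
    change aeval ξ (monomial m (P.coeff m)) * _ = _
    rw [aeval_monomial, aeval_monomial, Finsupp.prod_fintype _ _ (by simp),
      Finsupp.prod_fintype _ _ (by simp)]
    have : ∏ i, (μ ^ w i * ξ i) ^ m i = μ ^ (Finsupp.weight w m) * ∏ i, ξ i ^ m i := by
      rw [Finsupp.weight_apply, Finsupp.sum_fintype _ _ (by simp), ← Finset.prod_pow_eq_pow_sum,
        ← Finset.prod_mul_distrib]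
      refine Finset.prod_congr rfl fun i _ ↦ ?_
      rw [mul_pow, ← pow_mul, smul_eq_mul, mul_comm (m i)]
    rw [this]
    ring
  have hQz : Q = 0 := by
    by_contra h
    exact hμ ⟨Q, h, hQ0⟩
  have hcoeff : rr (weightedHomogeneousComponent w (Finsupp.weight w m₀) P) = 0 := by
    have h1 := congrArg (fun q ↦ (Polynomial.coeff q (Finsupp.weight w m₀))) hQz
    simp only [hQ, Polynomial.finsetSum_coeff, Polynomial.coeff_monomial,
      Polynomial.coeff_zero] at h1
    rw [weightedHomogeneousComponent_apply, map_sum, Finset.sum_filter]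
    exact h1
  have hcomp : aeval ξ (weightedHomogeneousComponent w (Finsupp.weight w m₀) P) = 0 := by
    rw [← hrrv, hcoeff]
    rfl
  refine hξ _ _ (weightedHomogeneousComponent_isWeightedHomogeneous (Finsupp.weight w m₀) P)
    ?_ hcomp
  intro h0
  have h1 := congrArg (coeff m₀) h0
  rw [coeff_weightedHomogeneousComponent, if_pos rfl, coeff_zero] at h1
  exact (MvPolynomial.mem_support_iff.mp hm₀) h1

end

lemma extract_indep {ι : Type*} [Finite ι] (S : ι → ℂ) {B : Set ℂ}
    (hB : AlgebraicIndependent ℚ (fun b : B ↦ (b : ℂ))) (hBS : B ⊆ Set.range S) {N : ℕ}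
    (hN : (N : ℕ∞) ≤ B.encard) :
    ∃ f : Fin N → ι, AlgebraicIndependent ℚ (fun k ↦ S (f k)) := by
  classical
  have hBfin : B.Finite := (Set.finite_range S).subset hBS
  have hfin : Fintype B := hBfin.fintype
  have h6 : Fintype.card (Fin N) ≤ Fintype.card B := by
    rw [Fintype.card_fin, ← Nat.card_eq_fintype_card]
    change N ≤ B.ncard
    rw [hBfin.encard_eq_coe_toFinset_card] at hN
    rw [Set.ncard_eq_toFinset_card B hBfin]
    exact_mod_cast hN
  obtain ⟨g⟩ := Function.Embedding.nonempty_of_card_le h6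
  choose f hf using fun k ↦ hBS (g k).2
  refine ⟨f, ?_⟩
  have h7 := hB.comp g g.injective
  convert h7 using 1
  ext k
  exact hf k

lemma matroid_submod {m n : ℕ} {τ : Type*} [Fintype τ] (S : Fin n × Fin 4 → ℂ) (t : Fin m → ℂ)
    (η : τ → ℂ) (hη : AlgebraicIndependent ℚ η) (hcard : Fintype.card τ = m + 3 * n) (μ : ℂ)
    (halg : ∀ x, IsAlgebraic (Algebra.adjoin ℚ (insert μ (Set.range S ∪ Set.range t))) (η x))
    (hz : ∀ j, IsAlgebraic (Algebra.adjoin ℚ (Set.range t)) (S (j, 0)))
    {ρ : ℕ} (g : Fin ρ → Fin n) (hg : AlgebraicIndependent ℚ (fun k ↦ S (g k, 0))) :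
    ∃ f : Fin (3 * n + ρ - 1) → Fin n × Fin 4, AlgebraicIndependent ℚ (fun k ↦ S (f k)) := by
  classical
  set M := AlgebraicIndependent.matroid ℚ ℂ with hM
  set Z : Set ℂ := Set.range (fun j : Fin n ↦ S (j, 0)) with hZ
  -- the big independent set
  have hX : M.Indep (Set.range η) := by
    rw [hM, AlgebraicIndependent.matroid_indep_iff]
    exact hη.to_subtype_range
  have hXcard : (Set.range η).encard = (m + 3 * n : ℕ) := by
    rw [← Set.image_univ, hη.injective.encard_image, Set.encard_univ, ENat.card_eq_coe_fintype_card,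
      hcard]
  have hsub : Set.range η ⊆ M.closure (insert μ (Set.range S ∪ Set.range t)) := by
    rw [hM, AlgebraicIndependent.matroid_closure_eq]
    rintro _ ⟨x, rfl⟩
    exact halg x
  have h1 : ((m + 3 * n : ℕ) : ℕ∞) ≤ M.eRk (Set.range S ∪ Set.range t) + 1 := by
    rw [← hXcard]
    calc (Set.range η).encard ≤ M.eRk (insert μ (Set.range S ∪ Set.range t)) := by
          rw [← M.eRk_closure_eq]
          exact hX.encard_le_eRk_of_subset hsub
      _ ≤ _ := M.eRk_insert_le_add_one _ _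
  -- the rank of the coordinates
  have hY : M.Indep (Set.range (fun k ↦ S (g k, 0))) := by
    rw [hM, AlgebraicIndependent.matroid_indep_iff]
    exact hg.to_subtype_range
  have hYcard : (Set.range (fun k ↦ S (g k, 0))).encard = (ρ : ℕ) := by
    rw [← Set.image_univ, hg.injective.encard_image, Set.encard_univ]
    simp
  have h2 : (ρ : ℕ∞) ≤ M.eRk (Set.range S ∩ (Z ∪ Set.range t)) := by
    rw [← hYcard]
    refine hY.encard_le_eRk_of_subset ?_
    rintro _ ⟨k, rfl⟩
    exact ⟨⟨(g k, 0), rfl⟩, Or.inl ⟨g k, rfl⟩⟩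
  have h3 : M.eRk (Z ∪ Set.range t) ≤ (m : ℕ∞) := by
    calc M.eRk (Z ∪ Set.range t) ≤ M.eRk (M.closure (Set.range t)) := by
          refine M.eRk_mono (Set.union_subset ?_ ?_)
          · rw [hM, AlgebraicIndependent.matroid_closure_eq]
            rintro _ ⟨j, rfl⟩
            exact hz j
          · refine M.subset_closure _ ?_
            rw [hM]
            exact Set.subset_univ _
      _ = M.eRk (Set.range t) := M.eRk_closure_eq _
      _ ≤ (Set.range t).encard := M.eRk_le_encard _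
      _ ≤ (Set.univ : Set (Fin m)).encard := by
          rw [← Set.image_univ]
          exact Set.encard_image_le _ _
      _ = m := by simp
  have h4 := M.eRk_submod (Set.range S) (Z ∪ Set.range t)
  have h5 : M.eRk (Set.range S ∪ Set.range t) ≤ M.eRk (Set.range S ∪ (Z ∪ Set.range t)) :=
    M.eRk_mono (Set.union_subset_union_right _ Set.subset_union_right)
  have h6 : (ρ : ℕ∞) + M.eRk (Set.range S ∪ Set.range t) ≤ M.eRk (Set.range S) + m :=
    (add_le_add h2 h5).trans (h4.trans (add_le_add le_rfl h3))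
  have h7 : ((ρ + (m + 3 * n) : ℕ) : ℕ∞) ≤ M.eRk (Set.range S) + m + 1 := by
    calc ((ρ + (m + 3 * n) : ℕ) : ℕ∞) = ρ + ((m + 3 * n : ℕ) : ℕ∞) := by push_cast; rfl
      _ ≤ ρ + (M.eRk (Set.range S ∪ Set.range t) + 1) := by gcongr
      _ = (ρ + M.eRk (Set.range S ∪ Set.range t)) + 1 := by rw [add_assoc]
      _ ≤ _ := by gcongr
  obtain ⟨B, hB⟩ := M.exists_isBasis (Set.range S)
  have hBsub : B ⊆ Set.range S := hB.subset
  have hBfin : B.Finite := (Set.finite_range S).subset hBsub
  rw [← hB.encard_eq_eRk] at h7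
  refine extract_indep S (B := B) ?_ hBsub ?_
  · have := hB.indep
    rw [hM, AlgebraicIndependent.matroid_indep_iff] at this
    exact this
  · rw [hBfin.encard_eq_coe_toFinset_card] at h7 ⊢
    have h8 : ρ + (m + 3 * n) ≤ hBfin.toFinset.card + m + 1 := by exact_mod_cast h7
    have h9 : 3 * n + ρ - 1 ≤ hBfin.toFinset.card := by omega
    exact_mod_cast h9

end H32
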