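import Pool.Agent.H32.App

/-!
# From homogeneous nonvanishing to transcendence degree
-/

open MvPolynomial

namespace H32

variable {n : ℕ}

lemma countable_mv : Countable (MvPolynomial (Fin n × Fin 4) ℤ) := by
  rw [← Cardinal.mk_le_aleph0_iff]
  refine (MvPolynomial.cardinalMk_le_max).trans ?_
  exact max_le (max_le Cardinal.mk_le_aleph0 Cardinal.mk_le_aleph0) le_rfl

lemma exists_transcendental (ξ : Fin n × Fin 4 → ℂ) :
    ∃ μ : ℂ, Transcendental (aeval ξ : MvPolynomial (Fin n × Fin 4) ℤ →ₐ[ℤ] ℂ).range μ := by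
  have hcount : Countable (aeval ξ : MvPolynomial (Fin n × Fin 4) ℤ →ₐ[ℤ] ℂ).range := by
    have := countable_mv (n := n)
    exact Function.Surjective.countable
      (AlgHom.rangeRestrict_surjective (aeval ξ : MvPolynomial (Fin n × Fin 4) ℤ →ₐ[ℤ] ℂ))
  by_contra hcon
  push Not at hcon
  have h1 := Algebraic.countable (aeval ξ : MvPolynomial (Fin n × Fin 4) ℤ →ₐ[ℤ] ℂ).range ℂ
  have h2 : {x : ℂ | IsAlgebraic (aeval ξ : MvPolynomial (Fin n × Fin 4) ℤ →ₐ[ℤ] ℂ).range x} =
      Set.univ := by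
    ext x
    have := hcon x
    rw [Transcendental, not_not] at this
    exact iff_of_true this trivial
  rw [h2] at h1
  exact not_countable_complex h1

lemma scaled_indep (ξ : Fin n × Fin 4 → ℂ)
    (hξ : ∀ (Φ : MvPolynomial (Fin n × Fin 4) ℤ) (W : ℕ), IsWeightedHomogeneous wt4 Φ W →
      Φ ≠ 0 → aeval ξ Φ ≠ 0) :
    ∃ μ : ℂ, μ ≠ 0 ∧ AlgebraicIndependent ℤ (fun x ↦ μ ^ (wt4 x) * ξ x) := by
  classical
  obtain ⟨μ, hμ⟩ := exists_transcendental ξ
  refine ⟨μ, ?_, ?_⟩
  · rintro rfl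
    exact hμ isAlgebraic_zero
  rw [algebraicIndependent_iff]
  intro P hP
  by_contra hne
  obtain ⟨m₀, hm₀⟩ := MvPolynomial.support_nonempty.mpr hne
  set rr := AlgHom.rangeRestrict (aeval ξ : MvPolynomial (Fin n × Fin 4) ℤ →ₐ[ℤ] ℂ) with hrr
  have hrrv : ∀ p, ((rr p : (aeval ξ : MvPolynomial (Fin n × Fin 4) ℤ →ₐ[ℤ] ℂ).range) : ℂ) =
    aeval ξ p := fun p ↦ rfl
  set Q : Polynomial (aeval ξ : MvPolynomial (Fin n × Fin 4) ℤ →ₐ[ℤ] ℂ).range :=
    ∑ m ∈ P.support, Polynomial.monomial (Finsupp.weight wt4 m)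
      (rr (monomial m (P.coeff m))) with hQ
  have hQ0 : Polynomial.aeval μ Q = 0 := by
    rw [hQ, map_sum, ← hP]
    conv_rhs => rw [P.as_sum, map_sum]
    refine Finset.sum_congr rfl fun m _ ↦ ?_
    rw [Polynomial.aeval_monomial]
    change aeval ξ (monomial m (P.coeff m)) * _ = _
    rw [aeval_monomial, aeval_monomial, Finsupp.prod_fintype _ _ (by simp),
      Finsupp.prod_fintype _ _ (by simp)]
    have : ∏ i, (μ ^ wt4 i * ξ i) ^ m i = μ ^ (Finsupp.weight wt4 m) * ∏ i, ξ i ^ m i := by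
      rw [Finsupp.weight_apply, Finsupp.sum_fintype _ _ (by simp), ← Finset.prod_pow_eq_pow_sum,
        ← Finset.prod_mul_distrib]
      refine Finset.prod_congr rfl fun i _ ↦ ?_
      rw [mul_pow, ← pow_mul, smul_eq_mul, mul_comm (m i)]
    rw [this]
    ring
  have hQz : Q = 0 := by
    by_contra h
    exact hμ ⟨Q, h, hQ0⟩
  have hcoeff : rr (weightedHomogeneousComponent wt4 (Finsupp.weight wt4 m₀) P) = 0 := by
    have h1 := congrArg (fun q ↦ (Polynomial.coeff q (Finsupp.weight wt4 m₀))) hQz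
    simp only [hQ, Polynomial.finsetSum_coeff, Polynomial.coeff_monomial,
      Polynomial.coeff_zero] at h1
    rw [weightedHomogeneousComponent_apply, map_sum, Finset.sum_filter]
    exact h1
  have hcomp : aeval ξ (weightedHomogeneousComponent wt4 (Finsupp.weight wt4 m₀) P) = 0 := by
    rw [← hrrv, hcoeff]
    rfl
  refine hξ _ _ (weightedHomogeneousComponent_isWeightedHomogeneous (Finsupp.weight wt4 m₀) P)
    ?_ hcomp
  intro h0
  have h1 := congrArg (coeff m₀) h0
  rw [coeff_weightedHomogeneousComponent, if_pos rfl, coeff_zero] at h1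
  exact (MvPolynomial.mem_support_iff.mp hm₀) h1

lemma matroid_step (S η : Fin n × Fin 4 → ℂ) (hη : AlgebraicIndependent ℚ η) (μ : ℂ)
    (halg : ∀ x, IsAlgebraic (Algebra.adjoin ℚ (insert μ (Set.range S))) (η x)) :
    ∃ f : Fin (4 * n - 1) → Fin n × Fin 4, AlgebraicIndependent ℚ (fun k ↦ S (f k)) := by
  classical
  set M := AlgebraicIndependent.matroid ℚ ℂ with hM
  have hX : M.Indep (Set.range η) := by
    rw [hM, AlgebraicIndependent.matroid_indep_iff]
    exact hη.to_subtype_range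
  have hXcard : (Set.range η).encard = (4 * n : ℕ) := by
    rw [← Set.image_univ, hη.injective.encard_image, Set.encard_univ]
    simp [mul_comm]
  have hsub : Set.range η ⊆ M.closure (insert μ (Set.range S)) := by
    rw [hM, AlgebraicIndependent.matroid_closure_eq]
    rintro _ ⟨x, rfl⟩
    exact halg x
  obtain ⟨B, hB⟩ := M.exists_isBasis (Set.range S)
  have h1 : (Set.range η).encard ≤ M.eRk (insert μ (Set.range S)) := by
    rw [← M.eRk_closure_eq]
    exact hX.encard_le_eRk_of_subset hsub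
  have h2 : M.eRk (insert μ (Set.range S)) ≤ B.encard + 1 := by
    rw [← hB.eRk_eq_encard]
    exact M.eRk_insert_le_add_one _ _
  have h3 : ((4 * n : ℕ) : ℕ∞) ≤ B.encard + 1 := by
    rw [← hXcard]; exact h1.trans h2
  have hBsub : B ⊆ Set.range S := hB.subset
  have hBfin : B.Finite := (Set.finite_range S).subset hBsub
  have h4 : 4 * n - 1 ≤ B.ncard := by
    rw [hBfin.encard_eq_coe_toFinset_card] at h3
    have h5 : 4 * n ≤ hBfin.toFinset.card + 1 := by exact_mod_cast h3
    rw [Set.ncard_eq_toFinset_card B hBfin]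
    omega
  have hfin : Fintype B := hBfin.fintype
  have h6 : Fintype.card (Fin (4 * n - 1)) ≤ Fintype.card B := by
    rw [Fintype.card_fin, ← Nat.card_eq_fintype_card]
    exact h4
  obtain ⟨g⟩ := Function.Embedding.nonempty_of_card_le h6
  choose f hf using fun k ↦ hBsub (g k).2
  refine ⟨f, ?_⟩
  have hBind : AlgebraicIndependent ℚ (fun b : B ↦ (b : ℂ)) := by
    have := hB.indep
    rw [hM, AlgebraicIndependent.matroid_indep_iff] at this
    exact this
  have h7 := hBind.comp g g.injective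
  convert h7 using 1
  ext k
  exact hf k

end H32
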