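import Mathlib

/-!
# A Liouville inequality from integral power sums
-/

namespace H32

open MvPolynomial Finset

lemma int_esymm {σ : Type*} [Fintype σ] [DecidableEq σ] (Y : σ → ℂ)
    (h : ∀ p : ℕ, 0 < p → ∃ z : ℤ, ∑ i, Y i ^ p = z) (k : ℕ) :
    ∃ z : ℤ, (k.factorial : ℂ) * aeval Y (esymm σ ℤ k) = z := by
  induction k using Nat.strong_induction_on with
  | _ k ih =>
  rcases Nat.eq_zero_or_pos k with rfl | hk
  · exact ⟨1, by simp⟩
  · have h1 := congrArg (aeval Y) (mul_esymm_eq_sum σ ℤ k)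
    simp only [map_mul, map_natCast, map_pow, map_neg, map_one, map_sum] at h1
    have h2 : ∀ a ∈ (HasAntidiagonal.antidiagonal k).filter (fun a ↦ a.1 < k), ∃ z : ℤ,
        ((k - 1).factorial : ℂ) * ((-1) ^ a.1 * aeval Y (esymm σ ℤ a.1) * aeval Y (psum σ ℤ a.2)) = z := by
      intro a ha
      rw [mem_filter, HasAntidiagonal.mem_antidiagonal] at ha
      obtain ⟨z1, hz1⟩ := ih a.1 ha.2
      obtain ⟨z2, hz2⟩ := h a.2 (by omega)
      have hp : aeval Y (psum σ ℤ a.2) = ∑ i, Y i ^ a.2 := by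
        simp [psum]
      obtain ⟨m, hm⟩ := Nat.factorial_dvd_factorial (show a.1 ≤ k - 1 by omega)
      refine ⟨m * (-1) ^ a.1 * z1 * z2, ?_⟩
      rw [hp, hz2, hm]
      push_cast
      rw [← hz1]
      ring
    choose! g hg using h2
    refine ⟨(-1) ^ (k + 1) * ∑ a ∈ (HasAntidiagonal.antidiagonal k).filter (fun a ↦ a.1 < k), g a, ?_⟩
    have hf : (k.factorial : ℂ) = (k - 1).factorial * k := by
      have := Nat.mul_factorial_pred hk.ne'
      rw [← this]; push_cast; ring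
    rw [hf, mul_assoc, h1]
    push_cast
    rw [← Finset.sum_congr rfl hg, ← Finset.mul_sum]
    ring

/-- If all power sums of a finite family of complex numbers of modulus at most `B` are integers,
then the nonzero members are not too small. -/
theorem liouville {ι : Type*} (s : Finset ι) (Y : ι → ℂ) (B : ℝ) (hB : 1 ≤ B)
    (hY : ∀ i ∈ s, ‖Y i‖ ≤ B) (h : ∀ p : ℕ, 0 < p → ∃ z : ℤ, ∑ i ∈ s, Y i ^ p = z)
    {i : ι} (hi : i ∈ s) (hi0 : Y i ≠ 0) :
    1 ≤ ‖Y i‖ * ((s.card.factorial : ℝ) * B ^ s.card) := by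
  classical
  set t := s.filter (fun j ↦ Y j ≠ 0) with ht
  have hit : i ∈ t := mem_filter.mpr ⟨hi, hi0⟩
  have hts : t.card ≤ s.card := card_le_card (filter_subset _ _)
  have h1 : ∀ p : ℕ, 0 < p → ∃ z : ℤ, ∑ j : t, Y j ^ p = z := by
    intro p hp
    obtain ⟨z, hz⟩ := h p hp
    refine ⟨z, ?_⟩
    rw [← hz, Finset.sum_coe_sort t (fun j ↦ Y j ^ p)]
    refine sum_subset (filter_subset _ _) fun j hj hj' ↦ ?_
    have : Y j = 0 := by
      by_contra h0
      exact hj' (mem_filter.mpr ⟨hj, h0⟩)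
    rw [this, zero_pow hp.ne']
  obtain ⟨z, hz⟩ := int_esymm (fun j : t ↦ Y j) h1 t.card
  have h2 : aeval (fun j : t ↦ Y j) (esymm t ℤ t.card) = ∏ j ∈ t, Y j := by
    have : esymm t ℤ t.card = ∏ j : t, X j := by
      rw [esymm]
      have hc : t.card = (univ : Finset t).card := by simp
      rw [hc, powersetCard_self]
      simp
    rw [this, map_prod]
    simp only [aeval_X]
    exact Finset.prod_coe_sort t Y
  rw [h2] at hz
  have hne : (t.card.factorial : ℂ) * ∏ j ∈ t, Y j ≠ 0 := by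
    refine mul_ne_zero (by exact_mod_cast Nat.factorial_ne_zero _) (prod_ne_zero_iff.mpr fun j hj ↦ ?_)
    exact (mem_filter.mp hj).2
  have hz0 : z ≠ 0 := by
    rintro rfl
    rw [hz] at hne
    exact hne (by simp)
  have h3 : 1 ≤ ‖(t.card.factorial : ℂ) * ∏ j ∈ t, Y j‖ := by
    rw [hz, Complex.norm_intCast]
    exact_mod_cast Int.one_le_abs hz0
  rw [norm_mul, Complex.norm_natCast, ← mul_prod_erase t Y hit, norm_mul, norm_prod] at h3
  have h4 : ∏ j ∈ t.erase i, ‖Y j‖ ≤ B ^ s.card := by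
    calc ∏ j ∈ t.erase i, ‖Y j‖ ≤ ∏ j ∈ t.erase i, B :=
          prod_le_prod (fun _ _ ↦ norm_nonneg _)
            fun j hj ↦ hY j (mem_of_mem_filter _ (mem_of_mem_erase hj))
      _ = B ^ (t.erase i).card := prod_const _
      _ ≤ B ^ s.card := pow_le_pow_right₀ hB ((card_le_card (erase_subset _ _)).trans hts)
  have h5 : (t.card.factorial : ℝ) ≤ s.card.factorial := by
    exact_mod_cast Nat.factorial_le hts
  calc (1 : ℝ) ≤ t.card.factorial * (‖Y i‖ * ∏ j ∈ t.erase i, ‖Y j‖) := h3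
    _ ≤ s.card.factorial * (‖Y i‖ * B ^ s.card) := by gcongr
    _ = _ := by ring

end H32
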