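import Pool.Agent.H32.Bounds
import Pool.Agent.H32.Liouville

/-!
# A Liouville inequality for Eisenstein values at points of Q(i)
-/

open UpperHalfPlane hiding I
open Complex EisensteinSeries ModularForm MatrixGroups Manifold Asymptotics
open scoped Real
open MvPolynomial

namespace H32

variable {n : ℕ}

/-- The weights `2, 4, 6`. -/
def wt3 (x : Fin n × Fin 3) : ℕ := ![2, 4, 6] x.2

/-- The weights `0, 2, 4, 6`. -/
def wt4 (x : Fin n × Fin 4) : ℕ := ![0, 2, 4, 6] x.2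

lemma weight_wt3 (m : (Fin n × Fin 3) →₀ ℕ) : Finsupp.weight (wt3 : Fin n × Fin 3 → ℕ) m =
    ∑ j, (2 * m (j, 0) + 4 * m (j, 1) + 6 * m (j, 2)) := by
  rw [Finsupp.weight_apply, Finsupp.sum_fintype _ _ (by simp), Fintype.sum_prod_type]
  refine Finset.sum_congr rfl fun j _ ↦ ?_
  simp [Fin.sum_univ_three, wt3]
  ring

lemma weight_wt4 (m : (Fin n × Fin 4) →₀ ℕ) : Finsupp.weight (wt4 : Fin n × Fin 4 → ℕ) m =
    ∑ j, (2 * m (j, 1) + 4 * m (j, 2) + 6 * m (j, 3)) := by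
  rw [Finsupp.weight_apply, Finsupp.sum_fintype _ _ (by simp), Fintype.sum_prod_type]
  refine Finset.sum_congr rfl fun j _ ↦ ?_
  simp [Fin.sum_univ_four, wt4]
  ring

/-- evaluation at the tuple of scaled values -/
noncomputable def evA (M : Fin n → ℕ × ℕ × ℕ) (Ψ : MvPolynomial (Fin n × Fin 3) ℤ) : ℂ :=
  aeval (fun x : Fin n × Fin 3 ↦ AA (M x.1) x.2) Ψ

lemma sum_evA {ω : ℂ} (hω : ω ^ 4 = E₄ UpperHalfPlane.I) (Ψ : MvPolynomial (Fin n × Fin 3) ℤ)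
    {V : ℕ} (hΨ : IsWeightedHomogeneous wt3 Ψ V) {N : Fin n → ℕ} (hN : ∀ j, 0 < N j) :
    ∃ z : ℤ, 1728 ^ V * ∑ M ∈ Fintype.piFinset (fun j ↦ SN (N j)), evA M Ψ = z * ω ^ V := by
  have h1 : ∀ m ∈ Ψ.support, ∃ z : ℤ, 1728 ^ V * ∑ M ∈ Fintype.piFinset (fun j ↦ SN (N j)),
      ∏ x : Fin n × Fin 3, AA (M x.1) x.2 ^ m x = z * ω ^ V := by
    intro m hm
    have hw : ∑ j, (2 * m (j, 0) + 4 * m (j, 1) + 6 * m (j, 2)) = V := by
      rw [← weight_wt3]; exact hΨ (mem_support_iff.mp hm)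
    have hz : ∀ j, ∃ z : ℤ, 1728 ^ (2 * m (j, 0) + 4 * m (j, 1) + 6 * m (j, 2)) *
        ∑ s ∈ SN (N j), ∏ l, AA s l ^ m (j, l) =
        z * ω ^ (2 * m (j, 0) + 4 * m (j, 1) + 6 * m (j, 2)) := by
      intro j
      obtain ⟨z, hz⟩ := hecke_sum hω (hN j) (m (j, 0)) (m (j, 1)) (m (j, 2))
      refine ⟨z, ?_⟩
      rw [← hz]
      congr 1
      refine Finset.sum_congr rfl fun s _ ↦ ?_
      rw [Fin.prod_univ_three]
      rfl
    choose z hz using hz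
    refine ⟨∏ j, z j, ?_⟩
    have h2 : ∀ M : Fin n → ℕ × ℕ × ℕ, ∏ x : Fin n × Fin 3, AA (M x.1) x.2 ^ m x =
        ∏ j, ∏ l, AA (M j) l ^ m (j, l) := fun M ↦ Fintype.prod_prod_type _
    simp_rw [h2]
    rw [← Finset.prod_univ_sum (fun j ↦ SN (N j)) (fun j s ↦ ∏ l, AA s l ^ m (j, l)), ← hw,
      ← Finset.prod_pow_eq_pow_sum, ← Finset.prod_pow_eq_pow_sum, ← Finset.prod_mul_distrib,
      Finset.prod_congr rfl fun j _ ↦ hz j, Finset.prod_mul_distrib]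
    push_cast
    rfl
  choose! z hz using h1
  refine ⟨∑ m ∈ Ψ.support, Ψ.coeff m * z m, ?_⟩
  have h3 : ∀ M, evA M Ψ = ∑ m ∈ Ψ.support, ((Ψ.coeff m : ℤ) : ℂ) * ∏ x : Fin n × Fin 3, AA (M x.1) x.2 ^ m x := by
    intro M
    rw [evA, aeval_def, eval₂_eq']
    rfl
  simp_rw [h3]
  rw [Finset.sum_comm, Finset.mul_sum]
  push_cast
  rw [Finset.sum_mul]
  refine Finset.sum_congr rfl fun m hm ↦ ?_
  rw [← Finset.mul_sum, mul_left_comm, hz m hm]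
  ring

theorem app1 {ω : ℂ} (hω : ω ^ 4 = E₄ UpperHalfPlane.I) (Ψ : MvPolynomial (Fin n × Fin 3) ℤ)
    {V : ℕ} (hΨ : IsWeightedHomogeneous wt3 Ψ V) {N : Fin n → ℕ} (hN : ∀ j, 0 < N j)
    {B : ℝ} (hB1 : 1 ≤ B)
    (hB : ∀ M ∈ Fintype.piFinset (fun j ↦ SN (N j)), ‖(1728 / ω) ^ V * evA M Ψ‖ ≤ B)
    {M : Fin n → ℕ × ℕ × ℕ} (hM : M ∈ Fintype.piFinset (fun j ↦ SN (N j)))
    (hne : evA M Ψ ≠ 0) :
    1 ≤ ‖(1728 / ω) ^ V * evA M Ψ‖ *
      (((Fintype.piFinset (fun j ↦ SN (N j))).card.factorial : ℝ) *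
        B ^ (Fintype.piFinset (fun j ↦ SN (N j))).card) := by
  have hω0 : ω ≠ 0 := by
    rintro rfl
    rw [zero_pow (by norm_num)] at hω
    exact E4_I_ne hω.symm
  refine liouville _ (fun M ↦ (1728 / ω) ^ V * evA M Ψ) B hB1 hB ?_ hM ?_
  · intro p hp
    obtain ⟨z, hz⟩ := sum_evA hω (Ψ ^ p) (hΨ.pow p) hN
    refine ⟨z, ?_⟩
    have h1 : ∀ M : Fin n → ℕ × ℕ × ℕ, ((1728 / ω) ^ V * evA M Ψ) ^ p =
        (1728 / ω) ^ (p * V) * evA M (Ψ ^ p) := by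
      intro M
      rw [mul_pow, ← pow_mul, mul_comm V p]
      simp [evA]
    simp_rw [h1]
    rw [← Finset.mul_sum, div_pow, div_mul_eq_mul_div, div_eq_iff (pow_ne_zero _ hω0)]
    simpa using hz
  · refine mul_ne_zero (pow_ne_zero _ (div_ne_zero (by norm_num) hω0)) hne

end H32
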