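import Pool.Agent.H32.App

/-!
# The Liouville inequality with rational parameters
-/

open UpperHalfPlane hiding I
open Complex EisensteinSeries ModularForm MatrixGroups Manifold Asymptotics
open scoped Real
open MvPolynomial

namespace H32

variable {n : ℕ}

/-- Specialise the weight zero variables. -/
noncomputable def spec (Φ : MvPolynomial (Fin n × Fin 4) ℤ) (D W q : ℕ) (p : Fin n → ℤ)
    (a : Fin n → ℕ) : MvPolynomial (Fin n × Fin 3) ℤ :=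
  ∑ m ∈ Φ.support, monomial
    (Finsupp.equivFunOnFinite.symm fun x : Fin n × Fin 3 ↦ m (x.1, x.2.succ))
    (Φ.coeff m * (∏ j, p j ^ m (j, 0)) * (q : ℤ) ^ (D - ∑ j, m (j, 0)) *
      ∏ j, (a j : ℤ) ^ (W - (2 * m (j, 1) + 4 * m (j, 2) + 6 * m (j, 3))))

/-- The values at the special points. -/
noncomputable def val (q : ℕ) (p : Fin n → ℤ) (M : Fin n → ℕ × ℕ × ℕ) (x : Fin n × Fin 4) : ℂ :=
  ![(p x.1 : ℂ) / q, E2s (tact (M x.1) UpperHalfPlane.I), E₄ (tact (M x.1) UpperHalfPlane.I),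
    E₆ (tact (M x.1) UpperHalfPlane.I)] x.2

lemma spec_homog {Φ : MvPolynomial (Fin n × Fin 4) ℤ} {W : ℕ} (hΦ : IsWeightedHomogeneous wt4 Φ W)
    (D q : ℕ) (p : Fin n → ℤ) (a : Fin n → ℕ) :
    IsWeightedHomogeneous wt3 (spec Φ D W q p a) W := by
  unfold spec
  rw [← mem_weightedHomogeneousSubmodule]
  refine Submodule.sum_mem _ fun m hm ↦ ?_
  rw [mem_weightedHomogeneousSubmodule]
  refine isWeightedHomogeneous_monomial _ _ _ ?_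
  have hw : ∑ j, (2 * m (j, 1) + 4 * m (j, 2) + 6 * m (j, 3)) = W := by
    rw [← weight_wt4]; exact hΦ (mem_support_iff.mp hm)
  rw [weight_wt3, ← hw]
  rfl

lemma evA_spec' (Φ : MvPolynomial (Fin n × Fin 4) ℤ) (D W q : ℕ) (p : Fin n → ℤ)
    (a : Fin n → ℕ) (M : Fin n → ℕ × ℕ × ℕ) : evA M (spec Φ D W q p a) =
    ∑ m ∈ Φ.support, (((Φ.coeff m : ℤ) : ℂ) * (∏ j, (p j : ℂ) ^ m (j, 0)) *
      (q : ℂ) ^ (D - ∑ j, m (j, 0)) *
      ∏ j, (a j : ℂ) ^ (W - (2 * m (j, 1) + 4 * m (j, 2) + 6 * m (j, 3)))) *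
      ∏ j, (AA (M j) 0 ^ m (j, 1) * AA (M j) 1 ^ m (j, 2) * AA (M j) 2 ^ m (j, 3)) := by
  unfold evA spec
  rw [map_sum]
  refine Finset.sum_congr rfl fun m _ ↦ ?_
  rw [aeval_monomial, Finsupp.prod_fintype _ _ (by simp), Fintype.prod_prod_type]
  congr 1
  · simp
  · refine Finset.prod_congr rfl fun j _ ↦ ?_
    rw [Fin.prod_univ_three]
    rfl

lemma evA_spec {Φ : MvPolynomial (Fin n × Fin 4) ℤ} {W : ℕ} (hΦ : IsWeightedHomogeneous wt4 Φ W)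
    {q : ℕ} (hq : 0 < q) (p : Fin n → ℤ) (M : Fin n → ℕ × ℕ × ℕ) :
    evA M (spec Φ Φ.totalDegree W q p (fun j ↦ (M j).1)) =
      (q : ℂ) ^ Φ.totalDegree * (∏ j, ((M j).1 : ℂ)) ^ W * aeval (val q p M) Φ := by
  rw [evA_spec', aeval_def, eval₂_eq', Finset.mul_sum]
  refine Finset.sum_congr rfl fun m hm ↦ ?_
  have hw : ∑ j, (2 * m (j, 1) + 4 * m (j, 2) + 6 * m (j, 3)) = W := by
    rw [← weight_wt4]; exact hΦ (mem_support_iff.mp hm)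
  have hwj : ∀ j, 2 * m (j, 1) + 4 * m (j, 2) + 6 * m (j, 3) ≤ W := fun j ↦ by
    rw [← hw]
    exact Finset.single_le_sum (f := fun j ↦ 2 * m (j, 1) + 4 * m (j, 2) + 6 * m (j, 3))
      (fun _ _ ↦ Nat.zero_le _) (Finset.mem_univ j)
  have hD : ∑ j, m (j, 0) ≤ Φ.totalDegree := by
    refine le_trans ?_ (le_totalDegree hm)
    rw [Finsupp.sum_fintype _ _ (by simp), Fintype.sum_prod_type]
    refine Finset.sum_le_sum fun j _ ↦ ?_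
    exact Finset.single_le_sum (f := fun l ↦ m (j, l)) (fun _ _ ↦ Nat.zero_le _)
      (Finset.mem_univ 0)
  have hq0 : (q : ℂ) ≠ 0 := by exact_mod_cast hq.ne'
  have e1 : ∏ x : Fin n × Fin 4, val q p M x ^ m x =
      (∏ j, ((p j : ℂ) / q) ^ m (j, 0)) * ∏ j, (E2s (tact (M j) UpperHalfPlane.I) ^ m (j, 1) *
        E₄ (tact (M j) UpperHalfPlane.I) ^ m (j, 2) * E₆ (tact (M j) UpperHalfPlane.I) ^ m (j, 3)) := by
    rw [Fintype.prod_prod_type, ← Finset.prod_mul_distrib]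
    refine Finset.prod_congr rfl fun j _ ↦ ?_
    rw [Fin.prod_univ_four]
    simp only [val, Matrix.cons_val_zero, Matrix.cons_val_one, Matrix.cons_val]
    ring
  have e2 : (q : ℂ) ^ Φ.totalDegree * ∏ j, ((p j : ℂ) / q) ^ m (j, 0) =
      (∏ j, (p j : ℂ) ^ m (j, 0)) * (q : ℂ) ^ (Φ.totalDegree - ∑ j, m (j, 0)) := by
    have : ∀ j, ((p j : ℂ) / q) ^ m (j, 0) = (p j : ℂ) ^ m (j, 0) * ((q : ℂ)⁻¹) ^ m (j, 0) :=
      fun j ↦ by rw [div_eq_mul_inv, mul_pow]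
    simp_rw [this]
    rw [Finset.prod_mul_distrib, Finset.prod_pow_eq_pow_sum, pow_sub₀ _ hq0 hD, inv_pow]
    ring
  have e3 : (∏ j, ((M j).1 : ℂ)) ^ W * ∏ j, (E2s (tact (M j) UpperHalfPlane.I) ^ m (j, 1) *
        E₄ (tact (M j) UpperHalfPlane.I) ^ m (j, 2) * E₆ (tact (M j) UpperHalfPlane.I) ^ m (j, 3)) =
      (∏ j, ((M j).1 : ℂ) ^ (W - (2 * m (j, 1) + 4 * m (j, 2) + 6 * m (j, 3)))) *
      ∏ j, (AA (M j) 0 ^ m (j, 1) * AA (M j) 1 ^ m (j, 2) * AA (M j) 2 ^ m (j, 3)) := by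
    rw [← Finset.prod_pow, ← Finset.prod_mul_distrib, ← Finset.prod_mul_distrib]
    refine Finset.prod_congr rfl fun j _ ↦ ?_
    have : ((M j).1 : ℂ) ^ W = ((M j).1 : ℂ) ^ (W - (2 * m (j, 1) + 4 * m (j, 2) + 6 * m (j, 3))) *
        ((M j).1 : ℂ) ^ (2 * m (j, 1) + 4 * m (j, 2) + 6 * m (j, 3)) := by
      rw [← pow_add, Nat.sub_add_cancel (hwj j)]
    rw [this]
    simp only [AA, Matrix.cons_val_zero, Matrix.cons_val_one, Matrix.cons_val]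
    rw [mul_pow, mul_pow, mul_pow, pow_add, pow_add, pow_mul, pow_mul, pow_mul]
    ring
  rw [e1]
  calc _ = ((Φ.coeff m : ℤ) : ℂ) * ((∏ j, (p j : ℂ) ^ m (j, 0)) *
        (q : ℂ) ^ (Φ.totalDegree - ∑ j, m (j, 0))) *
        ((∏ j, ((M j).1 : ℂ) ^ (W - (2 * m (j, 1) + 4 * m (j, 2) + 6 * m (j, 3)))) *
      ∏ j, (AA (M j) 0 ^ m (j, 1) * AA (M j) 1 ^ m (j, 2) * AA (M j) 2 ^ m (j, 3))) := by ring
    _ = _ := by
      rw [← e2, ← e3]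
      simp only [algebraMap_int_eq, eq_intCast]
      ring

/-- A bound for all the conjugates. -/
lemma evA_spec_bound {Φ : MvPolynomial (Fin n × Fin 4) ℤ} {W : ℕ}
    (hΦ : IsWeightedHomogeneous wt4 Φ W) : ∃ C : ℝ, 1 ≤ C ∧ ∃ E : ℕ,
    ∀ (Q q : ℕ) (p : Fin n → ℤ) (a N : Fin n → ℕ) (M : Fin n → ℕ × ℕ × ℕ), 1 ≤ q → q ≤ Q →
    (∀ j, |p j| ≤ Q) → (∀ j, a j ≤ Q) → (∀ j, 0 < N j) → (∀ j, N j ≤ Q) →
    (∀ j, M j ∈ SN (N j)) →
    ‖evA M (spec Φ Φ.totalDegree W q p a)‖ ≤ C * (Q : ℝ) ^ E := by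
  obtain ⟨C0, hC0, hb⟩ := bound_A
  set L : ℝ := ∑ m ∈ Φ.support, |((Φ.coeff m : ℤ) : ℝ)| with hL
  have hL0 : 0 ≤ L := Finset.sum_nonneg fun _ _ ↦ abs_nonneg _
  refine ⟨(L + 1) * C0 ^ W, ?_, Φ.totalDegree + Φ.totalDegree + n * W + 6 * W, ?_⟩
  · have : 1 ≤ C0 ^ W := one_le_pow₀ hC0
    nlinarith
  intro Q q p a N M hq hqQ hp ha hN0 hNQ hM
  have hQ1 : (1 : ℝ) ≤ Q := by exact_mod_cast le_trans hq hqQ
  rw [evA_spec']
  refine (norm_sum_le _ _).trans ?_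
  have hterm : ∀ m ∈ Φ.support, ‖(((Φ.coeff m : ℤ) : ℂ) * (∏ j, (p j : ℂ) ^ m (j, 0)) *
      (q : ℂ) ^ (Φ.totalDegree - ∑ j, m (j, 0)) *
      ∏ j, (a j : ℂ) ^ (W - (2 * m (j, 1) + 4 * m (j, 2) + 6 * m (j, 3)))) *
      ∏ j, (AA (M j) 0 ^ m (j, 1) * AA (M j) 1 ^ m (j, 2) * AA (M j) 2 ^ m (j, 3))‖ ≤
      |((Φ.coeff m : ℤ) : ℝ)| * (C0 ^ W *
        (Q : ℝ) ^ (Φ.totalDegree + Φ.totalDegree + n * W + 6 * W)) := by
    intro m hm
    have hw : ∑ j, (2 * m (j, 1) + 4 * m (j, 2) + 6 * m (j, 3)) = W := by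
      rw [← weight_wt4]; exact hΦ (mem_support_iff.mp hm)
    have hD : ∑ j, m (j, 0) ≤ Φ.totalDegree := by
      refine le_trans ?_ (le_totalDegree hm)
      rw [Finsupp.sum_fintype _ _ (by simp), Fintype.sum_prod_type]
      refine Finset.sum_le_sum fun j _ ↦ ?_
      exact Finset.single_le_sum (f := fun l ↦ m (j, l)) (fun _ _ ↦ Nat.zero_le _)
        (Finset.mem_univ 0)
    simp only [norm_mul, norm_prod, norm_pow, Complex.norm_natCast, Complex.norm_intCast]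
    have b1 : ∏ j, |(p j : ℝ)| ^ m (j, 0) ≤ (Q : ℝ) ^ Φ.totalDegree := by
      calc ∏ j, |(p j : ℝ)| ^ m (j, 0) ≤ ∏ j, (Q : ℝ) ^ m (j, 0) := by
            refine Finset.prod_le_prod (fun _ _ ↦ by positivity) fun j _ ↦ ?_
            gcongr
            exact_mod_cast hp j
        _ = (Q : ℝ) ^ ∑ j, m (j, 0) := Finset.prod_pow_eq_pow_sum _ _ _
        _ ≤ _ := pow_le_pow_right₀ hQ1 hD
    have b2 : (q : ℝ) ^ (Φ.totalDegree - ∑ j, m (j, 0)) ≤ (Q : ℝ) ^ Φ.totalDegree := by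
      calc (q : ℝ) ^ (Φ.totalDegree - ∑ j, m (j, 0)) ≤ (Q : ℝ) ^ (Φ.totalDegree - ∑ j, m (j, 0)) := by
            gcongr
        _ ≤ _ := pow_le_pow_right₀ hQ1 (Nat.sub_le _ _)
    have b3 : ∏ j, (a j : ℝ) ^ (W - (2 * m (j, 1) + 4 * m (j, 2) + 6 * m (j, 3))) ≤
        (Q : ℝ) ^ (n * W) := by
      calc ∏ j, (a j : ℝ) ^ (W - (2 * m (j, 1) + 4 * m (j, 2) + 6 * m (j, 3))) ≤
            ∏ j : Fin n, (Q : ℝ) ^ W := by
            refine Finset.prod_le_prod (fun _ _ ↦ by positivity) fun j _ ↦ ?_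
            calc (a j : ℝ) ^ (W - (2 * m (j, 1) + 4 * m (j, 2) + 6 * m (j, 3))) ≤
                (Q : ℝ) ^ (W - (2 * m (j, 1) + 4 * m (j, 2) + 6 * m (j, 3))) := by
                  gcongr
                  exact_mod_cast ha j
              _ ≤ _ := pow_le_pow_right₀ hQ1 (Nat.sub_le _ _)
        _ = _ := by
            rw [Finset.prod_const, Finset.card_univ, Fintype.card_fin, ← pow_mul, mul_comm n W]
    have b4 : ∏ j, (‖AA (M j) 0‖ ^ m (j, 1) * ‖AA (M j) 1‖ ^ m (j, 2) * ‖AA (M j) 2‖ ^ m (j, 3)) ≤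
        (C0 * (Q : ℝ) ^ 6) ^ W := by
      have hR1 : 1 ≤ C0 * (Q : ℝ) ^ 6 := by
        have : (1 : ℝ) ≤ (Q : ℝ) ^ 6 := one_le_pow₀ hQ1
        nlinarith
      have hR : ∀ j l, ‖AA (M j) l‖ ≤ C0 * (Q : ℝ) ^ 6 := by
        intro j l
        refine (hb (N j) (hN0 j) (M j) (hM j) l).trans ?_
        have : (N j : ℝ) ≤ Q := by exact_mod_cast hNQ j
        gcongr
      calc ∏ j, (‖AA (M j) 0‖ ^ m (j, 1) * ‖AA (M j) 1‖ ^ m (j, 2) * ‖AA (M j) 2‖ ^ m (j, 3)) ≤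
            ∏ j, (C0 * (Q : ℝ) ^ 6) ^ (2 * m (j, 1) + 4 * m (j, 2) + 6 * m (j, 3)) := by
            refine Finset.prod_le_prod (fun _ _ ↦ by positivity) fun j _ ↦ ?_
            calc ‖AA (M j) 0‖ ^ m (j, 1) * ‖AA (M j) 1‖ ^ m (j, 2) * ‖AA (M j) 2‖ ^ m (j, 3)
                ≤ (C0 * (Q : ℝ) ^ 6) ^ m (j, 1) * (C0 * (Q : ℝ) ^ 6) ^ m (j, 2) *
                  (C0 * (Q : ℝ) ^ 6) ^ m (j, 3) := by
                  gcongr <;> exact hR j _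
              _ = (C0 * (Q : ℝ) ^ 6) ^ (m (j, 1) + m (j, 2) + m (j, 3)) := by
                  rw [pow_add, pow_add]
              _ ≤ _ := pow_le_pow_right₀ hR1 (by omega)
        _ = _ := by rw [Finset.prod_pow_eq_pow_sum, hw]
    calc |((Φ.coeff m : ℤ) : ℝ)| * (∏ j, |(p j : ℝ)| ^ m (j, 0)) *
        (q : ℝ) ^ (Φ.totalDegree - ∑ j, m (j, 0)) *
        (∏ j, (a j : ℝ) ^ (W - (2 * m (j, 1) + 4 * m (j, 2) + 6 * m (j, 3)))) *
        ∏ j, (‖AA (M j) 0‖ ^ m (j, 1) * ‖AA (M j) 1‖ ^ m (j, 2) * ‖AA (M j) 2‖ ^ m (j, 3))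
        ≤ |((Φ.coeff m : ℤ) : ℝ)| * ((Q : ℝ) ^ Φ.totalDegree) * ((Q : ℝ) ^ Φ.totalDegree) *
          ((Q : ℝ) ^ (n * W)) * (C0 * (Q : ℝ) ^ 6) ^ W := by
          gcongr
      _ = _ := by
          rw [mul_pow, ← pow_mul]
          ring
  refine (Finset.sum_le_sum hterm).trans ?_
  rw [← Finset.sum_mul, ← hL]
  have : 0 ≤ C0 ^ W * (Q : ℝ) ^ (Φ.totalDegree + Φ.totalDegree + n * W + 6 * W) := by positivity
  nlinarith

end H32
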