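import Pool.Agent.H32.Boundary

/-!
# The boundary lemma
-/

open UpperHalfPlane hiding I
open Complex EisensteinSeries ModularForm MatrixGroups Manifold
open scoped Real Topology
open MvPolynomial Filter Metric

namespace H32

lemma coeff_zero_of_eval {S : Finset (Fin 3 → ℕ)} {a : (Fin 3 → ℕ) → ℂ}
    (h : ∀ x y z : ℂ, ∑ ν ∈ S, a ν * (x ^ ν 0 * y ^ ν 1 * z ^ ν 2) = 0) : ∀ ν ∈ S, a ν = 0 := by
  classical
  set Q : MvPolynomial (Fin 3) ℂ := ∑ ν ∈ S, monomial (Finsupp.equivFunOnFinite.symm ν) (a ν) with hQ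
  have hQ0 : Q = 0 := by
    apply MvPolynomial.funext
    intro x
    rw [map_zero, hQ, map_sum, ← h (x 0) (x 1) (x 2)]
    refine Finset.sum_congr rfl fun ν _ ↦ ?_
    rw [eval_monomial, Finsupp.prod_fintype _ _ (by simp), Fin.prod_univ_three]
    rfl
  intro ν hν
  have h1 := congrArg (coeff (Finsupp.equivFunOnFinite.symm ν)) hQ0
  rw [hQ, coeff_sum, coeff_zero, Finset.sum_eq_single ν] at h1
  · simpa using h1
  · intro μ _ hne
    rw [coeff_monomial, if_neg]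
    intro h
    exact hne (Finsupp.equivFunOnFinite.symm.injective h)
  · intro h; exact absurd hν h

theorem boundary {S : Finset (Fin 3 → ℕ)} {r : ℚ} {c : (Fin 3 → ℕ) → ℂ → ℂ}
    (hc : ∀ ν ∈ S, AnalyticAt ℂ (c ν) r)
    (h : ∀ᶠ τ in 𝓝 (r : ℂ), 0 < τ.im →
      ∑ ν ∈ S, c ν τ * (e2 τ ^ ν 0 * e4 τ ^ ν 1 * e6 τ ^ ν 2) = 0) :
    ∀ ν ∈ S, ∀ᶠ τ in 𝓝 (r : ℂ), c ν τ = 0 := by
  classical
  obtain ⟨γ, hγ0, hγ1⟩ := exists_gamma r
  have hN : (r.den : ℂ) ≠ 0 := by exact_mod_cast r.den_ne_zero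
  have hN1 : (1 : ℝ) ≤ r.den := by exact_mod_cast r.den_pos
  have hev : ∀ᶠ τ in 𝓝 (r : ℂ), (∀ ν ∈ S, AnalyticAt ℂ (c ν) τ) ∧ (0 < τ.im →
      ∑ ν ∈ S, c ν τ * (e2 τ ^ ν 0 * e4 τ ^ ν 1 * e6 τ ^ ν 2) = 0) := by
    refine Eventually.and ?_ h
    rw [Filter.eventually_all_finset]
    exact fun ν hν ↦ (hc ν hν).eventually_analyticAt
  obtain ⟨ε, hε, hball⟩ := Metric.eventually_nhds_iff_ball.mp hev
  set κ : ℂ := 6 * I / π * r.den with hκ
  set W : ℕ := ∑ ν ∈ S, (2 * ν 0 + 4 * ν 1 + 6 * ν 2) with hW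
  have hWν : ∀ ν ∈ S, 2 * ν 0 + 4 * ν 1 + 6 * ν 2 ≤ W := fun ν hν ↦
    Finset.single_le_sum (f := fun ν : Fin 3 → ℕ ↦ 2 * ν 0 + 4 * ν 1 + 6 * ν 2)
      (fun _ _ ↦ Nat.zero_le _) hν
  set f : ℍ → ℂ → ℂ := fun τ x ↦ ∑ ν ∈ S, c ν (r - x / r.den) *
    x ^ (W - (2 * ν 0 + 4 * ν 1 + 6 * ν 2)) *
    ((E2 τ - κ * x) ^ ν 0 * E₄ τ ^ ν 1 * E₆ τ ^ ν 2) with hf
  have hmem : ∀ x ∈ ball (0 : ℂ) ε, (r : ℂ) - x / r.den ∈ ball (r : ℂ) ε := by
    intro x hx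
    rw [mem_ball_zero_iff] at hx
    rw [mem_ball_iff_norm]
    have : (r : ℂ) - x / r.den - r = -(x / r.den) := by ring
    rw [this, norm_neg, norm_div, Complex.norm_natCast]
    calc ‖x‖ / r.den ≤ ‖x‖ / 1 := by gcongr
      _ = ‖x‖ := div_one _
      _ < ε := hx
  have hana : ∀ τ, AnalyticOnNhd ℂ (f τ) (ball 0 ε) := by
    intro τ x hx
    refine Finset.analyticAt_fun_sum _ fun ν hν ↦ ?_
    have h1 : AnalyticAt ℂ (fun x : ℂ ↦ (r : ℂ) - x / r.den) x := by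
      have : AnalyticAt ℂ (fun x : ℂ ↦ (r : ℂ) - (r.den : ℂ)⁻¹ * x) x := by fun_prop
      refine this.congr (Eventually.of_forall fun y ↦ ?_)
      simp only [div_eq_mul_inv]
      ring
    have h2 : AnalyticAt ℂ (fun x : ℂ ↦ c ν ((r : ℂ) - x / r.den)) x :=
      AnalyticAt.fun_comp (g := c ν) (f := fun x : ℂ ↦ (r : ℂ) - x / r.den)
        ((hball _ (hmem x hx)).1 ν hν) h1
    have h3 : AnalyticAt ℂ (fun x : ℂ ↦ x ^ (W - (2 * ν 0 + 4 * ν 1 + 6 * ν 2))) x := by fun_prop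
    have h4 : AnalyticAt ℂ (fun x : ℂ ↦ (E2 τ - κ * x) ^ ν 0 * E₄ τ ^ ν 1 * E₆ τ ^ ν 2) x := by
      fun_prop
    exact (h2.fun_mul h3).fun_mul h4
  have hzero : ∀ τ, Set.EqOn (f τ) 0 (ball 0 ε) := by
    intro τ
    refine (hana τ).eqOn_zero_of_preconnected_of_frequently_eq_zero
      (convex_ball (0 : ℂ) ε).isPreconnected (mem_ball_self hε) ?_
    -- the sequence
    set w : ℕ → ℍ := fun k ↦ gM 0 k • τ with hw
    set u : ℕ → ℂ := fun k ↦ denom (γ : GL (Fin 2) ℝ) (w k) with hu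
    have hu_eq : ∀ k, u k = r.den * (k : ℂ) + (r.den * τ + ((γ 1 1 : ℤ) : ℂ)) := by
      intro k
      rw [hu]
      simp only
      rw [ModularGroup.denom_apply, smul_gM_zero]
      have : ((γ 1 0 : ℤ) : ℂ) = r.den := by rw [hγ1]; push_cast; rfl
      rw [this]
      ring
    have hu0 : ∀ k, u k ≠ 0 := fun k ↦ denom_ne_zero _ (w k)
    have hutend : Tendsto (fun k ↦ ‖u k‖) atTop atTop := by
      have h1 : Tendsto (fun k : ℕ ↦ (r.den : ℝ) * (k : ℝ)) atTop atTop :=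
        (tendsto_natCast_atTop_atTop).const_mul_atTop (by linarith)
      have h2 : Tendsto (fun k : ℕ ↦ (r.den : ℝ) * (k : ℝ) -
          ‖(r.den : ℂ) * τ + ((γ 1 1 : ℤ) : ℂ)‖) atTop atTop :=
        tendsto_atTop_add_const_right _ _ h1
      refine tendsto_atTop_mono (fun k ↦ ?_) h2
      rw [hu_eq]
      have h3 : ‖(r.den : ℂ) * (k : ℂ)‖ = (r.den : ℝ) * k := by
        rw [norm_mul, Complex.norm_natCast, Complex.norm_natCast]
      rw [← h3]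
      have h4 := norm_sub_le (((r.den : ℂ) * (k : ℂ)) + ((r.den : ℂ) * τ + ((γ 1 1 : ℤ) : ℂ)))
        ((r.den : ℂ) * τ + ((γ 1 1 : ℤ) : ℂ))
      rw [add_sub_cancel_right] at h4
      linarith
    have hx0 : Tendsto (fun k ↦ (u k)⁻¹) atTop (𝓝 0) := by
      rw [tendsto_zero_iff_norm_tendsto_zero]
      simp only [norm_inv]
      exact tendsto_inv_atTop_zero.comp hutend
    have hx : Tendsto (fun k ↦ (u k)⁻¹) atTop (𝓝[≠] 0) :=
      tendsto_nhdsWithin_iff.mpr ⟨hx0, Eventually.of_forall fun k ↦ inv_ne_zero (hu0 k)⟩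
    refine hx.frequently (Eventually.frequently ?_)
    have hball' : ∀ᶠ k in atTop, (u k)⁻¹ ∈ ball (0 : ℂ) ε :=
      hx0.eventually (ball_mem_nhds 0 hε)
    filter_upwards [hball'] with k hk
    have h1 : ((γ • w k : ℍ) : ℂ) = r - (u k)⁻¹ / r.den := by
      have hk0 := hu0 k
      rw [smul_gamma hγ0 hγ1]
      change (r : ℂ) - 1 / (r.den * u k) = _
      field_simp
    have h2 := (hball _ (hmem _ hk)).2
    rw [← h1] at h2
    have h3 := h2 (γ • w k).im_pos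
    have hden : denom ((gM 0 k : SL(2, ℤ)) : GL (Fin 2) ℝ) τ = 1 := by
      rw [denom_gM]; simp
    have f2 : E2 (w k) = E2 τ := by
      rw [hw]
      simp only
      rw [E2_smul, hden, gM_10]
      simp
    have f4 : E₄ (w k) = E₄ τ := by
      have := WInv_E4 (gM 0 k) τ
      simp only at this
      rw [hw]
      simp only
      rw [this, hden]
      simp
    have f6 : E₆ (w k) = E₆ τ := by
      have := WInv_E6 (gM 0 k) τ
      simp only at this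
      rw [hw]
      simp only
      rw [this, hden]
      simp
    have g2 : e2 (γ • w k : ℍ) = u k ^ 2 * E2 τ - κ * u k := by
      rw [e2, ofComplex_apply, E2_smul, f2, hγ1, hκ]
      push_cast
      ring
    have g4 : e4 (γ • w k : ℍ) = u k ^ 4 * E₄ τ := by
      have := WInv_E4 γ (w k)
      simp only at this
      rw [e4, ofComplex_apply, this, f4]
    have g6 : e6 (γ • w k : ℍ) = u k ^ 6 * E₆ τ := by
      have := WInv_E6 γ (w k)
      simp only at this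
      rw [e6, ofComplex_apply, this, f6]
    rw [g2, g4, g6] at h3
    have h4 : f τ (u k)⁻¹ = ((u k)⁻¹) ^ W * ∑ ν ∈ S, c ν ↑(γ • w k : ℍ) *
        ((u k ^ 2 * E2 τ - κ * u k) ^ ν 0 * (u k ^ 4 * E₄ τ) ^ ν 1 * (u k ^ 6 * E₆ τ) ^ ν 2) := by
      rw [Finset.mul_sum, hf]
      refine Finset.sum_congr rfl fun ν hν ↦ ?_
      rw [h1]
      have h5 := hu0 k
      have h6 : (u k ^ 2 * E2 τ - κ * u k) ^ ν 0 * (u k ^ 4 * E₄ τ) ^ ν 1 * (u k ^ 6 * E₆ τ) ^ ν 2 =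
          u k ^ (2 * ν 0 + 4 * ν 1 + 6 * ν 2) *
          ((E2 τ - κ * (u k)⁻¹) ^ ν 0 * E₄ τ ^ ν 1 * E₆ τ ^ ν 2) := by
        have e : u k ^ 2 * E2 τ - κ * u k = u k ^ 2 * (E2 τ - κ * (u k)⁻¹) := by
          field_simp
        rw [e, mul_pow, mul_pow, mul_pow, ← pow_mul, ← pow_mul, ← pow_mul, pow_add, pow_add]
        ring
      rw [h6]
      have h7 : ((u k)⁻¹) ^ W = ((u k)⁻¹) ^ (W - (2 * ν 0 + 4 * ν 1 + 6 * ν 2)) *
          ((u k)⁻¹) ^ (2 * ν 0 + 4 * ν 1 + 6 * ν 2) := by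
        rw [← pow_add, Nat.sub_add_cancel (hWν ν hν)]
      rw [h7]
      have h8 : ((u k)⁻¹) ^ (2 * ν 0 + 4 * ν 1 + 6 * ν 2) * u k ^ (2 * ν 0 + 4 * ν 1 + 6 * ν 2) = 1 := by
        rw [← mul_pow, inv_mul_cancel₀ h5, one_pow]
      linear_combination (-(c ν (r - (u k)⁻¹ / r.den)) * (u k)⁻¹ ^ (W - (2 * ν 0 + 4 * ν 1 + 6 * ν 2)) *
        ((E2 τ - κ * (u k)⁻¹) ^ ν 0 * E₄ τ ^ ν 1 * E₆ τ ^ ν 2)) * h8
    rw [h4, h3, mul_zero]
  -- independence
  have hcz : ∀ x ∈ ball (0 : ℂ) ε, x ≠ 0 → ∀ ν ∈ S, c ν (r - x / r.den) = 0 := by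
    intro x hx hx0
    set a : (Fin 3 → ℕ) → ℂ := fun ν ↦ c ν (r - x / r.den) *
      x ^ (W - (2 * ν 0 + 4 * ν 1 + 6 * ν 2)) with ha
    set P : MvPolynomial (Fin 4) ℂ := ∑ ν ∈ S, C (a ν) *
      ((X 1 - C (κ * x)) ^ ν 0 * X 2 ^ ν 1 * X 3 ^ ν 2) with hP
    have hPev : ∀ t x' y z : ℂ, aeval ![t, x', y, z] P =
        ∑ ν ∈ S, a ν * ((x' - κ * x) ^ ν 0 * y ^ ν 1 * z ^ ν 2) := by
      intro t x' y z
      rw [hP, map_sum]
      refine Finset.sum_congr rfl fun ν _ ↦ ?_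
      simp
    have hP0 : P = 0 := by
      apply indep_H
      intro τ
      rw [hPev]
      have := hzero τ hx
      exact this
    have h1 : ∀ ν ∈ S, a ν = 0 := by
      apply coeff_zero_of_eval
      intro x' y z
      have h2 := hPev 0 (x' + κ * x) y z
      rw [hP0, map_zero, add_sub_cancel_right] at h2
      exact h2.symm
    intro ν hν
    have h2 := h1 ν hν
    exact (mul_eq_zero.mp h2).resolve_right (pow_ne_zero _ hx0)
  intro ν hν
  have hfreq : ∃ᶠ τ in 𝓝[≠] (r : ℂ), c ν τ = 0 := by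
    apply Eventually.frequently
    rw [eventually_nhdsWithin_iff]
    have h1 : ∀ᶠ τ in 𝓝 (r : ℂ), (r.den : ℂ) * (r - τ) ∈ ball (0 : ℂ) ε := by
      have h2 : Continuous fun τ : ℂ ↦ (r.den : ℂ) * (r - τ) := by fun_prop
      have h3 := h2.tendsto (r : ℂ)
      simp only [sub_self, mul_zero] at h3
      exact h3.eventually (ball_mem_nhds 0 hε)
    filter_upwards [h1] with τ h2 h3
    have h4 : (r.den : ℂ) * (r - τ) ≠ 0 := mul_ne_zero hN (sub_ne_zero.mpr (Ne.symm h3))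
    have h5 := hcz _ h2 h4 ν hν
    have h6 : (r : ℂ) - (r.den : ℂ) * (r - τ) / r.den = τ := by
      field_simp
      ring
    rwa [h6] at h5
  exact ((hc ν hν).frequently_zero_iff_eventually_zero).mp hfreq

end H32
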