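import Pool.Agent.H32.Indep2
import Pool.Agent.H32.JDeriv

/-!
# Independence of E2, E4, E6 over functions analytic at a rational boundary point
-/

open UpperHalfPlane hiding I
open Complex EisensteinSeries ModularForm MatrixGroups Manifold
open scoped Real Topology
open MvPolynomial Filter

namespace H32

lemma exists_gamma (r : ℚ) : ∃ γ : SL(2, ℤ), γ 0 0 = r.num ∧ γ 1 0 = r.den := by
  have h : IsCoprime r.num (r.den : ℤ) := by
    rw [Int.isCoprime_iff_nat_coprime]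
    simpa using r.reduced
  obtain ⟨u, v, huv⟩ := h
  refine ⟨⟨!![r.num, -v; (r.den : ℤ), u], ?_⟩, ?_, ?_⟩
  · rw [Matrix.det_fin_two]
    simp only [Matrix.of_apply, Matrix.cons_val', Matrix.cons_val_zero, Matrix.cons_val_fin_one,
      Matrix.cons_val_one]
    linear_combination huv
  · simp
  · simp

lemma smul_gamma {r : ℚ} {γ : SL(2, ℤ)} (h0 : γ 0 0 = r.num) (h1 : γ 1 0 = r.den) (τ : ℍ) :
    ((γ • τ : ℍ) : ℂ) = r - 1 / (r.den * denom γ τ) := by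
  have hd : denom (γ : GL (Fin 2) ℝ) τ ≠ 0 := denom_ne_zero _ τ
  have hN : (r.den : ℂ) ≠ 0 := by exact_mod_cast r.den_ne_zero
  have hdet := γ.det_coe
  rw [Matrix.det_fin_two] at hdet
  have hden : denom (γ : GL (Fin 2) ℝ) τ = (r.den : ℂ) * τ + ((γ 1 1 : ℤ) : ℂ) := by
    rw [ModularGroup.denom_apply]
    have : ((γ 1 0 : ℤ) : ℂ) = r.den := by rw [h1]; push_cast; rfl
    rw [this]
  have hr : (r : ℂ) = (r.num : ℂ) / r.den := by
    exact_mod_cast congrArg (Rat.cast : ℚ → ℂ) (Rat.num_div_den r).symm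
  rw [coe_specialLinearGroup_apply]
  have e0 : ((algebraMap ℤ ℝ (γ 0 0) : ℝ) : ℂ) = (r.num : ℂ) := by rw [h0]; simp
  have e1 : ((algebraMap ℤ ℝ (γ 1 0) : ℝ) : ℂ) = (r.den : ℂ) := by rw [h1]; simp
  have e2 : ((algebraMap ℤ ℝ (γ 0 1) : ℝ) : ℂ) = ((γ 0 1 : ℤ) : ℂ) := by simp
  have e3 : ((algebraMap ℤ ℝ (γ 1 1) : ℝ) : ℂ) = ((γ 1 1 : ℤ) : ℂ) := by simp
  rw [e0, e1, e2, e3, ← hden, hr]
  have hdetC : (r.num : ℂ) * ((γ 1 1 : ℤ) : ℂ) - ((γ 0 1 : ℤ) : ℂ) * (r.den : ℂ) = 1 := by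
    have h3 : (γ 0 0) * (γ 1 1) - (γ 0 1) * (γ 1 0) = 1 := hdet
    rw [h0, h1] at h3
    exact_mod_cast congrArg (Int.cast : ℤ → ℂ) h3
  rw [div_sub_div _ _ hN (mul_ne_zero hN hd), div_eq_div_iff hd (mul_ne_zero hN (mul_ne_zero hN hd))]
  rw [hden]
  linear_combination (-(r.den : ℂ) * ((r.den : ℂ) * τ + ((γ 1 1 : ℤ) : ℂ))) * hdetC

end H32
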