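import Pool.Agent.H32.HeckeI

/-!
# Size of the scaled Eisenstein values
-/

open UpperHalfPlane hiding I
open Complex EisensteinSeries ModularForm MatrixGroups Manifold Asymptotics
open scoped Real

namespace H32

lemma continuous_E2s : Continuous E2s := by
  unfold E2s
  have h1 : Continuous EisensteinSeries.E2 := E2_mdifferentiable.continuous
  have h2 : ∀ τ : ℍ, (π : ℂ) * (τ.im : ℂ) ≠ 0 := fun τ ↦
    mul_ne_zero (by exact_mod_cast Real.pi_ne_zero) (by exact_mod_cast τ.im_ne_zero)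
  have h3 : Continuous fun τ : ℍ ↦ (π : ℂ) * (τ.im : ℂ) :=
    continuous_const.mul (Complex.continuous_ofReal.comp UpperHalfPlane.continuous_im)
  exact h1.sub (continuous_const.div h3 h2)

lemma E2s_bound : ∃ C : ℝ, ∀ τ : ℍ, ‖E2s τ‖ ≤ C * max 1 (1 / τ.im ^ 2) := by
  have hinv : ∀ (γ : SL(2, ℤ)) (τ : ℍ), ‖E2s (γ • τ)‖ * (γ • τ).im = ‖E2s τ‖ * τ.im := by
    intro γ τ
    have hd : denom (γ : GL (Fin 2) ℝ) τ ≠ 0 := denom_ne_zero _ τ
    have hd' : ‖denom (γ : GL (Fin 2) ℝ) τ‖ ≠ 0 := norm_ne_zero_iff.mpr hd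
    rw [E2s_smul, ModularGroup.im_smul_eq_div_normSq, Complex.normSq_eq_norm_sq, norm_mul, norm_pow]
    field_simp
  have hcont : Continuous fun τ : ℍ ↦ ‖E2s τ‖ * τ.im :=
    continuous_E2s.norm.mul UpperHalfPlane.continuous_im
  have hbdd := IntQ_E2.bdd
  rw [UpperHalfPlane.isBoundedAtImInfty_iff] at hbdd
  obtain ⟨M, A, hM⟩ := hbdd
  have hO : (fun τ : ℍ ↦ ‖E2s τ‖ * τ.im) =O[atImInfty] fun τ : ℍ ↦ (τ.im) ^ (1 : ℝ) := by
    refine IsBigO.of_bound (M + 3 / π) ?_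
    rw [Filter.Eventually, atImInfty_mem]
    refine ⟨max A 1, fun τ hτ ↦ ?_⟩
    have h1 : A ≤ τ.im := le_trans (le_max_left _ _) hτ
    have h2 : 1 ≤ τ.im := le_trans (le_max_right _ _) hτ
    have h3 := hM τ h1
    change ‖‖E2s τ‖ * τ.im‖ ≤ (M + 3 / π) * ‖τ.im ^ (1 : ℝ)‖
    rw [Real.rpow_one, norm_mul, norm_norm]
    gcongr
    unfold E2s
    refine (norm_sub_le _ _).trans ?_
    gcongr
    rw [norm_div, norm_mul]
    simp only [Complex.norm_real, norm_ofNat, Real.norm_eq_abs, abs_of_pos Real.pi_pos,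
      abs_of_pos τ.im_pos]
    apply div_le_div_of_nonneg_left (by norm_num) Real.pi_pos
    nlinarith [Real.pi_pos]
  obtain ⟨C, hC⟩ := ModularGroup.exists_bound_of_invariant_of_isBigO hcont zero_le_one hO hinv
  refine ⟨C, fun τ ↦ ?_⟩
  have h := hC τ
  rw [Real.rpow_one] at h
  have h' : ‖E2s τ‖ * τ.im ≤ C * max τ.im (1 / τ.im) := (le_abs_self _).trans h
  have hy := τ.im_pos
  have e : C * max τ.im (1 / τ.im) = C * max 1 (1 / τ.im ^ 2) * τ.im := by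
    rw [mul_assoc, max_mul_of_nonneg _ _ hy.le]
    congr 2
    · ring
    · field_simp
  rw [e] at h'
  exact le_of_mul_le_mul_right h' hy

lemma aux_bound {a d N x C : ℝ} {k : ℕ} (hk : k ≤ 6) (ha : 1 ≤ a) (hd : 1 ≤ d) (haN : a ≤ N)
    (hdN : d ≤ N) (hx : x ≤ C * max 1 (1 / (a / d) ^ k)) : a ^ k * x ≤ |C| * N ^ 6 := by
  have hN : 1 ≤ N := ha.trans haN
  have ha0 : 0 < a := by linarith
  have hd0 : 0 < d := by linarith
  have h1 : a ^ k * max 1 (1 / (a / d) ^ k) ≤ N ^ 6 := by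
    rw [mul_max_of_nonneg _ _ (by positivity)]
    refine max_le ?_ ?_
    · calc a ^ k * 1 = a ^ k := mul_one _
        _ ≤ N ^ k := by gcongr
        _ ≤ N ^ 6 := pow_le_pow_right₀ hN hk
    · calc a ^ k * (1 / (a / d) ^ k) = d ^ k := by rw [div_pow]; field_simp
        _ ≤ N ^ k := by gcongr
        _ ≤ N ^ 6 := pow_le_pow_right₀ hN hk
  calc a ^ k * x ≤ a ^ k * (|C| * max 1 (1 / (a / d) ^ k)) := by
        gcongr
        refine hx.trans ?_
        gcongr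
        exact le_abs_self _
    _ = |C| * (a ^ k * max 1 (1 / (a / d) ^ k)) := by ring
    _ ≤ _ := by gcongr

/-- The scaled values of the Eisenstein series at `(a i + b) / d`. -/
noncomputable def AA (s : ℕ × ℕ × ℕ) : Fin 3 → ℂ :=
  ![(s.1 : ℂ) ^ 2 * E2s (tact s UpperHalfPlane.I), (s.1 : ℂ) ^ 4 * E₄ (tact s UpperHalfPlane.I),
    (s.1 : ℂ) ^ 6 * E₆ (tact s UpperHalfPlane.I)]

lemma bound_A : ∃ C : ℝ, 1 ≤ C ∧ ∀ N : ℕ, 0 < N → ∀ s ∈ SN N, ∀ l, ‖AA s l‖ ≤ C * N ^ 6 := by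
  obtain ⟨C2, h2⟩ := E2s_bound
  obtain ⟨C4, h4⟩ := ModularFormClass.exists_bound (by norm_num : (0 : ℤ) ≤ 4) E₄
  obtain ⟨C6, h6⟩ := ModularFormClass.exists_bound (by norm_num : (0 : ℤ) ≤ 6) E₆
  have hc2 := abs_nonneg C2
  have hc4 := abs_nonneg C4
  have hc6 := abs_nonneg C6
  refine ⟨1 + |C2| + |C4| + |C6|, by linarith, fun N hN s hs l ↦ ?_⟩
  obtain ⟨ha, hd⟩ := SN_pos hN hs
  have h1 := ((mem_SN hN).mp hs).1
  have him : (tact s UpperHalfPlane.I).im = s.1 / s.2.2 := by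
    rw [im_tact ha hd]; simp
  have ha1 : (1 : ℝ) ≤ s.1 := by exact_mod_cast ha
  have hd1 : (1 : ℝ) ≤ s.2.2 := by exact_mod_cast hd
  have haN : (s.1 : ℝ) ≤ N := by exact_mod_cast Nat.le_of_dvd hN ⟨_, h1.symm⟩
  have hdN : (s.2.2 : ℝ) ≤ N := by
    exact_mod_cast Nat.le_of_dvd hN ⟨s.1, by rw [mul_comm]; exact h1.symm⟩
  have hN6 : (0 : ℝ) ≤ (N : ℝ) ^ 6 := by positivity
  fin_cases l
  · have e := h2 (tact s UpperHalfPlane.I)
    rw [him] at e
    have := aux_bound (by norm_num) ha1 hd1 haN hdN e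
    change ‖(s.1 : ℂ) ^ 2 * E2s (tact s UpperHalfPlane.I)‖ ≤ _
    rw [norm_mul, norm_pow, Complex.norm_natCast]
    refine this.trans ?_
    gcongr
    linarith
  · have e := h4 (tact s UpperHalfPlane.I)
    rw [him] at e
    have e' : ‖E₄ (tact s UpperHalfPlane.I)‖ ≤ C4 * max 1 (1 / ((s.1 : ℝ) / s.2.2) ^ 4) := by
      exact_mod_cast e
    have := aux_bound (by norm_num) ha1 hd1 haN hdN e'
    change ‖(s.1 : ℂ) ^ 4 * E₄ (tact s UpperHalfPlane.I)‖ ≤ _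
    rw [norm_mul, norm_pow, Complex.norm_natCast]
    refine this.trans ?_
    gcongr
    linarith
  · have e := h6 (tact s UpperHalfPlane.I)
    rw [him] at e
    have e' : ‖E₆ (tact s UpperHalfPlane.I)‖ ≤ C6 * max 1 (1 / ((s.1 : ℝ) / s.2.2) ^ 6) := by
      exact_mod_cast e
    have := aux_bound (by norm_num) ha1 hd1 haN hdN e'
    change ‖(s.1 : ℂ) ^ 6 * E₆ (tact s UpperHalfPlane.I)‖ ≤ _
    rw [norm_mul, norm_pow, Complex.norm_natCast]
    refine this.trans ?_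
    gcongr
    linarith

lemma card_SN {N : ℕ} (hN : 0 < N) : ((SN N).card : ℝ) ≤ N * (1 + Real.log N) := by
  have h1 : (SN N).card = ∑ d ∈ N.divisors, d := by
    have h2 := sum_SN hN (fun _ _ _ ↦ 1)
    simp only [Finset.sum_const, nsmul_eq_mul, mul_one, Finset.card_range] at h2
    have h3 : (SN N).card = ∑ p ∈ N.divisorsAntidiagonal, p.2 := by exact_mod_cast h2
    rw [h3]
    exact Nat.sum_divisorsAntidiagonal' (f := fun _ j ↦ j)
  have h4 : ∑ d ∈ N.divisors, (d : ℝ) = ∑ d ∈ N.divisors, ((N / d : ℕ) : ℝ) :=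
    (Nat.sum_div_divisors N (fun d ↦ (d : ℝ))).symm
  have h5 : ∑ d ∈ N.divisors, ((N / d : ℕ) : ℝ) ≤ N * ∑ d ∈ Finset.Icc 1 N, ((d : ℝ))⁻¹ := by
    rw [Finset.mul_sum]
    calc ∑ d ∈ N.divisors, ((N / d : ℕ) : ℝ) ≤ ∑ d ∈ N.divisors, (N : ℝ) * (d : ℝ)⁻¹ := by
          refine Finset.sum_le_sum fun d hd ↦ ?_
          rw [← div_eq_mul_inv]
          exact Nat.cast_div_le
      _ ≤ ∑ d ∈ Finset.Icc 1 N, (N : ℝ) * (d : ℝ)⁻¹ := by
          refine Finset.sum_le_sum_of_subset_of_nonneg ?_ fun _ _ _ ↦ by positivity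
          intro d hd
          rw [Nat.mem_divisors] at hd
          rw [Finset.mem_Icc]
          exact ⟨Nat.pos_of_dvd_of_pos hd.1 hN, Nat.le_of_dvd hN hd.1⟩
  rw [h1]
  push_cast
  rw [h4]
  refine h5.trans ?_
  gcongr
  have := harmonic_le_one_add_log N
  rw [harmonic_eq_sum_Icc] at this
  push_cast at this
  exact this

end H32
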