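import Mathlib

/-!
# Growth comparison
-/

namespace H32

open Filter Asymptotics
open scoped Topology

lemma growth (C C' : ℝ) (hC' : 1 ≤ C') (n : ℕ) (κ : ℝ) (hκ : 2 * n < κ) :
    ∀ᶠ x : ℝ in atTop, C * Real.log (C' * x ^ 2) *
      (C' * x ^ 2 * (1 + Real.log (C' * x ^ 2))) ^ n ≤ x ^ κ / 2 := by
  set ε : ℝ := (κ - 2 * n) / (2 * (n + 1)) with hε
  have hε0 : 0 < ε := by
    apply div_pos (by linarith) (by positivity)
  have hC'0 : 0 < C' := by linarith
  have h1 : (fun x : ℝ ↦ Real.log (C' * x ^ 2)) =O[atTop] fun x : ℝ ↦ x ^ ε := by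
    have e : (fun x : ℝ ↦ Real.log (C' * x ^ 2)) =ᶠ[atTop]
        fun x ↦ Real.log C' + 2 * Real.log x := by
      filter_upwards [eventually_gt_atTop 0] with x hx
      rw [Real.log_mul hC'0.ne' (by positivity), Real.log_pow]
      push_cast; ring
    refine e.trans_isBigO ?_
    refine IsBigO.add ?_ ?_
    · refine (isLittleO_const_left.mpr (Or.inr ?_)).isBigO
      exact tendsto_norm_atTop_atTop.comp (tendsto_rpow_atTop hε0)
    · exact (isLittleO_log_rpow_atTop hε0).isBigO.const_mul_left 2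
  have h2 : (fun x : ℝ ↦ 1 + Real.log (C' * x ^ 2)) =O[atTop] fun x : ℝ ↦ x ^ ε := by
    refine IsBigO.add ?_ h1
    refine (isLittleO_const_left.mpr (Or.inr ?_)).isBigO
    exact tendsto_norm_atTop_atTop.comp (tendsto_rpow_atTop hε0)
  have h3 : (fun x : ℝ ↦ C' * x ^ 2) =O[atTop] fun x : ℝ ↦ x ^ 2 :=
    (isBigO_refl _ _).const_mul_left C'
  have h4 : (fun x : ℝ ↦ C * Real.log (C' * x ^ 2) *
      (C' * x ^ 2 * (1 + Real.log (C' * x ^ 2))) ^ n) =O[atTop]
      fun x : ℝ ↦ x ^ ε * (x ^ 2 * x ^ ε) ^ n :=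
    (h1.const_mul_left C).mul ((h3.mul h2).pow n)
  have h5 : (fun x : ℝ ↦ x ^ ε * (x ^ 2 * x ^ ε) ^ n) =o[atTop] fun x : ℝ ↦ x ^ κ := by
    have e : (fun x : ℝ ↦ x ^ ε * (x ^ 2 * x ^ ε) ^ n) =ᶠ[atTop]
        fun x ↦ x ^ (2 * n + (n + 1) * ε) := by
      filter_upwards [eventually_gt_atTop 0] with x hx
      rw [← Real.rpow_natCast x 2, ← Real.rpow_add hx, ← Real.rpow_natCast, ← Real.rpow_mul hx.le,
        ← Real.rpow_add hx]
      congr 1
      push_cast
      ring
    refine e.trans_isLittleO ?_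
    have hlt : 2 * n + (n + 1) * ε < κ := by
      have : (n + 1) * ε = (κ - 2 * n) / 2 := by
        rw [hε]; field_simp
      rw [this]
      linarith
    refine isLittleO_of_tendsto' ?_ ?_
    · filter_upwards [eventually_gt_atTop 0] with x hx h0
      exact absurd h0 (Real.rpow_pos_of_pos hx κ).ne'
    · have hd : 0 < κ - (2 * n + (n + 1) * ε) := by linarith
      refine (tendsto_rpow_neg_atTop hd).congr' ?_
      filter_upwards [eventually_gt_atTop 0] with x hx
      rw [← Real.rpow_sub hx]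
      congr 1
      ring
  have h6 := h4.trans_isLittleO h5
  have h7 := h6.bound (show (0 : ℝ) < 1 / 2 by norm_num)
  filter_upwards [h7, eventually_gt_atTop 0] with x hx hx0
  have h8 : ‖x ^ κ‖ = x ^ κ := Real.norm_of_nonneg (by positivity)
  rw [h8] at hx
  calc _ ≤ ‖C * Real.log (C' * x ^ 2) * (C' * x ^ 2 * (1 + Real.log (C' * x ^ 2))) ^ n‖ :=
        Real.le_norm_self _
    _ ≤ 1 / 2 * x ^ κ := hx
    _ = x ^ κ / 2 := by ring

end H32
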