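import Mathlib

/-!
# A lower bound for polynomials in analytic functions along hierarchical sequences
-/

namespace H32

open MvPolynomial Filter Asymptotics
open scoped Topology

lemma taylor {g : ℂ → ℂ} {t₀ : ℂ} (hg : AnalyticAt ℂ g t₀) : ∃ u : ℕ → ℂ,
    (∀ᶠ z in 𝓝 t₀, HasSum (fun k ↦ u k * (z - t₀) ^ k) (g z)) ∧
    ∀ K : ℕ, (fun z ↦ g z - ∑ k ∈ Finset.range K, u k * (z - t₀) ^ k) =O[𝓝 t₀]
      fun z ↦ (z - t₀) ^ K := by
  obtain ⟨p, hp⟩ := hg
  refine ⟨p.coeff, ?_, fun K ↦ ?_⟩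
  · filter_upwards [hp.eventually_hasSum_sub] with z hz
    simpa [mul_comm] using hz
  · have h1 := hp.isBigO_sub_partialSum_pow K
    have h2 : Tendsto (fun z : ℂ ↦ z - t₀) (𝓝 t₀) (𝓝 0) := by
      have : Tendsto (fun z : ℂ ↦ z - t₀) (𝓝 t₀) (𝓝 (t₀ - t₀)) :=
        (continuous_id.sub continuous_const).tendsto t₀
      simpa using this
    have h3 := h1.comp_tendsto h2
    refine (h3.congr_left fun z ↦ ?_).trans (isBigO_of_le _ fun z ↦ ?_)
    · simp [FormalMultilinearSeries.partialSum, mul_comm]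
    · simp

/-- Splitting off the variables with first index `0`. -/
noncomputable def split (n : ℕ) : MvPolynomial (Fin (n + 1) × Fin 4) ℂ →ₐ[ℂ]
    MvPolynomial (Fin 4) (MvPolynomial (Fin n × Fin 4) ℂ) :=
  aeval fun x ↦ Fin.cases (motive := fun _ ↦ MvPolynomial (Fin 4) (MvPolynomial (Fin n × Fin 4) ℂ))
    (X x.2) (fun j ↦ C (X (j, x.2))) x.1

lemma eval_split (n : ℕ) (Φ : MvPolynomial (Fin (n + 1) × Fin 4) ℂ)
    (x : Fin (n + 1) × Fin 4 → ℂ) :
    eval₂ (eval fun y : Fin n × Fin 4 ↦ x (y.1.succ, y.2)) (fun l ↦ x (0, l)) (split n Φ) =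
      aeval x Φ := by
  have h : ((eval₂Hom (eval fun y : Fin n × Fin 4 ↦ x (y.1.succ, y.2))
      (fun l ↦ x (0, l))).comp (split n).toRingHom) = (aeval x).toRingHom := by
    apply MvPolynomial.ringHom_ext
    · intro r
      simp [split]
    · rintro ⟨i, l⟩
      refine Fin.cases ?_ (fun j ↦ ?_) i
      · simp [split]
      · simp [split]
  exact congrArg (fun f ↦ f Φ) h

lemma split_ne_zero {n : ℕ} {Φ : MvPolynomial (Fin (n + 1) × Fin 4) ℂ} (h : Φ ≠ 0) :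
    split n Φ ≠ 0 := by
  intro h0
  apply h
  apply MvPolynomial.funext
  intro x
  have := eval_split n Φ x
  rw [h0] at this
  simpa using this.symm

lemma exists_taylor_poly {n : ℕ} {D : ℂ → Fin 4 → ℂ} {t₀ : ℂ}
    (hD : ∀ k, AnalyticAt ℂ (fun z ↦ D z k) t₀)
    (hind : ∀ P : MvPolynomial (Fin 4) ℂ, (∀ᶠ z in 𝓝 t₀, aeval (D z) P = 0) → P = 0)
    {R : MvPolynomial (Fin 4) (MvPolynomial (Fin n × Fin 4) ℂ)} (hR : R ≠ 0) :
    ∃ (k₀ : ℕ) (P : MvPolynomial (Fin n × Fin 4) ℂ), P ≠ 0 ∧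
      ∃ e : (Fin 4 →₀ ℕ) → ℂ → ℂ,
        (∀ m, (e m) =O[𝓝 t₀] fun z ↦ (z - t₀) ^ (k₀ + 1)) ∧
        ∀ (x' : Fin n × Fin 4 → ℂ) (z : ℂ), eval₂ (eval x') (D z) R =
          (z - t₀) ^ k₀ * eval x' P + ∑ m ∈ R.support, eval x' (R.coeff m) * e m z := by
  classical
  set g : (Fin 4 →₀ ℕ) → ℂ → ℂ := fun m z ↦ ∏ l, D z l ^ m l with hg
  have hga : ∀ m, AnalyticAt ℂ (g m) t₀ := fun m ↦ by
    have : g m = ∏ l, fun z ↦ D z l ^ m l := by
      ext z; simp [hg]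
    rw [this]
    exact Finset.analyticAt_prod _ fun l _ ↦ (hD l).pow _
  choose u hu1 hu2 using fun m ↦ taylor (hga m)
  set P : ℕ → MvPolynomial (Fin n × Fin 4) ℂ := fun k ↦
    ∑ m ∈ R.support, C (u m k) * R.coeff m with hP
  have hex : ∃ k, P k ≠ 0 := by
    by_contra hcon
    push Not at hcon
    obtain ⟨m₀, hm₀⟩ := MvPolynomial.support_nonempty.mpr hR
    have hc : R.coeff m₀ ≠ 0 := MvPolynomial.mem_support_iff.mp hm₀
    obtain ⟨μ, hμ⟩ := MvPolynomial.support_nonempty.mpr hc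
    have hμ' : (R.coeff m₀).coeff μ ≠ 0 := MvPolynomial.mem_support_iff.mp hμ
    set S : MvPolynomial (Fin 4) ℂ := ∑ m ∈ R.support, monomial m ((R.coeff m).coeff μ) with hS
    have hS0 : S = 0 := by
      apply hind
      have hall : ∀ᶠ z in 𝓝 t₀, ∀ m ∈ R.support,
          HasSum (fun k ↦ u m k * (z - t₀) ^ k) (g m z) :=
        (Filter.eventually_all_finset _).mpr fun m _ ↦ hu1 m
      filter_upwards [hall] with z hz
      have h1 : aeval (D z) S = ∑ m ∈ R.support, (R.coeff m).coeff μ * g m z := by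
        rw [hS, map_sum]
        refine Finset.sum_congr rfl fun m _ ↦ ?_
        rw [aeval_monomial, Finsupp.prod_fintype _ _ (by simp)]
        rfl
      have h2 : HasSum (fun k ↦ ∑ m ∈ R.support, (R.coeff m).coeff μ * (u m k * (z - t₀) ^ k))
          (∑ m ∈ R.support, (R.coeff m).coeff μ * g m z) :=
        hasSum_sum fun m hm ↦ (hz m hm).mul_left _
      have h3 : (fun k ↦ ∑ m ∈ R.support, (R.coeff m).coeff μ * (u m k * (z - t₀) ^ k)) =
          fun _ ↦ 0 := by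
        ext k
        have h4 := congrArg (MvPolynomial.coeff μ) (hcon k)
        simp only [hP, coeff_sum, coeff_C_mul, coeff_zero] at h4
        calc ∑ m ∈ R.support, (R.coeff m).coeff μ * (u m k * (z - t₀) ^ k) =
            (∑ m ∈ R.support, u m k * (R.coeff m).coeff μ) * (z - t₀) ^ k := by
              rw [Finset.sum_mul]
              exact Finset.sum_congr rfl fun m _ ↦ by ring
          _ = 0 := by rw [h4, zero_mul]
      rw [h3] at h2
      rw [h1, h2.unique hasSum_zero]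
    apply hμ'
    have h5 := congrArg (MvPolynomial.coeff m₀) hS0
    rw [hS, coeff_sum, coeff_zero, Finset.sum_eq_single m₀] at h5
    · simpa using h5
    · intro m _ hne
      rw [coeff_monomial, if_neg hne]
    · intro h
      exact absurd hm₀ h
  set k₀ := Nat.find hex with hk₀
  have hk0 : P k₀ ≠ 0 := Nat.find_spec hex
  have hlt : ∀ k < k₀, P k = 0 := fun k hk ↦ by
    by_contra h
    exact Nat.find_min hex hk h
  refine ⟨k₀, P k₀, hk0, fun m z ↦ g m z - ∑ k ∈ Finset.range (k₀ + 1), u m k * (z - t₀) ^ k,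
    fun m ↦ hu2 m (k₀ + 1), fun x' z ↦ ?_⟩
  rw [eval₂_eq']
  have h6 : ∀ m, g m z = (∑ k ∈ Finset.range (k₀ + 1), u m k * (z - t₀) ^ k) +
      (g m z - ∑ k ∈ Finset.range (k₀ + 1), u m k * (z - t₀) ^ k) := fun m ↦ by ring
  have h7 : ∑ m ∈ R.support, eval x' (R.coeff m) * ∏ l, D z l ^ m l =
      ∑ m ∈ R.support, eval x' (R.coeff m) * (∑ k ∈ Finset.range (k₀ + 1), u m k * (z - t₀) ^ k) +
      ∑ m ∈ R.support, eval x' (R.coeff m) *
        (g m z - ∑ k ∈ Finset.range (k₀ + 1), u m k * (z - t₀) ^ k) := by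
    rw [← Finset.sum_add_distrib]
    refine Finset.sum_congr rfl fun m _ ↦ ?_
    rw [← mul_add, ← h6 m]
  rw [h7]
  congr 1
  have h8 : ∀ k, eval x' (P k) = ∑ m ∈ R.support, eval x' (R.coeff m) * u m k := fun k ↦ by
    rw [hP]
    simp only [map_sum, map_mul, eval_C]
    exact Finset.sum_congr rfl fun m _ ↦ mul_comm _ _
  calc ∑ m ∈ R.support, eval x' (R.coeff m) * (∑ k ∈ Finset.range (k₀ + 1), u m k * (z - t₀) ^ k)
      = ∑ k ∈ Finset.range (k₀ + 1), (z - t₀) ^ k * eval x' (P k) := by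
        simp_rw [h8, Finset.mul_sum]
        rw [Finset.sum_comm]
        exact Finset.sum_congr rfl fun k _ ↦ Finset.sum_congr rfl fun m _ ↦ by ring
    _ = (z - t₀) ^ k₀ * eval x' (P k₀) := by
        rw [Finset.sum_range_succ, Finset.sum_eq_zero, zero_add]
        intro k hk
        rw [hlt k (Finset.mem_range.mp hk), map_zero, mul_zero]

theorem nonvanish {ι : Type*} {l : Filter ι} (n : ℕ) :
    ∀ (D : Fin n → ℂ → Fin 4 → ℂ) (t : Fin n → ℂ) (r : Fin n → ι → ℂ)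
    (_ : ∀ j k, AnalyticAt ℂ (fun z ↦ D j z k) (t j))
    (_ : ∀ j (P : MvPolynomial (Fin 4) ℂ), (∀ᶠ z in 𝓝 (t j), aeval (D j z) P = 0) → P = 0)
    (_ : ∀ j, Tendsto (r j) l (𝓝 (t j)))
    (_ : ∀ C : ℕ, ∀ᶠ i in l, ∀ j k, j < k → ‖r j i - t j‖ ≤ ‖r k i - t k‖ ^ C)
    (Φ : MvPolynomial (Fin n × Fin 4) ℂ) (_ : Φ ≠ 0),
    ∃ c : ℝ, 0 < c ∧ ∃ M : ℕ, ∀ᶠ i in l, c * (∏ j, ‖r j i - t j‖) ^ M ≤
      ‖aeval (fun x : Fin n × Fin 4 ↦ D x.1 (r x.1 i) x.2) Φ‖ := by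
  induction n with
  | zero =>
    intro D t r _ _ _ _ Φ hΦ
    have h := MvPolynomial.eq_C_of_isEmpty Φ
    set a := MvPolynomial.coeff 0 Φ with ha
    have ha0 : a ≠ 0 := by
      rintro h0
      rw [h0] at h
      exact hΦ (by rw [h]; simp)
    refine ⟨‖a‖, norm_pos_iff.mpr ha0, 0, Eventually.of_forall fun i ↦ ?_⟩
    rw [h]
    simp
  | succ n ih =>
    intro D t r hD hind hr hh Φ hΦ
    obtain ⟨k₀, P, hP, e, he, hexp⟩ := exists_taylor_poly (n := n) (hD 0) (hind 0) (split_ne_zero hΦ)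
    obtain ⟨c, hc, M, hM⟩ := ih (fun j ↦ D j.succ) (fun j ↦ t j.succ) (fun j ↦ r j.succ)
      (fun j k ↦ hD j.succ k) (fun j P hP ↦ hind j.succ P hP) (fun j ↦ hr j.succ)
      (fun C ↦ (hh C).mono fun i hi j k hjk ↦ hi j.succ k.succ (Fin.succ_lt_succ_iff.mpr hjk)) P hP
    -- notation
    set ρ : Fin (n + 1) → ι → ℝ := fun j i ↦ ‖r j i - t j‖ with hρ
    have hρ0 : ∀ j, Tendsto (ρ j) l (𝓝 0) := fun j ↦ by
      have := ((hr j).sub_const (t j)).norm
      simpa using this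
    have hρnn : ∀ j i, 0 ≤ ρ j i := fun j i ↦ norm_nonneg _
    set x' : ι → Fin n × Fin 4 → ℂ := fun i y ↦ D y.1.succ (r y.1.succ i) y.2 with hx'
    -- the error term
    have hx'lim : ∀ y, Tendsto (fun i ↦ x' i y) l (𝓝 (D y.1.succ (t y.1.succ) y.2)) := fun y ↦
      ((hD y.1.succ y.2).continuousAt.tendsto).comp (hr y.1.succ)
    have herr : (fun i ↦ ∑ m ∈ (split n Φ).support, eval (x' i) ((split n Φ).coeff m) *
        e m (r 0 i)) =O[l] fun i ↦ (r 0 i - t 0) ^ (k₀ + 1) := by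
      refine IsBigO.fun_sum fun m _ ↦ ?_
      have h1 : (fun i ↦ eval (x' i) ((split n Φ).coeff m)) =O[l] fun _ ↦ (1 : ℂ) := by
        have hcont : Continuous fun y : Fin n × Fin 4 → ℂ ↦ eval y ((split n Φ).coeff m) :=
          MvPolynomial.continuous_eval _
        have hlim : Tendsto (fun i ↦ eval (x' i) ((split n Φ).coeff m)) l
            (𝓝 (eval (fun y ↦ D y.1.succ (t y.1.succ) y.2) ((split n Φ).coeff m))) :=
          (hcont.tendsto _).comp (tendsto_pi_nhds.mpr hx'lim)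
        exact hlim.isBigO_one ℂ
      have h2 : (fun i ↦ e m (r 0 i)) =O[l] fun i ↦ (r 0 i - t 0) ^ (k₀ + 1) :=
        (he m).comp_tendsto (hr 0)
      simpa using h1.mul h2
    obtain ⟨C, hC, hCb⟩ := herr.exists_pos
    rw [IsBigOWith] at hCb
    -- smallness
    have hsum : Tendsto (fun i ↦ ∑ j, ρ j i) l (𝓝 0) := by
      have := tendsto_finsetSum Finset.univ fun j (_ : j ∈ (Finset.univ : Finset (Fin (n + 1)))) ↦
        hρ0 j
      simpa using this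
    have hsmall : ∀ᶠ i in l, C * ∑ j, ρ j i ≤ c / 2 := by
      have h1 : Tendsto (fun i ↦ C * ∑ j, ρ j i) l (𝓝 (C * 0)) := hsum.const_mul C
      rw [mul_zero] at h1
      exact (h1.eventually_lt_const (by positivity)).mono fun i hi ↦ hi.le
    have hle1 : ∀ᶠ i in l, ∀ j, ρ j i ≤ 1 := by
      rw [Filter.eventually_all]
      exact fun j ↦ ((hρ0 j).eventually_lt_const one_pos).mono fun i hi ↦ hi.le
    refine ⟨c / 2, by positivity, max k₀ M, ?_⟩
    filter_upwards [hM, hCb, hsmall, hle1, hh (n * M + 1)] with i h1 h2 h3 h4 h5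
    have hval : aeval (fun x : Fin (n + 1) × Fin 4 ↦ D x.1 (r x.1 i) x.2) Φ =
        (r 0 i - t 0) ^ k₀ * eval (x' i) P + ∑ m ∈ (split n Φ).support,
          eval (x' i) ((split n Φ).coeff m) * e m (r 0 i) := by
      rw [← eval_split n Φ, ← hexp (x' i) (r 0 i)]
    set Δ : ℝ := ∏ j : Fin n, ρ j.succ i with hΔ
    have hΔ0 : 0 ≤ Δ := Finset.prod_nonneg fun j _ ↦ hρnn _ _
    have hΔ1 : Δ ≤ 1 := Finset.prod_le_one (fun j _ ↦ hρnn _ _) fun j _ ↦ h4 _
    have h1' : c * Δ ^ M ≤ ‖eval (x' i) P‖ := by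
      simpa [aeval_eq_eval] using h1
    have h6 : ρ 0 i ≤ Δ ^ M * ∑ j, ρ j i := by
      rcases Nat.eq_zero_or_pos n with hn | hn
      · subst hn
        have : Δ = 1 := by simp [hΔ]
        rw [this, one_pow, one_mul]
        exact Finset.single_le_sum (f := fun j ↦ ρ j i) (fun j _ ↦ hρnn j i) (Finset.mem_univ 0)
      · have : Nonempty (Fin n) := ⟨⟨0, hn⟩⟩
        obtain ⟨j₀, -, hj₀⟩ := Finset.exists_min_image (Finset.univ : Finset (Fin n))
          (fun j ↦ ρ j.succ i) Finset.univ_nonempty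
        have h7 : ρ j₀.succ i ^ n ≤ Δ := by
          calc ρ j₀.succ i ^ n = ∏ _j : Fin n, ρ j₀.succ i := by simp
            _ ≤ Δ := Finset.prod_le_prod (fun _ _ ↦ hρnn _ _) fun j hj ↦ hj₀ j hj
        have h8 : ρ 0 i ≤ ρ j₀.succ i ^ (n * M + 1) := h5 0 j₀.succ (Fin.succ_pos j₀)
        calc ρ 0 i ≤ ρ j₀.succ i ^ (n * M + 1) := h8
          _ = (ρ j₀.succ i ^ n) ^ M * ρ j₀.succ i := by rw [pow_succ, pow_mul]
          _ ≤ Δ ^ M * ∑ j, ρ j i := by
              have h9 : ρ j₀.succ i ≤ ∑ j, ρ j i :=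
                Finset.single_le_sum (f := fun j ↦ ρ j i) (fun j _ ↦ hρnn j i)
                  (Finset.mem_univ j₀.succ)
              have h10 : 0 ≤ ρ j₀.succ i := hρnn _ _
              gcongr
    have h7 : C * ρ 0 i ≤ c / 2 * Δ ^ M := by
      calc C * ρ 0 i ≤ C * (Δ ^ M * ∑ j, ρ j i) := by gcongr
        _ = (C * ∑ j, ρ j i) * Δ ^ M := by ring
        _ ≤ c / 2 * Δ ^ M := by gcongr
    have h8 : ‖∑ m ∈ (split n Φ).support, eval (x' i) ((split n Φ).coeff m) * e m (r 0 i)‖ ≤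
        ρ 0 i ^ k₀ * (c / 2 * Δ ^ M) := by
      calc _ ≤ C * ‖(r 0 i - t 0) ^ (k₀ + 1)‖ := h2
        _ = ρ 0 i ^ k₀ * (C * ρ 0 i) := by rw [norm_pow, pow_succ]; ring
        _ ≤ _ := by have := hρnn 0 i; gcongr
    have h9 : ρ 0 i ^ k₀ * (c * Δ ^ M) ≤ ‖(r 0 i - t 0) ^ k₀ * eval (x' i) P‖ := by
      rw [norm_mul, norm_pow]
      have := hρnn 0 i
      gcongr
    have h10 : ρ 0 i ^ k₀ * (c / 2 * Δ ^ M) ≤
        ‖aeval (fun x : Fin (n + 1) × Fin 4 ↦ D x.1 (r x.1 i) x.2) Φ‖ := by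
      rw [hval]
      have h11 := norm_sub_norm_le ((r 0 i - t 0) ^ k₀ * eval (x' i) P)
        (-(∑ m ∈ (split n Φ).support, eval (x' i) ((split n Φ).coeff m) * e m (r 0 i)))
      rw [norm_neg, sub_neg_eq_add] at h11
      have h12 : ρ 0 i ^ k₀ * (c * Δ ^ M) = ρ 0 i ^ k₀ * (c / 2 * Δ ^ M) +
          ρ 0 i ^ k₀ * (c / 2 * Δ ^ M) := by ring
      linarith
    refine le_trans ?_ h10
    have hprod : ∏ j, ‖r j i - t j‖ = ρ 0 i * Δ := by
      rw [Fin.prod_univ_succ]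
    rw [hprod, mul_pow]
    have h13 : ρ 0 i ^ max k₀ M ≤ ρ 0 i ^ k₀ :=
      pow_le_pow_of_le_one (hρnn 0 i) (h4 0) (le_max_left _ _)
    have h14 : Δ ^ max k₀ M ≤ Δ ^ M := pow_le_pow_of_le_one hΔ0 hΔ1 (le_max_right _ _)
    calc c / 2 * (ρ 0 i ^ max k₀ M * Δ ^ max k₀ M) ≤ c / 2 * (ρ 0 i ^ k₀ * Δ ^ M) := by
          have := hρnn 0 i
          gcongr
      _ = _ := by ring

end H32
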