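import Pool.Agent.H32.Special
import Pool.Agent.H32.Nonvanish
import Pool.Agent.H32.Growth

/-!
# The core theorem
-/

open UpperHalfPlane hiding I
open Complex EisensteinSeries ModularForm MatrixGroups Manifold
open scoped Real Topology
open Filter Asymptotics MvPolynomial

namespace H32

lemma den_mul {x : ℚ} {Δ : ℕ} (h : x.den ∣ Δ) : ∃ A : ℤ, x * Δ = A := by
  obtain ⟨k, rfl⟩ := h
  refine ⟨x.num * k, ?_⟩
  push_cast
  rw [← mul_assoc, Rat.mul_den_eq_num]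

lemma exists_den {n : ℕ} (a b c d : Fin n → ℚ) : ∃ Δ : ℕ, 0 < Δ ∧ ∀ j,
    ∃ A B C D : ℤ, a j * Δ = A ∧ b j * Δ = B ∧ c j * Δ = C ∧ d j * Δ = D := by
  refine ⟨∏ j, (a j).den * (b j).den * (c j).den * (d j).den, ?_, fun j ↦ ?_⟩
  · refine Finset.prod_pos fun j _ ↦ ?_
    have h1 := (a j).den_pos
    have h2 := (b j).den_pos
    have h3 := (c j).den_pos
    have h4 := (d j).den_pos
    positivity
  · have hj : (a j).den * (b j).den * (c j).den * (d j).den ∣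
        ∏ j, (a j).den * (b j).den * (c j).den * (d j).den :=
      Finset.dvd_prod_of_mem (fun j ↦ (a j).den * (b j).den * (c j).den * (d j).den)
        (Finset.mem_univ j)
    obtain ⟨A, hA⟩ := den_mul (x := a j) (dvd_trans ⟨(b j).den * (c j).den * (d j).den, by ring⟩ hj)
    obtain ⟨B, hB⟩ := den_mul (x := b j) (dvd_trans ⟨(a j).den * (c j).den * (d j).den, by ring⟩ hj)
    obtain ⟨C, hC⟩ := den_mul (x := c j) (dvd_trans ⟨(a j).den * (b j).den * (d j).den, by ring⟩ hj)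
    obtain ⟨D, hD⟩ := den_mul (x := d j) (dvd_trans ⟨(a j).den * (b j).den * (c j).den, by ring⟩ hj)
    exact ⟨A, B, C, D, hA, hB, hC, hD⟩

/-- The evaluation along the product of lines. -/
noncomputable def ev {n : ℕ} (a b c d : Fin n → ℚ) (Φ : MvPolynomial (Fin n × Fin 4) ℤ)
    (s : Fin n → ℂ) : ℂ :=
  aeval (fun x : Fin n × Fin 4 ↦ DD ((a x.1 : ℂ) + c x.1 * I) ((b x.1 : ℂ) + d x.1 * I)
    (c x.1) (d x.1) (s x.1) x.2) Φ

lemma ev_upper {n : ℕ} (a b c d : Fin n → ℚ) (t : Fin n → ℝ)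
    (hpos : ∀ j, 0 < (c j : ℝ) + d j * t j) (Φ : MvPolynomial (Fin n × Fin 4) ℤ)
    (h0 : ev a b c d Φ (fun j ↦ t j) = 0) :
    (fun s ↦ ev a b c d Φ s) =O[𝓝 (fun j ↦ (t j : ℂ))] fun s ↦ s - fun j ↦ (t j : ℂ) := by
  have hana : AnalyticAt ℂ (fun s ↦ ev a b c d Φ s) (fun j ↦ (t j : ℂ)) := by
    unfold ev
    refine AnalyticAt.aeval_mvPolynomial (fun x ↦ ?_) Φ
    have him : 0 < (((a x.1 : ℂ) + c x.1 * I) + ((b x.1 : ℂ) + d x.1 * I) * (t x.1 : ℂ)).im := by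
      have : (((a x.1 : ℂ) + c x.1 * I) + ((b x.1 : ℂ) + d x.1 * I) * (t x.1 : ℂ)).im =
          (c x.1 : ℝ) + d x.1 * t x.1 := by
        simp only [Complex.add_im, Complex.mul_im, Complex.ofReal_im, Complex.ofReal_re,
          Complex.I_im, Complex.I_re, Complex.ratCast_im, Complex.ratCast_re, Complex.add_re,
          Complex.mul_re]
        ring
      rw [this]; exact hpos x.1
    have hy : (c x.1 : ℂ) + d x.1 * (t x.1 : ℂ) ≠ 0 := by
      have := (hpos x.1).ne'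
      exact_mod_cast this
    have h1 := analytic_DD him hy x.2
    have h2 : AnalyticAt ℂ (fun s : Fin n → ℂ ↦ s x.1) (fun j ↦ (t j : ℂ)) :=
      (ContinuousLinearMap.proj (R := ℂ) (φ := fun _ : Fin n ↦ ℂ) x.1).analyticAt _
    exact AnalyticAt.fun_comp (g := fun z ↦ DD ((a x.1 : ℂ) + c x.1 * I)
      ((b x.1 : ℂ) + d x.1 * I) (c x.1) (d x.1) z x.2) (f := fun s : Fin n → ℂ ↦ s x.1) h1 h2
  have h3 := hana.differentiableAt.isBigO_sub
  refine h3.congr_left fun s ↦ ?_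
  rw [h0, sub_zero]

theorem core {n : ℕ} (a b c d : Fin n → ℚ) (t : Fin n → ℝ) (κ : ℝ) (hκ : 2 * n < κ)
    (hbd : ∀ j, b j ≠ 0 ∨ d j ≠ 0) (hpos : ∀ j, 0 < (c j : ℝ) + d j * t j)
    (happ : ∀ K : ℕ, ∃ q : ℕ, K ≤ q ∧ ∃ p : Fin n → ℤ,
      (∀ j, 0 < |t j - p j / q| ∧ |t j - p j / q| < Real.exp (-(q : ℝ) ^ κ)) ∧
      ∀ j k, j < k → |t j - p j / q| < |t k - p k / q| ^ K)
    (Φ : MvPolynomial (Fin n × Fin 4) ℤ) (W : ℕ) (hΦ : IsWeightedHomogeneous wt4 Φ W)
    (hne : Φ ≠ 0) : ev a b c d Φ (fun j ↦ t j) ≠ 0 := by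
  intro h0
  have hκ0 : 0 < κ := by
    have : (0 : ℝ) ≤ 2 * n := by positivity
    linarith
  choose q hq p hp1 hp2 using happ
  have hqtop : Tendsto (fun k ↦ (q k : ℝ)) atTop atTop :=
    tendsto_natCast_atTop_atTop.comp (tendsto_atTop_mono hq tendsto_id)
  have hexp : Tendsto (fun k ↦ Real.exp (-(q k : ℝ) ^ κ)) atTop (𝓝 0) := by
    have h1 : Tendsto (fun k ↦ (q k : ℝ) ^ κ) atTop atTop := (tendsto_rpow_atTop hκ0).comp hqtop
    exact Real.tendsto_exp_neg_atTop_nhds_zero.comp h1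
  have hexp1 : ∀ k, Real.exp (-(q k : ℝ) ^ κ) ≤ 1 := fun k ↦ by
    apply Real.exp_le_one_iff.mpr
    have : 0 ≤ (q k : ℝ) ^ κ := by positivity
    linarith
  set rr : Fin n → ℕ → ℝ := fun j k ↦ (p k j : ℝ) / (q k : ℝ) with hrr
  set δ : Fin n → ℕ → ℝ := fun j k ↦ |t j - (p k j : ℝ) / (q k : ℝ)| with hδ
  have hδ1 : ∀ j k, δ j k ≤ 1 := fun j k ↦ ((hp1 k j).2.le).trans (hexp1 k)
  have hδ0 : ∀ j, Tendsto (δ j) atTop (𝓝 0) := fun j ↦
    squeeze_zero (fun k ↦ abs_nonneg _) (fun k ↦ (hp1 k j).2.le) hexp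
  have hrr0 : ∀ j, Tendsto (rr j) atTop (𝓝 (t j)) := fun j ↦ by
    rw [tendsto_iff_norm_sub_tendsto_zero]
    refine (hδ0 j).congr fun k ↦ ?_
    rw [Real.norm_eq_abs, abs_sub_comm]
  set r : Fin n → ℕ → ℂ := fun j k ↦ (rr j k : ℂ) with hr
  have hr0 : ∀ j, Tendsto (r j) atTop (𝓝 (t j : ℂ)) := fun j ↦
    (Complex.continuous_ofReal.tendsto _).comp (hrr0 j)
  have hnorm : ∀ j k, ‖r j k - (t j : ℂ)‖ = δ j k := fun j k ↦ by
    rw [hr, ← Complex.ofReal_sub, Complex.norm_real, Real.norm_eq_abs, abs_sub_comm]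
  -- analyticity and independence
  have him : ∀ j, 0 < (((a j : ℂ) + c j * I) + ((b j : ℂ) + d j * I) * (t j : ℂ)).im := fun j ↦ by
    have : (((a j : ℂ) + c j * I) + ((b j : ℂ) + d j * I) * (t j : ℂ)).im =
        (c j : ℝ) + d j * t j := by
      simp only [Complex.add_im, Complex.mul_im, Complex.ofReal_im, Complex.ofReal_re,
        Complex.I_im, Complex.I_re, Complex.ratCast_im, Complex.ratCast_re, Complex.add_re,
        Complex.mul_re]
      ring
    rw [this]; exact hpos j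
  have hy : ∀ j, (c j : ℂ) + d j * (t j : ℂ) ≠ 0 := fun j ↦ by
    have := (hpos j).ne'
    exact_mod_cast this
  have hβ : ∀ j, (b j : ℂ) + d j * I ≠ 0 := fun j h ↦ by
    have h1 := congrArg Complex.re h
    have h2 := congrArg Complex.im h
    simp only [Complex.add_im, Complex.mul_im, Complex.I_im, Complex.I_re, Complex.ratCast_im,
      Complex.ratCast_re, Complex.add_re, Complex.mul_re, Complex.zero_re, Complex.zero_im,
      mul_zero, mul_one, zero_mul, sub_zero, add_zero, zero_add] at h1 h2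
    rcases hbd j with h | h
    · exact h (by exact_mod_cast h1)
    · exact h (by exact_mod_cast h2)
  -- nonvanishing
  have hΦC : map (Int.castRingHom ℂ) Φ ≠ 0 := fun h ↦ hne
    (MvPolynomial.map_injective _ Int.cast_injective (by rw [h, map_zero]))
  obtain ⟨c0, hc0, M0, hnv⟩ := nonvanish (l := atTop) n
    (fun j z ↦ DD ((a j : ℂ) + c j * I) ((b j : ℂ) + d j * I) (c j) (d j) z)
    (fun j ↦ (t j : ℂ)) r (fun j k ↦ analytic_DD (him j) (hy j) k)
    (fun j P hP ↦ indep_germ (hβ j) (him j) (hy j) P hP) hr0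
    (fun C ↦ by
      filter_upwards [eventually_ge_atTop C] with k hk i j hij
      rw [hnorm, hnorm]
      calc δ i k ≤ δ j k ^ k := (hp2 k i j hij).le
        _ ≤ δ j k ^ C := pow_le_pow_of_le_one (abs_nonneg _) (hδ1 j k) hk)
    (map (Int.castRingHom ℂ) Φ) hΦC
  have hval : ∀ k, aeval (fun x : Fin n × Fin 4 ↦ DD ((a x.1 : ℂ) + c x.1 * I)
      ((b x.1 : ℂ) + d x.1 * I) (c x.1) (d x.1) (r x.1 k) x.2) (map (Int.castRingHom ℂ) Φ) =
      ev a b c d Φ (fun j ↦ r j k) := fun k ↦ by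
    rw [aeval_def, eval₂_map, ev, aeval_def]
    rfl
  have hevne : ∀ᶠ k in atTop, ev a b c d Φ (fun j ↦ r j k) ≠ 0 := by
    filter_upwards [hnv] with k hk h
    rw [hval, h, norm_zero] at hk
    have : 0 < c0 * (∏ j, ‖r j k - (t j : ℂ)‖) ^ M0 := by
      have h1 : 0 < ∏ j, ‖r j k - (t j : ℂ)‖ := Finset.prod_pos fun j _ ↦ by
        rw [hnorm]; exact (hp1 k j).1
      positivity
    linarith
  -- upper bound
  have hup : ∃ L : ℝ, 0 < L ∧ ∀ᶠ k in atTop,
      ‖ev a b c d Φ (fun j ↦ r j k)‖ ≤ L * Real.exp (-(q k : ℝ) ^ κ) := by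
    have h1 := ev_upper a b c d t hpos Φ h0
    have h2 : Tendsto (fun k ↦ fun j ↦ r j k) atTop (𝓝 (fun j ↦ (t j : ℂ))) :=
      tendsto_pi_nhds.mpr hr0
    obtain ⟨L, hL, hb⟩ := (h1.comp_tendsto h2).exists_pos
    rw [IsBigOWith] at hb
    refine ⟨L, hL, ?_⟩
    filter_upwards [hb] with k hk
    refine hk.trans ?_
    gcongr
    refine (pi_norm_le_iff_of_nonneg (Real.exp_pos _).le).mpr fun j ↦ ?_
    change ‖r j k - (t j : ℂ)‖ ≤ _
    rw [hnorm]
    exact (hp1 k j).2.le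
  obtain ⟨L, hL, hup⟩ := hup
  -- Liouville bound
  obtain ⟨C1, hC1, hliou⟩ := app_final hΦ
  obtain ⟨Δ, hΔ, hden⟩ := exists_den a b c d
  choose A B C D hA hB hC hD using hden
  have hexC : ∃ C' : ℕ, 2 ≤ C' ∧ (∀ j, |t j| + 1 ≤ C') ∧
      ∀ j, (|(C j : ℝ)| + |(D j : ℝ)| * (|t j| + 1)) * Δ ≤ C' := by
    obtain ⟨C', hC'⟩ := exists_nat_ge (2 + (∑ j, (|t j| + 1)) +
      ∑ j, (|(C j : ℝ)| + |(D j : ℝ)| * (|t j| + 1)) * Δ)
    have hs1 : 0 ≤ ∑ j, (|t j| + 1) := Finset.sum_nonneg fun j _ ↦ by positivity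
    have hs2 : 0 ≤ ∑ j, (|(C j : ℝ)| + |(D j : ℝ)| * (|t j| + 1)) * Δ :=
      Finset.sum_nonneg fun j _ ↦ by positivity
    refine ⟨C', ?_, fun j ↦ ?_, fun j ↦ ?_⟩
    · have : (2 : ℝ) ≤ C' := by linarith
      exact_mod_cast this
    · have := Finset.single_le_sum (f := fun j ↦ |t j| + 1) (fun i _ ↦ by positivity)
        (Finset.mem_univ j)
      linarith
    · have := Finset.single_le_sum
        (f := fun j ↦ (|(C j : ℝ)| + |(D j : ℝ)| * (|t j| + 1)) * Δ) (fun i _ ↦ by positivity)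
        (Finset.mem_univ j)
      linarith
  obtain ⟨C', hC'2, hC't, hC'N⟩ := hexC
  have hlow : ∀ᶠ k in atTop, Real.exp (-(C1 * Real.log ((C' : ℝ) * (q k : ℝ) ^ 2) *
      ((C' : ℝ) * (q k : ℝ) ^ 2 * (1 + Real.log ((C' : ℝ) * (q k : ℝ) ^ 2))) ^ n)) ≤
      ‖ev a b c d Φ (fun j ↦ r j k)‖ := by
    have hposev : ∀ᶠ k in atTop, ∀ j, 0 < (c j : ℝ) + d j * ((p k j : ℝ) / (q k : ℝ)) := by
      rw [Filter.eventually_all]
      intro j
      have h1 : Tendsto (fun k ↦ (c j : ℝ) + d j * rr j k) atTop (𝓝 ((c j : ℝ) + d j * t j)) :=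
        ((hrr0 j).const_mul _).const_add _
      exact h1.eventually_const_lt (hpos j)
    filter_upwards [hposev, hevne, eventually_ge_atTop 1] with k hk1 hk2 hk3
    have hq1 : 1 ≤ q k := hk3.trans (hq k)
    have hq0 : 0 < q k := hq1
    choose M N hN0 hMN hNeq hDD using fun j ↦
      exists_M hΔ (hA j) (hB j) (hC j) (hD j) hq0 (p k j) (hk1 j)
    set Q : ℕ := C' * q k ^ 2 with hQ
    have hqR : (1 : ℝ) ≤ q k := by exact_mod_cast hq1
    have hQR : (Q : ℝ) = (C' : ℝ) * (q k : ℝ) ^ 2 := by rw [hQ]; push_cast; rfl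
    have hC'R : (2 : ℝ) ≤ C' := by exact_mod_cast hC'2
    have hqQ : (q k : ℝ) ^ 2 ≤ Q := by
      rw [hQR]
      have : 0 ≤ (q k : ℝ) ^ 2 := by positivity
      nlinarith
    have hQ2 : 2 ≤ Q := by
      have h1 : (1 : ℝ) ≤ (q k : ℝ) ^ 2 := one_le_pow₀ hqR
      have : (2 : ℝ) ≤ Q := by rw [hQR]; nlinarith
      exact_mod_cast this
    have hqleQ : q k ≤ Q := by
      have : (q k : ℝ) ≤ Q := by nlinarith
      exact_mod_cast this
    have hpb : ∀ j, |(p k j : ℝ)| ≤ (|t j| + 1) * q k := fun j ↦ by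
      have h1 := hδ1 j k
      have h2 : |(p k j : ℝ) / q k| ≤ |t j| + 1 := by
        have h3 : (p k j : ℝ) / q k = t j - (t j - (p k j : ℝ) / q k) := by ring
        rw [h3]
        exact (abs_sub _ _).trans (add_le_add le_rfl h1)
      have h4 : |(p k j : ℝ)| = |(p k j : ℝ) / q k| * q k := by
        rw [abs_div, abs_of_pos (by linarith : (0 : ℝ) < q k)]
        field_simp
      rw [h4]
      gcongr
    have hpQ : ∀ j, |p k j| ≤ (Q : ℤ) := fun j ↦ by
      have : |(p k j : ℝ)| ≤ (Q : ℝ) := by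
        refine (hpb j).trans ?_
        rw [hQR]
        have h1 := hC't j
        have h2 : (q k : ℝ) ≤ (q k : ℝ) ^ 2 := by nlinarith
        have h3 : (|t j| + 1) * (q k : ℝ) ≤ C' * (q k : ℝ) ^ 2 := by gcongr
        exact h3
      exact_mod_cast this
    have hNQ : ∀ j, N j ≤ Q := fun j ↦ by
      have h1 : (N j : ℝ) = ((C j : ℝ) * q k + D j * p k j) * (Δ * q k) := by
        have := hNeq j
        exact_mod_cast congrArg (Int.cast : ℤ → ℝ) this
      have h2 : (C j : ℝ) * q k + D j * p k j ≤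
          (|(C j : ℝ)| + |(D j : ℝ)| * (|t j| + 1)) * q k := by
        have h3 : (C j : ℝ) * q k ≤ |(C j : ℝ)| * q k := by gcongr; exact le_abs_self _
        have h4 : (D j : ℝ) * p k j ≤ |(D j : ℝ)| * ((|t j| + 1) * q k) := by
          calc (D j : ℝ) * p k j ≤ |(D j : ℝ) * p k j| := le_abs_self _
            _ = |(D j : ℝ)| * |(p k j : ℝ)| := abs_mul _ _
            _ ≤ _ := by gcongr; exact hpb j
        nlinarith
      have h5 : (N j : ℝ) ≤ Q := by
        rw [h1, hQR]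
        have h6 := hC'N j
        calc ((C j : ℝ) * q k + D j * p k j) * (Δ * q k) ≤
            ((|(C j : ℝ)| + |(D j : ℝ)| * (|t j| + 1)) * q k) * (Δ * q k) := by gcongr
          _ = ((|(C j : ℝ)| + |(D j : ℝ)| * (|t j| + 1)) * Δ) * (q k : ℝ) ^ 2 := by ring
          _ ≤ C' * (q k : ℝ) ^ 2 := by gcongr
      exact_mod_cast h5
    have hevv : ev a b c d Φ (fun j ↦ r j k) = aeval (val (q k) (p k) M) Φ := by
      unfold ev val
      congr 1
      congr 1
      ext x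
      exact hDD x.1 x.2
    have hv := hliou Q (q k) (p k) N M hQ2 hq1 hqleQ hpQ hN0 hNQ hMN (by rw [← hevv]; exact hk2)
    rw [hevv]
    refine le_trans ?_ hv
    apply Real.exp_le_exp.mpr
    rw [hQR]
    have hlog0 : 0 ≤ Real.log ((C' : ℝ) * (q k : ℝ) ^ 2) := by
      apply Real.log_nonneg
      rw [← hQR]
      exact_mod_cast (by omega : 1 ≤ Q)
    have hprod : ∏ j, ((SN (N j)).card : ℝ) ≤
        ((C' : ℝ) * (q k : ℝ) ^ 2 * (1 + Real.log ((C' : ℝ) * (q k : ℝ) ^ 2))) ^ n := by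
      calc ∏ j, ((SN (N j)).card : ℝ) ≤ ∏ _j : Fin n,
            ((C' : ℝ) * (q k : ℝ) ^ 2 * (1 + Real.log ((C' : ℝ) * (q k : ℝ) ^ 2))) := by
            refine Finset.prod_le_prod (fun _ _ ↦ by positivity) fun j _ ↦ ?_
            refine (card_SN (hN0 j)).trans ?_
            have h1 : (1 : ℝ) ≤ N j := by exact_mod_cast hN0 j
            have h2 : (N j : ℝ) ≤ (C' : ℝ) * (q k : ℝ) ^ 2 := by
              rw [← hQR]; exact_mod_cast hNQ j
            have h3 : Real.log (N j) ≤ Real.log ((C' : ℝ) * (q k : ℝ) ^ 2) :=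
              Real.log_le_log (by linarith) h2
            have h4 : 0 ≤ Real.log (N j) := Real.log_nonneg h1
            gcongr
        _ = _ := by rw [Finset.prod_const, Finset.card_univ, Fintype.card_fin]
    have : C1 * Real.log ((C' : ℝ) * (q k : ℝ) ^ 2) * ∏ j, ((SN (N j)).card : ℝ) ≤
        C1 * Real.log ((C' : ℝ) * (q k : ℝ) ^ 2) *
        ((C' : ℝ) * (q k : ℝ) ^ 2 * (1 + Real.log ((C' : ℝ) * (q k : ℝ) ^ 2))) ^ n := by
      gcongr
    linarith
  -- comparison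
  have hC'1 : (1 : ℝ) ≤ C' := by
    have : (2 : ℝ) ≤ C' := by exact_mod_cast hC'2
    linarith
  have hgr := hqtop.eventually (growth C1 C' hC'1 n κ hκ)
  have hlogL : ∀ᶠ k in atTop, Real.log L < (q k : ℝ) ^ κ / 2 := by
    have h1 : Tendsto (fun k ↦ (q k : ℝ) ^ κ) atTop atTop := (tendsto_rpow_atTop hκ0).comp hqtop
    have h2 := h1.eventually_gt_atTop (2 * Real.log L)
    filter_upwards [h2] with k hk
    linarith
  obtain ⟨k, h1, h2, h3, h4⟩ := (hup.and (hlow.and (hgr.and hlogL))).exists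
  have h5 := h2.trans h1
  have h6 : L * Real.exp (-(q k : ℝ) ^ κ) = Real.exp (Real.log L - (q k : ℝ) ^ κ) := by
    rw [sub_eq_add_neg, Real.exp_add, Real.exp_log hL]
  rw [h6, Real.exp_le_exp] at h5
  linarith

end H32
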