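import Pool.Agent.H32.G4
import Pool.Agent.H32.MultiVar
import Pool.Agent.H32.Growth

/-!
# The core theorem for general tuples
-/

open UpperHalfPlane hiding I
open Complex EisensteinSeries ModularForm MatrixGroups Manifold
open scoped Real Topology
open Filter Asymptotics MvPolynomial

namespace H32

variable {m n : ℕ}

lemma analytic_lf (α : Fin (m + 1) → ℂ) (s : Fin m → ℂ) : AnalyticAt ℂ (lf α) s := by
  unfold lf lin
  refine analyticAt_const.fun_add (Finset.analyticAt_fun_sum _ fun k _ ↦ ?_)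
  exact analyticAt_const.fun_mul ((ContinuousLinearMap.proj (R := ℂ) (φ := fun _ : Fin m ↦ ℂ) k).analyticAt s)

lemma analytic_eval (P : MvPolynomial (Fin m) ℂ) (s : Fin m → ℂ) :
    AnalyticAt ℂ (fun s ↦ eval s P) s := by
  have h1 : AnalyticAt ℂ (fun s : Fin m → ℂ ↦ aeval (fun k ↦ s k) P) s :=
    AnalyticAt.aeval_mvPolynomial
      (fun k ↦ (ContinuousLinearMap.proj (R := ℂ) (φ := fun _ : Fin m ↦ ℂ) k).analyticAt s) P
  exact h1

lemma analytic_DM (A B : Fin n → Fin (m + 1) → ℂ) (Y R : Fin n → MvPolynomial (Fin m) ℂ)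
    (s : Fin m → ℂ) (him : ∀ j, 0 < (lf (A j) s / lf (B j) s).im) (hY : ∀ j, eval s (Y j) ≠ 0)
    (x : Fin m ⊕ Fin n × Fin 3) : AnalyticAt ℂ (fun s ↦ DM A B Y R s x) s := by
  rcases x with k | ⟨j, l⟩
  · exact (ContinuousLinearMap.proj (R := ℂ) (φ := fun _ : Fin m ↦ ℂ) k).analyticAt s
  · have hB : lf (B j) s ≠ 0 := by
      intro h0
      have h1 := him j
      rw [h0, div_zero] at h1
      simp at h1
    have hz : AnalyticAt ℂ (fun s ↦ lf (A j) s / lf (B j) s) s :=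
      (analytic_lf (A j) s).fun_div (analytic_lf (B j) s) hB
    have h2 : AnalyticAt ℂ (fun s ↦ e2 (lf (A j) s / lf (B j) s)) s :=
      AnalyticAt.fun_comp (g := e2) (f := fun s ↦ lf (A j) s / lf (B j) s) (analytic_E2 _ (him j)) hz
    have h4 : AnalyticAt ℂ (fun s ↦ e4 (lf (A j) s / lf (B j) s)) s :=
      AnalyticAt.fun_comp (g := e4) (f := fun s ↦ lf (A j) s / lf (B j) s) (analytic_E4 _ (him j)) hz
    have h6 : AnalyticAt ℂ (fun s ↦ e6 (lf (A j) s / lf (B j) s)) s :=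
      AnalyticAt.fun_comp (g := e6) (f := fun s ↦ lf (A j) s / lf (B j) s) (analytic_E6 _ (him j)) hz
    have hpi : (π : ℂ) ≠ 0 := by exact_mod_cast Real.pi_ne_zero
    have h3 : AnalyticAt ℂ (fun s ↦ 3 * eval s (R j) / (π * eval s (Y j))) s :=
      (analyticAt_const.fun_mul (analytic_eval (R j) s)).fun_div
        (analyticAt_const.fun_mul (analytic_eval (Y j) s)) (mul_ne_zero hpi (hY j))
    fin_cases l
    · exact h2.fun_sub h3
    · exact h4
    · exact h6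

lemma norm_gv_le (α : Fin (m + 1) → GaussianInt) {q : ℕ} (p : Fin m → ℤ) {T : ℝ}
    (hq : (q : ℝ) ≤ T) (hp : ∀ k, |(p k : ℝ)| ≤ T) :
    ‖GaussianInt.toComplex (gv α q p)‖ ≤ (∑ k, ‖gc α k‖) * T := by
  unfold gv
  simp only [map_add, map_mul, map_sum, map_natCast, map_intCast]
  rw [Fin.sum_univ_succ, add_mul, Finset.sum_mul]
  refine (norm_add_le _ _).trans (add_le_add ?_ ((norm_sum_le _ _).trans
    (Finset.sum_le_sum fun k _ ↦ ?_)))
  · rw [norm_mul, Complex.norm_natCast]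
    exact mul_le_mul_of_nonneg_left hq (norm_nonneg _)
  · rw [norm_mul, Complex.norm_intCast]
    exact mul_le_mul_of_nonneg_left (hp k) (norm_nonneg _)

lemma N_le {v u : GaussianInt} {N : ℕ} (h : (N : ℤ) = v.im * u.re - v.re * u.im) :
    (N : ℝ) ≤ ‖GaussianInt.toComplex v‖ * ‖GaussianInt.toComplex u‖ := by
  have h3 : (N : ℝ) = (v.im : ℝ) * u.re - v.re * u.im := by
    have h4 : ((N : ℤ) : ℝ) = ((v.im * u.re - v.re * u.im : ℤ) : ℝ) := congrArg _ h
    push_cast at h4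
    exact h4
  have h1 : (N : ℝ) = (GaussianInt.toComplex v *
      (starRingEnd ℂ) (GaussianInt.toComplex u)).im := by
    rw [h3]
    simp only [Complex.mul_im, Complex.conj_re, Complex.conj_im]
    rw [← GaussianInt.intCast_re, ← GaussianInt.intCast_re, ← GaussianInt.intCast_im,
      ← GaussianInt.intCast_im]
    ring
  rw [h1]
  refine (Complex.im_le_norm _).trans ?_
  rw [norm_mul, Complex.norm_conj]

theorem core2 (α β : Fin n → Fin (m + 1) → GaussianInt) (t : Fin m → ℝ) (κ : ℝ) (hκ : 2 * n < κ)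
    (him : ∀ j, 0 < (lf (gc (α j)) (fun k ↦ (t k : ℂ)) / lf (gc (β j)) (fun k ↦ (t k : ℂ))).im)
    (hFT : ∀ P : MvPolynomial (Fin m ⊕ Fin n × Fin 3) ℂ,
      (∀ᶠ s in 𝓝 (fun k ↦ (t k : ℂ)), aeval (DM (fun j ↦ gc (α j)) (fun j ↦ gc (β j))
        (fun j ↦ Yp (α j) (β j)) (fun j ↦ Rp (β j)) s) P = 0) → P = 0)
    (happ : ∀ K : ℕ, ∃ q : ℕ, K ≤ q ∧ ∃ p : Fin m → ℤ,
      (∀ k, 0 < |t k - p k / q| ∧ |t k - p k / q| < Real.exp (-(q : ℝ) ^ κ)) ∧
      ∀ j k, j < k → |t j - p j / q| < |t k - p k / q| ^ K)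
    (Φ : MvPolynomial (Fin m ⊕ Fin n × Fin 3) ℤ) (W : ℕ) (hΦ : IsWeightedHomogeneous wtS Φ W)
    (hne : Φ ≠ 0) :
    aeval (DM (fun j ↦ gc (α j)) (fun j ↦ gc (β j))
        (fun j ↦ Yp (α j) (β j)) (fun j ↦ Rp (β j)) (fun k ↦ (t k : ℂ))) Φ ≠ 0 := by
  intro h0
  have hκ0 : 0 < κ := by
    have : (0 : ℝ) ≤ 2 * n := by positivity
    linarith
  set DD' : (Fin m → ℂ) → Fin m ⊕ Fin n × Fin 3 → ℂ := DM (fun j ↦ gc (α j)) (fun j ↦ gc (β j))
    (fun j ↦ Yp (α j) (β j)) (fun j ↦ Rp (β j)) with hDD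
  set F : (Fin m → ℂ) → ℂ := fun s ↦ aeval (DD' s) Φ with hF
  set tc : Fin m → ℂ := fun k ↦ (t k : ℂ) with htc
  have hY : ∀ j, eval tc (Yp (α j) (β j)) ≠ 0 := fun j ↦ Yp_ne (him j)
  have hFana : AnalyticAt ℂ F tc :=
    AnalyticAt.aeval_mvPolynomial (fun x ↦ analytic_DM _ _ _ _ tc him hY x) Φ
  have hFne : ¬ ∀ᶠ s in 𝓝 tc, F s = 0 := by
    intro h
    have hΦC : map (Int.castRingHom ℂ) Φ ≠ 0 := fun h ↦ hne
      (MvPolynomial.map_injective _ Int.cast_injective (by rw [h, map_zero]))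
    apply hΦC
    apply hFT
    filter_upwards [h] with s hs
    rw [aeval_def, eval₂_map]
    exact hs
  choose q hq p hp1 hp2 using happ
  have hqtop : Tendsto (fun k ↦ (q k : ℝ)) atTop atTop :=
    tendsto_natCast_atTop_atTop.comp (tendsto_atTop_mono hq tendsto_id)
  have hexp : Tendsto (fun k ↦ Real.exp (-(q k : ℝ) ^ κ)) atTop (𝓝 0) := by
    have h1 : Tendsto (fun k ↦ (q k : ℝ) ^ κ) atTop atTop := (tendsto_rpow_atTop hκ0).comp hqtop
    exact Real.tendsto_exp_neg_atTop_nhds_zero.comp h1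
  have hexp1 : ∀ k, Real.exp (-(q k : ℝ) ^ κ) ≤ 1 := fun k ↦ by
    apply Real.exp_le_one_iff.mpr
    have : 0 ≤ (q k : ℝ) ^ κ := by positivity
    linarith
  set rr : ℕ → Fin m → ℝ := fun k j ↦ (p k j : ℝ) / (q k : ℝ) with hrr
  set δ : Fin m → ℕ → ℝ := fun j k ↦ |t j - (p k j : ℝ) / (q k : ℝ)| with hδ
  have hδ1 : ∀ j k, δ j k ≤ 1 := fun j k ↦ ((hp1 k j).2.le).trans (hexp1 k)
  have hδ0 : ∀ j, Tendsto (δ j) atTop (𝓝 0) := fun j ↦
    squeeze_zero (fun k ↦ abs_nonneg _) (fun k ↦ (hp1 k j).2.le) hexp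
  have hrr0 : ∀ j, Tendsto (fun k ↦ rr k j) atTop (𝓝 (t j)) := fun j ↦ by
    rw [tendsto_iff_norm_sub_tendsto_zero]
    refine (hδ0 j).congr fun k ↦ ?_
    rw [Real.norm_eq_abs, abs_sub_comm]
  set r : ℕ → Fin m → ℂ := fun k j ↦ (rr k j : ℂ) with hr
  have hr0 : Tendsto r atTop (𝓝 tc) := tendsto_pi_nhds.mpr fun j ↦
    (Complex.continuous_ofReal.tendsto _).comp (hrr0 j)
  have hnorm : ∀ j k, ‖r k j - tc j‖ = δ j k := fun j k ↦ by
    rw [hr, htc]
    simp only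
    rw [← Complex.ofReal_sub, Complex.norm_real, Real.norm_eq_abs, abs_sub_comm]
  -- nonvanishing
  obtain ⟨c0, hc0, M0, hnv⟩ := nonvanish_multi m F tc r hFana hFne hr0 (fun C ↦ by
    filter_upwards [eventually_ge_atTop C] with k hk i j hij
    rw [hnorm, hnorm]
    calc δ i k ≤ δ j k ^ k := (hp2 k i j hij).le
      _ ≤ δ j k ^ C := pow_le_pow_of_le_one (abs_nonneg _) (hδ1 j k) hk)
  have hevne : ∀ᶠ k in atTop, F (r k) ≠ 0 := by
    filter_upwards [hnv] with k hk h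
    rw [h, norm_zero] at hk
    have : 0 < c0 * (∏ j, ‖r k j - tc j‖) ^ M0 := by
      have h1 : 0 < ∏ j, ‖r k j - tc j‖ := Finset.prod_pos fun j _ ↦ by
        rw [hnorm]; exact (hp1 k j).1
      positivity
    linarith
  -- upper bound
  have hup : ∃ L : ℝ, 0 < L ∧ ∀ᶠ k in atTop, ‖F (r k)‖ ≤ L * Real.exp (-(q k : ℝ) ^ κ) := by
    have h1 := hFana.differentiableAt.isBigO_sub
    have h2 : (fun s ↦ F s) =O[𝓝 tc] fun s ↦ s - tc := by
      refine h1.congr_left fun s ↦ ?_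
      have : F tc = 0 := h0
      rw [this, sub_zero]
    obtain ⟨L, hL, hb⟩ := (h2.comp_tendsto hr0).exists_pos
    rw [IsBigOWith] at hb
    refine ⟨L, hL, ?_⟩
    filter_upwards [hb] with k hk
    refine hk.trans ?_
    gcongr
    refine (pi_norm_le_iff_of_nonneg (Real.exp_pos _).le).mpr fun j ↦ ?_
    change ‖r k j - tc j‖ ≤ _
    rw [hnorm]
    exact (hp1 k j).2.le
  obtain ⟨L, hL, hup⟩ := hup
  -- Liouville bound
  obtain ⟨C1, hC1, hliou⟩ := app_finalG hΦ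
  set T : ℝ := 1 + ∑ j, (|t j| + 1) with hT
  have hT1 : 1 ≤ T := by
    have : 0 ≤ ∑ j, (|t j| + 1) := Finset.sum_nonneg fun j _ ↦ by positivity
    linarith
  have hTj : ∀ j, |t j| + 1 ≤ T := fun j ↦ by
    have := Finset.single_le_sum (f := fun j ↦ |t j| + 1) (fun i _ ↦ by positivity)
      (Finset.mem_univ j)
    linarith
  set c : ℝ := (1 + ∑ j, (∑ k, ‖gc (α j) k‖) + ∑ j, (∑ k, ‖gc (β j) k‖)) * T with hc
  have hs1 : 0 ≤ ∑ j, (∑ k, ‖gc (α j) k‖) :=
    Finset.sum_nonneg fun j _ ↦ Finset.sum_nonneg fun k _ ↦ norm_nonneg _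
  have hs2 : 0 ≤ ∑ j, (∑ k, ‖gc (β j) k‖) :=
    Finset.sum_nonneg fun j _ ↦ Finset.sum_nonneg fun k _ ↦ norm_nonneg _
  have hc1 : 1 ≤ c := one_le_mul_of_one_le_of_one_le (by linarith) hT1
  have hTc : T ≤ c := le_mul_of_one_le_left (by linarith) (by linarith)
  have hcα : ∀ j, (∑ k, ‖gc (α j) k‖) * T ≤ c := fun j ↦ by
    have := Finset.single_le_sum (f := fun j ↦ ∑ k, ‖gc (α j) k‖)
      (fun i _ ↦ Finset.sum_nonneg fun k _ ↦ norm_nonneg _) (Finset.mem_univ j)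
    rw [hc]
    gcongr
    linarith
  have hcβ : ∀ j, (∑ k, ‖gc (β j) k‖) * T ≤ c := fun j ↦ by
    have := Finset.single_le_sum (f := fun j ↦ ∑ k, ‖gc (β j) k‖)
      (fun i _ ↦ Finset.sum_nonneg fun k _ ↦ norm_nonneg _) (Finset.mem_univ j)
    rw [hc]
    gcongr
    linarith
  obtain ⟨C', hC'⟩ := exists_nat_ge (2 + c ^ 2)
  have hcsq : c ≤ c ^ 2 := le_self_pow₀ hc1 two_ne_zero
  have hC'2 : (2 : ℝ) ≤ C' := by linarith [sq_nonneg c]
  have hC'c : c ≤ C' := by linarith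
  have hC'cc : c ^ 2 ≤ C' := by linarith
  have hlow : ∀ᶠ k in atTop, Real.exp (-(C1 * Real.log ((C' : ℝ) * (q k : ℝ) ^ 2) *
      ((C' : ℝ) * (q k : ℝ) ^ 2 * (1 + Real.log ((C' : ℝ) * (q k : ℝ) ^ 2))) ^ n)) ≤
      ‖F (r k)‖ := by
    have hposev : ∀ᶠ k in atTop, ∀ j, 0 < (lf (gc (α j)) (r k) / lf (gc (β j)) (r k)).im := by
      rw [Filter.eventually_all]
      intro j
      have hcont : ContinuousAt (fun s ↦ (lf (gc (α j)) s / lf (gc (β j)) s).im) tc :=
        Complex.continuous_im.continuousAt.comp ((continuous_lf _).continuousAt.div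
          (continuous_lf _).continuousAt (den_ne_of_im (him j)))
      have h1 : ∀ᶠ s in 𝓝 tc, 0 < (lf (gc (α j)) s / lf (gc (β j)) s).im :=
        hcont.eventually_const_lt (him j)
      exact hr0.eventually h1
    filter_upwards [hposev, hevne, eventually_ge_atTop 1] with k hk1 hk2 hk3
    have hq1 : 1 ≤ q k := hk3.trans (hq k)
    have hq0 : 0 < q k := hq1
    obtain ⟨M, N, hN0, hMN, hNeq, hDMval⟩ := DM_val α β hq0 (p k) hk1
    set Q : ℕ := C' * q k ^ 2 with hQ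
    have hqR : (1 : ℝ) ≤ q k := by exact_mod_cast hq1
    have hqR2 : (q k : ℝ) ≤ (q k : ℝ) ^ 2 := le_self_pow₀ hqR two_ne_zero
    have hQR : (Q : ℝ) = (C' : ℝ) * (q k : ℝ) ^ 2 := by rw [hQ]; push_cast; rfl
    have hcqQ : c * (q k : ℝ) ≤ Q := by
      rw [hQR]
      have : 0 ≤ c := by linarith
      gcongr
    have hQ2 : 2 ≤ Q := by
      have h1 : (1 : ℝ) ≤ (q k : ℝ) ^ 2 := one_le_pow₀ hqR
      have : (2 : ℝ) ≤ Q := by
        rw [hQR]
        exact hC'2.trans (le_mul_of_one_le_right (by linarith) h1)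
      exact_mod_cast this
    have hqleQ : q k ≤ Q := by
      have : (q k : ℝ) ≤ Q := (le_mul_of_one_le_left (by linarith) hc1).trans hcqQ
      exact_mod_cast this
    have hpb : ∀ j, |(p k j : ℝ)| ≤ T * q k := fun j ↦ by
      have h1 := hδ1 j k
      have h2 : |(p k j : ℝ) / q k| ≤ |t j| + 1 := by
        have h3 : (p k j : ℝ) / q k = t j - (t j - (p k j : ℝ) / q k) := by ring
        rw [h3]
        exact (abs_sub _ _).trans (add_le_add le_rfl h1)
      have h4 : |(p k j : ℝ)| = |(p k j : ℝ) / q k| * q k := by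
        rw [abs_div, abs_of_pos (by linarith : (0 : ℝ) < q k)]
        field_simp
      rw [h4]
      gcongr
      exact h2.trans (hTj j)
    have hqb : (q k : ℝ) ≤ T * q k := le_mul_of_one_le_left (by linarith) hT1
    have hpQ : ∀ j, |p k j| ≤ (Q : ℤ) := fun j ↦ by
      have : |(p k j : ℝ)| ≤ (Q : ℝ) := by
        refine (hpb j).trans (le_trans ?_ hcqQ)
        gcongr
      exact_mod_cast this
    have huα : ∀ j, ‖GaussianInt.toComplex (gv (α j) (q k) (p k))‖ ≤ c * q k := fun j ↦ by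
      refine (norm_gv_le (α j) (p k) hqb hpb).trans ?_
      rw [← mul_assoc]
      gcongr
      exact hcα j
    have huβ : ∀ j, ‖GaussianInt.toComplex (gv (β j) (q k) (p k))‖ ≤ c * q k := fun j ↦ by
      refine (norm_gv_le (β j) (p k) hqb hpb).trans ?_
      rw [← mul_assoc]
      gcongr
      exact hcβ j
    have hNQ : ∀ j, N j ≤ Q := fun j ↦ by
      have h4 : (N j : ℝ) ≤ Q := by
        rw [hQR]
        refine (N_le (hNeq j)).trans ?_
        calc ‖GaussianInt.toComplex (gv (α j) (q k) (p k))‖ *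
              ‖GaussianInt.toComplex (gv (β j) (q k) (p k))‖ ≤ (c * q k) * (c * q k) :=
              mul_le_mul (huα j) (huβ j) (norm_nonneg _) (by positivity)
          _ = c ^ 2 * (q k : ℝ) ^ 2 := by ring
          _ ≤ _ := by gcongr
      exact_mod_cast h4
    have hFv : F (r k) = aeval (valG (q k) (p k) (fun j ↦ gv (β j) (q k) (p k)) N M) Φ := by
      rw [hF, ← hDMval]
    have hv := hliou Q (q k) (p k) (fun j ↦ gv (β j) (q k) (p k)) N M hQ2 hq1 hqleQ hpQ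
      (fun j ↦ (huβ j).trans hcqQ) hN0 hNQ hMN (by rw [← hFv]; exact hk2)
    rw [hFv]
    refine le_trans ?_ hv
    apply Real.exp_le_exp.mpr
    rw [hQR]
    have hlog0 : 0 ≤ Real.log ((C' : ℝ) * (q k : ℝ) ^ 2) := by
      apply Real.log_nonneg
      rw [← hQR]
      exact_mod_cast (by omega : 1 ≤ Q)
    have hprod : ∏ j, ((SN (N j)).card : ℝ) ≤
        ((C' : ℝ) * (q k : ℝ) ^ 2 * (1 + Real.log ((C' : ℝ) * (q k : ℝ) ^ 2))) ^ n := by
      calc ∏ j, ((SN (N j)).card : ℝ) ≤ ∏ _j : Fin n,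
            ((C' : ℝ) * (q k : ℝ) ^ 2 * (1 + Real.log ((C' : ℝ) * (q k : ℝ) ^ 2))) := by
            refine Finset.prod_le_prod (fun _ _ ↦ by positivity) fun j _ ↦ ?_
            refine (card_SN (hN0 j)).trans ?_
            have h1 : (1 : ℝ) ≤ N j := by exact_mod_cast hN0 j
            have h2 : (N j : ℝ) ≤ (C' : ℝ) * (q k : ℝ) ^ 2 := by
              rw [← hQR]; exact_mod_cast hNQ j
            have h3 : Real.log (N j) ≤ Real.log ((C' : ℝ) * (q k : ℝ) ^ 2) :=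
              Real.log_le_log (by linarith) h2
            have h4 : 0 ≤ Real.log (N j) := Real.log_nonneg h1
            gcongr
        _ = _ := by rw [Finset.prod_const, Finset.card_univ, Fintype.card_fin]
    have : C1 * Real.log ((C' : ℝ) * (q k : ℝ) ^ 2) * ∏ j, ((SN (N j)).card : ℝ) ≤
        C1 * Real.log ((C' : ℝ) * (q k : ℝ) ^ 2) *
        ((C' : ℝ) * (q k : ℝ) ^ 2 * (1 + Real.log ((C' : ℝ) * (q k : ℝ) ^ 2))) ^ n := by
      gcongr
    linarith
  -- comparison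
  have hC'1 : (1 : ℝ) ≤ C' := by linarith
  have hgr := hqtop.eventually (growth C1 C' hC'1 n κ hκ)
  have hlogL : ∀ᶠ k in atTop, Real.log L < (q k : ℝ) ^ κ / 2 := by
    have h1 : Tendsto (fun k ↦ (q k : ℝ) ^ κ) atTop atTop := (tendsto_rpow_atTop hκ0).comp hqtop
    have h2 := h1.eventually_gt_atTop (2 * Real.log L)
    filter_upwards [h2] with k hk
    linarith
  obtain ⟨k, h1, h2, h3, h4⟩ := (hup.and (hlow.and (hgr.and hlogL))).exists
  have h5 := h2.trans h1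
  have h6 : L * Real.exp (-(q k : ℝ) ^ κ) = Real.exp (Real.log L - (q k : ℝ) ^ κ) := by
    rw [sub_eq_add_neg, Real.exp_add, Real.exp_log hL]
  rw [h6, Real.exp_le_exp] at h5
  linarith

end H32
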