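import Mathlib

open UpperHalfPlane hiding I
open Complex EisensteinSeries ModularForm MatrixGroups
open scoped Real

namespace H32

/-- The almost holomorphic weight two Eisenstein series. -/
noncomputable def E2s (τ : ℍ) : ℂ := EisensteinSeries.E2 τ - 3 / (π * (τ.im : ℂ))

lemma E2_smul (γ : SL(2, ℤ)) (τ : ℍ) :
    EisensteinSeries.E2 (γ • τ) = (denom γ τ) ^ 2 * EisensteinSeries.E2 τ
      - 6 * I / π * (γ 1 0 : ℂ) * denom γ τ := by
  have h := congrFun (EisensteinSeries.E2_slash_action γ) τ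
  have hd : denom (γ : GL (Fin 2) ℝ) τ ≠ 0 := denom_ne_zero _ τ
  have hpi : (π : ℂ) ≠ 0 := by exact_mod_cast Real.pi_ne_zero
  simp only [ModularForm.SL_slash_apply, Pi.sub_apply, Pi.smul_apply, EisensteinSeries.D2,
    riemannZeta_two, smul_eq_mul] at h
  rw [zpow_neg, ← div_eq_mul_inv, div_eq_iff (zpow_ne_zero _ hd)] at h
  rw [h]
  simp only [zpow_ofNat]
  field_simp

lemma E2s_smul (γ : SL(2, ℤ)) (τ : ℍ) :
    E2s (γ • τ) = (denom γ τ) ^ 2 * E2s τ := by
  have hd : denom (γ : GL (Fin 2) ℝ) τ ≠ 0 := denom_ne_zero _ τ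
  have hpi : (π : ℂ) ≠ 0 := by exact_mod_cast Real.pi_ne_zero
  have hy : (τ.im : ℂ) ≠ 0 := by exact_mod_cast τ.im_ne_zero
  have him : ((γ • τ).im : ℂ) = τ.im / (denom γ τ * (starRingEnd ℂ) (denom γ τ)) := by
    rw [ModularGroup.im_smul_eq_div_normSq]
    push_cast
    rw [Complex.normSq_eq_conj_mul_self]
    ring
  have hconj : (starRingEnd ℂ) (denom (γ : GL (Fin 2) ℝ) τ) = denom γ τ - 2 * I * τ.im * (γ 1 0 : ℂ) := by
    rw [ModularGroup.denom_apply]
    apply Complex.ext <;> simp <;> ring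
  have hc : (starRingEnd ℂ) (denom (γ : GL (Fin 2) ℝ) τ) ≠ 0 := by
    simpa using hd
  unfold E2s
  rw [E2_smul, him, hconj]
  rw [hconj] at hc
  field_simp
  ring_nf
  try simp [Complex.I_sq]
  try ring

end H32
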