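import Pool.Agent.H32.Geom

/-!
# Functional independence along a line
-/

open Complex Filter Metric
open scoped Topology

namespace H32

/-- The monomial in `e2, e4, e6` at a point. -/
noncomputable def mon (ν : Fin 3 → ℕ) (w : ℂ) : ℂ := e2 w ^ ν 0 * e4 w ^ ν 1 * e6 w ^ ν 2

lemma analytic_mon (ν : Fin 3 → ℕ) {w : ℂ} (hw : 0 < w.im) : AnalyticAt ℂ (mon ν) w := by
  have h2 : AnalyticAt ℂ e2 w := analytic_E2 w hw
  have h4 : AnalyticAt ℂ e4 w := analytic_E4 w hw
  have h6 : AnalyticAt ℂ e6 w := analytic_E6 w hw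
  exact ((h2.fun_pow _).fun_mul (h4.fun_pow _)).fun_mul (h6.fun_pow _)

lemma analytic_mon_ev (ν : Fin 3 → ℕ) {g : Mo} {s : ℂ} (hs : s ∈ g.D) :
    AnalyticAt ℂ (fun s ↦ mon ν (g.ev s)) s :=
  AnalyticAt.fun_comp (g := mon ν) (f := g.ev) (analytic_mon ν hs) (g.analytic_ev (g.den_ne hs))

theorem FT1 {ι T : Type*} [DecidableEq ι] (g : ι → Mo) (h0 : ∀ i, (0 : ℂ) ∈ (g i).D)
    (hfin : ∀ i j, i ≠ j → {s : ℂ | (g i).c * s + (g i).d ≠ 0 ∧
      (g j).c * s + (g j).d ≠ 0 ∧ ((g i).ev s).im = 0 ∧ ((g j).ev s).im = 0}.Finite)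
    (e : T → ι → Fin 3 → ℕ) (c : T → ℂ → ℂ) (hc : ∀ μ, AnalyticOnNhd ℂ (c μ) Set.univ) (k : ℕ) :
    ∀ (J : Finset ι) (_ : J.card = k) (S : Finset T)
      (_ : ∀ μ ∈ S, ∀ μ' ∈ S, (∀ j ∈ J, e μ j = e μ' j) → μ = μ')
      (_ : ∀ᶠ s in 𝓝 (0 : ℂ), ∑ μ ∈ S, c μ s * ∏ j ∈ J, mon (e μ j) ((g j).ev s) = 0),
      ∀ μ ∈ S, ∀ᶠ s in 𝓝 (0 : ℂ), c μ s = 0 := by
  classical
  induction k with
  | zero =>
    intro J hJ S hinj h μ hμ
    have hJe : J = ∅ := Finset.card_eq_zero.mp hJ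
    subst hJe
    have hS : S = {μ} := by
      ext μ'
      rw [Finset.mem_singleton]
      refine ⟨fun h' ↦ hinj μ' h' μ hμ (by simp), fun h' ↦ h' ▸ hμ⟩
    rw [hS] at h
    filter_upwards [h] with s hs
    simpa using hs
  | succ k ih =>
    intro J hJ S hinj h μ₀ hμ₀
    have hJne : J.Nonempty := by
      rw [← Finset.card_pos, hJ]; omega
    obtain ⟨j, hj, r, s₀, hd0, hev0, hs₀C, hexit⟩ :=
      exists_exit g J hJne (fun i _ ↦ h0 i) (fun i _ i' _ hii ↦ hfin i i' hii)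
    set U : Set ℂ := ⋂ i ∈ J, (g i).D with hU
    set U' : Set ℂ := ⋂ i ∈ J.erase j, (g i).D with hU'
    have hUo : IsOpen U := isOpen_biInter_finset fun i _ ↦ (g i).isOpen_D
    have hU'o : IsOpen U' := isOpen_biInter_finset fun i _ ↦ (g i).isOpen_D
    have h0U : (0 : ℂ) ∈ U := Set.mem_iInter₂.mpr fun i _ ↦ h0 i
    have h0U' : (0 : ℂ) ∈ U' := Set.mem_iInter₂.mpr fun i _ ↦ h0 i
    -- the whole sum vanishes on the component
    set F : ℂ → ℂ := fun s ↦ ∑ μ ∈ S, c μ s * ∏ j ∈ J, mon (e μ j) ((g j).ev s) with hF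
    have hFana : AnalyticOnNhd ℂ F U := by
      intro s hs
      refine Finset.analyticAt_fun_sum _ fun μ _ ↦ ?_
      refine (hc μ s trivial).fun_mul (Finset.analyticAt_fun_prod _ fun i hi ↦ ?_)
      exact analytic_mon_ev _ (Set.mem_iInter₂.mp hs i hi)
    have hF0 : Set.EqOn F 0 (connectedComponentIn U 0) :=
      (hFana.mono (connectedComponentIn_subset U 0)).eqOn_zero_of_preconnected_of_eventuallyEq_zero
        isPreconnected_connectedComponentIn (mem_connectedComponentIn h0U) h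
    -- the coefficients with respect to the point j
    set Cf : (Fin 3 → ℕ) → ℂ → ℂ := fun ν s ↦ ∑ μ ∈ S.filter (fun μ ↦ e μ j = ν),
      c μ s * ∏ i ∈ J.erase j, mon (e μ i) ((g i).ev s) with hCf
    have hCana : ∀ ν, AnalyticOnNhd ℂ (Cf ν) U' := by
      intro ν s hs
      refine Finset.analyticAt_fun_sum _ fun μ _ ↦ ?_
      refine (hc μ s trivial).fun_mul (Finset.analyticAt_fun_prod _ fun i hi ↦ ?_)
      exact analytic_mon_ev _ (Set.mem_iInter₂.mp hs i hi)
    have hFC : ∀ s, F s = ∑ ν ∈ S.image (fun μ ↦ e μ j), Cf ν s * mon ν ((g j).ev s) := by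
      intro s
      rw [hF]
      simp only
      rw [← Finset.sum_fiberwise_of_maps_to (t := S.image (fun μ ↦ e μ j)) (g := fun μ ↦ e μ j)
        (fun μ hμ ↦ Finset.mem_image_of_mem _ hμ)]
      refine Finset.sum_congr rfl fun ν _ ↦ ?_
      rw [hCf]
      simp only
      rw [Finset.sum_mul]
      refine Finset.sum_congr rfl fun μ hμ ↦ ?_
      rw [← Finset.prod_erase_mul J _ hj, (Finset.mem_filter.mp hμ).2]
      ring
    have hs₀U' : s₀ ∈ U' := connectedComponentIn_subset U' 0 hs₀C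
    have hsub : (g j).a - (g j).c * (r : ℂ) ≠ 0 := by
      rw [← hev0]; exact (g j).sub_ne hd0
    have hiv0 : (g j).iv r = s₀ := by rw [← hev0]; exact (g j).iv_ev hd0
    have hivana := (g j).analytic_iv hsub
    have hbd := boundary (S := S.image (fun μ ↦ e μ j)) (r := r)
      (c := fun ν w ↦ Cf ν ((g j).iv w)) (fun ν _ ↦ by
        refine AnalyticAt.fun_comp (g := Cf ν) (f := (g j).iv) ?_ hivana
        rw [hiv0]
        exact hCana ν s₀ hs₀U') (by
        have h1 : ∀ᶠ w in 𝓝 (r : ℂ), 0 < ((g j).ev ((g j).iv w)).im →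
            (g j).iv w ∈ connectedComponentIn U 0 := by
          have h2 : Tendsto (g j).iv (𝓝 (r : ℂ)) (𝓝 s₀) := by
            have := hivana.continuousAt.tendsto
            rwa [hiv0] at this
          exact h2.eventually hexit
        filter_upwards [h1, (g j).eventually_sub hsub] with w hw1 hw2 hw3
        have hw4 : (g j).ev ((g j).iv w) = w := (g j).ev_iv hw2
        rw [hw4] at hw1
        have h3 := hF0 (hw1 hw3)
        rw [hFC, hw4] at h3
        exact h3)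
    -- the coefficients vanish near 0
    have hC0 : ∀ ν ∈ S.image (fun μ ↦ e μ j), ∀ᶠ s in 𝓝 (0 : ℂ), Cf ν s = 0 := by
      intro ν hν
      have h1 := hbd ν hν
      have h2 : ∀ᶠ s in 𝓝 s₀, Cf ν s = 0 := by
        have h3 := ((g j).analytic_ev hd0).continuousAt
        rw [← hev0] at h1
        have h4 := h3.eventually h1
        filter_upwards [h4, (g j).eventually_den hd0] with s hs1 hs2
        rwa [(g j).iv_ev hs2] at hs1
      have h5 : Set.EqOn (Cf ν) 0 (connectedComponentIn U' 0) :=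
        ((hCana ν).mono (connectedComponentIn_subset U' 0)).eqOn_zero_of_preconnected_of_eventuallyEq_zero
          isPreconnected_connectedComponentIn hs₀C h2
      have h6 : connectedComponentIn U' 0 ∈ 𝓝 (0 : ℂ) :=
        (hU'o.connectedComponentIn).mem_nhds (mem_connectedComponentIn h0U')
      filter_upwards [h6] with s hs using h5 hs
    -- induction
    refine ih (J.erase j) (by rw [Finset.card_erase_of_mem hj, hJ]; rfl)
      (S.filter (fun μ ↦ e μ j = e μ₀ j)) ?_ (hC0 (e μ₀ j) (Finset.mem_image_of_mem _ hμ₀)) μ₀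
      (Finset.mem_filter.mpr ⟨hμ₀, rfl⟩)
    intro μ hμ μ' hμ' heq
    rw [Finset.mem_filter] at hμ hμ'
    refine hinj μ hμ.1 μ' hμ'.1 fun i hi ↦ ?_
    by_cases hij : i = j
    · rw [hij, hμ.2, hμ'.2]
    · exact heq i (Finset.mem_erase.mpr ⟨hij, hi⟩)

end H32
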