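import Pool.Agent.H32.FT1

/-!
# Functional independence in several variables
-/

open Complex Filter Metric MvPolynomial
open scoped Topology Real

namespace H32

variable {m n : ℕ}

/-- The linear part of an affine form. -/
noncomputable def lin (α : Fin (m + 1) → ℂ) (v : Fin m → ℂ) : ℂ := ∑ k, α k.succ * v k

/-- The value of an affine form. -/
noncomputable def lf (α : Fin (m + 1) → ℂ) (s : Fin m → ℂ) : ℂ := α 0 + lin α s

lemma lf_line (α : Fin (m + 1) → ℂ) (t v : Fin m → ℂ) (ζ : ℂ) :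
    lf α (fun k ↦ t k + ζ * v k) = lin α v * ζ + lf α t := by
  unfold lf lin
  rw [Finset.sum_mul, add_comm (∑ _, _) (_ + _), add_assoc, ← Finset.sum_add_distrib]
  congr 1
  exact Finset.sum_congr rfl fun k _ ↦ by ring

/-- The restriction to the line through `t` in direction `v`. -/
noncomputable def lineMo (α β : Fin (m + 1) → ℂ) (t v : Fin m → ℂ)
    (h : lin α v * lf β t - lf α t * lin β v ≠ 0) : Mo :=
  ⟨lin α v, lf α t, lin β v, lf β t, h⟩

lemma lineMo_ev (α β : Fin (m + 1) → ℂ) (t v : Fin m → ℂ)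
    (h : lin α v * lf β t - lf α t * lin β v ≠ 0) (ζ : ℂ) :
    (lineMo α β t v h).ev ζ = lf α (fun k ↦ t k + ζ * v k) / lf β (fun k ↦ t k + ζ * v k) := by
  rw [lf_line, lf_line]
  rfl

/-- The directions which are good for a pair. -/
def PairGood (α β α' β' : Fin (m + 1) → ℂ) (t v : Fin m → ℂ) : Prop :=
  {ζ : ℂ | lin β v * ζ + lf β t ≠ 0 ∧ lin β' v * ζ + lf β' t ≠ 0 ∧
    ((lin α v * ζ + lf α t) / (lin β v * ζ + lf β t)).im = 0 ∧
    ((lin α' v * ζ + lf α' t) / (lin β' v * ζ + lf β' t)).im = 0}.Finite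

/-- The data of the several variable problem. -/
noncomputable def DM (A B : Fin n → Fin (m + 1) → ℂ) (Y R : Fin n → MvPolynomial (Fin m) ℂ)
    (s : Fin m → ℂ) : Fin m ⊕ Fin n × Fin 3 → ℂ :=
  Sum.elim s fun x ↦ ![e2 (lf (A x.1) s / lf (B x.1) s) - 3 * eval s (R x.1) / (π * eval s (Y x.1)),
    e4 (lf (A x.1) s / lf (B x.1) s), e6 (lf (A x.1) s / lf (B x.1) s)] x.2

/-- Clearing denominators. -/
noncomputable def QM (Y R : Fin n → MvPolynomial (Fin m) ℂ)
    (P : MvPolynomial (Fin m ⊕ Fin n × Fin 3) ℂ) :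
    MvPolynomial (Fin n × Fin 3) (MvPolynomial (Fin m) ℂ) :=
  ∑ μ ∈ P.support, C (C (P.coeff μ) * ∏ k, X k ^ μ (Sum.inl k)) *
    ∏ j, ((C (Y j) * X (j, 0) - C (C (3 / (π : ℂ)) * R j)) ^ μ (Sum.inr (j, 0)) *
      C (Y j) ^ (P.totalDegree - μ (Sum.inr (j, 0))) * X (j, 1) ^ μ (Sum.inr (j, 1)) *
      X (j, 2) ^ μ (Sum.inr (j, 2)))

lemma eval_QM (Y R : Fin n → MvPolynomial (Fin m) ℂ) (P : MvPolynomial (Fin m ⊕ Fin n × Fin 3) ℂ)
    (s : Fin m → ℂ) (x : Fin n × Fin 3 → ℂ) (hY : ∀ j, eval s (Y j) ≠ 0) :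
    eval₂ (eval s) x (QM Y R P) = (∏ j, eval s (Y j)) ^ P.totalDegree *
      aeval (Sum.elim s fun p : Fin n × Fin 3 ↦ ![x (p.1, 0) - 3 * eval s (R p.1) /
        (π * eval s (Y p.1)), x (p.1, 1), x (p.1, 2)] p.2 : Fin m ⊕ Fin n × Fin 3 → ℂ) P := by
  have hpi : (π : ℂ) ≠ 0 := by exact_mod_cast Real.pi_ne_zero
  rw [aeval_def, eval₂_eq' _ _ P, QM, eval₂_sum, Finset.mul_sum]
  refine Finset.sum_congr rfl fun μ hμ ↦ ?_
  have hle : ∀ j, μ (Sum.inr (j, 0)) ≤ P.totalDegree := fun j ↦ by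
    refine le_trans ?_ (le_totalDegree hμ)
    rw [Finsupp.sum_fintype _ _ (by simp)]
    exact Finset.single_le_sum (f := fun l ↦ μ l) (fun _ _ ↦ Nat.zero_le _) (Finset.mem_univ _)
  simp only [eval₂_mul, eval₂_C, eval₂_prod, eval₂_pow, eval₂_sub, eval₂_X, map_mul, map_prod,
    map_pow, eval_X, eval_C]
  rw [Fintype.prod_sum_type, Fintype.prod_prod_type]
  simp only [Sum.elim_inl, Sum.elim_inr, Fin.prod_univ_three, Matrix.cons_val_zero,
    Matrix.cons_val_one, Matrix.cons_val, Algebra.algebraMap_self, RingHom.id_apply]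
  rw [← Finset.prod_pow]
  have key : ∏ j, ((eval s (Y j) * x (j, 0) - 3 / (π : ℂ) * eval s (R j)) ^ μ (Sum.inr (j, 0)) *
      eval s (Y j) ^ (P.totalDegree - μ (Sum.inr (j, 0))) * x (j, 1) ^ μ (Sum.inr (j, 1)) *
      x (j, 2) ^ μ (Sum.inr (j, 2))) =
      (∏ j, eval s (Y j) ^ P.totalDegree) * ∏ j, ((x (j, 0) - 3 * eval s (R j) /
        (π * eval s (Y j))) ^ μ (Sum.inr (j, 0)) * x (j, 1) ^ μ (Sum.inr (j, 1)) *
      x (j, 2) ^ μ (Sum.inr (j, 2))) := by
    rw [← Finset.prod_mul_distrib]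
    refine Finset.prod_congr rfl fun j _ ↦ ?_
    have hj := hY j
    have e1 : eval s (Y j) * x (j, 0) - 3 / (π : ℂ) * eval s (R j) =
        eval s (Y j) * (x (j, 0) - 3 * eval s (R j) / (π * eval s (Y j))) := by
      field_simp
    have e2 : eval s (Y j) ^ P.totalDegree = eval s (Y j) ^ μ (Sum.inr (j, 0)) *
        eval s (Y j) ^ (P.totalDegree - μ (Sum.inr (j, 0))) := by
      rw [← pow_add, Nat.add_sub_cancel' (hle j)]
    rw [e1, e2, mul_pow]
    ring
  rw [key]
  ring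

theorem FT2 (A B : Fin n → Fin (m + 1) → ℂ) (Y R : Fin n → MvPolynomial (Fin m) ℂ)
    (t : Fin m → ℂ) (him : ∀ j, 0 < (lf (A j) t / lf (B j) t).im) (hY : ∀ j, eval t (Y j) ≠ 0)
    (hgood : Dense {v : Fin m → ℂ | (∀ j, lin (A j) v * lf (B j) t - lf (A j) t * lin (B j) v ≠ 0) ∧
      ∀ i j, i ≠ j → PairGood (A i) (B i) (A j) (B j) t v})
    (P : MvPolynomial (Fin m ⊕ Fin n × Fin 3) ℂ)
    (h : ∀ᶠ s in 𝓝 t, aeval (DM A B Y R s) P = 0) : P = 0 := by
  classical
  have hYev : ∀ᶠ s in 𝓝 t, ∀ j, eval s (Y j) ≠ 0 := by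
    rw [Filter.eventually_all]
    intro j
    exact (MvPolynomial.continuous_eval (Y j)).continuousAt.eventually_ne (hY j)
  -- the polynomial with cleared denominators vanishes
  have hQ : QM Y R P = 0 := by
    by_contra hne
    obtain ⟨μ₀, hμ₀⟩ := MvPolynomial.support_nonempty.mpr hne
    apply MvPolynomial.mem_support_iff.mp hμ₀
    -- vanishing in the good directions
    have hv : ∀ v : Fin m → ℂ, v ∈ {v : Fin m → ℂ |
        (∀ j, lin (A j) v * lf (B j) t - lf (A j) t * lin (B j) v ≠ 0) ∧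
        ∀ i j, i ≠ j → PairGood (A i) (B i) (A j) (B j) t v} →
        eval (fun k ↦ t k + v k) ((QM Y R P).coeff μ₀) = 0 := by
      rintro v ⟨hdet, hpair⟩
      have hline : Continuous fun ζ : ℂ ↦ (fun k ↦ t k + ζ * v k : Fin m → ℂ) := by fun_prop
      have hline0 : (fun k ↦ t k + (0 : ℂ) * v k : Fin m → ℂ) = t := by ext k; simp
      have htend : Tendsto (fun ζ : ℂ ↦ (fun k ↦ t k + ζ * v k : Fin m → ℂ)) (𝓝 0) (𝓝 t) := by
        have := hline.tendsto 0
        rwa [hline0] at this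
      have hcana : ∀ μ : Fin n × Fin 3 →₀ ℕ, AnalyticOnNhd ℂ
          (fun ζ ↦ eval (fun k ↦ t k + ζ * v k) ((QM Y R P).coeff μ)) Set.univ := by
        intro μ ζ _
        have h1 : AnalyticAt ℂ (fun ζ ↦ aeval (fun k ↦ t k + ζ * v k) ((QM Y R P).coeff μ)) ζ :=
          AnalyticAt.aeval_mvPolynomial (fun k ↦ by fun_prop) _
        exact h1
      have key := FT1 (T := Fin n × Fin 3 →₀ ℕ)
        (fun j ↦ lineMo (A j) (B j) t v (hdet j)) (fun j ↦ by
          change 0 < ((lineMo (A j) (B j) t v (hdet j)).ev 0).im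
          rw [lineMo_ev, hline0]
          exact him j)
        (fun i j hij ↦ hpair i j hij)
        (fun μ j l ↦ μ (j, l)) (fun μ ζ ↦ eval (fun k ↦ t k + ζ * v k) ((QM Y R P).coeff μ))
        hcana (Finset.univ : Finset (Fin n)).card Finset.univ rfl (QM Y R P).support
        (fun μ _ μ' _ hh ↦ by
          ext ⟨j, l⟩
          exact congrFun (hh j (Finset.mem_univ j)) l)
        (by
          filter_upwards [htend.eventually h, htend.eventually hYev] with ζ hζ hYζ
          have h1 := eval_QM Y R P (fun k ↦ t k + ζ * v k) (fun x ↦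
            ![e2 (lf (A x.1) (fun k ↦ t k + ζ * v k) / lf (B x.1) (fun k ↦ t k + ζ * v k)),
              e4 (lf (A x.1) (fun k ↦ t k + ζ * v k) / lf (B x.1) (fun k ↦ t k + ζ * v k)),
              e6 (lf (A x.1) (fun k ↦ t k + ζ * v k) / lf (B x.1) (fun k ↦ t k + ζ * v k))] x.2) hYζ
          have h2 : aeval (Sum.elim (fun k ↦ t k + ζ * v k) fun p : Fin n × Fin 3 ↦
              ![e2 (lf (A p.1) (fun k ↦ t k + ζ * v k) / lf (B p.1) (fun k ↦ t k + ζ * v k)) -
                3 * eval (fun k ↦ t k + ζ * v k) (R p.1) /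
                (π * eval (fun k ↦ t k + ζ * v k) (Y p.1)),
              e4 (lf (A p.1) (fun k ↦ t k + ζ * v k) / lf (B p.1) (fun k ↦ t k + ζ * v k)),
              e6 (lf (A p.1) (fun k ↦ t k + ζ * v k) / lf (B p.1) (fun k ↦ t k + ζ * v k))]
              p.2 : Fin m ⊕ Fin n × Fin 3 → ℂ) P = 0 := hζ
          simp only [Matrix.cons_val_zero, Matrix.cons_val_one, Matrix.cons_val] at h1
          rw [h2, mul_zero, eval₂_eq'] at h1
          rw [← h1]
          refine Finset.sum_congr rfl fun μ _ ↦ ?_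
          congr 1
          rw [Fintype.prod_prod_type]
          refine Finset.prod_congr rfl fun j _ ↦ ?_
          rw [Fin.prod_univ_three, lineMo_ev]
          rfl)
        μ₀ hμ₀
      have h3 : Set.EqOn (fun ζ ↦ eval (fun k ↦ t k + ζ * v k) ((QM Y R P).coeff μ₀)) 0 Set.univ :=
        (hcana μ₀).eqOn_zero_of_preconnected_of_eventuallyEq_zero isPreconnected_univ
          (Set.mem_univ 0) key
      have h4 := h3 (Set.mem_univ 1)
      simp only [one_mul, Pi.zero_apply] at h4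
      exact h4
    -- vanishing everywhere
    have hcont : Continuous fun v : Fin m → ℂ ↦ eval (fun k ↦ t k + v k) ((QM Y R P).coeff μ₀) := by
      have h1 : Continuous fun v : Fin m → ℂ ↦ (fun k ↦ t k + v k : Fin m → ℂ) := by fun_prop
      exact (MvPolynomial.continuous_eval _).comp h1
    have hall := Continuous.ext_on hgood hcont continuous_const hv
    apply MvPolynomial.funext
    intro x
    have h5 := congrFun hall (fun k ↦ x k - t k)
    simp only [add_sub_cancel] at h5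
    rw [map_zero]
    exact h5
  -- conclusion
  have hprod : rename Sum.inl (∏ j, Y j) * P = 0 := by
    apply MvPolynomial.funext
    intro x
    rw [map_mul, map_zero, eval_rename, map_prod]
    by_cases hz : ∏ j, eval (x ∘ Sum.inl) (Y j) = 0
    · rw [hz, zero_mul]
    · have hYx : ∀ j, eval (x ∘ Sum.inl) (Y j) ≠ 0 := fun j ↦
        Finset.prod_ne_zero_iff.mp hz j (Finset.mem_univ j)
      have h1 := eval_QM Y R P (x ∘ Sum.inl) (fun p ↦ ![x (Sum.inr (p.1, 0)) +
        3 * eval (x ∘ Sum.inl) (R p.1) / (π * eval (x ∘ Sum.inl) (Y p.1)),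
        x (Sum.inr (p.1, 1)), x (Sum.inr (p.1, 2))] p.2) hYx
      rw [hQ, eval₂_zero] at h1
      have h2 := (mul_eq_zero.mp h1.symm).resolve_left (pow_ne_zero _ hz)
      have h3 : (Sum.elim (x ∘ Sum.inl) fun p : Fin n × Fin 3 ↦
          ![![x (Sum.inr (p.1, 0)) + 3 * eval (x ∘ Sum.inl) (R p.1) /
            (π * eval (x ∘ Sum.inl) (Y p.1)), x (Sum.inr (p.1, 1)), x (Sum.inr (p.1, 2))] 0 -
            3 * eval (x ∘ Sum.inl) (R p.1) / (π * eval (x ∘ Sum.inl) (Y p.1)),
            ![x (Sum.inr (p.1, 0)) + 3 * eval (x ∘ Sum.inl) (R p.1) /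
            (π * eval (x ∘ Sum.inl) (Y p.1)), x (Sum.inr (p.1, 1)), x (Sum.inr (p.1, 2))] 1,
            ![x (Sum.inr (p.1, 0)) + 3 * eval (x ∘ Sum.inl) (R p.1) /
            (π * eval (x ∘ Sum.inl) (Y p.1)), x (Sum.inr (p.1, 1)), x (Sum.inr (p.1, 2))] 2]
            p.2 : Fin m ⊕ Fin n × Fin 3 → ℂ) = x := by
        ext y
        rcases y with k | ⟨j, l⟩
        · rfl
        · fin_cases l <;> simp
      have h4 : aeval x P = 0 := by
        rw [← h3]
        exact h2
      have h5 : eval x P = 0 := h4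
      rw [h5, mul_zero]
  rcases mul_eq_zero.mp hprod with h1 | h1
  · exfalso
    have h2 : (∏ j, Y j) = 0 := rename_injective _ Sum.inl_injective (by rw [h1, map_zero])
    have h3 := congrArg (eval t) h2
    rw [map_prod, map_zero] at h3
    obtain ⟨j, -, hj⟩ := Finset.prod_eq_zero_iff.mp h3
    exact hY j hj
  · exact h1

end H32
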