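import Pool.Agent.H32.Core
import Pool.Agent.H32.JDeriv
import Pool.Agent.H32.Algebra

/-!
# The main theorem
-/

open UpperHalfPlane hiding I
open Complex EisensteinSeries ModularForm MatrixGroups Manifold
open scoped Real Topology
open MvPolynomial

namespace H32

/-- algebraic manipulations -/
lemma alg_step {A : Subalgebra ℚ ℂ} {zc Jv J1v J2v A2 B C y μ : ℂ} {a b c d : ℚ} {t : ℝ}
    (hz : zc = ((a : ℂ) + b * t) + ((c : ℂ) + d * t) * I)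
    (hy : y = (c : ℂ) + d * t) (hy0 : y ≠ 0) (hβ : (b : ℂ) + d * I ≠ 0)
    (hB : B ≠ 0) (hC : C ≠ 0) (hD : B ^ 3 - C ^ 2 ≠ 0)
    (hJ : Jv = 1728 * B ^ 3 / (B ^ 3 - C ^ 2))
    (hJ1 : J1v = -1728 * (2 * π * I) * (B ^ 2 * C) / (B ^ 3 - C ^ 2))
    (hJ2 : J2v = -1728 * (2 * π * I) ^ 2 * ((1 / 6) * A2 * B ^ 2 * C - (2 / 3) * B * C ^ 2 -
      (1 / 2) * B ^ 4) / (B ^ 3 - C ^ 2))
    (az : IsAlgebraic A zc) (aJ : IsAlgebraic A Jv) (aJ1 : IsAlgebraic A J1v)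
    (aJ2 : IsAlgebraic A J2v) (aμ : IsAlgebraic A μ) :
    IsAlgebraic A (t : ℂ) ∧ IsAlgebraic A (μ * (π * (A2 - 3 / (π * y)))) ∧
      IsAlgebraic A (μ ^ 2 * (π ^ 2 * B)) ∧ IsAlgebraic A (μ ^ 3 * (π ^ 3 * C)) := by
  have hpi : (π : ℂ) ≠ 0 := by exact_mod_cast Real.pi_ne_zero
  have hI0 : (I : ℂ) ≠ 0 := Complex.I_ne_zero
  have aQ : ∀ q : ℚ, IsAlgebraic A (q : ℂ) := fun q ↦ by
    have : (q : ℂ) = algebraMap A ℂ (algebraMap ℚ A q) := by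
      rw [← IsScalarTower.algebraMap_apply]; rfl
    rw [this]
    exact isAlgebraic_algebraMap _
  have aI : IsAlgebraic A (I : ℂ) := by
    apply IsAlgebraic.of_pow (n := 2) (by norm_num)
    rw [Complex.I_sq]
    have := aQ (-1)
    simpa using this
  have at' : IsAlgebraic A (t : ℂ) := by
    have e : (t : ℂ) = (zc - a - c * I) * ((b : ℂ) + d * I)⁻¹ := by
      rw [hz]
      field_simp
      ring
    rw [e]
    exact ((az.sub (aQ a)).sub ((aQ c).mul aI)).mul (((aQ b).add ((aQ d).mul aI)).inv)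
  have ay : IsAlgebraic A y := by
    rw [hy]
    exact (aQ c).add ((aQ d).mul at')
  have hJ0 : Jv ≠ 0 := by
    rw [hJ]
    exact div_ne_zero (mul_ne_zero (by norm_num) (pow_ne_zero _ hB)) hD
  have a1 : IsAlgebraic A (π * C / B) := by
    have e : (π : ℂ) * C / B = ((-1 / 2 : ℚ) : ℂ) * I⁻¹ * J1v * Jv⁻¹ := by
      rw [hJ, hJ1]
      push_cast
      field_simp
    rw [e]
    exact (((aQ _).mul aI.inv).mul aJ1).mul aJ.inv
  have a2 : IsAlgebraic A (C ^ 2 / B ^ 3) := by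
    have e : C ^ 2 / B ^ 3 = ((1 : ℚ) : ℂ) - ((1728 : ℚ) : ℂ) * Jv⁻¹ := by
      rw [hJ]
      push_cast
      field_simp
      ring
    rw [e]
    exact (aQ _).sub ((aQ _).mul aJ.inv)
  have a3 : IsAlgebraic A (π ^ 2 * B) := by
    have e : (π : ℂ) ^ 2 * B = (π * C / B) ^ 2 * (C ^ 2 / B ^ 3)⁻¹ := by
      field_simp
    rw [e]
    exact (a1.pow 2).mul a2.inv
  have a4 : IsAlgebraic A (π ^ 3 * C) := by
    have e : (π : ℂ) ^ 3 * C = (π ^ 2 * B) * (π * C / B) := by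
      field_simp
    rw [e]
    exact a3.mul a1
  have a5 : IsAlgebraic A (π * A2) := by
    have e : (π : ℂ) * A2 = (((1 / 4 : ℚ) : ℂ) * J2v * Jv⁻¹ + ((2 / 3 : ℚ) : ℂ) * (π * C / B) ^ 2 +
        ((1 / 2 : ℚ) : ℂ) * (π ^ 2 * B)) * ((6 : ℚ) : ℂ) * (π * C / B)⁻¹ := by
      rw [hJ, hJ2]
      push_cast
      have hI2 : (I : ℂ) ^ 2 = -1 := Complex.I_sq
      field_simp
      rw [hI2]
      ring
    rw [e]
    exact ((((((aQ _).mul aJ2).mul aJ.inv).add ((aQ _).mul (a1.pow 2))).add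
      ((aQ _).mul a3)).mul (aQ _)).mul a1.inv
  have a6 : IsAlgebraic A (π * (A2 - 3 / (π * y))) := by
    have e : (π : ℂ) * (A2 - 3 / (π * y)) = π * A2 - ((3 : ℚ) : ℂ) * y⁻¹ := by
      push_cast
      field_simp
    rw [e]
    exact a5.sub ((aQ _).mul ay.inv)
  exact ⟨at', aμ.mul a6, (aμ.pow 2).mul a3, (aμ.pow 3).mul a4⟩

/-- The homogeneous nonvanishing implies the transcendence statement for the `J`-data. -/
theorem trdeg_of_core {E4 E6 J : ℂ → ℂ}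
    (h4 : ∀ τ : ℂ, E4 τ = 1 + 240 * ∑' m : ℕ, ((ArithmeticFunction.sigma 3 (m + 1) : ℕ) : ℂ) *
      Complex.exp (2 * (Real.pi : ℂ) * Complex.I * ((m : ℂ) + 1) * τ))
    (h6 : ∀ τ : ℂ, E6 τ = 1 - 504 * ∑' m : ℕ, ((ArithmeticFunction.sigma 5 (m + 1) : ℕ) : ℂ) *
      Complex.exp (2 * (Real.pi : ℂ) * Complex.I * ((m : ℂ) + 1) * τ))
    (hJ : ∀ τ : ℂ, J τ = 1728 * E4 τ ^ 3 / (E4 τ ^ 3 - E6 τ ^ 2))
    {n : ℕ} (a b c d : Fin n → ℚ) (t : Fin n → ℝ)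
    (hbd : ∀ j, b j ≠ 0 ∨ d j ≠ 0) (hpos : ∀ j, 0 < (c j : ℝ) + d j * t j)
    (hcore : ∀ (Φ : MvPolynomial (Fin n × Fin 4) ℤ) (W : ℕ), IsWeightedHomogeneous wt4 Φ W →
      Φ ≠ 0 → ev a b c d Φ (fun j ↦ t j) ≠ 0)
    (z : Fin n → ℂ)
    (hz : ∀ j, z j = ((a j : ℂ) + b j * t j) + ((c j : ℂ) + d j * t j) * I) :
    ∃ f : Fin (4 * n - 1) → Fin n × Fin 4, AlgebraicIndependent ℚ (fun k ↦
      ![z (f k).1, J (z (f k).1), deriv J (z (f k).1), deriv (deriv J) (z (f k).1)] (f k).2) := by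
  have hpi : (π : ℂ) ≠ 0 := by exact_mod_cast Real.pi_ne_zero
  set ξ : Fin n × Fin 4 → ℂ := fun x ↦ DD ((a x.1 : ℂ) + c x.1 * I) ((b x.1 : ℂ) + d x.1 * I)
    (c x.1) (d x.1) (t x.1) x.2 with hξ
  have hc : ∀ (Φ : MvPolynomial (Fin n × Fin 4) ℤ) (W : ℕ), IsWeightedHomogeneous wt4 Φ W →
      Φ ≠ 0 → aeval ξ Φ ≠ 0 := hcore
  obtain ⟨ν, hν, hind⟩ := scaled_indep ξ hc
  have halgZQ : Algebra.IsAlgebraic ℤ ℚ := IsLocalization.isAlgebraic ℚ (nonZeroDivisors ℤ)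
  have hindQ : AlgebraicIndependent ℚ (fun x ↦ ν ^ (wt4 x) * ξ x) := hind.extendScalars ℚ
  have him : ∀ j, 0 < (z j).im := fun j ↦ by
    rw [hz]
    have : (((a j : ℂ) + b j * t j) + ((c j : ℂ) + d j * t j) * I).im = (c j : ℝ) + d j * t j := by
      simp only [Complex.add_im, Complex.mul_im, Complex.ofReal_im, Complex.ofReal_re,
        Complex.I_im, Complex.I_re, Complex.ratCast_im, Complex.ratCast_re, Complex.add_re,
        Complex.mul_re]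
      ring
    rw [this]; exact hpos j
  have hlin : ∀ j, ((a j : ℂ) + c j * I) + ((b j : ℂ) + d j * I) * (t j : ℂ) = z j := fun j ↦ by
    rw [hz]; ring
  have hy : ∀ j, (c j : ℂ) + d j * (t j : ℂ) ≠ 0 := fun j ↦ by
    have := (hpos j).ne'
    exact_mod_cast this
  have hβ : ∀ j, (b j : ℂ) + d j * I ≠ 0 := fun j h ↦ by
    have h1 := congrArg Complex.re h
    have h2 := congrArg Complex.im h
    simp only [Complex.add_im, Complex.mul_im, Complex.I_im, Complex.I_re, Complex.ratCast_im,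
      Complex.ratCast_re, Complex.add_re, Complex.mul_re, Complex.zero_re, Complex.zero_im,
      mul_zero, mul_one, sub_zero, add_zero, zero_add] at h1 h2
    rcases hbd j with h | h
    · exact h (by exact_mod_cast h1)
    · exact h (by exact_mod_cast h2)
  have hξ2 : ∀ j, ξ (j, 2) = e4 (z j) := fun j ↦ by
    change DD _ _ _ _ _ 2 = _
    simp only [DD, hlin j]
    rfl
  have hξ3 : ∀ j, ξ (j, 3) = e6 (z j) := fun j ↦ by
    change DD _ _ _ _ _ 3 = _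
    simp only [DD, hlin j]
    rfl
  have hξ1 : ∀ j, ξ (j, 1) = e2 (z j) - 3 / (π * ((c j : ℂ) + d j * t j)) := fun j ↦ by
    change DD _ _ _ _ _ 1 = _
    simp only [DD, hlin j]
    rfl
  have hB : ∀ j, e4 (z j) ≠ 0 := fun j ↦ by
    have h1 := hc (X (j, 2)) 4 (isWeightedHomogeneous_X ℤ wt4 (j, 2)) (X_ne_zero _)
    rwa [aeval_X, hξ2] at h1
  have hC : ∀ j, e6 (z j) ≠ 0 := fun j ↦ by
    have h1 := hc (X (j, 3)) 6 (isWeightedHomogeneous_X ℤ wt4 (j, 3)) (X_ne_zero _)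
    rwa [aeval_X, hξ3] at h1
  set μ : ℂ := ν ^ 2 / π with hμ
  refine matroid_step (fun x ↦ ![z x.1, J (z x.1), deriv J (z x.1), deriv (deriv J) (z x.1)] x.2)
    (fun x ↦ ν ^ (wt4 x) * ξ x) hindQ μ fun x ↦ ?_
  set A : Subalgebra ℚ ℂ := Algebra.adjoin ℚ (insert μ (Set.range fun x : Fin n × Fin 4 ↦
    ![z x.1, J (z x.1), deriv J (z x.1), deriv (deriv J) (z x.1)] x.2)) with hA
  have hgen : ∀ v ∈ insert μ (Set.range fun x : Fin n × Fin 4 ↦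
    ![z x.1, J (z x.1), deriv J (z x.1), deriv (deriv J) (z x.1)] x.2), IsAlgebraic A v := by
    intro v hv
    exact isAlgebraic_algebraMap (⟨v, Algebra.subset_adjoin hv⟩ : A)
  obtain ⟨j, l⟩ := x
  obtain ⟨hJ0, hJ1, hJ2⟩ := J_values h4 h6 hJ (him j)
  have key := alg_step (A := A) (hz j) rfl (hy j) (hβ j) (hB j) (hC j) disc_ne hJ0 hJ1 hJ2
    (hgen _ (Set.mem_insert_of_mem _ ⟨(j, 0), rfl⟩)) (hgen _ (Set.mem_insert_of_mem _ ⟨(j, 1), rfl⟩))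
    (hgen _ (Set.mem_insert_of_mem _ ⟨(j, 2), rfl⟩)) (hgen _ (Set.mem_insert_of_mem _ ⟨(j, 3), rfl⟩))
    (hgen _ (Set.mem_insert _ _))
  obtain ⟨k0, k1, k2, k3⟩ := key
  fin_cases l
  · change IsAlgebraic A (ν ^ 0 * (t j : ℂ))
    rw [pow_zero, one_mul]
    exact k0
  · change IsAlgebraic A (ν ^ 2 * ξ (j, 1))
    have e : ν ^ 2 * ξ (j, 1) = μ * (π * (e2 (z j) - 3 / (π * ((c j : ℂ) + d j * t j)))) := by
      rw [hξ1, hμ]
      field_simp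
    rw [e]
    exact k1
  · change IsAlgebraic A (ν ^ 4 * ξ (j, 2))
    have e : ν ^ 4 * ξ (j, 2) = μ ^ 2 * (π ^ 2 * e4 (z j)) := by
      rw [hξ2, hμ]
      field_simp
    rw [e]
    exact k2
  · change IsAlgebraic A (ν ^ 6 * ξ (j, 3))
    have e : ν ^ 6 * ξ (j, 3) = μ ^ 3 * (π ^ 3 * e6 (z j)) := by
      rw [hξ3, hμ]
      field_simp
    rw [e]
    exact k3

/-- The main theorem. -/
theorem main_thm {E4 E6 J : ℂ → ℂ}
    (h4 : ∀ τ : ℂ, E4 τ = 1 + 240 * ∑' m : ℕ, ((ArithmeticFunction.sigma 3 (m + 1) : ℕ) : ℂ) *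
      Complex.exp (2 * (Real.pi : ℂ) * Complex.I * ((m : ℂ) + 1) * τ))
    (h6 : ∀ τ : ℂ, E6 τ = 1 - 504 * ∑' m : ℕ, ((ArithmeticFunction.sigma 5 (m + 1) : ℕ) : ℂ) *
      Complex.exp (2 * (Real.pi : ℂ) * Complex.I * ((m : ℂ) + 1) * τ))
    (hJ : ∀ τ : ℂ, J τ = 1728 * E4 τ ^ 3 / (E4 τ ^ 3 - E6 τ ^ 2))
    {n : ℕ} (a b c d : Fin n → ℚ) (t : Fin n → ℝ) (κ : ℝ) (hκ : 2 * n < κ)
    (hbd : ∀ j, b j ≠ 0 ∨ d j ≠ 0) (hpos : ∀ j, 0 < (c j : ℝ) + d j * t j)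
    (happ : ∀ K : ℕ, ∃ q : ℕ, K ≤ q ∧ ∃ p : Fin n → ℤ,
      (∀ j, 0 < |t j - p j / q| ∧ |t j - p j / q| < Real.exp (-(q : ℝ) ^ κ)) ∧
      ∀ j k, j < k → |t j - p j / q| < |t k - p k / q| ^ K)
    (z : Fin n → ℂ)
    (hz : ∀ j, z j = ((a j : ℂ) + b j * t j) + ((c j : ℂ) + d j * t j) * I) :
    ∃ f : Fin (4 * n - 1) → Fin n × Fin 4, AlgebraicIndependent ℚ (fun k ↦
      ![z (f k).1, J (z (f k).1), deriv J (z (f k).1), deriv (deriv J) (z (f k).1)] (f k).2) :=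
  trdeg_of_core h4 h6 hJ a b c d t hbd hpos
    (fun Φ W hΦ hne ↦ core a b c d t κ hκ hbd hpos happ Φ W hΦ hne) z hz

end H32
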