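import Pool.Agent.H32.Core2
import Pool.Agent.H32.Algebra2

/-!
# The main theorem for general tuples
-/

open UpperHalfPlane hiding I
open Complex EisensteinSeries ModularForm MatrixGroups Manifold
open scoped Real Topology
open MvPolynomial

namespace H32

variable {m n : ℕ}

lemma alg_rat (A : Subalgebra ℚ ℂ) (q : ℚ) : IsAlgebraic A (q : ℂ) := by
  have : (q : ℂ) = algebraMap A ℂ (algebraMap ℚ A q) := by
    rw [← IsScalarTower.algebraMap_apply]; rfl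
  rw [this]
  exact isAlgebraic_algebraMap _

lemma alg_int (A : Subalgebra ℚ ℂ) (q : ℤ) : IsAlgebraic A (q : ℂ) := by
  have := alg_rat A q
  simpa using this

lemma alg_I (A : Subalgebra ℚ ℂ) : IsAlgebraic A (I : ℂ) := by
  apply IsAlgebraic.of_pow (n := 2) (by norm_num)
  rw [Complex.I_sq]
  have := alg_rat A (-1)
  simpa using this

lemma alg_sum (A : Subalgebra ℚ ℂ) {ι : Type*} (s : Finset ι) (f : ι → ℂ)
    (h : ∀ i ∈ s, IsAlgebraic A (f i)) : IsAlgebraic A (∑ i ∈ s, f i) := by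
  classical
  induction s using Finset.induction_on with
  | empty => simpa using alg_rat A 0
  | insert a s ha ih =>
    rw [Finset.sum_insert ha]
    exact (h a (Finset.mem_insert_self a s)).add
      (ih fun i hi ↦ h i (Finset.mem_insert_of_mem hi))

lemma alg_reP {A : Subalgebra ℚ ℂ} {s : Fin m → ℂ} (hs : ∀ k, IsAlgebraic A (s k))
    (α : Fin (m + 1) → GaussianInt) : IsAlgebraic A (eval s (reP α)) := by
  unfold reP
  simp only [map_add, map_sum, map_mul, eval_C, eval_X]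
  exact (alg_int A _).add (alg_sum A _ _ fun k _ ↦ (alg_int A _).mul (hs k))

lemma alg_imP {A : Subalgebra ℚ ℂ} {s : Fin m → ℂ} (hs : ∀ k, IsAlgebraic A (s k))
    (α : Fin (m + 1) → GaussianInt) : IsAlgebraic A (eval s (imP α)) := by
  unfold imP
  simp only [map_add, map_sum, map_mul, eval_C, eval_X]
  exact (alg_int A _).add (alg_sum A _ _ fun k _ ↦ (alg_int A _).mul (hs k))

lemma alg_gc (A : Subalgebra ℚ ℂ) (α : Fin (m + 1) → GaussianInt) (k : Fin (m + 1)) :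
    IsAlgebraic A (gc α k) := by
  unfold gc
  rw [GaussianInt.toComplex_def]
  exact (alg_int A _).add ((alg_int A _).mul (alg_I A))

lemma alg_lf {A : Subalgebra ℚ ℂ} {s : Fin m → ℂ} (hs : ∀ k, IsAlgebraic A (s k))
    (α : Fin (m + 1) → GaussianInt) : IsAlgebraic A (lf (gc α) s) := by
  unfold lf lin
  exact (alg_gc A α 0).add (alg_sum A _ _ fun k _ ↦ (alg_gc A α _).mul (hs k))

/-- algebraic manipulations -/
lemma alg_step2 {A : Subalgebra ℚ ℂ} {Jv J1v J2v A2 B C : ℂ}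
    (hB : B ≠ 0) (hC : C ≠ 0) (hD : B ^ 3 - C ^ 2 ≠ 0)
    (hJ : Jv = 1728 * B ^ 3 / (B ^ 3 - C ^ 2))
    (hJ1 : J1v = -1728 * (2 * π * I) * (B ^ 2 * C) / (B ^ 3 - C ^ 2))
    (hJ2 : J2v = -1728 * (2 * π * I) ^ 2 * ((1 / 6) * A2 * B ^ 2 * C - (2 / 3) * B * C ^ 2 -
      (1 / 2) * B ^ 4) / (B ^ 3 - C ^ 2))
    (aJ : IsAlgebraic A Jv) (aJ1 : IsAlgebraic A J1v)
    (aJ2 : IsAlgebraic A J2v) :
    IsAlgebraic A (π * A2) ∧ IsAlgebraic A (π ^ 2 * B) ∧ IsAlgebraic A (π ^ 3 * C) := by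
  have hpi : (π : ℂ) ≠ 0 := by exact_mod_cast Real.pi_ne_zero
  have hI0 : (I : ℂ) ≠ 0 := Complex.I_ne_zero
  have aQ : ∀ q : ℚ, IsAlgebraic A (q : ℂ) := alg_rat A
  have aI : IsAlgebraic A (I : ℂ) := alg_I A
  have hJ0 : Jv ≠ 0 := by
    rw [hJ]
    exact div_ne_zero (mul_ne_zero (by norm_num) (pow_ne_zero _ hB)) hD
  have a1 : IsAlgebraic A (π * C / B) := by
    have e : (π : ℂ) * C / B = ((-1 / 2 : ℚ) : ℂ) * I⁻¹ * J1v * Jv⁻¹ := by
      rw [hJ, hJ1]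
      push_cast
      field_simp
    rw [e]
    exact (((aQ _).mul aI.inv).mul aJ1).mul aJ.inv
  have a2 : IsAlgebraic A (C ^ 2 / B ^ 3) := by
    have e : C ^ 2 / B ^ 3 = ((1 : ℚ) : ℂ) - ((1728 : ℚ) : ℂ) * Jv⁻¹ := by
      rw [hJ]
      push_cast
      field_simp
      ring
    rw [e]
    exact (aQ _).sub ((aQ _).mul aJ.inv)
  have a3 : IsAlgebraic A (π ^ 2 * B) := by
    have e : (π : ℂ) ^ 2 * B = (π * C / B) ^ 2 * (C ^ 2 / B ^ 3)⁻¹ := by
      field_simp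
    rw [e]
    exact (a1.pow 2).mul a2.inv
  have a4 : IsAlgebraic A (π ^ 3 * C) := by
    have e : (π : ℂ) ^ 3 * C = (π ^ 2 * B) * (π * C / B) := by
      field_simp
    rw [e]
    exact a3.mul a1
  have a5 : IsAlgebraic A (π * A2) := by
    have e : (π : ℂ) * A2 = (((1 / 4 : ℚ) : ℂ) * J2v * Jv⁻¹ + ((2 / 3 : ℚ) : ℂ) * (π * C / B) ^ 2 +
        ((1 / 2 : ℚ) : ℂ) * (π ^ 2 * B)) * ((6 : ℚ) : ℂ) * (π * C / B)⁻¹ := by
      rw [hJ, hJ2]
      push_cast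
      have hI2 : (I : ℂ) ^ 2 = -1 := Complex.I_sq
      field_simp
      rw [hI2]
      ring
    rw [e]
    exact ((((((aQ _).mul aJ2).mul aJ.inv).add ((aQ _).mul (a1.pow 2))).add
      ((aQ _).mul a3)).mul (aQ _)).mul a1.inv
  exact ⟨a5, a3, a4⟩

/-- a nonconstant point is transcendental -/
lemma transc_point {t : Fin m → ℂ} (ht : AlgebraicIndependent ℚ t)
    {α β : Fin (m + 1) → GaussianInt} {z : ℂ} (hz : z = lf (gc α) t / lf (gc β) t)
    (hB : lf (gc β) t ≠ 0) (hdt : ∃ v, dt (gc α) (gc β) t v ≠ 0) : Transcendental ℚ z := by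
  intro halg
  obtain ⟨v, hv⟩ := hdt
  have h1 : dt (gc α) (gc β) t v = lf (gc β) t * ∑ k : Fin m, (gc α k.succ - z * gc β k.succ) * v k := by
    unfold dt lin
    rw [hz, Finset.mul_sum, Finset.sum_mul, Finset.mul_sum, ← Finset.sum_sub_distrib]
    refine Finset.sum_congr rfl fun k _ ↦ ?_
    field_simp
  rw [h1] at hv
  have h2 : ∃ k : Fin m, gc α k.succ - z * gc β k.succ ≠ 0 := by
    by_contra hcon
    push Not at hcon
    apply hv
    simp [hcon]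
  obtain ⟨k, hk⟩ := h2
  have h3 := ht.transcendental_adjoin (s := {k}ᶜ) (i := k) (by simp)
  apply h3
  set A := Algebra.adjoin ℚ (t '' {k}ᶜ) with hA
  have az : IsAlgebraic A z := by
    have : IsAlgebraic ℚ z := halg
    exact this.extendScalars (algebraMap ℚ A).injective
  have aother : ∀ i, i ≠ k → IsAlgebraic A (t i) := fun i hi ↦
    isAlgebraic_algebraMap (⟨t i, Algebra.subset_adjoin ⟨i, hi, rfl⟩⟩ : A)
  have h4 : lf (gc α) t - z * lf (gc β) t = 0 := by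
    rw [hz]; field_simp; ring
  have h5 : (gc α 0 - z * gc β 0) + ∑ i : Fin m, (gc α i.succ - z * gc β i.succ) * t i = 0 := by
    rw [← h4]
    unfold lf lin
    rw [mul_add, Finset.mul_sum, add_sub_add_comm, ← Finset.sum_sub_distrib]
    congr 1
    refine Finset.sum_congr rfl fun i _ ↦ ?_
    ring
  rw [← Finset.add_sum_erase _ _ (Finset.mem_univ k)] at h5
  have h6 : t k = -((gc α 0 - z * gc β 0) + ∑ i ∈ Finset.univ.erase k,
      (gc α i.succ - z * gc β i.succ) * t i) * (gc α k.succ - z * gc β k.succ)⁻¹ := by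
    field_simp
    linear_combination h5
  rw [h6]
  have acoef : ∀ i, IsAlgebraic A (gc α i - z * gc β i) := fun i ↦
    (alg_gc A α i).sub (az.mul (alg_gc A β i))
  refine IsAlgebraic.mul (IsAlgebraic.neg ((acoef 0).add (alg_sum A _ _ fun i hi ↦ ?_)))
    (acoef k.succ).inv
  exact (acoef i.succ).mul (aother i (Finset.ne_of_mem_erase hi))

theorem main2 {E4 E6 J : ℂ → ℂ}
    (h4 : ∀ τ : ℂ, E4 τ = 1 + 240 * ∑' m : ℕ, ((ArithmeticFunction.sigma 3 (m + 1) : ℕ) : ℂ) *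
      Complex.exp (2 * (Real.pi : ℂ) * Complex.I * ((m : ℂ) + 1) * τ))
    (h6 : ∀ τ : ℂ, E6 τ = 1 - 504 * ∑' m : ℕ, ((ArithmeticFunction.sigma 5 (m + 1) : ℕ) : ℂ) *
      Complex.exp (2 * (Real.pi : ℂ) * Complex.I * ((m : ℂ) + 1) * τ))
    (hJ : ∀ τ : ℂ, J τ = 1728 * E4 τ ^ 3 / (E4 τ ^ 3 - E6 τ ^ 2))
    (t : Fin m → ℝ) (κ : ℝ) (hκ : 2 * n < κ)
    (happ : ∀ K : ℕ, ∃ q : ℕ, K ≤ q ∧ ∃ p : Fin m → ℤ,
      (∀ k, 0 < |t k - p k / q| ∧ |t k - p k / q| < Real.exp (-(q : ℝ) ^ κ)) ∧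
      ∀ j k, j < k → |t j - p j / q| < |t k - p k / q| ^ K)
    (z : Fin n → ℂ) (him : ∀ i, 0 < (z i).im)
    (hCM : ∀ i, ¬ ∃ a b c : ℤ, a ≠ 0 ∧ (a : ℂ) * z i ^ 2 + (b : ℂ) * z i + (c : ℂ) = 0)
    (hne : ∀ i k, i ≠ k → ¬ ∃ a b c d : ℚ, 0 < a * d - b * c ∧
      z k = ((a : ℂ) * z i + (b : ℂ)) / ((c : ℂ) * z i + (d : ℂ)))
    (α β : Fin n → Fin (m + 1) → GaussianInt)
    (hz : ∀ j, z j = lf (gc (α j)) (fun k ↦ (t k : ℂ)) / lf (gc (β j)) (fun k ↦ (t k : ℂ))) :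
    (∃ f : Fin (3 * n) → Fin n × Fin 4, AlgebraicIndependent ℚ (fun k ↦
      ![z (f k).1, J (z (f k).1), deriv J (z (f k).1), deriv (deriv J) (z (f k).1)] (f k).2)) ∧
    ∀ (ρ : ℕ) (g : Fin ρ → Fin n), AlgebraicIndependent ℚ (fun k ↦ z (g k)) →
      ∃ f : Fin (3 * n + ρ - 1) → Fin n × Fin 4, AlgebraicIndependent ℚ (fun k ↦
        ![z (f k).1, J (z (f k).1), deriv J (z (f k).1), deriv (deriv J) (z (f k).1)] (f k).2) := by
  have hpi : (π : ℂ) ≠ 0 := by exact_mod_cast Real.pi_ne_zero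
  set tc : Fin m → ℂ := fun k ↦ (t k : ℂ) with htc
  have him' : ∀ j, 0 < (lf (gc (α j)) tc / lf (gc (β j)) tc).im := fun j ↦ by
    rw [← hz]; exact him j
  have hBne : ∀ j, lf (gc (β j)) tc ≠ 0 := fun j ↦ den_ne_of_im (him' j)
  have hdt : ∀ j, ∃ v, dt (gc (α j)) (gc (β j)) tc v ≠ 0 := fun j ↦
    nonCM_good (hz j) (him j) (hCM j)
  have hdense := dense_good (fun j ↦ gc (α j)) (fun j ↦ gc (β j)) tc hdt (fun i j hij ↦
    pair_good (hz i) (hz j) (him i) (him j) (hdt i) (hdt j) (hne j i (Ne.symm hij)))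
  have hYne : ∀ j, eval tc (Yp (α j) (β j)) ≠ 0 := fun j ↦ Yp_ne (him' j)
  have hFT := FT2 (fun j ↦ gc (α j)) (fun j ↦ gc (β j)) (fun j ↦ Yp (α j) (β j))
    (fun j ↦ Rp (β j)) tc him' hYne hdense
  set ξ : Fin m ⊕ Fin n × Fin 3 → ℂ := DM (fun j ↦ gc (α j)) (fun j ↦ gc (β j))
    (fun j ↦ Yp (α j) (β j)) (fun j ↦ Rp (β j)) tc with hξ
  have hc : ∀ (Φ : MvPolynomial (Fin m ⊕ Fin n × Fin 3) ℤ) (W : ℕ),
      IsWeightedHomogeneous wtS Φ W → Φ ≠ 0 → aeval ξ Φ ≠ 0 := fun Φ W hΦ hΦne ↦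
    core2 α β t κ hκ him' hFT happ Φ W hΦ hΦne
  obtain ⟨ν, hν, hind⟩ := scaled_indep' wtS ξ hc
  have halgZQ : Algebra.IsAlgebraic ℤ ℚ := IsLocalization.isAlgebraic ℚ (nonZeroDivisors ℤ)
  have hindQ : AlgebraicIndependent ℚ (fun x ↦ ν ^ (wtS x) * ξ x) := hind.extendScalars ℚ
  have htind : AlgebraicIndependent ℚ tc := by
    have h1 := hindQ.comp (Sum.inl : Fin m → Fin m ⊕ Fin n × Fin 3) Sum.inl_injective
    have h2 : ((fun x ↦ ν ^ (wtS x) * ξ x) ∘ (Sum.inl : Fin m → Fin m ⊕ Fin n × Fin 3)) = tc := by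
      ext k
      simp [wtS, hξ, DM]
    rwa [h2] at h1
  have hξ0 : ∀ j, ξ (Sum.inr (j, 0)) = e2 (z j) - 3 * eval tc (Rp (β j)) /
      (π * eval tc (Yp (α j) (β j))) := fun j ↦ by
    simp only [hξ, DM, Sum.elim_inr, Matrix.cons_val_zero]
    rw [← hz]
  have hξ1 : ∀ j, ξ (Sum.inr (j, 1)) = e4 (z j) := fun j ↦ by
    simp only [hξ, DM, Sum.elim_inr, Matrix.cons_val_one, Matrix.cons_val_zero]
    rw [← hz]
  have hξ2 : ∀ j, ξ (Sum.inr (j, 2)) = e6 (z j) := fun j ↦ by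
    simp only [hξ, DM, Sum.elim_inr, Matrix.cons_val]
    rw [← hz]
  have hB : ∀ j, e4 (z j) ≠ 0 := fun j ↦ by
    have h1 := hc (X (Sum.inr (j, 1))) 4 (isWeightedHomogeneous_X ℤ wtS (Sum.inr (j, 1)))
      (X_ne_zero _)
    rwa [aeval_X, hξ1] at h1
  have hC : ∀ j, e6 (z j) ≠ 0 := fun j ↦ by
    have h1 := hc (X (Sum.inr (j, 2))) 6 (isWeightedHomogeneous_X ℤ wtS (Sum.inr (j, 2)))
      (X_ne_zero _)
    rwa [aeval_X, hξ2] at h1
  set μ : ℂ := ν ^ 2 / π with hμ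
  set S : Fin n × Fin 4 → ℂ := fun x ↦
    ![z x.1, J (z x.1), deriv J (z x.1), deriv (deriv J) (z x.1)] x.2 with hS
  have hcard : Fintype.card (Fin m ⊕ Fin n × Fin 3) = m + 3 * n := by
    simp [mul_comm]
  have hzalg : ∀ j, IsAlgebraic (Algebra.adjoin ℚ (Set.range tc)) (S (j, 0)) := fun j ↦ by
    change IsAlgebraic _ (z j)
    have ht' : ∀ k, IsAlgebraic (Algebra.adjoin ℚ (Set.range tc)) (tc k) := fun k ↦
      isAlgebraic_algebraMap (⟨tc k, Algebra.subset_adjoin ⟨k, rfl⟩⟩ : Algebra.adjoin ℚ (Set.range tc))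
    rw [hz, div_eq_mul_inv]
    exact (alg_lf ht' _).mul (alg_lf ht' _).inv
  have halg : ∀ x, IsAlgebraic (Algebra.adjoin ℚ (insert μ (Set.range S ∪ Set.range tc)))
      (ν ^ (wtS x) * ξ x) := by
    intro x
    set A : Subalgebra ℚ ℂ := Algebra.adjoin ℚ (insert μ (Set.range S ∪ Set.range tc)) with hA
    have hgen : ∀ v ∈ insert μ (Set.range S ∪ Set.range tc), IsAlgebraic A v := fun v hv ↦
      isAlgebraic_algebraMap (⟨v, Algebra.subset_adjoin hv⟩ : A)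
    have aμ : IsAlgebraic A μ := hgen _ (Set.mem_insert _ _)
    have at' : ∀ k, IsAlgebraic A (tc k) := fun k ↦
      hgen _ (Set.mem_insert_of_mem _ (Or.inr ⟨k, rfl⟩))
    have aS : ∀ y, IsAlgebraic A (S y) := fun y ↦
      hgen _ (Set.mem_insert_of_mem _ (Or.inl ⟨y, rfl⟩))
    rcases x with k | ⟨j, l⟩
    · have e : ν ^ (wtS (Sum.inl k : Fin m ⊕ Fin n × Fin 3)) * ξ (Sum.inl k) = tc k := by
        simp [wtS, hξ, DM]
      rw [e]
      exact at' k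
    · obtain ⟨hJ0, hJ1, hJ2⟩ := J_values h4 h6 hJ (him j)
      obtain ⟨k1, k2, k3⟩ := alg_step2 (A := A) (hB j) (hC j) disc_ne hJ0 hJ1 hJ2
        (aS (j, 1)) (aS (j, 2)) (aS (j, 3))
      have aR : IsAlgebraic A (eval tc (Rp (β j))) := by
        unfold Rp
        rw [map_add, map_pow, map_pow]
        exact ((alg_reP at' _).pow 2).add ((alg_imP at' _).pow 2)
      have aY : IsAlgebraic A (eval tc (Yp (α j) (β j))) := by
        unfold Yp
        rw [map_sub, map_mul, map_mul]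
        exact ((alg_imP at' _).mul (alg_reP at' _)).sub ((alg_reP at' _).mul (alg_imP at' _))
      fin_cases l
      · change IsAlgebraic A (ν ^ 2 * ξ (Sum.inr (j, 0)))
        have hYj := hYne j
        have e : ν ^ 2 * ξ (Sum.inr (j, 0)) = μ * (π * e2 (z j) -
            ((3 : ℚ) : ℂ) * eval tc (Rp (β j)) * (eval tc (Yp (α j) (β j)))⁻¹) := by
          rw [hξ0, hμ]
          push_cast
          field_simp
        rw [e]
        exact aμ.mul (k1.sub (((alg_rat A 3).mul aR).mul aY.inv))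
      · change IsAlgebraic A (ν ^ 4 * ξ (Sum.inr (j, 1)))
        have e : ν ^ 4 * ξ (Sum.inr (j, 1)) = μ ^ 2 * (π ^ 2 * e4 (z j)) := by
          rw [hξ1, hμ]
          field_simp
        rw [e]
        exact (aμ.pow 2).mul k2
      · change IsAlgebraic A (ν ^ 6 * ξ (Sum.inr (j, 2)))
        have e : ν ^ 6 * ξ (Sum.inr (j, 2)) = μ ^ 3 * (π ^ 3 * e6 (z j)) := by
          rw [hξ2, hμ]
          field_simp
        rw [e]
        exact (aμ.pow 3).mul k3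
  have main : ∀ (ρ : ℕ) (g : Fin ρ → Fin n), AlgebraicIndependent ℚ (fun k ↦ z (g k)) →
      ∃ f : Fin (3 * n + ρ - 1) → Fin n × Fin 4, AlgebraicIndependent ℚ (fun k ↦ S (f k)) :=
    fun ρ g hg ↦ matroid_submod S tc _ hindQ hcard μ halg hzalg g hg
  refine ⟨?_, main⟩
  rcases Nat.eq_zero_or_pos n with hn | hn
  · subst hn
    have hemp : IsEmpty (Fin (3 * 0)) := ⟨fun x ↦ absurd x.2 (by simp)⟩
    exact ⟨fun x ↦ hemp.elim x, algebraicIndependent_empty_type⟩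
  · have htr := transc_point htind (hz ⟨0, hn⟩) (hBne _) (hdt _)
    have h1 : AlgebraicIndependent ℚ (fun _ : Fin 1 ↦ z ⟨0, hn⟩) := by
      rw [algebraicIndependent_unique_type_iff]
      exact htr
    obtain ⟨f, hf⟩ := main 1 (fun _ ↦ ⟨0, hn⟩) h1
    exact ⟨f, hf⟩

end H32
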