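import Pool.Agent.H32.G1
import Pool.Agent.H32.App

/-!
# Liouville inequality for polynomials with Gaussian integral coefficients
-/

open UpperHalfPlane hiding I
open Complex EisensteinSeries ModularForm MatrixGroups Manifold Asymptotics
open scoped Real
open MvPolynomial

namespace H32

variable {m n : ℕ}

/-- evaluation at the tuple of scaled values -/
noncomputable def evG (M : Fin n → ℕ × ℕ × ℕ) (Ψ : MvPolynomial (Fin n × Fin 3) GaussianInt) : ℂ :=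
  eval₂ GaussianInt.toComplex (fun x : Fin n × Fin 3 ↦ AA (M x.1) x.2) Ψ

lemma sum_evG {ω : ℂ} (hω : ω ^ 4 = E₄ UpperHalfPlane.I)
    (Ψ : MvPolynomial (Fin n × Fin 3) GaussianInt)
    {V : ℕ} (hΨ : IsWeightedHomogeneous wt3 Ψ V) {N : Fin n → ℕ} (hN : ∀ j, 0 < N j) :
    ∃ z : GaussianInt, 1728 ^ V * ∑ M ∈ Fintype.piFinset (fun j ↦ SN (N j)), evG M Ψ =
      GaussianInt.toComplex z * ω ^ V := by
  have h1 : ∀ m ∈ Ψ.support, ∃ z : ℤ, 1728 ^ V * ∑ M ∈ Fintype.piFinset (fun j ↦ SN (N j)),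
      ∏ x : Fin n × Fin 3, AA (M x.1) x.2 ^ m x = z * ω ^ V := by
    intro m hm
    have hw : ∑ j, (2 * m (j, 0) + 4 * m (j, 1) + 6 * m (j, 2)) = V := by
      rw [← weight_wt3]; exact hΨ (mem_support_iff.mp hm)
    have hz : ∀ j, ∃ z : ℤ, 1728 ^ (2 * m (j, 0) + 4 * m (j, 1) + 6 * m (j, 2)) *
        ∑ s ∈ SN (N j), ∏ l, AA s l ^ m (j, l) =
        z * ω ^ (2 * m (j, 0) + 4 * m (j, 1) + 6 * m (j, 2)) := by
      intro j
      obtain ⟨z, hz⟩ := hecke_sum hω (hN j) (m (j, 0)) (m (j, 1)) (m (j, 2))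
      refine ⟨z, ?_⟩
      rw [← hz]
      congr 1
      refine Finset.sum_congr rfl fun s _ ↦ ?_
      rw [Fin.prod_univ_three]
      rfl
    choose z hz using hz
    refine ⟨∏ j, z j, ?_⟩
    have h2 : ∀ M : Fin n → ℕ × ℕ × ℕ, ∏ x : Fin n × Fin 3, AA (M x.1) x.2 ^ m x =
        ∏ j, ∏ l, AA (M j) l ^ m (j, l) := fun M ↦ Fintype.prod_prod_type _
    simp_rw [h2]
    rw [← Finset.prod_univ_sum (fun j ↦ SN (N j)) (fun j s ↦ ∏ l, AA s l ^ m (j, l)), ← hw,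
      ← Finset.prod_pow_eq_pow_sum, ← Finset.prod_pow_eq_pow_sum, ← Finset.prod_mul_distrib,
      Finset.prod_congr rfl fun j _ ↦ hz j, Finset.prod_mul_distrib]
    push_cast
    rfl
  choose! z hz using h1
  refine ⟨∑ m ∈ Ψ.support, Ψ.coeff m * (z m : GaussianInt), ?_⟩
  have h3 : ∀ M, evG M Ψ = ∑ m ∈ Ψ.support, GaussianInt.toComplex (Ψ.coeff m) *
      ∏ x : Fin n × Fin 3, AA (M x.1) x.2 ^ m x := by
    intro M
    rw [evG, eval₂_eq']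
  simp_rw [h3]
  rw [Finset.sum_comm, Finset.mul_sum, map_sum, Finset.sum_mul]
  refine Finset.sum_congr rfl fun m hm ↦ ?_
  rw [← Finset.mul_sum, mul_left_comm, hz m hm, map_mul, map_intCast]
  ring

theorem appG1 {ω : ℂ} (hω : ω ^ 4 = E₄ UpperHalfPlane.I)
    (Ψ : MvPolynomial (Fin n × Fin 3) GaussianInt)
    {V : ℕ} (hΨ : IsWeightedHomogeneous wt3 Ψ V) {N : Fin n → ℕ} (hN : ∀ j, 0 < N j)
    {B : ℝ} (hB1 : 1 ≤ B)
    (hB : ∀ M ∈ Fintype.piFinset (fun j ↦ SN (N j)), ‖(1728 / ω) ^ V * evG M Ψ‖ ≤ B)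
    {M : Fin n → ℕ × ℕ × ℕ} (hM : M ∈ Fintype.piFinset (fun j ↦ SN (N j)))
    (hne : evG M Ψ ≠ 0) :
    1 ≤ ‖(1728 / ω) ^ V * evG M Ψ‖ *
      (((Fintype.piFinset (fun j ↦ SN (N j))).card.factorial : ℝ) *
        B ^ (Fintype.piFinset (fun j ↦ SN (N j))).card) := by
  have hω0 : ω ≠ 0 := by
    rintro rfl
    rw [zero_pow (by norm_num)] at hω
    exact E4_I_ne hω.symm
  refine liouvilleG _ (fun M ↦ (1728 / ω) ^ V * evG M Ψ) B hB1 hB ?_ hM ?_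
  · intro p hp
    obtain ⟨z, hz⟩ := sum_evG hω (Ψ ^ p) (hΨ.pow p) hN
    refine ⟨z, ?_⟩
    have h1 : ∀ M : Fin n → ℕ × ℕ × ℕ, ((1728 / ω) ^ V * evG M Ψ) ^ p =
        (1728 / ω) ^ (p * V) * evG M (Ψ ^ p) := by
      intro M
      rw [mul_pow, ← pow_mul, mul_comm V p, evG, evG, eval₂_pow]
    simp_rw [h1]
    rw [← Finset.mul_sum, div_pow, div_mul_eq_mul_div, div_eq_iff (pow_ne_zero _ hω0)]
    simpa using hz
  · refine mul_ne_zero (pow_ne_zero _ (div_ne_zero (by norm_num) hω0)) hne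

/-- The weights `0` for the parameters and `2, 4, 6` for the values. -/
def wtS : Fin m ⊕ Fin n × Fin 3 → ℕ := Sum.elim (fun _ ↦ 0) wt3

lemma weight_wtS (μ : (Fin m ⊕ Fin n × Fin 3) →₀ ℕ) :
    Finsupp.weight (wtS : Fin m ⊕ Fin n × Fin 3 → ℕ) μ =
    ∑ j, (2 * μ (Sum.inr (j, 0)) + 4 * μ (Sum.inr (j, 1)) + 6 * μ (Sum.inr (j, 2))) := by
  rw [Finsupp.weight_apply, Finsupp.sum_fintype _ _ (by simp), Fintype.sum_sum_type,
    Fintype.sum_prod_type]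
  simp only [wtS, Sum.elim_inl, Sum.elim_inr, smul_eq_mul, mul_zero, Finset.sum_const_zero, zero_add]
  refine Finset.sum_congr rfl fun j _ ↦ ?_
  simp [Fin.sum_univ_three, wt3]
  ring

/-- The weight in the variables of the point `j`. -/
def wj (μ : (Fin m ⊕ Fin n × Fin 3) →₀ ℕ) (j : Fin n) : ℕ :=
  2 * μ (Sum.inr (j, 0)) + 4 * μ (Sum.inr (j, 1)) + 6 * μ (Sum.inr (j, 2))

/-- Specialise the weight zero variables. -/
noncomputable def specG (Φ : MvPolynomial (Fin m ⊕ Fin n × Fin 3) ℤ) (D W q : ℕ) (p : Fin m → ℤ)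
    (u : Fin n → GaussianInt) (N : Fin n → ℕ) : MvPolynomial (Fin n × Fin 3) GaussianInt :=
  ∑ μ ∈ Φ.support, monomial
    (Finsupp.equivFunOnFinite.symm fun x : Fin n × Fin 3 ↦ μ (Sum.inr x))
    (((Φ.coeff μ : ℤ) : GaussianInt) * (∏ k, (p k : GaussianInt) ^ μ (Sum.inl k)) *
      (q : GaussianInt) ^ (D - ∑ k, μ (Sum.inl k)) *
      ∏ j, (u j ^ wj μ j * (N j : GaussianInt) ^ (W - wj μ j)))

/-- The values at the special points. -/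
noncomputable def valG (q : ℕ) (p : Fin m → ℤ) (u : Fin n → GaussianInt) (N : Fin n → ℕ)
    (M : Fin n → ℕ × ℕ × ℕ) : Fin m ⊕ Fin n × Fin 3 → ℂ :=
  Sum.elim (fun k ↦ (p k : ℂ) / q) fun x ↦
    (GaussianInt.toComplex (u x.1) / N x.1) ^ wt3 x * AA (M x.1) x.2

lemma specG_homog {Φ : MvPolynomial (Fin m ⊕ Fin n × Fin 3) ℤ} {W : ℕ}
    (hΦ : IsWeightedHomogeneous wtS Φ W) (D q : ℕ) (p : Fin m → ℤ)
    (u : Fin n → GaussianInt) (N : Fin n → ℕ) :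
    IsWeightedHomogeneous wt3 (specG Φ D W q p u N) W := by
  unfold specG
  rw [← mem_weightedHomogeneousSubmodule]
  refine Submodule.sum_mem _ fun μ hμ ↦ ?_
  rw [mem_weightedHomogeneousSubmodule]
  refine isWeightedHomogeneous_monomial _ _ _ ?_
  have hw : ∑ j, (2 * μ (Sum.inr (j, 0)) + 4 * μ (Sum.inr (j, 1)) + 6 * μ (Sum.inr (j, 2))) = W := by
    rw [← weight_wtS]; exact hΦ (mem_support_iff.mp hμ)
  rw [weight_wt3, ← hw]
  rfl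

lemma evG_specG' (Φ : MvPolynomial (Fin m ⊕ Fin n × Fin 3) ℤ) (D W q : ℕ) (p : Fin m → ℤ)
    (u : Fin n → GaussianInt) (N : Fin n → ℕ) (M : Fin n → ℕ × ℕ × ℕ) :
    evG M (specG Φ D W q p u N) =
    ∑ μ ∈ Φ.support, (((Φ.coeff μ : ℤ) : ℂ) * (∏ k, (p k : ℂ) ^ μ (Sum.inl k)) *
      (q : ℂ) ^ (D - ∑ k, μ (Sum.inl k)) *
      ∏ j, (GaussianInt.toComplex (u j) ^ wj μ j * (N j : ℂ) ^ (W - wj μ j))) *
      ∏ j, (AA (M j) 0 ^ μ (Sum.inr (j, 0)) * AA (M j) 1 ^ μ (Sum.inr (j, 1)) *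
        AA (M j) 2 ^ μ (Sum.inr (j, 2))) := by
  unfold evG specG
  rw [eval₂_sum]
  refine Finset.sum_congr rfl fun μ _ ↦ ?_
  rw [eval₂_monomial, Finsupp.prod_fintype _ _ (by simp), Fintype.prod_prod_type]
  congr 1
  · simp only [map_mul, map_prod, map_pow, map_intCast, map_natCast]
  · refine Finset.prod_congr rfl fun j _ ↦ ?_
    rw [Fin.prod_univ_three]
    rfl

lemma evG_specG {Φ : MvPolynomial (Fin m ⊕ Fin n × Fin 3) ℤ} {W : ℕ}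
    (hΦ : IsWeightedHomogeneous wtS Φ W) {q : ℕ} (hq : 0 < q) (p : Fin m → ℤ)
    (u : Fin n → GaussianInt) {N : Fin n → ℕ} (hN : ∀ j, 0 < N j) (M : Fin n → ℕ × ℕ × ℕ) :
    evG M (specG Φ Φ.totalDegree W q p u N) =
      (q : ℂ) ^ Φ.totalDegree * (∏ j, (N j : ℂ)) ^ W * aeval (valG q p u N M) Φ := by
  rw [evG_specG', aeval_def, eval₂_eq', Finset.mul_sum]
  refine Finset.sum_congr rfl fun μ hμ ↦ ?_
  have hw : ∑ j, wj μ j = W := by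
    rw [← hΦ (mem_support_iff.mp hμ), weight_wtS]; rfl
  have hwj : ∀ j, wj μ j ≤ W := fun j ↦ by
    rw [← hw]
    exact Finset.single_le_sum (f := fun j ↦ wj μ j) (fun _ _ ↦ Nat.zero_le _) (Finset.mem_univ j)
  have hD : ∑ k, μ (Sum.inl k) ≤ Φ.totalDegree := by
    refine le_trans ?_ (le_totalDegree hμ)
    rw [Finsupp.sum_fintype _ _ (by simp), Fintype.sum_sum_type]
    exact Nat.le_add_right _ _
  have hq0 : (q : ℂ) ≠ 0 := by exact_mod_cast hq.ne'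
  have e1 : ∏ x : Fin m ⊕ Fin n × Fin 3, valG q p u N M x ^ μ x =
      (∏ k, ((p k : ℂ) / q) ^ μ (Sum.inl k)) *
      ∏ j, (((GaussianInt.toComplex (u j) / N j) ^ 2 * AA (M j) 0) ^ μ (Sum.inr (j, 0)) *
        ((GaussianInt.toComplex (u j) / N j) ^ 4 * AA (M j) 1) ^ μ (Sum.inr (j, 1)) *
        ((GaussianInt.toComplex (u j) / N j) ^ 6 * AA (M j) 2) ^ μ (Sum.inr (j, 2))) := by
    rw [Fintype.prod_sum_type, Fintype.prod_prod_type]
    congr 1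
    refine Finset.prod_congr rfl fun j _ ↦ ?_
    rw [Fin.prod_univ_three]
    rfl
  have e2 : (q : ℂ) ^ Φ.totalDegree * ∏ k, ((p k : ℂ) / q) ^ μ (Sum.inl k) =
      (∏ k, (p k : ℂ) ^ μ (Sum.inl k)) * (q : ℂ) ^ (Φ.totalDegree - ∑ k, μ (Sum.inl k)) := by
    have : ∀ k, ((p k : ℂ) / q) ^ μ (Sum.inl k) =
        (p k : ℂ) ^ μ (Sum.inl k) * ((q : ℂ)⁻¹) ^ μ (Sum.inl k) :=
      fun k ↦ by rw [div_eq_mul_inv, mul_pow]
    simp_rw [this]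
    rw [Finset.prod_mul_distrib, Finset.prod_pow_eq_pow_sum, pow_sub₀ _ hq0 hD, inv_pow]
    ring
  have e3 : (∏ j, (N j : ℂ)) ^ W *
      ∏ j, (((GaussianInt.toComplex (u j) / N j) ^ 2 * AA (M j) 0) ^ μ (Sum.inr (j, 0)) *
        ((GaussianInt.toComplex (u j) / N j) ^ 4 * AA (M j) 1) ^ μ (Sum.inr (j, 1)) *
        ((GaussianInt.toComplex (u j) / N j) ^ 6 * AA (M j) 2) ^ μ (Sum.inr (j, 2))) =
      (∏ j, (GaussianInt.toComplex (u j) ^ wj μ j * (N j : ℂ) ^ (W - wj μ j))) *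
      ∏ j, (AA (M j) 0 ^ μ (Sum.inr (j, 0)) * AA (M j) 1 ^ μ (Sum.inr (j, 1)) *
        AA (M j) 2 ^ μ (Sum.inr (j, 2))) := by
    rw [← Finset.prod_pow, ← Finset.prod_mul_distrib, ← Finset.prod_mul_distrib]
    refine Finset.prod_congr rfl fun j _ ↦ ?_
    have hN0 : (N j : ℂ) ≠ 0 := by exact_mod_cast (hN j).ne'
    have h1 : (N j : ℂ) ^ W = (N j : ℂ) ^ (W - wj μ j) * (N j : ℂ) ^ wj μ j := by
      rw [← pow_add, Nat.sub_add_cancel (hwj j)]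
    have h2 : (((GaussianInt.toComplex (u j) / N j) ^ 2 * AA (M j) 0) ^ μ (Sum.inr (j, 0)) *
        ((GaussianInt.toComplex (u j) / N j) ^ 4 * AA (M j) 1) ^ μ (Sum.inr (j, 1)) *
        ((GaussianInt.toComplex (u j) / N j) ^ 6 * AA (M j) 2) ^ μ (Sum.inr (j, 2))) =
        (GaussianInt.toComplex (u j) / N j) ^ wj μ j * (AA (M j) 0 ^ μ (Sum.inr (j, 0)) *
        AA (M j) 1 ^ μ (Sum.inr (j, 1)) * AA (M j) 2 ^ μ (Sum.inr (j, 2))) := by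
      rw [wj, mul_pow, mul_pow, mul_pow, pow_add, pow_add, pow_mul, pow_mul, pow_mul]
      ring
    rw [h1, h2, div_pow]
    have h3 : (N j : ℂ) ^ wj μ j ≠ 0 := pow_ne_zero _ hN0
    field_simp
  rw [e1]
  calc _ = ((Φ.coeff μ : ℤ) : ℂ) * ((∏ k, (p k : ℂ) ^ μ (Sum.inl k)) *
        (q : ℂ) ^ (Φ.totalDegree - ∑ k, μ (Sum.inl k))) *
        ((∏ j, (GaussianInt.toComplex (u j) ^ wj μ j * (N j : ℂ) ^ (W - wj μ j))) *
      ∏ j, (AA (M j) 0 ^ μ (Sum.inr (j, 0)) * AA (M j) 1 ^ μ (Sum.inr (j, 1)) *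
        AA (M j) 2 ^ μ (Sum.inr (j, 2)))) := by ring
    _ = _ := by
      rw [← e2, ← e3]
      simp only [algebraMap_int_eq, eq_intCast]
      ring

/-- A bound for all the conjugates. -/
lemma evG_specG_bound {Φ : MvPolynomial (Fin m ⊕ Fin n × Fin 3) ℤ} {W : ℕ}
    (hΦ : IsWeightedHomogeneous wtS Φ W) : ∃ C : ℝ, 1 ≤ C ∧ ∃ E : ℕ,
    ∀ (Q q : ℕ) (p : Fin m → ℤ) (u : Fin n → GaussianInt) (N : Fin n → ℕ)
      (M : Fin n → ℕ × ℕ × ℕ), 1 ≤ q → q ≤ Q →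
    (∀ k, |p k| ≤ Q) → (∀ j, ‖GaussianInt.toComplex (u j)‖ ≤ Q) → (∀ j, 0 < N j) → (∀ j, N j ≤ Q) →
    (∀ j, M j ∈ SN (N j)) →
    ‖evG M (specG Φ Φ.totalDegree W q p u N)‖ ≤ C * (Q : ℝ) ^ E := by
  obtain ⟨C0, hC0, hb⟩ := bound_A
  set L : ℝ := ∑ m ∈ Φ.support, |((Φ.coeff m : ℤ) : ℝ)| with hL
  have hL0 : 0 ≤ L := Finset.sum_nonneg fun _ _ ↦ abs_nonneg _
  refine ⟨(L + 1) * C0 ^ W, ?_, Φ.totalDegree + Φ.totalDegree + 2 * n * W + 6 * W, ?_⟩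
  · have : 1 ≤ C0 ^ W := one_le_pow₀ hC0
    nlinarith
  intro Q q p u N M hq hqQ hp hu hN0 hNQ hM
  have hQ1 : (1 : ℝ) ≤ Q := by exact_mod_cast le_trans hq hqQ
  rw [evG_specG']
  refine (norm_sum_le _ _).trans ?_
  have hterm : ∀ μ ∈ Φ.support, ‖(((Φ.coeff μ : ℤ) : ℂ) * (∏ k, (p k : ℂ) ^ μ (Sum.inl k)) *
      (q : ℂ) ^ (Φ.totalDegree - ∑ k, μ (Sum.inl k)) *
      ∏ j, (GaussianInt.toComplex (u j) ^ wj μ j * (N j : ℂ) ^ (W - wj μ j))) *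
      ∏ j, (AA (M j) 0 ^ μ (Sum.inr (j, 0)) * AA (M j) 1 ^ μ (Sum.inr (j, 1)) *
        AA (M j) 2 ^ μ (Sum.inr (j, 2)))‖ ≤
      |((Φ.coeff μ : ℤ) : ℝ)| * (C0 ^ W *
        (Q : ℝ) ^ (Φ.totalDegree + Φ.totalDegree + 2 * n * W + 6 * W)) := by
    intro μ hμ
    have hw : ∑ j, wj μ j = W := by
      rw [← hΦ (mem_support_iff.mp hμ), weight_wtS]; rfl
    have hwj : ∀ j, wj μ j ≤ W := fun j ↦ by
      rw [← hw]
      exact Finset.single_le_sum (f := fun j ↦ wj μ j) (fun _ _ ↦ Nat.zero_le _)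
        (Finset.mem_univ j)
    have hD : ∑ k, μ (Sum.inl k) ≤ Φ.totalDegree := by
      refine le_trans ?_ (le_totalDegree hμ)
      rw [Finsupp.sum_fintype _ _ (by simp), Fintype.sum_sum_type]
      exact Nat.le_add_right _ _
    simp only [norm_mul, norm_prod, norm_pow, Complex.norm_natCast, Complex.norm_intCast]
    have b1 : ∏ k, |(p k : ℝ)| ^ μ (Sum.inl k) ≤ (Q : ℝ) ^ Φ.totalDegree := by
      calc ∏ k, |(p k : ℝ)| ^ μ (Sum.inl k) ≤ ∏ k, (Q : ℝ) ^ μ (Sum.inl k) := by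
            refine Finset.prod_le_prod (fun _ _ ↦ by positivity) fun k _ ↦ ?_
            gcongr
            exact_mod_cast hp k
        _ = (Q : ℝ) ^ ∑ k, μ (Sum.inl k) := Finset.prod_pow_eq_pow_sum _ _ _
        _ ≤ _ := pow_le_pow_right₀ hQ1 hD
    have b2 : (q : ℝ) ^ (Φ.totalDegree - ∑ k, μ (Sum.inl k)) ≤ (Q : ℝ) ^ Φ.totalDegree := by
      calc (q : ℝ) ^ (Φ.totalDegree - ∑ k, μ (Sum.inl k)) ≤
          (Q : ℝ) ^ (Φ.totalDegree - ∑ k, μ (Sum.inl k)) := by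
            gcongr
        _ ≤ _ := pow_le_pow_right₀ hQ1 (Nat.sub_le _ _)
    have b3 : ∏ j, (‖GaussianInt.toComplex (u j)‖ ^ wj μ j * (N j : ℝ) ^ (W - wj μ j)) ≤
        (Q : ℝ) ^ (2 * n * W) := by
      calc ∏ j, (‖GaussianInt.toComplex (u j)‖ ^ wj μ j * (N j : ℝ) ^ (W - wj μ j)) ≤
            ∏ j : Fin n, ((Q : ℝ) ^ W * (Q : ℝ) ^ W) := by
            refine Finset.prod_le_prod (fun _ _ ↦ by positivity) fun j _ ↦ ?_
            have h1 : ‖GaussianInt.toComplex (u j)‖ ^ wj μ j ≤ (Q : ℝ) ^ W :=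
              calc ‖GaussianInt.toComplex (u j)‖ ^ wj μ j ≤ (Q : ℝ) ^ wj μ j := by
                    gcongr
                    exact hu j
                _ ≤ _ := pow_le_pow_right₀ hQ1 (hwj j)
            have h2 : (N j : ℝ) ^ (W - wj μ j) ≤ (Q : ℝ) ^ W :=
              calc (N j : ℝ) ^ (W - wj μ j) ≤ (Q : ℝ) ^ (W - wj μ j) := by
                    gcongr
                    exact_mod_cast hNQ j
                _ ≤ _ := pow_le_pow_right₀ hQ1 (Nat.sub_le _ _)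
            gcongr
        _ = _ := by
            rw [Finset.prod_const, Finset.card_univ, Fintype.card_fin, ← pow_add, ← pow_mul]
            congr 1
            ring
    have b4 : ∏ j, (‖AA (M j) 0‖ ^ μ (Sum.inr (j, 0)) * ‖AA (M j) 1‖ ^ μ (Sum.inr (j, 1)) *
        ‖AA (M j) 2‖ ^ μ (Sum.inr (j, 2))) ≤ (C0 * (Q : ℝ) ^ 6) ^ W := by
      have hR1 : 1 ≤ C0 * (Q : ℝ) ^ 6 := by
        have : (1 : ℝ) ≤ (Q : ℝ) ^ 6 := one_le_pow₀ hQ1
        nlinarith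
      have hR : ∀ j l, ‖AA (M j) l‖ ≤ C0 * (Q : ℝ) ^ 6 := by
        intro j l
        refine (hb (N j) (hN0 j) (M j) (hM j) l).trans ?_
        have : (N j : ℝ) ≤ Q := by exact_mod_cast hNQ j
        gcongr
      calc ∏ j, (‖AA (M j) 0‖ ^ μ (Sum.inr (j, 0)) * ‖AA (M j) 1‖ ^ μ (Sum.inr (j, 1)) *
            ‖AA (M j) 2‖ ^ μ (Sum.inr (j, 2))) ≤
            ∏ j, (C0 * (Q : ℝ) ^ 6) ^ wj μ j := by
            refine Finset.prod_le_prod (fun _ _ ↦ by positivity) fun j _ ↦ ?_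
            calc ‖AA (M j) 0‖ ^ μ (Sum.inr (j, 0)) * ‖AA (M j) 1‖ ^ μ (Sum.inr (j, 1)) *
                ‖AA (M j) 2‖ ^ μ (Sum.inr (j, 2))
                ≤ (C0 * (Q : ℝ) ^ 6) ^ μ (Sum.inr (j, 0)) * (C0 * (Q : ℝ) ^ 6) ^ μ (Sum.inr (j, 1)) *
                  (C0 * (Q : ℝ) ^ 6) ^ μ (Sum.inr (j, 2)) := by
                  gcongr <;> exact hR j _
              _ = (C0 * (Q : ℝ) ^ 6) ^ (μ (Sum.inr (j, 0)) + μ (Sum.inr (j, 1)) +
                  μ (Sum.inr (j, 2))) := by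
                  rw [pow_add, pow_add]
              _ ≤ _ := pow_le_pow_right₀ hR1 (by unfold wj; omega)
        _ = _ := by rw [Finset.prod_pow_eq_pow_sum, hw]
    calc |((Φ.coeff μ : ℤ) : ℝ)| * (∏ k, |(p k : ℝ)| ^ μ (Sum.inl k)) *
        (q : ℝ) ^ (Φ.totalDegree - ∑ k, μ (Sum.inl k)) *
        (∏ j, (‖GaussianInt.toComplex (u j)‖ ^ wj μ j * (N j : ℝ) ^ (W - wj μ j))) *
        ∏ j, (‖AA (M j) 0‖ ^ μ (Sum.inr (j, 0)) * ‖AA (M j) 1‖ ^ μ (Sum.inr (j, 1)) *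
            ‖AA (M j) 2‖ ^ μ (Sum.inr (j, 2)))
        ≤ |((Φ.coeff μ : ℤ) : ℝ)| * ((Q : ℝ) ^ Φ.totalDegree) * ((Q : ℝ) ^ Φ.totalDegree) *
          ((Q : ℝ) ^ (2 * n * W)) * (C0 * (Q : ℝ) ^ 6) ^ W := by
          gcongr
      _ = _ := by
          rw [mul_pow, ← pow_mul]
          ring
  refine (Finset.sum_le_sum hterm).trans ?_
  rw [← Finset.sum_mul, ← hL]
  have : 0 ≤ C0 ^ W * (Q : ℝ) ^ (Φ.totalDegree + Φ.totalDegree + 2 * n * W + 6 * W) := by positivity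
  nlinarith

end H32
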