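import Pool.Agent.H32.G2

/-!
# The Liouville inequality with rational parameters: final form
-/

open UpperHalfPlane hiding I
open Complex EisensteinSeries ModularForm MatrixGroups Manifold Asymptotics
open scoped Real
open MvPolynomial

namespace H32

variable {m n : ℕ}

theorem app_finalG {Φ : MvPolynomial (Fin m ⊕ Fin n × Fin 3) ℤ} {W : ℕ}
    (hΦ : IsWeightedHomogeneous wtS Φ W) : ∃ C : ℝ, 0 < C ∧
    ∀ (Q q : ℕ) (p : Fin m → ℤ) (u : Fin n → GaussianInt) (N : Fin n → ℕ)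
      (M : Fin n → ℕ × ℕ × ℕ), 2 ≤ Q → 1 ≤ q → q ≤ Q →
    (∀ k, |p k| ≤ Q) → (∀ j, ‖GaussianInt.toComplex (u j)‖ ≤ Q) → (∀ j, 0 < N j) →
    (∀ j, N j ≤ Q) → (∀ j, M j ∈ SN (N j)) →
    aeval (valG q p u N M) Φ ≠ 0 →
    Real.exp (-(C * Real.log Q * ∏ j, ((SN (N j)).card : ℝ))) ≤ ‖aeval (valG q p u N M) Φ‖ := by
  obtain ⟨ω, hω⟩ := IsAlgClosed.exists_pow_nat_eq (E₄ UpperHalfPlane.I) (n := 4) (by norm_num)
  have hω0 : ω ≠ 0 := by
    rintro rfl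
    rw [zero_pow (by norm_num)] at hω
    exact E4_I_ne hω.symm
  obtain ⟨C1, hC1, E, hb⟩ := evG_specG_bound hΦ
  set c0 : ℝ := ‖(1728 / ω : ℂ)‖ + 1 with hc0
  have hc01 : 1 ≤ c0 := by have := norm_nonneg (1728 / ω : ℂ); linarith
  set D := Φ.totalDegree with hD
  set c2 : ℝ := c0 ^ W * (c0 ^ W * C1) with hc2
  have hcW : 1 ≤ c0 ^ W := one_le_pow₀ hc01
  have hc21 : 1 ≤ c2 := by
    have : 1 ≤ c0 ^ W * C1 := by nlinarith
    nlinarith
  set E2 : ℕ := D + n * W + 2 * n + E with hE2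
  have hl2 : 0 < Real.log 2 := Real.log_pos (by norm_num)
  refine ⟨Real.log c2 / Real.log 2 + E2 + 1, ?_, ?_⟩
  · have : 0 ≤ Real.log c2 / Real.log 2 := div_nonneg (Real.log_nonneg hc21) hl2.le
    positivity
  intro Q q p u N M hQ2 hq hqQ hp hu hN0 hNQ hM hne
  have hQ1 : (1 : ℝ) ≤ Q := by exact_mod_cast le_trans hq hqQ
  have hq0 : (q : ℂ) ≠ 0 := by exact_mod_cast (by omega : q ≠ 0)
  have hN0' : ∀ j, (N j : ℂ) ≠ 0 := fun j ↦ by
    have := hN0 j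
    exact_mod_cast this.ne'
  set Ψ := specG Φ D W q p u N with hΨ
  set v := aeval (valG q p u N M) Φ with hv
  have hev : evG M Ψ = (q : ℂ) ^ D * (∏ j, (N j : ℂ)) ^ W * v :=
    evG_specG hΦ (by omega) p u hN0 M
  have hevne : evG M Ψ ≠ 0 := by
    rw [hev]
    refine mul_ne_zero (mul_ne_zero (pow_ne_zero _ hq0) (pow_ne_zero _ ?_)) hne
    exact Finset.prod_ne_zero_iff.mpr fun j _ ↦ hN0' j
  set S := Fintype.piFinset (fun j ↦ SN (N j)) with hS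
  have hMS : M ∈ S := Fintype.mem_piFinset.mpr hM
  set K := S.card with hK
  have hK1 : 1 ≤ K := Finset.card_pos.mpr ⟨M, hMS⟩
  have hKprod : (K : ℝ) = ∏ j, ((SN (N j)).card : ℝ) := by
    rw [hK, hS, Fintype.card_piFinset]; push_cast; rfl
  have hKQ : (K : ℝ) ≤ (Q : ℝ) ^ (2 * n) := by
    rw [hKprod]
    calc ∏ j, ((SN (N j)).card : ℝ) ≤ ∏ j : Fin n, (Q : ℝ) ^ 2 := by
          refine Finset.prod_le_prod (fun _ _ ↦ by positivity) fun j _ ↦ ?_
          refine (card_SN (hN0 j)).trans ?_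
          have h1 : (1 : ℝ) ≤ N j := by exact_mod_cast hN0 j
          have h2 : (N j : ℝ) ≤ Q := by exact_mod_cast hNQ j
          have h3 : Real.log (N j) ≤ N j - 1 := Real.log_le_sub_one_of_pos (by linarith)
          have h4 : 0 ≤ Real.log (N j) := Real.log_nonneg h1
          calc (N j : ℝ) * (1 + Real.log (N j)) ≤ Q * Q := by
                gcongr
                linarith
            _ = _ := by ring
      _ = _ := by
          rw [Finset.prod_const, Finset.card_univ, Fintype.card_fin, ← pow_mul]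
  set B : ℝ := c0 ^ W * C1 * (Q : ℝ) ^ E with hBdef
  have hQE : 1 ≤ (Q : ℝ) ^ E := one_le_pow₀ hQ1
  have hB1 : 1 ≤ B := by
    have : 1 ≤ c0 ^ W * C1 := by nlinarith
    nlinarith
  have hnorm : ‖(1728 / ω : ℂ)‖ ≤ c0 := by linarith
  have hB : ∀ M' ∈ S, ‖(1728 / ω) ^ W * evG M' Ψ‖ ≤ B := by
    intro M' hM'
    have hM'' := Fintype.mem_piFinset.mp hM'
    have := hb Q q p u N M' hq hqQ hp hu hN0 hNQ hM''
    rw [norm_mul, norm_pow, hBdef, mul_assoc]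
    gcongr
  have key := appG1 hω Ψ (specG_homog hΦ D q p u N) hN0 hB1 hB hMS hevne
  have hfac : (K.factorial : ℝ) ≤ ((Q : ℝ) ^ (2 * n)) ^ K := by
    calc (K.factorial : ℝ) ≤ (K : ℝ) ^ K := by exact_mod_cast Nat.factorial_le_pow K
      _ ≤ _ := by gcongr
  have hfirst : ‖(1728 / ω) ^ W * evG M Ψ‖ ≤ (c0 ^ W * (Q : ℝ) ^ (D + n * W)) * ‖v‖ := by
    rw [hev]
    simp only [norm_mul, norm_pow, norm_prod, Complex.norm_natCast]
    have h1 : (q : ℝ) ^ D ≤ (Q : ℝ) ^ D := by gcongr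
    have h2 : (∏ j, (N j : ℝ)) ^ W ≤ (Q : ℝ) ^ (n * W) := by
      have h3 : ∏ j, (N j : ℝ) ≤ (Q : ℝ) ^ n := by
        calc ∏ j, (N j : ℝ) ≤ ∏ j : Fin n, (Q : ℝ) := by
              refine Finset.prod_le_prod (fun _ _ ↦ by positivity) fun j _ ↦ ?_
              exact_mod_cast hNQ j
          _ = _ := by rw [Finset.prod_const, Finset.card_univ, Fintype.card_fin]
      rw [pow_mul]
      gcongr
    calc ‖(1728 / ω : ℂ)‖ ^ W * ((q : ℝ) ^ D * (∏ j, (N j : ℝ)) ^ W * ‖v‖)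
        ≤ c0 ^ W * ((Q : ℝ) ^ D * (Q : ℝ) ^ (n * W) * ‖v‖) := by gcongr
      _ = _ := by rw [pow_add]; ring
  have h5 : (1 : ℝ) ≤ ‖v‖ * (c2 * (Q : ℝ) ^ E2) ^ K := by
    calc (1 : ℝ) ≤ ‖(1728 / ω) ^ W * evG M Ψ‖ * ((K.factorial : ℝ) * B ^ K) := key
      _ ≤ ((c0 ^ W * (Q : ℝ) ^ (D + n * W)) * ‖v‖) * ((((Q : ℝ) ^ (2 * n)) ^ K) * B ^ K) := by
          gcongr
      _ = ‖v‖ * ((c0 ^ W * (Q : ℝ) ^ (D + n * W)) * ((((Q : ℝ) ^ (2 * n)) ^ K) * B ^ K)) := by ring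
      _ ≤ ‖v‖ * ((c0 ^ W * (Q : ℝ) ^ (D + n * W)) ^ K * ((((Q : ℝ) ^ (2 * n)) ^ K) * B ^ K)) := by
          have h6 : 1 ≤ c0 ^ W * (Q : ℝ) ^ (D + n * W) := by
            have : 1 ≤ (Q : ℝ) ^ (D + n * W) := one_le_pow₀ hQ1
            nlinarith
          have h7 : c0 ^ W * (Q : ℝ) ^ (D + n * W) ≤ (c0 ^ W * (Q : ℝ) ^ (D + n * W)) ^ K :=
            le_self_pow₀ h6 (by omega)
          gcongr
      _ = ‖v‖ * (c2 * (Q : ℝ) ^ E2) ^ K := by
          rw [← mul_pow, ← mul_pow, hc2, hE2, hBdef, pow_add, pow_add, pow_add]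
          ring
  have h8 : (c2 * (Q : ℝ) ^ E2) ^ K ≤
      Real.exp ((Real.log c2 / Real.log 2 + E2 + 1) * Real.log Q * ∏ j, ((SN (N j)).card : ℝ)) := by
    rw [← hKprod]
    have hc2p : 0 < c2 := by linarith
    have hQp : (0 : ℝ) < Q := by linarith
    have h9 : (c2 * (Q : ℝ) ^ E2) ^ K = Real.exp ((Real.log c2 + E2 * Real.log Q) * K) := by
      rw [mul_comm _ (K : ℝ), Real.exp_nat_mul, Real.exp_add, Real.exp_log hc2p,
        Real.exp_nat_mul, Real.exp_log hQp]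
    rw [h9]
    apply Real.exp_le_exp.mpr
    have hlQ : Real.log 2 ≤ Real.log Q := Real.log_le_log (by norm_num) (by exact_mod_cast hQ2)
    have h10 : Real.log c2 ≤ Real.log c2 / Real.log 2 * Real.log Q := by
      have h0 : 0 ≤ Real.log c2 := Real.log_nonneg hc21
      calc Real.log c2 = Real.log c2 / Real.log 2 * Real.log 2 := by field_simp
        _ ≤ _ := by gcongr
    have hlQ0 : 0 ≤ Real.log Q := by linarith
    gcongr
    nlinarith
  have h11 : (1 : ℝ) ≤ ‖v‖ * Real.exp ((Real.log c2 / Real.log 2 + E2 + 1) * Real.log Q *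
      ∏ j, ((SN (N j)).card : ℝ)) := by
    refine h5.trans ?_
    gcongr
  rw [Real.exp_neg, inv_le_iff_one_le_mul₀ (Real.exp_pos _)]
  exact h11

end H32
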