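import Pool.Agent.H32.Pairs

/-!
# Good directions from inequivalence
-/

open Complex Filter Metric
open scoped Topology Real

namespace H32

lemma om_smul {x y : ℂ} (h : om x y = 0) (hx : x ≠ 0) : ∃ l : ℝ, y = l * x := by
  obtain ⟨e, a, b, h1, h2⟩ := om_zero_line h
  have ha : (a : ℂ) ≠ 0 := by
    intro h0
    rw [h0, zero_mul] at h1
    exact hx h1
  refine ⟨b / a, ?_⟩
  rw [h2, h1]
  push_cast
  field_simp

lemma forms_prop {m : ℕ} {F G : (Fin m → ℂ) → ℂ}
    (hF : ∀ (v w : Fin m → ℂ) (x : ℂ), F (v + x • w) = F v + x * F w)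
    (hG : ∀ (v w : Fin m → ℂ) (x : ℂ), G (v + x • w) = G v + x * G w)
    (h : ∀ v, om (F v) (G v) = 0) {v₀ : Fin m → ℂ} (h0 : F v₀ ≠ 0) :
    ∃ l : ℝ, ∀ v, G v = l * F v := by
  obtain ⟨l, hl⟩ := om_smul (h v₀) h0
  refine ⟨l, fun v ↦ ?_⟩
  set D : ℂ := G v - l * F v with hD
  have h1 := h (v + (I * D / F v₀) • v₀)
  rw [hF, hG, hl] at h1
  have h2 := h v
  have e1 : I * D / F v₀ * F v₀ = I * D := by field_simp
  have e2 : I * D / F v₀ * (l * F v₀) = l * (I * D) := by field_simp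
  rw [e1, e2] at h1
  have e3 : G v = D + l * F v := by rw [hD]; ring
  rw [e3] at h1 h2
  have h3 : Complex.normSq D = 0 := by
    rw [Complex.normSq_apply]
    simp only [om, Complex.add_re, Complex.add_im, Complex.mul_re, Complex.mul_im, Complex.I_re,
      Complex.I_im, Complex.ofReal_re, Complex.ofReal_im] at h1 h2
    linear_combination h1 - h2
  have h4 : D = 0 := Complex.normSq_eq_zero.mp h3
  rw [hD] at h4
  linear_combination h4

lemma dense_form {m : ℕ} {F : (Fin m → ℂ) → ℂ}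
    (hF : ∀ (v w : Fin m → ℂ) (x : ℂ), F (v + x • w) = F v + x * F w)
    {v₀ : Fin m → ℂ} (h0 : F v₀ ≠ 0) : Dense {v | F v ≠ 0} := by
  refine dense_of_line v₀ fun v ↦ ?_
  have h1 : {x : ℝ | v + x • (v₀ - v) ∉ {v | F v ≠ 0}} ⊆
      {x : ℝ | (Polynomial.C (F v) + Polynomial.C (F (v₀ - v)) *
        Polynomial.X : Polynomial ℂ).IsRoot (x : ℂ)} := by
    intro x hx
    simp only [Set.mem_ofPred_eq, not_not] at hx
    have e : (v + x • (v₀ - v) : Fin m → ℂ) = v + (x : ℂ) • (v₀ - v) := by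
      ext k; simp
    rw [e, hF] at hx
    simp only [Set.mem_ofPred_eq, Polynomial.IsRoot, Polynomial.eval_add, Polynomial.eval_C,
      Polynomial.eval_mul, Polynomial.eval_X]
    linear_combination hx
  have hne : (Polynomial.C (F v) + Polynomial.C (F (v₀ - v)) *
        Polynomial.X : Polynomial ℂ) ≠ 0 := by
    intro h0'
    apply h0
    have h2 := congrArg (Polynomial.eval 1) h0'
    simp only [Polynomial.eval_add, Polynomial.eval_C, Polynomial.eval_mul, Polynomial.eval_X,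
      mul_one, Polynomial.eval_zero] at h2
    have h3 := hF v (v₀ - v) 1
    rw [one_smul, one_mul, add_sub_cancel] at h3
    rw [h3]; exact h2
  have h4 := (Polynomial.finite_setOfPred_isRoot hne).preimage
    (f := (fun x : ℝ ↦ (x : ℂ))) (Complex.ofReal_injective.injOn)
  exact h4.subset h1

/-- A real relation between rational vectors gives a rational relation. -/
lemma rational_relation {k : ℕ} (W : Set (Fin k → ℚ)) (ρ : Fin k → ℝ) (hρ : ρ ≠ 0)
    (h : ∀ w ∈ W, ∑ i, ρ i * (w i : ℝ) = 0) :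
    ∃ g : Fin k → ℚ, g ≠ 0 ∧ ∀ w ∈ W, ∑ i, g i * w i = 0 := by
  classical
  have hlt : Submodule.span ℚ W < ⊤ := by
    rw [lt_top_iff_ne_top]
    intro htop
    apply hρ
    have h1 : ∀ w ∈ Submodule.span ℚ W, ∑ i, ρ i * (w i : ℝ) = 0 := by
      intro w hw
      induction hw using Submodule.span_induction with
      | mem x hx => exact h x hx
      | zero => simp
      | add x y _ _ hx hy =>
        have : ∑ i, ρ i * (((x + y) i : ℚ) : ℝ) = ∑ i, ρ i * (x i : ℝ) + ∑ i, ρ i * (y i : ℝ) := by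
          rw [← Finset.sum_add_distrib]
          refine Finset.sum_congr rfl fun i _ ↦ ?_
          simp only [Pi.add_apply]; push_cast; ring
        rw [this, hx, hy, add_zero]
      | smul a x _ hx =>
        have : ∑ i, ρ i * (((a • x) i : ℚ) : ℝ) = a * ∑ i, ρ i * (x i : ℝ) := by
          rw [Finset.mul_sum]
          refine Finset.sum_congr rfl fun i _ ↦ ?_
          simp only [Pi.smul_apply, smul_eq_mul]; push_cast; ring
        rw [this, hx, mul_zero]
    ext j
    have h2 := h1 (Pi.single j 1) (by rw [htop]; trivial)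
    rw [Finset.sum_eq_single j] at h2
    · simpa using h2
    · intro i _ hij
      simp [Pi.single_eq_of_ne hij]
    · intro hj; exact absurd (Finset.mem_univ j) hj
  obtain ⟨f, hf0, hf⟩ := Submodule.exists_le_ker_of_lt_top _ hlt
  refine ⟨fun i ↦ f (Pi.single i 1), ?_, ?_⟩
  · intro h0
    apply hf0
    apply LinearMap.pi_ext'
    intro i
    ext
    exact congrFun h0 i
  · intro w hw
    have h1 : f w = 0 := hf (Submodule.subset_span hw)
    rw [← h1]
    conv_rhs => rw [← Finset.univ_sum_single w]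
    rw [map_sum]
    refine Finset.sum_congr rfl fun i _ ↦ ?_
    have : (Pi.single i (w i) : Fin k → ℚ) = w i • Pi.single i 1 := by
      rw [← Pi.single_smul, smul_eq_mul, mul_one]
    rw [this, map_smul, smul_eq_mul, mul_comm]

variable {m n : ℕ}

/-- The complex coefficients of a Gaussian integral form. -/
noncomputable def gc (α : Fin (m + 1) → GaussianInt) (k : Fin (m + 1)) : ℂ :=
  GaussianInt.toComplex (α k)

/-- The real part of a Gaussian integral form at a rational point. -/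
def lre (α : Fin (m + 1) → GaussianInt) (s : Fin m → ℚ) : ℚ :=
  (α 0).re + ∑ k, (α k.succ).re * s k

/-- The imaginary part of a Gaussian integral form at a rational point. -/
def lim' (α : Fin (m + 1) → GaussianInt) (s : Fin m → ℚ) : ℚ :=
  (α 0).im + ∑ k, (α k.succ).im * s k

lemma lf_rat (α : Fin (m + 1) → GaussianInt) (s : Fin m → ℚ) :
    lf (gc α) (fun k ↦ (s k : ℂ)) = ((lre α s : ℚ) : ℂ) + ((lim' α s : ℚ) : ℂ) * I := by
  unfold lf lin gc lre lim'
  simp only [GaussianInt.toComplex_def]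
  push_cast
  rw [add_mul, Finset.sum_mul]
  have : ∑ x : Fin m, (((α x.succ).re : ℂ) + ((α x.succ).im : ℂ) * I) * (s x : ℂ) =
      ∑ x : Fin m, ((α x.succ).re : ℂ) * (s x : ℂ) + ∑ x : Fin m, ((α x.succ).im : ℂ) * (s x : ℂ) * I := by
    rw [← Finset.sum_add_distrib]
    refine Finset.sum_congr rfl fun k _ ↦ ?_
    ring
  rw [this]
  ring

lemma lf_shift (α : Fin (m + 1) → ℂ) (t v : Fin m → ℂ) :
    lf α (fun k ↦ t k + v k) = lin α v + lf α t := by
  have := lf_line α t v 1
  simpa using this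

theorem pair_relation {α β α' β' : Fin (m + 1) → GaussianInt} {t : Fin m → ℝ}
    (h1 : ∃ v, dt (gc α) (gc β) (fun k ↦ (t k : ℂ)) v ≠ 0)
    (h2 : ∃ v, dt (gc α') (gc β') (fun k ↦ (t k : ℂ)) v ≠ 0)
    (hbad : ∀ v k l, om (Qv (gc α) (gc β) (gc α') (gc β') (fun k ↦ (t k : ℂ)) v k)
      (Qv (gc α) (gc β) (gc α') (gc β') (fun k ↦ (t k : ℂ)) v l) = 0) :
    ∃ g : Fin 4 → ℚ, g ≠ 0 ∧
      lf (gc α) (fun k ↦ (t k : ℂ)) * (g 0 * lf (gc α') (fun k ↦ (t k : ℂ)) +
        g 1 * lf (gc β') (fun k ↦ (t k : ℂ))) =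
      lf (gc β) (fun k ↦ (t k : ℂ)) * (g 2 * lf (gc α') (fun k ↦ (t k : ℂ)) +
        g 3 * lf (gc β') (fun k ↦ (t k : ℂ))) := by
  set tc : Fin m → ℂ := fun k ↦ (t k : ℂ) with htc
  -- a nonzero entry
  have hd1 := dense_dt h1
  have hd2 := dense_dt h2
  have hd := hd1.inter_of_isOpen_left hd2 (isOpen_ne_fun (continuous_dt _ _ _) continuous_const)
  obtain ⟨v₀, hv1, hv2⟩ := hd.nonempty
  have hv1' : dt (gc α) (gc β) tc v₀ ≠ 0 := hv1
  have hv2' : dt (gc α') (gc β') tc v₀ ≠ 0 := hv2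
  have hk : ∃ k, Qv (gc α) (gc β) (gc α') (gc β') tc v₀ k ≠ 0 := by
    by_contra hcon
    push Not at hcon
    have e0 := hcon 0
    have e1 := hcon 1
    have e2 := hcon 2
    have e3 := hcon 3
    simp only [Qv, QQ4, Matrix.cons_val_zero, Matrix.cons_val_one, Matrix.cons_val] at e0 e1 e2 e3
    apply mul_ne_zero hv1' hv2'
    unfold dt
    linear_combination (lin (gc β) v₀ * lin (gc β') v₀ * 0 + (lf (gc β) tc * lin (gc α') v₀ -
      lin (gc β) v₀ * lf (gc α') tc)) * e0 - (lin (gc β) v₀ * lf (gc β') tc -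
      lf (gc β) tc * lin (gc β') v₀) * e1
  obtain ⟨k₀, hk₀⟩ := hk
  have hline : ∀ k (v w : Fin m → ℂ) (x : ℂ), Qv (gc α) (gc β) (gc α') (gc β') tc (v + x • w) k =
    Qv (gc α) (gc β) (gc α') (gc β') tc v k + x * Qv (gc α) (gc β) (gc α') (gc β') tc w k :=
    fun k v w x ↦ Qv_line _ _ _ _ _ _ _ _ _
  choose ρ hρ using fun k ↦ forms_prop (hline k₀) (hline k) (fun v ↦ hbad v k₀ k) hk₀
  have hρk : ρ k₀ ≠ 0 := by
    intro h0
    have := hρ k₀ v₀
    rw [h0] at this
    simp at this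
    exact hk₀ this
  -- the relation on the whole space
  have hH : ∀ s : Fin m → ℂ, lf (gc α) s * (ρ 2 * lf (gc α') s + ρ 3 * lf (gc β') s) -
      lf (gc β) s * (ρ 0 * lf (gc α') s + ρ 1 * lf (gc β') s) = 0 := by
    have hcont : Continuous fun v : Fin m → ℂ ↦
        lf (gc α) (fun k ↦ tc k + v k) * (ρ 2 * lf (gc α') (fun k ↦ tc k + v k) +
          ρ 3 * lf (gc β') (fun k ↦ tc k + v k)) -
        lf (gc β) (fun k ↦ tc k + v k) * (ρ 0 * lf (gc α') (fun k ↦ tc k + v k) +
          ρ 1 * lf (gc β') (fun k ↦ tc k + v k)) := by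
      have hs : Continuous fun v : Fin m → ℂ ↦ (fun k ↦ tc k + v k : Fin m → ℂ) := by fun_prop
      have c1 := (continuous_lf (gc α)).comp hs
      have c2 := (continuous_lf (gc β)).comp hs
      have c3 := (continuous_lf (gc α')).comp hs
      have c4 := (continuous_lf (gc β')).comp hs
      exact (c1.mul ((continuous_const.mul c3).add (continuous_const.mul c4))).sub
        (c2.mul ((continuous_const.mul c3).add (continuous_const.mul c4)))
    have hv : Set.EqOn (fun v : Fin m → ℂ ↦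
        lf (gc α) (fun k ↦ tc k + v k) * (ρ 2 * lf (gc α') (fun k ↦ tc k + v k) +
          ρ 3 * lf (gc β') (fun k ↦ tc k + v k)) -
        lf (gc β) (fun k ↦ tc k + v k) * (ρ 0 * lf (gc α') (fun k ↦ tc k + v k) +
          ρ 1 * lf (gc β') (fun k ↦ tc k + v k))) (fun _ ↦ 0)
        {v | Qv (gc α) (gc β) (gc α') (gc β') tc v k₀ ≠ 0} := by
      intro v hv
      have e0 := hρ 0 v
      have e1 := hρ 1 v
      have e2 := hρ 2 v
      have e3 := hρ 3 v
      have hv' : Qv (gc α) (gc β) (gc α') (gc β') tc v k₀ ≠ 0 := hv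
      generalize Qv (gc α) (gc β) (gc α') (gc β') tc v k₀ = X at hv' e0 e1 e2 e3
      simp only [Qv, QQ4, Matrix.cons_val_zero, Matrix.cons_val_one, Matrix.cons_val] at e0 e1 e2 e3
      apply (mul_eq_zero.mp (?_ : X * _ = 0)).resolve_left hv'
      beta_reduce
      rw [lf_shift, lf_shift, lf_shift, lf_shift]
      linear_combination (-(lin (gc α) v + lf (gc α) tc) * (lin (gc α') v + lf (gc α') tc)) * e2 -
        (lin (gc α) v + lf (gc α) tc) * (lin (gc β') v + lf (gc β') tc) * e3 +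
        (lin (gc β) v + lf (gc β) tc) * (lin (gc α') v + lf (gc α') tc) * e0 +
        (lin (gc β) v + lf (gc β) tc) * (lin (gc β') v + lf (gc β') tc) * e1
    have hall := Continuous.ext_on (dense_form (hline k₀) hk₀) hcont continuous_const hv
    intro s
    have h5 := congrFun hall (fun k ↦ s k - tc k)
    simp only [add_sub_cancel] at h5
    exact h5
  -- rational vectors
  set wR : (Fin m → ℚ) → Fin 4 → ℚ := fun s ↦
    ![lre α s * lre α' s - lim' α s * lim' α' s, lre α s * lre β' s - lim' α s * lim' β' s,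
      -(lre β s * lre α' s - lim' β s * lim' α' s), -(lre β s * lre β' s - lim' β s * lim' β' s)]
    with hwR
  set wI : (Fin m → ℚ) → Fin 4 → ℚ := fun s ↦
    ![lre α s * lim' α' s + lim' α s * lre α' s, lre α s * lim' β' s + lim' α s * lre β' s,
      -(lre β s * lim' α' s + lim' β s * lre α' s), -(lre β s * lim' β' s + lim' β s * lre β' s)]
    with hwI
  have hrel : ∀ (g : Fin 4 → ℝ) (s : Fin m → ℚ),
      lf (gc α) (fun k ↦ (s k : ℂ)) * (g 0 * lf (gc α') (fun k ↦ (s k : ℂ)) +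
        g 1 * lf (gc β') (fun k ↦ (s k : ℂ))) -
      lf (gc β) (fun k ↦ (s k : ℂ)) * (g 2 * lf (gc α') (fun k ↦ (s k : ℂ)) +
        g 3 * lf (gc β') (fun k ↦ (s k : ℂ))) =
      ((∑ i, g i * (wR s i : ℝ) : ℝ) : ℂ) + ((∑ i, g i * (wI s i : ℝ) : ℝ) : ℂ) * I := by
    intro g s
    rw [lf_rat, lf_rat, lf_rat, lf_rat, Fin.sum_univ_four, Fin.sum_univ_four]
    simp only [hwR, hwI, Matrix.cons_val_zero, Matrix.cons_val_one, Matrix.cons_val]
    push_cast
    linear_combination ((lim' α s : ℂ) * (g 0 * lim' α' s + g 1 * lim' β' s) -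
      lim' β s * (g 2 * lim' α' s + g 3 * lim' β' s)) * Complex.I_sq
  obtain ⟨g, hg0, hg⟩ := rational_relation (Set.range wR ∪ Set.range wI)
    ![ρ 2, ρ 3, ρ 0, ρ 1] (by
      intro h0
      apply hρk
      have a0 := congrFun h0 0
      have a1 := congrFun h0 1
      have a2 := congrFun h0 2
      have a3 := congrFun h0 3
      simp at a0 a1 a2 a3
      fin_cases k₀
      · exact a2
      · exact a3
      · exact a0
      · exact a1) (by
      have key : ∀ s, ∑ i, (![ρ 2, ρ 3, ρ 0, ρ 1] : Fin 4 → ℝ) i * (wR s i : ℝ) = 0 ∧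
          ∑ i, (![ρ 2, ρ 3, ρ 0, ρ 1] : Fin 4 → ℝ) i * (wI s i : ℝ) = 0 := by
        intro s
        have h3 := hrel ![ρ 2, ρ 3, ρ 0, ρ 1] s
        simp only [Matrix.cons_val_zero, Matrix.cons_val_one, Matrix.cons_val] at h3
        rw [hH] at h3
        constructor
        · have := congrArg Complex.re h3
          simpa using this.symm
        · have := congrArg Complex.im h3
          simpa using this.symm
      rintro w (⟨s, rfl⟩ | ⟨s, rfl⟩)
      · exact (key s).1
      · exact (key s).2)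
  refine ⟨g, hg0, ?_⟩
  have hcont : Continuous fun s : Fin m → ℝ ↦
      lf (gc α) (fun k ↦ (s k : ℂ)) * (g 0 * lf (gc α') (fun k ↦ (s k : ℂ)) +
        g 1 * lf (gc β') (fun k ↦ (s k : ℂ))) -
      lf (gc β) (fun k ↦ (s k : ℂ)) * (g 2 * lf (gc α') (fun k ↦ (s k : ℂ)) +
        g 3 * lf (gc β') (fun k ↦ (s k : ℂ))) := by
    have hs : Continuous fun v : Fin m → ℝ ↦ (fun k ↦ (v k : ℂ) : Fin m → ℂ) := by fun_prop
    have c1 := (continuous_lf (gc α)).comp hs
    have c2 := (continuous_lf (gc β)).comp hs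
    have c3 := (continuous_lf (gc α')).comp hs
    have c4 := (continuous_lf (gc β')).comp hs
    exact (c1.mul ((continuous_const.mul c3).add (continuous_const.mul c4))).sub
      (c2.mul ((continuous_const.mul c3).add (continuous_const.mul c4)))
  have hdense : DenseRange (Pi.map (fun _ : Fin m ↦ (Rat.cast : ℚ → ℝ))) :=
    DenseRange.piMap fun _ ↦ Rat.denseRange_cast
  have hall := hdense.equalizer hcont (continuous_const (y := (0 : ℂ))) (by
    ext s
    simp only [Function.comp, Pi.map_apply]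
    have h3 := hrel (fun i ↦ (g i : ℝ)) s
    have h4 : ∑ i, (g i : ℝ) * (wR s i : ℝ) = 0 := by
      have := hg (wR s) (Or.inl ⟨s, rfl⟩)
      exact_mod_cast congrArg (Rat.cast : ℚ → ℝ) this
    have h5 : ∑ i, (g i : ℝ) * (wI s i : ℝ) = 0 := by
      have := hg (wI s) (Or.inr ⟨s, rfl⟩)
      exact_mod_cast congrArg (Rat.cast : ℚ → ℝ) this
    rw [h4, h5] at h3
    push_cast at h3 ⊢
    linear_combination h3)
  have h6 := congrFun hall t
  linear_combination h6

/-- inequivalence gives good directions for pairs -/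
theorem pair_good {α β α' β' : Fin (m + 1) → GaussianInt} {t : Fin m → ℝ} {z z' : ℂ}
    (hz : z = lf (gc α) (fun k ↦ (t k : ℂ)) / lf (gc β) (fun k ↦ (t k : ℂ)))
    (hz' : z' = lf (gc α') (fun k ↦ (t k : ℂ)) / lf (gc β') (fun k ↦ (t k : ℂ)))
    (him : 0 < z.im) (him' : 0 < z'.im)
    (h1 : ∃ v, dt (gc α) (gc β) (fun k ↦ (t k : ℂ)) v ≠ 0)
    (h2 : ∃ v, dt (gc α') (gc β') (fun k ↦ (t k : ℂ)) v ≠ 0)
    (hne : ¬ ∃ a b c d : ℚ, 0 < a * d - b * c ∧
      z = ((a : ℂ) * z' + (b : ℂ)) / ((c : ℂ) * z' + (d : ℂ))) :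
    ∃ v k l, om (Qv (gc α) (gc β) (gc α') (gc β') (fun k ↦ (t k : ℂ)) v k)
      (Qv (gc α) (gc β) (gc α') (gc β') (fun k ↦ (t k : ℂ)) v l) ≠ 0 := by
  by_contra hcon
  push Not at hcon
  obtain ⟨g, hg0, hg⟩ := pair_relation h1 h2 hcon
  have hB : lf (gc β) (fun k ↦ (t k : ℂ)) ≠ 0 := by
    intro h0
    rw [h0, div_zero] at hz
    rw [hz] at him
    simp at him
  have hB' : lf (gc β') (fun k ↦ (t k : ℂ)) ≠ 0 := by
    intro h0
    rw [h0, div_zero] at hz'
    rw [hz'] at him'
    simp at him'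
  have hA : lf (gc α) (fun k ↦ (t k : ℂ)) = z * lf (gc β) (fun k ↦ (t k : ℂ)) := by
    rw [hz]; field_simp
  have hA' : lf (gc α') (fun k ↦ (t k : ℂ)) = z' * lf (gc β') (fun k ↦ (t k : ℂ)) := by
    rw [hz']; field_simp
  have hrel : z * (g 0 * z' + g 1) = g 2 * z' + g 3 := by
    rw [hA, hA'] at hg
    have h3 : lf (gc β) (fun k ↦ (t k : ℂ)) * lf (gc β') (fun k ↦ (t k : ℂ)) *
        (z * (g 0 * z' + g 1) - (g 2 * z' + g 3)) = 0 := by linear_combination hg
    have h4 := (mul_eq_zero.mp h3).resolve_left (mul_ne_zero hB hB')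
    linear_combination h4
  have hlin : ∀ a b : ℚ, (a : ℂ) * z' + b = 0 → a = 0 ∧ b = 0 := by
    intro a b hab
    have h3 := congrArg Complex.im hab
    simp at h3
    have ha : a = 0 := by
      rcases h3 with h3 | h3
      · exact h3
      · exact absurd h3 him'.ne'
    refine ⟨ha, ?_⟩
    rw [ha] at hab
    simpa using hab
  have hden : (g 0 : ℂ) * z' + g 1 ≠ 0 := by
    intro h0
    rw [h0, mul_zero] at hrel
    obtain ⟨e0, e1⟩ := hlin _ _ h0
    obtain ⟨e2, e3⟩ := hlin _ _ hrel.symm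
    apply hg0
    ext k
    fin_cases k
    · exact e0
    · exact e1
    · exact e2
    · exact e3
  have hzeq : z = ((g 2 : ℂ) * z' + (g 3 : ℂ)) / ((g 0 : ℂ) * z' + (g 1 : ℂ)) := by
    rw [eq_div_iff hden]; exact hrel
  refine hne ⟨g 2, g 3, g 0, g 1, ?_, hzeq⟩
  -- positivity of the determinant
  have hns : 0 < Complex.normSq ((g 0 : ℂ) * z' + (g 1 : ℂ)) := Complex.normSq_pos.mpr hden
  have him2 : z.im = ((g 2 : ℝ) * g 1 - g 3 * g 0) * z'.im /
      Complex.normSq ((g 0 : ℂ) * z' + (g 1 : ℂ)) := by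
    rw [hzeq, Complex.div_im]
    simp only [Complex.add_re, Complex.add_im, Complex.mul_re, Complex.mul_im, Complex.ratCast_re,
      Complex.ratCast_im]
    field_simp
    ring
  rw [him2] at him
  have h5 : 0 < ((g 2 : ℝ) * g 1 - g 3 * g 0) * z'.im := by
    by_contra hcon2
    push Not at hcon2
    have := div_nonpos_of_nonpos_of_nonneg hcon2 hns.le
    linarith
  have h6 : 0 < (g 2 : ℝ) * g 1 - g 3 * g 0 := (pos_iff_pos_of_mul_pos h5).mpr him'
  exact_mod_cast h6

/-- non-CM points are not constant -/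
theorem nonCM_good {α β : Fin (m + 1) → GaussianInt} {t : Fin m → ℝ} {z : ℂ}
    (hz : z = lf (gc α) (fun k ↦ (t k : ℂ)) / lf (gc β) (fun k ↦ (t k : ℂ)))
    (him : 0 < z.im)
    (hCM : ¬ ∃ a b c : ℤ, a ≠ 0 ∧ (a : ℂ) * z ^ 2 + (b : ℂ) * z + (c : ℂ) = 0) :
    ∃ v, dt (gc α) (gc β) (fun k ↦ (t k : ℂ)) v ≠ 0 := by
  classical
  by_contra hcon
  push Not at hcon
  have hB : lf (gc β) (fun k ↦ (t k : ℂ)) ≠ 0 := by
    intro h0
    rw [h0, div_zero] at hz
    rw [hz] at him
    simp at him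
  have hlin : ∀ v, lin (gc α) v = z * lin (gc β) v := by
    intro v
    have h1 := hcon v
    unfold dt at h1
    rw [hz]
    field_simp
    linear_combination h1
  have hcoef : ∀ k, gc α k = z * gc β k := by
    intro k
    refine Fin.cases ?_ (fun k ↦ ?_) k
    · have h1 : lf (gc α) (fun k ↦ (t k : ℂ)) = z * lf (gc β) (fun k ↦ (t k : ℂ)) := by
        rw [hz]; field_simp
      have h2 := hlin (fun k ↦ (t k : ℂ))
      unfold lf at h1
      linear_combination h1 - h2
    · have h1 := hlin (Pi.single k 1)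
      unfold lin at h1
      simpa [Pi.single_apply] using h1
  have hk : ∃ k, β k ≠ 0 := by
    by_contra hcon2
    push Not at hcon2
    apply hB
    unfold lf lin gc
    simp [hcon2]
  obtain ⟨k, hk⟩ := hk
  apply hCM
  have h1 := hcoef k
  unfold gc at h1
  rw [GaussianInt.toComplex_def, GaussianInt.toComplex_def] at h1
  set x := (α k).re
  set y := (α k).im
  set u := (β k).re with hu
  set v := (β k).im with hv
  refine ⟨(u ^ 2 + v ^ 2) ^ 2, -2 * (u ^ 2 + v ^ 2) * (x * u + y * v),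
    (x * u + y * v) ^ 2 + (y * u - x * v) ^ 2, ?_, ?_⟩
  · have : u ^ 2 + v ^ 2 ≠ 0 := by
      intro h0
      apply hk
      have h2 : u = 0 := by nlinarith [sq_nonneg u, sq_nonneg v]
      have h3 : v = 0 := by nlinarith [sq_nonneg u, sq_nonneg v]
      exact Zsqrtd.ext h2 h3
    exact pow_ne_zero _ this
  · have e1 : ((u : ℂ) ^ 2 + v ^ 2) * z = (x * u + y * v) + (y * u - x * v) * I := by
      linear_combination (-(u - v * I)) * h1 + ((v : ℂ) ^ 2 * z - y * v) * Complex.I_sq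
    push_cast
    have e2 : (((u : ℂ) ^ 2 + v ^ 2) * z - (x * u + y * v)) ^ 2 = -((y : ℂ) * u - x * v) ^ 2 := by
      rw [e1]
      linear_combination ((y : ℂ) * u - x * v) ^ 2 * Complex.I_sq
    linear_combination e2

end H32
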