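import Pool.Agent.H32.G3
import Pool.Agent.H32.Pairs2

/-!
# Special points
-/

open UpperHalfPlane hiding I
open Complex EisensteinSeries ModularForm MatrixGroups Manifold
open scoped Real Topology
open Filter Asymptotics MvPolynomial

namespace H32

variable {m n : ℕ}

/-- The Gaussian integer attached to a form and a rational point. -/
def gv (α : Fin (m + 1) → GaussianInt) (q : ℕ) (p : Fin m → ℤ) : GaussianInt :=
  α 0 * q + ∑ k, α k.succ * p k

lemma lf_gv (α : Fin (m + 1) → GaussianInt) {q : ℕ} (hq : 0 < q) (p : Fin m → ℤ) :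
    lf (gc α) (fun k ↦ (((p k : ℝ) / q : ℝ) : ℂ)) = GaussianInt.toComplex (gv α q p) / q := by
  have hq0 : (q : ℂ) ≠ 0 := by exact_mod_cast hq.ne'
  rw [eq_div_iff hq0]
  unfold lf lin gc gv
  simp only [map_add, map_mul, map_sum, map_natCast, map_intCast]
  rw [add_mul, Finset.sum_mul]
  congr 1
  refine Finset.sum_congr rfl fun k _ ↦ ?_
  push_cast
  field_simp

lemma exists_MG (v u : GaussianInt)
    (hpos : 0 < (GaussianInt.toComplex v / GaussianInt.toComplex u).im) :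
    ∃ (M : ℕ × ℕ × ℕ) (N : ℕ), 0 < N ∧ M ∈ SN N ∧ (N : ℤ) = v.im * u.re - v.re * u.im ∧
      e2 (GaussianInt.toComplex v / GaussianInt.toComplex u) -
        3 / (π * ((GaussianInt.toComplex v / GaussianInt.toComplex u).im : ℂ)) =
        (GaussianInt.toComplex u / N) ^ 2 * AA M 0 ∧
      e4 (GaussianInt.toComplex v / GaussianInt.toComplex u) =
        (GaussianInt.toComplex u / N) ^ 4 * AA M 1 ∧
      e6 (GaussianInt.toComplex v / GaussianInt.toComplex u) =
        (GaussianInt.toComplex u / N) ^ 6 * AA M 2 := by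
  set V : ℂ := GaussianInt.toComplex v with hV
  set U : ℂ := GaussianInt.toComplex u with hU
  have hU0 : U ≠ 0 := by
    intro h0
    rw [h0, div_zero] at hpos
    simp at hpos
  have hVe : V = (v.re : ℂ) + (v.im : ℂ) * I := by rw [hV, GaussianInt.toComplex_def]
  have hUe : U = (u.re : ℂ) + (u.im : ℂ) * I := by rw [hU, GaussianInt.toComplex_def]
  have him : (V / U).im = ((v.im * u.re - v.re * u.im : ℤ) : ℝ) / Complex.normSq U := by
    rw [Complex.div_im, hVe]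
    have hn : Complex.normSq U ≠ 0 := (Complex.normSq_pos.mpr hU0).ne'
    have h1 : U.re = u.re := by rw [hUe]; simp
    have h2 : U.im = u.im := by rw [hUe]; simp
    rw [h1, h2]
    simp
    ring
  have hns : 0 < Complex.normSq U := Complex.normSq_pos.mpr hU0
  have hNz : 0 < v.im * u.re - v.re * u.im := by
    have h1 : 0 < (V / U).im := hpos
    rw [him] at h1
    have h2 : (0 : ℝ) < ((v.im * u.re - v.re * u.im : ℤ) : ℝ) := by
      by_contra hcon
      push Not at hcon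
      have := div_nonpos_of_nonpos_of_nonneg hcon hns.le
      linarith
    exact_mod_cast h2
  obtain ⟨N, hNe⟩ := Int.eq_ofNat_of_zero_le hNz.le
  have hN : 0 < N := by omega
  obtain ⟨s, hs, γ, hX⟩ := exists_rep hN !![v.im, v.re; u.im, u.re] (by
    rw [Matrix.det_fin_two_of]
    exact hNe)
  obtain ⟨ha, hd⟩ := SN_pos hN hs
  have hN2 := ((mem_SN hN).mp hs).1
  have h00 := congrFun (congrFun hX 0) 0
  have h01 := congrFun (congrFun hX 0) 1
  have h10 := congrFun (congrFun hX 1) 0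
  have h11 := congrFun (congrFun hX 1) 1
  simp only [toM, Matrix.mul_apply, Fin.sum_univ_two, Matrix.of_apply, Matrix.cons_val',
    Matrix.cons_val_zero, Matrix.cons_val_one, Matrix.cons_val_fin_one, mul_zero, add_zero]
    at h00 h01 h10 h11
  set τ : ℍ := tact s UpperHalfPlane.I with hτ
  have hτe : (τ : ℂ) = ((s.1 : ℂ) * I + s.2.1) / s.2.2 := by
    rw [hτ, coe_tact ha hd, UpperHalfPlane.coe_I]
  have hd0 : (s.2.2 : ℂ) ≠ 0 := by exact_mod_cast hd.ne'
  have ha0 : (s.1 : ℂ) ≠ 0 := by exact_mod_cast ha.ne'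
  have hden : denom (γ : GL (Fin 2) ℝ) τ = U / s.2.2 := by
    rw [ModularGroup.denom_apply, hτe, eq_div_iff hd0, hUe, h10, h11]
    push_cast
    field_simp
    ring
  have hnum : ((γ 0 0 : ℤ) : ℂ) * τ + ((γ 0 1 : ℤ) : ℂ) = V / s.2.2 := by
    rw [hτe, eq_div_iff hd0, hVe, h00, h01]
    push_cast
    field_simp
    ring
  have hz : ((γ • τ : ℍ) : ℂ) = V / U := by
    have hden0 : denom (γ : GL (Fin 2) ℝ) τ ≠ 0 := denom_ne_zero _ _
    rw [coe_specialLinearGroup_apply]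
    have e0 : ((algebraMap ℤ ℝ (γ 0 0) : ℝ) : ℂ) = ((γ 0 0 : ℤ) : ℂ) := by simp
    have e1 : ((algebraMap ℤ ℝ (γ 0 1) : ℝ) : ℂ) = ((γ 0 1 : ℤ) : ℂ) := by simp
    have e2 : ((algebraMap ℤ ℝ (γ 1 0) : ℝ) : ℂ) = ((γ 1 0 : ℤ) : ℂ) := by simp
    have e3 : ((algebraMap ℤ ℝ (γ 1 1) : ℝ) : ℂ) = ((γ 1 1 : ℤ) : ℂ) := by simp
    rw [e0, e1, e2, e3, hnum]
    have e4 : ((γ 1 0 : ℤ) : ℂ) * τ + ((γ 1 1 : ℤ) : ℂ) = U / s.2.2 := by
      rw [← hden, ModularGroup.denom_apply]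
    rw [e4]
    field_simp
  have hNc : (N : ℂ) = (s.1 : ℂ) * s.2.2 := by rw [← hN2]; push_cast; rfl
  have hofc : ofComplex (V / U) = γ • τ := by rw [← hz, ofComplex_apply]
  have hUN : U / N = U / s.2.2 / s.1 := by rw [hNc]; field_simp
  refine ⟨s, N, hN, hs, by omega, ?_, ?_, ?_⟩
  · have h1 := E2s_smul γ τ
    rw [hden] at h1
    unfold E2s at h1
    have h2 : ((γ • τ : ℍ).im : ℂ) = ((V / U).im : ℂ) := by rw [← hz]; rfl
    rw [h2] at h1
    rw [e2, hofc, h1, hUN]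
    simp only [AA, Matrix.cons_val_zero]
    rw [← hτ]
    unfold E2s
    field_simp
  · have h1 := WInv_E4 γ τ
    simp only at h1
    rw [e4, hofc, h1, hden, hUN]
    simp only [AA, Matrix.cons_val_one, Matrix.cons_val_zero]
    rw [← hτ]
    field_simp
  · have h1 := WInv_E6 γ τ
    simp only at h1
    rw [e6, hofc, h1, hden, hUN]
    simp only [AA, Matrix.cons_val]
    rw [← hτ]
    field_simp

/-- The real part polynomial of a form. -/
noncomputable def reP (α : Fin (m + 1) → GaussianInt) : MvPolynomial (Fin m) ℂ :=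
  C ((α 0).re : ℂ) + ∑ k, C ((α k.succ).re : ℂ) * X k

/-- The imaginary part polynomial of a form. -/
noncomputable def imP (α : Fin (m + 1) → GaussianInt) : MvPolynomial (Fin m) ℂ :=
  C ((α 0).im : ℂ) + ∑ k, C ((α k.succ).im : ℂ) * X k

lemma eval_reP (α : Fin (m + 1) → GaussianInt) (s : Fin m → ℝ) :
    eval (fun k ↦ (s k : ℂ)) (reP α) = ((lf (gc α) (fun k ↦ (s k : ℂ))).re : ℂ) := by
  unfold reP lf lin gc
  simp only [map_add, map_sum, map_mul, eval_C, eval_X, GaussianInt.toComplex_def,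
    Complex.add_re, Complex.re_sum, Complex.mul_re, Complex.ofReal_re, Complex.ofReal_im,
    Complex.I_re, Complex.I_im, Complex.intCast_re, Complex.intCast_im, Complex.add_im,
    Complex.mul_im]
  push_cast
  simp

lemma eval_imP (α : Fin (m + 1) → GaussianInt) (s : Fin m → ℝ) :
    eval (fun k ↦ (s k : ℂ)) (imP α) = ((lf (gc α) (fun k ↦ (s k : ℂ))).im : ℂ) := by
  unfold imP lf lin gc
  simp only [map_add, map_sum, map_mul, eval_C, eval_X, GaussianInt.toComplex_def,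
    Complex.add_re, Complex.im_sum, Complex.mul_re, Complex.ofReal_re, Complex.ofReal_im,
    Complex.I_re, Complex.I_im, Complex.intCast_re, Complex.intCast_im, Complex.add_im,
    Complex.mul_im]
  push_cast
  simp

/-- numerator of the imaginary part -/
noncomputable def Yp (α β : Fin (m + 1) → GaussianInt) : MvPolynomial (Fin m) ℂ :=
  imP α * reP β - reP α * imP β

/-- denominator of the imaginary part -/
noncomputable def Rp (β : Fin (m + 1) → GaussianInt) : MvPolynomial (Fin m) ℂ :=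
  reP β ^ 2 + imP β ^ 2

lemma im_eq (α β : Fin (m + 1) → GaussianInt) (s : Fin m → ℝ) :
    eval (fun k ↦ (s k : ℂ)) (Yp α β) = ((lf (gc α) (fun k ↦ (s k : ℂ)) /
      lf (gc β) (fun k ↦ (s k : ℂ))).im : ℂ) * eval (fun k ↦ (s k : ℂ)) (Rp β) ∨
      lf (gc β) (fun k ↦ (s k : ℂ)) = 0 := by
  by_cases h0 : lf (gc β) (fun k ↦ (s k : ℂ)) = 0
  · exact Or.inr h0
  left
  have hns : Complex.normSq (lf (gc β) (fun k ↦ (s k : ℂ))) ≠ 0 := (Complex.normSq_pos.mpr h0).ne'
  unfold Yp Rp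
  simp only [map_sub, map_mul, map_add, map_pow, eval_reP, eval_imP]
  rw [Complex.div_im]
  have h1 : ((Complex.normSq (lf (gc β) (fun k ↦ (s k : ℂ))) : ℝ) : ℂ) =
      ((lf (gc β) (fun k ↦ (s k : ℂ))).re : ℂ) ^ 2 + ((lf (gc β) (fun k ↦ (s k : ℂ))).im : ℂ) ^ 2 := by
    rw [Complex.normSq_apply]; push_cast; ring
  rw [← h1]
  have h2 : ((Complex.normSq (lf (gc β) (fun k ↦ (s k : ℂ))) : ℝ) : ℂ) ≠ 0 := by exact_mod_cast hns
  push_cast
  field_simp

lemma Rp_ne {β : Fin (m + 1) → GaussianInt} {s : Fin m → ℝ}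
    (h0 : lf (gc β) (fun k ↦ (s k : ℂ)) ≠ 0) : eval (fun k ↦ (s k : ℂ)) (Rp β) ≠ 0 := by
  have hns : Complex.normSq (lf (gc β) (fun k ↦ (s k : ℂ))) ≠ 0 := (Complex.normSq_pos.mpr h0).ne'
  unfold Rp
  simp only [map_add, map_pow, eval_reP, eval_imP]
  have h1 : ((Complex.normSq (lf (gc β) (fun k ↦ (s k : ℂ))) : ℝ) : ℂ) =
      ((lf (gc β) (fun k ↦ (s k : ℂ))).re : ℂ) ^ 2 + ((lf (gc β) (fun k ↦ (s k : ℂ))).im : ℂ) ^ 2 := by
    rw [Complex.normSq_apply]; push_cast; ring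
  rw [← h1]
  exact_mod_cast hns

lemma den_ne_of_im {α β : Fin (m + 1) → GaussianInt} {s : Fin m → ℂ}
    (h : 0 < (lf (gc α) s / lf (gc β) s).im) : lf (gc β) s ≠ 0 := by
  intro h0
  rw [h0, div_zero] at h
  simp at h

lemma Yp_ne {α β : Fin (m + 1) → GaussianInt} {s : Fin m → ℝ}
    (h : 0 < (lf (gc α) (fun k ↦ (s k : ℂ)) / lf (gc β) (fun k ↦ (s k : ℂ))).im) :
    eval (fun k ↦ (s k : ℂ)) (Yp α β) ≠ 0 := by
  have h0 := den_ne_of_im h
  rcases im_eq α β s with h1 | h1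
  · rw [h1]
    refine mul_ne_zero ?_ (Rp_ne h0)
    exact_mod_cast h.ne'
  · exact absurd h1 h0

lemma shift_eq {α β : Fin (m + 1) → GaussianInt} {s : Fin m → ℝ}
    (h : 0 < (lf (gc α) (fun k ↦ (s k : ℂ)) / lf (gc β) (fun k ↦ (s k : ℂ))).im) :
    3 * eval (fun k ↦ (s k : ℂ)) (Rp β) / (π * eval (fun k ↦ (s k : ℂ)) (Yp α β)) =
      3 / (π * ((lf (gc α) (fun k ↦ (s k : ℂ)) / lf (gc β) (fun k ↦ (s k : ℂ))).im : ℂ)) := by
  have h0 := den_ne_of_im h
  have hR := Rp_ne h0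
  have hpi : (π : ℂ) ≠ 0 := by exact_mod_cast Real.pi_ne_zero
  have him : ((lf (gc α) (fun k ↦ (s k : ℂ)) / lf (gc β) (fun k ↦ (s k : ℂ))).im : ℂ) ≠ 0 := by
    exact_mod_cast h.ne'
  rcases im_eq α β s with h1 | h1
  · rw [h1]
    field_simp
  · exact absurd h1 h0

lemma DM_val (α β : Fin n → Fin (m + 1) → GaussianInt) {q : ℕ} (hq : 0 < q) (p : Fin m → ℤ)
    (hpos : ∀ j, 0 < (lf (gc (α j)) (fun k ↦ (((p k : ℝ) / q : ℝ) : ℂ)) /
      lf (gc (β j)) (fun k ↦ (((p k : ℝ) / q : ℝ) : ℂ))).im) :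
    ∃ (M : Fin n → ℕ × ℕ × ℕ) (N : Fin n → ℕ), (∀ j, 0 < N j) ∧ (∀ j, M j ∈ SN (N j)) ∧
      (∀ j, (N j : ℤ) = (gv (α j) q p).im * (gv (β j) q p).re -
        (gv (α j) q p).re * (gv (β j) q p).im) ∧
      DM (fun j ↦ gc (α j)) (fun j ↦ gc (β j)) (fun j ↦ Yp (α j) (β j)) (fun j ↦ Rp (β j))
        (fun k ↦ (((p k : ℝ) / q : ℝ) : ℂ)) = valG q p (fun j ↦ gv (β j) q p) N M := by
  have hq0 : (q : ℂ) ≠ 0 := by exact_mod_cast hq.ne'
  have hquot : ∀ j, lf (gc (α j)) (fun k ↦ (((p k : ℝ) / q : ℝ) : ℂ)) /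
      lf (gc (β j)) (fun k ↦ (((p k : ℝ) / q : ℝ) : ℂ)) =
      GaussianInt.toComplex (gv (α j) q p) / GaussianInt.toComplex (gv (β j) q p) := fun j ↦ by
    rw [lf_gv _ hq, lf_gv _ hq]
    field_simp
  have hex : ∀ j, ∃ (M : ℕ × ℕ × ℕ) (N : ℕ), 0 < N ∧ M ∈ SN N ∧
      (N : ℤ) = (gv (α j) q p).im * (gv (β j) q p).re - (gv (α j) q p).re * (gv (β j) q p).im ∧
      e2 (GaussianInt.toComplex (gv (α j) q p) / GaussianInt.toComplex (gv (β j) q p)) -
        3 / (π * ((GaussianInt.toComplex (gv (α j) q p) /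
          GaussianInt.toComplex (gv (β j) q p)).im : ℂ)) =
        (GaussianInt.toComplex (gv (β j) q p) / N) ^ 2 * AA M 0 ∧
      e4 (GaussianInt.toComplex (gv (α j) q p) / GaussianInt.toComplex (gv (β j) q p)) =
        (GaussianInt.toComplex (gv (β j) q p) / N) ^ 4 * AA M 1 ∧
      e6 (GaussianInt.toComplex (gv (α j) q p) / GaussianInt.toComplex (gv (β j) q p)) =
        (GaussianInt.toComplex (gv (β j) q p) / N) ^ 6 * AA M 2 := fun j ↦
    exists_MG (gv (α j) q p) (gv (β j) q p) (by rw [← hquot]; exact hpos j)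
  choose M N h1 h2 h3 h4 h5 h6 using hex
  refine ⟨M, N, h1, h2, h3, ?_⟩
  ext x
  rcases x with k | ⟨j, l⟩
  · simp [DM, valG]
  · have hs := shift_eq (α := α j) (β := β j) (s := fun k ↦ ((p k : ℝ) / q : ℝ)) (hpos j)
    fin_cases l
    · have e := h4 j
      rw [← hquot] at e
      simp only [DM, valG, Sum.elim_inr, Matrix.cons_val_zero, wt3]
      simp only [Fin.zero_eta, Matrix.cons_val_zero]
      rw [hs]
      exact e
    · have e := h5 j
      rw [← hquot] at e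
      simp only [DM, valG, Sum.elim_inr, wt3, Fin.mk_one, Matrix.cons_val_one,
        Matrix.cons_val_zero]
      exact e
    · have e := h6 j
      rw [← hquot] at e
      simp only [DM, valG, Sum.elim_inr, wt3, Fin.reduceFinMk, Matrix.cons_val]
      exact e

end H32
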