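import Pool.Agent.H32.BL

/-!
# Moebius maps and their boundary circles
-/

open Complex Filter Metric
open scoped Topology

namespace H32

/-- A Moebius map. -/
structure Mo where
  /-- entry -/
  a : ℂ
  /-- entry -/
  b : ℂ
  /-- entry -/
  c : ℂ
  /-- entry -/
  d : ℂ
  det : a * d - b * c ≠ 0

namespace Mo

/-- The value of a Moebius map. -/
noncomputable def ev (g : Mo) (s : ℂ) : ℂ := (g.a * s + g.b) / (g.c * s + g.d)

/-- The inverse of a Moebius map. -/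
noncomputable def iv (g : Mo) (w : ℂ) : ℂ := (g.d * w - g.b) / (g.a - g.c * w)

/-- The preimage of the upper half plane. -/
def D (g : Mo) : Set ℂ := {s | 0 < (g.ev s).im}

variable (g : Mo)

lemma den_ne {s : ℂ} (h : s ∈ g.D) : g.c * s + g.d ≠ 0 := by
  intro h0
  have h1 : 0 < (g.ev s).im := h
  rw [ev, h0, div_zero] at h1
  simp at h1

lemma sub_ne {s : ℂ} (h : g.c * s + g.d ≠ 0) : g.a - g.c * g.ev s ≠ 0 := by
  have h1 : g.a - g.c * g.ev s = (g.a * g.d - g.b * g.c) / (g.c * s + g.d) := by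
    rw [ev]; field_simp; ring
  rw [h1]
  exact div_ne_zero g.det h

lemma iv_ev {s : ℂ} (h : g.c * s + g.d ≠ 0) : g.iv (g.ev s) = s := by
  have e : g.ev s * (g.c * s + g.d) = g.a * s + g.b := div_mul_cancel₀ _ h
  rw [iv, div_eq_iff (g.sub_ne h)]
  linear_combination e

lemma den_iv {w : ℂ} (h : g.a - g.c * w ≠ 0) : g.c * g.iv w + g.d ≠ 0 := by
  have h1 : g.c * g.iv w + g.d = (g.a * g.d - g.b * g.c) / (g.a - g.c * w) := by
    rw [iv]; field_simp; ring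
  rw [h1]
  exact div_ne_zero g.det h

lemma ev_iv {w : ℂ} (h : g.a - g.c * w ≠ 0) : g.ev (g.iv w) = w := by
  have h1 := g.den_iv h
  have e : g.iv w * (g.a - g.c * w) = g.d * w - g.b := div_mul_cancel₀ _ h
  rw [ev, div_eq_iff h1]
  linear_combination e

lemma analytic_ev {s : ℂ} (h : g.c * s + g.d ≠ 0) : AnalyticAt ℂ g.ev s := by
  unfold ev
  have h1 : AnalyticAt ℂ (fun s ↦ g.a * s + g.b) s := by fun_prop
  have h2 : AnalyticAt ℂ (fun s ↦ g.c * s + g.d) s := by fun_prop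
  exact h1.fun_div h2 h

lemma analytic_iv {w : ℂ} (h : g.a - g.c * w ≠ 0) : AnalyticAt ℂ g.iv w := by
  unfold iv
  have h1 : AnalyticAt ℂ (fun w ↦ g.d * w - g.b) w := by fun_prop
  have h2 : AnalyticAt ℂ (fun w ↦ g.a - g.c * w) w := by fun_prop
  exact h1.fun_div h2 h

lemma eventually_den {s : ℂ} (h : g.c * s + g.d ≠ 0) : ∀ᶠ x in 𝓝 s, g.c * x + g.d ≠ 0 := by
  have h1 : Continuous fun x ↦ g.c * x + g.d := by fun_prop
  exact h1.continuousAt.eventually_ne h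

lemma eventually_sub {w : ℂ} (h : g.a - g.c * w ≠ 0) : ∀ᶠ x in 𝓝 w, g.a - g.c * x ≠ 0 := by
  have h1 : Continuous fun x ↦ g.a - g.c * x := by fun_prop
  exact h1.continuousAt.eventually_ne h

lemma isOpen_D : IsOpen g.D := by
  rw [isOpen_iff_mem_nhds]
  intro s hs
  have h1 := (g.analytic_ev (g.den_ne hs)).continuousAt
  have h2 : ContinuousAt (fun s ↦ (g.ev s).im) s := Complex.continuous_im.continuousAt.comp h1
  exact h2.eventually_const_lt hs

/-- the pole set -/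
lemma finite_pole : {s : ℂ | g.c * s + g.d = 0}.Finite := by
  refine (Set.finite_singleton (-g.d / g.c)).subset ?_
  intro s hs
  simp only [Set.mem_ofPred_eq] at hs
  have hd := g.det
  have hc : g.c ≠ 0 := by
    intro h
    rw [h, zero_mul, zero_add] at hs
    rw [h, hs] at hd
    simp at hd
  rw [Set.mem_singleton_iff, eq_div_iff hc]
  linear_combination hs

lemma exists_neg : ∃ s : ℂ, g.c * s + g.d ≠ 0 ∧ (g.ev s).im < 0 := by
  have hw : ∃ w : ℂ, w.im < 0 ∧ g.a - g.c * w ≠ 0 := by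
    by_cases h : g.a - g.c * (-I) ≠ 0
    · exact ⟨-I, by simp, h⟩
    · push Not at h
      refine ⟨-2 * I, by simp, fun h2 ↦ ?_⟩
      have h3 : g.c * I = 0 := by linear_combination h2 - h
      have h4 : g.c = 0 := (mul_eq_zero.mp h3).resolve_right Complex.I_ne_zero
      have h5 : g.a = 0 := by rw [h4] at h; simpa using h
      have := g.det
      rw [h4, h5] at this
      simp at this
  obtain ⟨w, h1, h2⟩ := hw
  exact ⟨g.iv w, g.den_iv h2, by rw [g.ev_iv h2]; exact h1⟩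

end Mo

lemma exists_dir {g : Mo} (h0 : 0 ∈ g.D) (B : Set ℂ) (hB : B.Finite) (hB0 : (0 : ℂ) ∉ B) :
    ∃ s : ℂ, s ∉ g.D ∧ ∀ l : ℝ, (l : ℂ) * s ∉ B := by
  obtain ⟨sc, hsc, him⟩ := g.exists_neg
  have hsc0 : sc ≠ 0 := by
    rintro rfl
    have : 0 < (g.ev 0).im := h0
    linarith
  have hev : ∀ᶠ x : ℝ in 𝓝 0, (g.ev (sc * (1 + x * I))).im < 0 := by
    have h1 : ContinuousAt (fun x : ℝ ↦ sc * (1 + (x : ℂ) * I)) 0 := by
      apply Continuous.continuousAt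
      fun_prop
    have h2 : ContinuousAt g.ev (sc * (1 + ((0 : ℝ) : ℂ) * I)) := by
      have : sc * (1 + ((0 : ℝ) : ℂ) * I) = sc := by simp
      rw [this]
      exact (g.analytic_ev hsc).continuousAt
    have h3 : ContinuousAt (fun x : ℝ ↦ (g.ev (sc * (1 + x * I))).im) 0 :=
      Complex.continuous_im.continuousAt.comp
        (ContinuousAt.comp (g := g.ev) (f := fun x : ℝ ↦ sc * (1 + (x : ℂ) * I)) h2 h1)
    have h4 : (g.ev (sc * (1 + ((0 : ℝ) : ℂ) * I))).im < 0 := by simpa using him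
    exact h3.eventually_lt_const h4
  obtain ⟨δ, hδ, hball⟩ := Metric.eventually_nhds_iff_ball.mp hev
  set bad : Set ℝ := (fun b : ℂ ↦ -(sc * (starRingEnd ℂ) b).im / (sc * (starRingEnd ℂ) b).re) '' B
    with hbad
  have hbadfin : bad.Finite := hB.image _
  obtain ⟨x, hx, hxb⟩ := (Set.Ioo_infinite (show (0 : ℝ) < δ from hδ)).exists_notMem_finite hbadfin
  refine ⟨sc * (1 + x * I), ?_, ?_⟩
  · intro h
    have h1 : 0 < (g.ev (sc * (1 + x * I))).im := h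
    have h2 := hball x (by
      rw [mem_ball_zero_iff, Real.norm_eq_abs, abs_of_pos hx.1]; exact hx.2)
    linarith
  · intro l hl
    apply hxb
    have hb0 : (l : ℂ) * (sc * (1 + x * I)) ≠ 0 := fun h ↦ hB0 (h ▸ hl)
    refine ⟨_, hl, ?_⟩
    have hl0 : l ≠ 0 := by
      rintro rfl
      simp at hb0
    set b := (l : ℂ) * (sc * (1 + x * I)) with hb
    have hns : (0 : ℝ) < Complex.normSq sc := Complex.normSq_pos.mpr hsc0
    have e1 : sc * (starRingEnd ℂ) b = ((l * Complex.normSq sc : ℝ) : ℂ) * (1 - x * I) := by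
      rw [hb]
      simp only [map_mul, map_add, map_one, Complex.conj_ofReal, Complex.conj_I]
      push_cast
      rw [← Complex.mul_conj]
      ring
    simp only [e1]
    have e2 : (((l * Complex.normSq sc : ℝ) : ℂ) * (1 - x * I)).im = -(l * Complex.normSq sc * x) := by
      simp
    have e3 : (((l * Complex.normSq sc : ℝ) : ℂ) * (1 - x * I)).re = l * Complex.normSq sc := by
      simp
    rw [e2, e3]
    have : l * Complex.normSq sc ≠ 0 := mul_ne_zero hl0 hns.ne'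
    field_simp

lemma seg_mem {X : Set ℂ} {s : ℂ} {T : ℝ} (hT : 0 ≤ T)
    (h : ∀ l : ℝ, 0 ≤ l → l ≤ T → (l : ℂ) * s ∈ X) : (T : ℂ) * s ∈ connectedComponentIn X 0 := by
  have h1 : IsPreconnected ((fun l : ℝ ↦ (l : ℂ) * s) '' Set.Icc 0 T) := by
    refine isPreconnected_Icc.image _ (Continuous.continuousOn ?_)
    fun_prop
  have h2 : (0 : ℂ) ∈ (fun l : ℝ ↦ (l : ℂ) * s) '' Set.Icc 0 T :=
    ⟨0, ⟨le_rfl, hT⟩, by simp⟩
  refine h1.subset_connectedComponentIn h2 ?_ ⟨T, ⟨hT, le_rfl⟩, rfl⟩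
  rintro _ ⟨l, hl, rfl⟩
  exact h l hl.1 hl.2

lemma exists_exit {ι : Type*} [DecidableEq ι] (g : ι → Mo) (J : Finset ι) (hJ : J.Nonempty)
    (h0 : ∀ i ∈ J, (0 : ℂ) ∈ (g i).D)
    (hfin : ∀ i ∈ J, ∀ j ∈ J, i ≠ j → {s : ℂ | (g i).c * s + (g i).d ≠ 0 ∧
      (g j).c * s + (g j).d ≠ 0 ∧ ((g i).ev s).im = 0 ∧ ((g j).ev s).im = 0}.Finite) :
    ∃ j ∈ J, ∃ (r : ℚ) (s₀ : ℂ), (g j).c * s₀ + (g j).d ≠ 0 ∧ (g j).ev s₀ = r ∧
      s₀ ∈ connectedComponentIn (⋂ i ∈ J.erase j, (g i).D) 0 ∧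
      ∀ᶠ s in 𝓝 s₀, 0 < ((g j).ev s).im → s ∈ connectedComponentIn (⋂ i ∈ J, (g i).D) 0 := by
  classical
  obtain ⟨j₁, hj₁⟩ := hJ
  set U : Set ℂ := ⋂ i ∈ J, (g i).D with hU
  have hUo : IsOpen U := isOpen_biInter_finset fun i _ ↦ (g i).isOpen_D
  set B : Set ℂ := (⋃ i ∈ J, {s : ℂ | (g i).c * s + (g i).d = 0}) ∪
    ⋃ i ∈ J, ⋃ j ∈ J, ⋃ (_ : i ≠ j), {s : ℂ | (g i).c * s + (g i).d ≠ 0 ∧
      (g j).c * s + (g j).d ≠ 0 ∧ ((g i).ev s).im = 0 ∧ ((g j).ev s).im = 0} with hB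
  have hBfin : B.Finite := by
    refine Set.Finite.union ?_ ?_
    · exact J.finite_toSet.biUnion fun i _ ↦ (g i).finite_pole
    · refine J.finite_toSet.biUnion fun i hi ↦ J.finite_toSet.biUnion fun j hj ↦ ?_
      exact Set.finite_iUnion fun h ↦ hfin i hi j hj h
  have hB0 : (0 : ℂ) ∉ B := by
    intro h
    rcases h with h | h
    · simp only [Set.mem_iUnion] at h
      obtain ⟨i, hi, h⟩ := h
      exact (g i).den_ne (h0 i hi) h
    · simp only [Set.mem_iUnion] at h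
      obtain ⟨i, hi, j, hj, hij, -, -, h, -⟩ := h
      have h1 : 0 < ((g i).ev 0).im := h0 i hi
      linarith
  obtain ⟨s₂, hs₂, hs₂B⟩ := exists_dir (h0 j₁ hj₁) B hBfin hB0
  have hcontl : Continuous fun l : ℝ ↦ (l : ℂ) * s₂ := by fun_prop
  set E : Set ℝ := Set.Icc 0 1 ∩ {l : ℝ | (l : ℂ) * s₂ ∉ U} with hE
  have hEc : IsCompact E := by
    refine isCompact_Icc.inter_right ?_
    exact (hUo.isClosed_compl).preimage hcontl
  have hEne : E.Nonempty := by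
    refine ⟨1, ⟨zero_le_one, le_rfl⟩, fun h ↦ hs₂ ?_⟩
    have h1 := Set.mem_iInter₂.mp h j₁ hj₁
    simpa using h1
  set T : ℝ := sInf E with hT
  have hTE : T ∈ E := hEc.sInf_mem hEne
  have hlt : ∀ l : ℝ, 0 ≤ l → l < T → (l : ℂ) * s₂ ∈ U := by
    intro l hl0 hlT
    by_contra hcon
    have h1 : l ∈ E := ⟨⟨hl0, hlT.le.trans hTE.1.2⟩, hcon⟩
    have h2 : T ≤ l := csInf_le hEc.bddBelow h1
    linarith
  have hT0 : 0 < T := by
    rcases lt_or_eq_of_le hTE.1.1 with h | h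
    · exact h
    · exfalso
      apply hTE.2
      rw [← h]
      simp only [Complex.ofReal_zero, zero_mul]
      exact Set.mem_iInter₂.mpr h0
  set s₁ : ℂ := (T : ℂ) * s₂ with hs₁
  have hs₁B : s₁ ∉ B := hs₂B T
  have hden : ∀ i ∈ J, (g i).c * s₁ + (g i).d ≠ 0 := by
    intro i hi h
    apply hs₁B
    left
    simp only [Set.mem_iUnion]
    exact ⟨i, hi, h⟩
  have htend : ∀ i ∈ J, Tendsto (fun l : ℝ ↦ (g i).ev ((l : ℂ) * s₂)) (𝓝[<] T)
      (𝓝 ((g i).ev s₁)) := by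
    intro i hi
    have h1 : ContinuousAt (fun l : ℝ ↦ (g i).ev ((l : ℂ) * s₂)) T :=
      ContinuousAt.comp (g := (g i).ev) (f := fun l : ℝ ↦ (l : ℂ) * s₂)
        ((g i).analytic_ev (hden i hi)).continuousAt hcontl.continuousAt
    exact h1.mono_left nhdsWithin_le_nhds
  have hevlt : ∀ᶠ l : ℝ in 𝓝[<] T, 0 < l ∧ l < T := by
    have h1 : ∀ᶠ l : ℝ in 𝓝[<] T, 0 < l := nhdsWithin_le_nhds (lt_mem_nhds hT0)
    exact h1.and self_mem_nhdsWithin
  have hnonneg : ∀ i ∈ J, 0 ≤ ((g i).ev s₁).im := by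
    intro i hi
    have h1 : Tendsto (fun l : ℝ ↦ ((g i).ev ((l : ℂ) * s₂)).im) (𝓝[<] T)
        (𝓝 ((g i).ev s₁).im) := (Complex.continuous_im.tendsto _).comp (htend i hi)
    refine ge_of_tendsto h1 ?_
    filter_upwards [hevlt] with l hl
    have h2 := Set.mem_iInter₂.mp (hlt l hl.1.le hl.2) i hi
    exact le_of_lt h2
  obtain ⟨j, hj, hjD⟩ : ∃ j ∈ J, s₁ ∉ (g j).D := by
    by_contra hcon
    push Not at hcon
    exact hTE.2 (Set.mem_iInter₂.mpr hcon)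
  have hjim : ((g j).ev s₁).im = 0 := by
    have h1 : ¬ 0 < ((g j).ev s₁).im := hjD
    have h2 := hnonneg j hj
    linarith
  have hiD : ∀ i ∈ J.erase j, s₁ ∈ (g i).D := by
    intro i hi
    rw [Finset.mem_erase] at hi
    refine lt_of_le_of_ne (hnonneg i hi.2) fun h ↦ hs₁B ?_
    right
    simp only [Set.mem_iUnion]
    exact ⟨i, hi.2, j, hj, hi.1, hden i hi.2, hden j hj, h.symm, hjim⟩
  set U' : Set ℂ := ⋂ i ∈ J.erase j, (g i).D with hU'
  have hU'o : IsOpen U' := isOpen_biInter_finset fun i _ ↦ (g i).isOpen_D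
  have hUU' : U ⊆ U' := fun s hs ↦ Set.mem_iInter₂.mpr fun i hi ↦
    Set.mem_iInter₂.mp hs i (Finset.mem_of_mem_erase hi)
  have hs₁U' : s₁ ∈ U' := Set.mem_iInter₂.mpr hiD
  have hs₁C : s₁ ∈ connectedComponentIn U' 0 := by
    refine seg_mem hT0.le fun l hl0 hlT ↦ ?_
    rcases lt_or_eq_of_le hlT with h | h
    · exact hUU' (hlt l hl0 h)
    · rw [h]; exact hs₁U'
  set x₁ : ℝ := ((g j).ev s₁).re with hx₁
  have hx₁e : (g j).ev s₁ = x₁ := by
    apply Complex.ext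
    · simp [hx₁]
    · simp [hjim]
  have hsub : (g j).a - (g j).c * (x₁ : ℂ) ≠ 0 := by
    rw [← hx₁e]; exact (g j).sub_ne (hden j hj)
  have hiv : (g j).iv x₁ = s₁ := by
    rw [← hx₁e]; exact (g j).iv_ev (hden j hj)
  have hnear : ∀ᶠ w in 𝓝 (x₁ : ℂ), (g j).a - (g j).c * w ≠ 0 ∧ (g j).iv w ∈ U' := by
    refine ((g j).eventually_sub hsub).and ?_
    have h1 := ((g j).analytic_iv hsub).continuousAt
    have h2 : U' ∈ 𝓝 ((g j).iv x₁) := by rw [hiv]; exact hU'o.mem_nhds hs₁U'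
    exact h1.eventually h2
  obtain ⟨ε, hε, hball⟩ := Metric.eventually_nhds_iff_ball.mp hnear
  have hcontiv : ContinuousOn (g j).iv (ball (x₁ : ℂ) ε) := fun w hw ↦
    ((g j).analytic_iv (hball w hw).1).continuousAt.continuousWithinAt
  -- the full neighbourhood
  have hV : ∀ w ∈ ball (x₁ : ℂ) ε, (g j).iv w ∈ connectedComponentIn U' 0 := by
    have h1 : IsPreconnected ((g j).iv '' ball (x₁ : ℂ) ε) :=
      (convex_ball (x₁ : ℂ) ε).isPreconnected.image _ hcontiv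
    have h2 : s₁ ∈ (g j).iv '' ball (x₁ : ℂ) ε := ⟨x₁, mem_ball_self hε, hiv⟩
    have h3 : (g j).iv '' ball (x₁ : ℂ) ε ⊆ U' := by
      rintro _ ⟨w, hw, rfl⟩
      exact (hball w hw).2
    have h4 := h1.subset_connectedComponentIn h2 h3
    rw [← connectedComponentIn_eq hs₁C] at h4
    exact fun w hw ↦ h4 ⟨w, hw, rfl⟩
  -- the half neighbourhood
  have hVp : ∀ w ∈ ball (x₁ : ℂ) ε ∩ {w | 0 < w.im}, (g j).iv w ∈ connectedComponentIn U 0 := by
    have h1 : IsPreconnected ((g j).iv '' (ball (x₁ : ℂ) ε ∩ {w | 0 < w.im})) :=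
      ((convex_ball (x₁ : ℂ) ε).inter (convex_halfSpace_im_gt 0)).isPreconnected.image _
        (hcontiv.mono Set.inter_subset_left)
    have h3 : (g j).iv '' (ball (x₁ : ℂ) ε ∩ {w | 0 < w.im}) ⊆ U := by
      rintro _ ⟨w, hw, rfl⟩
      refine Set.mem_iInter₂.mpr fun i hi ↦ ?_
      by_cases hij : i = j
      · subst hij
        change 0 < ((g i).ev ((g i).iv w)).im
        rw [(g i).ev_iv (hball w hw.1).1]
        exact hw.2
      · exact Set.mem_iInter₂.mp (hball w hw.1).2 i (Finset.mem_erase.mpr ⟨hij, hi⟩)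
    have h5 : ∀ᶠ l : ℝ in 𝓝[<] T, (g j).ev ((l : ℂ) * s₂) ∈ ball (x₁ : ℂ) ε := by
      have := htend j hj
      rw [hx₁e] at this
      exact this.eventually (ball_mem_nhds _ hε)
    obtain ⟨l, hl1, hl2⟩ := (h5.and hevlt).exists
    have hlU : (l : ℂ) * s₂ ∈ U := hlt l hl2.1.le hl2.2
    have hlC : (l : ℂ) * s₂ ∈ connectedComponentIn U 0 :=
      seg_mem hl2.1.le fun l' h0' h1' ↦ hlt l' h0' (lt_of_le_of_lt h1' hl2.2)
    have hlD : (l : ℂ) * s₂ ∈ (g j).D := Set.mem_iInter₂.mp hlU j hj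
    have h2 : (l : ℂ) * s₂ ∈ (g j).iv '' (ball (x₁ : ℂ) ε ∩ {w | 0 < w.im}) :=
      ⟨(g j).ev ((l : ℂ) * s₂), ⟨hl1, hlD⟩, (g j).iv_ev ((g j).den_ne hlD)⟩
    have h4 := h1.subset_connectedComponentIn h2 h3
    rw [← connectedComponentIn_eq hlC] at h4
    exact fun w hw ↦ h4 ⟨w, hw, rfl⟩
  -- the rational point
  obtain ⟨r, hr1, hr2⟩ := exists_rat_btwn (show x₁ < x₁ + ε by linarith)
  have hrball : (r : ℂ) ∈ ball (x₁ : ℂ) ε := by
    rw [mem_ball_iff_norm]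
    have h1 : (r : ℂ) - (x₁ : ℂ) = (((r : ℝ) - x₁ : ℝ) : ℂ) := by push_cast; rfl
    rw [h1, Complex.norm_real, Real.norm_eq_abs, abs_of_pos (by linarith)]
    linarith
  have hrsub := (hball _ hrball).1
  refine ⟨j, hj, r, (g j).iv r, (g j).den_iv hrsub, (g j).ev_iv hrsub, hV _ hrball, ?_⟩
  have hd0 := (g j).den_iv hrsub
  have h1 : ∀ᶠ s in 𝓝 ((g j).iv r), (g j).ev s ∈ ball (x₁ : ℂ) ε := by
    have h2 := ((g j).analytic_ev hd0).continuousAt
    refine h2.eventually ?_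
    rw [(g j).ev_iv hrsub]
    exact isOpen_ball.mem_nhds hrball
  filter_upwards [h1, (g j).eventually_den hd0] with s hs1 hs2 hs3
  have h2 := hVp ((g j).ev s) ⟨hs1, hs3⟩
  rwa [(g j).iv_ev hs2] at h2

end H32
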