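import Pool.Agent.H32.IntQ

/-!
# Values at i of level one modular forms with integral q-expansion
-/

open UpperHalfPlane hiding I
open Complex EisensteinSeries ModularForm MatrixGroups
open scoped Real

namespace H32

/-- A power series with integral coefficients. -/
def IntPS (p : PowerSeries ℂ) : Prop :=
  ∃ p' : PowerSeries ℤ, p = PowerSeries.map (Int.castRingHom ℂ) p'

lemma intPS_of_coeff {p : PowerSeries ℂ} (h : ∀ m, ∃ c : ℤ, p.coeff m = (c : ℂ)) : IntPS p := by
  choose c hc using h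
  refine ⟨PowerSeries.mk c, ?_⟩
  ext m
  simp [hc]

lemma intPS_of_intQ {k : ℤ} (f : ModularForm 𝒮ℒ k) (hf : IntQ f) : IntPS (qExpansion 1 f) := by
  obtain ⟨c, hc⟩ := hf
  refine intPS_of_coeff fun m ↦ ⟨c m, ?_⟩
  exact (ModularFormClass.qExpansion_coeff_unique (c := fun m ↦ (c m : ℂ)) one_pos
    one_mem_strictPeriods_SL (fun τ ↦ by simpa [qq] using hc τ) m).symm

/-- `(E₄ - 1) / 240`. -/
noncomputable def psA : PowerSeries ℤ :=
  PowerSeries.mk fun m ↦ if m = 0 then 0 else (ArithmeticFunction.sigma 3 m : ℤ)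

/-- `(1 - E₆) / 504`. -/
noncomputable def psB : PowerSeries ℤ :=
  PowerSeries.mk fun m ↦ if m = 0 then 0 else (ArithmeticFunction.sigma 5 m : ℤ)

lemma sigma_dvd (m : ℕ) : (12 : ℤ) ∣
    5 * (ArithmeticFunction.sigma 3 m : ℤ) + 7 * (ArithmeticFunction.sigma 5 m : ℤ) := by
  rw [ArithmeticFunction.sigma_apply, ArithmeticFunction.sigma_apply]
  push_cast
  rw [Finset.mul_sum, Finset.mul_sum, ← Finset.sum_add_distrib]
  refine Finset.dvd_sum fun d _ ↦ ?_
  have h : ∀ x : ZMod 12, 5 * x ^ 3 + 7 * x ^ 5 = 0 := by decide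
  have := h (d : ZMod 12)
  refine (ZMod.intCast_zmod_eq_zero_iff_dvd _ 12).mp ?_
  push_cast
  exact this

/-- `(5 A + 7 B) / 12`. -/
noncomputable def psC : PowerSeries ℤ :=
  PowerSeries.mk fun m ↦ if m = 0 then 0 else
    (5 * (ArithmeticFunction.sigma 3 m : ℤ) + 7 * (ArithmeticFunction.sigma 5 m : ℤ)) / 12

lemma psC_eq : PowerSeries.C 12 * psC = PowerSeries.C 5 * psA + PowerSeries.C 7 * psB := by
  ext m
  simp only [psA, psB, psC, PowerSeries.coeff_C_mul, PowerSeries.coeff_mk, map_add]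
  split_ifs with h
  · simp
  · exact Int.mul_ediv_cancel' (sigma_dvd m)

lemma qE4 : qExpansion 1 E₄ =
    PowerSeries.map (Int.castRingHom ℂ) (1 + PowerSeries.C 240 * psA) := by
  ext m
  rw [E_qExpansion_coeff _ ⟨2, rfl⟩, show bernoulli 4 = -1 / 30 by decide +kernel,
    PowerSeries.coeff_map, map_add, PowerSeries.coeff_C_mul, psA, PowerSeries.coeff_mk,
    PowerSeries.coeff_one]
  split_ifs with h
  · norm_num
  · push_cast
    norm_num

lemma qE6 : qExpansion 1 E₆ =
    PowerSeries.map (Int.castRingHom ℂ) (1 - PowerSeries.C 504 * psB) := by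
  ext m
  rw [E_qExpansion_coeff _ ⟨3, rfl⟩, show bernoulli 6 = 1 / 42 by decide +kernel,
    PowerSeries.coeff_map, map_sub, PowerSeries.coeff_C_mul, psB, PowerSeries.coeff_mk,
    PowerSeries.coeff_one]
  split_ifs with h
  · norm_num
  · push_cast
    norm_num

/-- the integral power series of the discriminant. -/
noncomputable def psD : PowerSeries ℤ :=
  psC + PowerSeries.C 100 * psA ^ 2 + PowerSeries.C 8000 * psA ^ 3 - PowerSeries.C 147 * psB ^ 2

lemma psD_eq : PowerSeries.C 1728 * psD =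
    (1 + PowerSeries.C 240 * psA) ^ 3 - (1 - PowerSeries.C 504 * psB) ^ 2 := by
  have h : PowerSeries.C (1728 : ℤ) * psC =
      PowerSeries.C 144 * (PowerSeries.C 5 * psA + PowerSeries.C 7 * psB) := by
    rw [← psC_eq, ← mul_assoc, ← map_mul]; norm_num
  rw [psD]
  have e : ∀ n : ℤ, (PowerSeries.C n : PowerSeries ℤ) = (n : PowerSeries ℤ) := fun n ↦ by
    simp
  simp only [e] at h ⊢
  push_cast at h ⊢
  linear_combination h

/-- `E₄³ - E₆²` as a modular form. -/
noncomputable def fD : ModularForm 𝒮ℒ 12 :=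
  ModularForm.mcast (by decide) (E₄.pow 3) - ModularForm.mcast (by decide) (E₆.pow 2)

lemma fD_apply (z : ℍ) : fD z = E₄ z ^ 3 - E₆ z ^ 2 := by
  simp only [fD, coe_mcast, coe_pow, sub_apply, Pi.pow_apply]

lemma q_disc : qExpansion 1 discriminant = PowerSeries.map (Int.castRingHom ℂ) psD := by
  have h1 : qExpansion 1 fD = PowerSeries.map (Int.castRingHom ℂ) (PowerSeries.C 1728 * psD) := by
    rw [psD_eq]
    simp only [fD, FunLike.coe_sub, coe_mcast,
      ModularForm.qExpansion_sub one_pos one_mem_strictPeriods_SL,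
      ModularForm.qExpansion_pow one_pos one_mem_strictPeriods_SL]
    rw [qE4, qE6]
    simp
  have h2 : (discriminant : ℍ → ℂ) = (1 / 1728 : ℂ) • ⇑fD := by
    ext z
    rw [Pi.smul_apply, fD_apply, discriminant_eq_E₄_cube_sub_E₆_sq z, smul_eq_mul]
    ring
  rw [h2, ModularForm.qExpansion_smul one_pos one_mem_strictPeriods_SL, h1]
  ext m
  rw [PowerSeries.coeff_smul, PowerSeries.coeff_map, PowerSeries.coeff_map,
    PowerSeries.coeff_C_mul]
  simp

lemma psD_coeff_zero : psD.coeff 0 = 0 := by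
  simp [psD, psA, psB, psC]

lemma psD_coeff_one : psD.coeff 1 = 1 := by
  have h := discriminant_qExpansion_coeff_one
  rw [q_disc, PowerSeries.coeff_map, eq_intCast] at h
  exact_mod_cast h

lemma exists_unit_psD : ∃ U V : PowerSeries ℤ, psD = PowerSeries.X * U ∧ U * V = 1 := by
  obtain ⟨U, hU⟩ : PowerSeries.X ∣ psD := by
    rw [PowerSeries.X_dvd_iff]
    simpa using psD_coeff_zero
  have h1 : PowerSeries.constantCoeff U = 1 := by
    have := psD_coeff_one
    rw [← PowerSeries.coeff_zero_eq_constantCoeff_apply]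
    rw [hU, show (1 : ℕ) = 0 + 1 from rfl, PowerSeries.coeff_succ_X_mul] at this
    exact this
  have h2 : IsUnit U := by
    rw [PowerSeries.isUnit_iff_constantCoeff, h1]
    exact isUnit_one
  obtain ⟨V, hV⟩ := h2.exists_right_inv
  exact ⟨U, V, hU, hV⟩

lemma intPS_div {k : ℤ} (f : ModularForm 𝒮ℒ k) (h0 : (qExpansion 1 f).coeff 0 = 0)
    (hf : IntPS (qExpansion 1 f)) :
    IntPS (qExpansion 1 (CuspForm.discriminantEquiv (toCuspForm f h0))) := by
  obtain ⟨p, hp⟩ := hf
  obtain ⟨U, V, hU, hV⟩ := exists_unit_psD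
  have hp0 : p.coeff 0 = 0 := by
    rw [hp, PowerSeries.coeff_map, eq_intCast] at h0
    exact_mod_cast h0
  obtain ⟨h, hh⟩ : PowerSeries.X ∣ p := by
    rw [PowerSeries.X_dvd_iff]
    simpa using hp0
  have key := qExpansion_eq_qExpansion_discriminant_mul f h0
  rw [hp, q_disc, hh, hU, map_mul, map_mul, PowerSeries.map_X, mul_assoc] at key
  have key2 := mul_left_cancel₀ PowerSeries.X_ne_zero key
  refine ⟨V * h, ?_⟩
  rw [map_mul, key2, ← mul_assoc, ← map_mul, mul_comm V U, hV, map_one, one_mul]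

lemma smul_I : ModularGroup.S • UpperHalfPlane.I = UpperHalfPlane.I := by
  rw [UpperHalfPlane.modular_S_smul]
  ext
  simp

lemma denom_S_I : denom ((ModularGroup.S : SL(2, ℤ)) : GL (Fin 2) ℝ) UpperHalfPlane.I = Complex.I := by
  rw [ModularGroup.denom_S]
  simp

lemma modForm_smul {k : ℤ} (f : ModularForm 𝒮ℒ k) (γ : SL(2, ℤ)) (τ : ℍ) :
    f (γ • τ) = denom γ τ ^ k * f τ := by
  have h := congrFun (f.slash_action_eq' (γ : GL (Fin 2) ℝ) ⟨γ, rfl⟩) τ
  have h2 := ModularForm.SL_slash_apply (k := k) f γ τ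
  have hd : denom (γ : GL (Fin 2) ℝ) τ ≠ 0 := denom_ne_zero _ τ
  rw [ModularForm.SL_slash] at h2
  have h3 : f τ = f (γ • τ) * denom γ τ ^ (-k) := by
    rw [← h2]; exact h.symm
  rw [h3, zpow_neg]
  field_simp

lemma value_I_mod_four {k : ℤ} (f : ModularForm 𝒮ℒ k) (hk : k % 4 = 2) :
    f UpperHalfPlane.I = 0 := by
  have h := modForm_smul f ModularGroup.S UpperHalfPlane.I
  rw [smul_I, denom_S_I] at h
  have h2 : (Complex.I : ℂ) ^ k = -1 := by
    obtain ⟨m, hm⟩ : ∃ m : ℤ, k = 4 * m + 2 := ⟨k / 4, by omega⟩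
    rw [hm, zpow_add₀ Complex.I_ne_zero, zpow_mul]
    have : (Complex.I : ℂ) ^ (4 : ℤ) = 1 := by
      have := Complex.I_pow_four
      exact_mod_cast this
    rw [this, one_zpow, one_mul]
    have := Complex.I_sq
    exact_mod_cast this
  rw [h2] at h
  linear_combination (1 / 2 : ℂ) * h

lemma E6_I : E₆ UpperHalfPlane.I = 0 := value_I_mod_four E₆ (by norm_num)

lemma E4_I_ne : E₄ UpperHalfPlane.I ≠ 0 := by
  intro h
  have := discriminant_eq_E₄_cube_sub_E₆_sq UpperHalfPlane.I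
  rw [h, E6_I] at this
  exact discriminant_ne_zero UpperHalfPlane.I (by simpa using this)

lemma disc_I : (1728 : ℂ) * discriminant UpperHalfPlane.I = E₄ UpperHalfPlane.I ^ 3 := by
  have := discriminant_eq_E₄_cube_sub_E₆_sq UpperHalfPlane.I
  rw [E6_I] at this
  rw [this]; ring

/-- Values at `i` of level one forms with integral `q`-expansions. -/
theorem value_I {ω : ℂ} (hω : ω ^ 4 = E₄ UpperHalfPlane.I) (k : ℕ) :
    ∀ f : ModularForm 𝒮ℒ (k : ℤ), IntPS (qExpansion 1 f) →
      ∃ z : ℤ, (1728 : ℂ) ^ k * f UpperHalfPlane.I = z * ω ^ k := by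
  induction k using Nat.strong_induction_on with | _ k ih =>
  intro f hf
  rcases Nat.even_or_odd k with he | ho
  swap
  · have : f = 0 := ModularForm.levelOne_odd_weight_eq_zero (by exact_mod_cast ho) f
    exact ⟨0, by simp [this]⟩
  by_cases h4 : k % 4 = 2
  · refine ⟨0, ?_⟩
    rw [value_I_mod_four f (by omega)]
    simp
  obtain ⟨j, hj⟩ : ∃ j, k = j * 4 := ⟨k / 4, by obtain ⟨r, hr⟩ := he; omega⟩
  -- subtract a multiple of `E₄ ^ j`
  set e : ModularForm 𝒮ℒ (k : ℤ) := ModularForm.mcast (by rw [hj]; push_cast; ring) (E₄.pow j) with he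
  have heq : qExpansion 1 e = (qExpansion 1 E₄) ^ j := by
    rw [he]
    simp only [coe_mcast, ModularForm.qExpansion_pow one_pos one_mem_strictPeriods_SL]
  obtain ⟨p, hp⟩ := hf
  set c0 : ℤ := p.coeff 0 with hc0
  set f1 : ModularForm 𝒮ℒ (k : ℤ) := f - (c0 : ℂ) • e with hf1
  have hq1 : qExpansion 1 f1 = PowerSeries.map (Int.castRingHom ℂ)
      (p - PowerSeries.C c0 * (1 + PowerSeries.C 240 * psA) ^ j) := by
    rw [hf1, FunLike.coe_sub, ModularForm.qExpansion_sub one_pos one_mem_strictPeriods_SL,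
      FunLike.coe_smul, ModularForm.qExpansion_smul one_pos one_mem_strictPeriods_SL, heq, qE4,
      hp, map_sub, map_mul, map_pow, PowerSeries.smul_eq_C_mul, PowerSeries.map_C]
    rfl
  have h0 : (qExpansion 1 f1).coeff 0 = 0 := by
    rw [hq1, PowerSeries.coeff_map]
    have : (p - PowerSeries.C c0 * (1 + PowerSeries.C 240 * psA) ^ j).coeff 0 = 0 := by
      rw [map_sub, PowerSeries.coeff_C_mul]
      simp [hc0, psA]
    rw [this]; simp
  have hq1' : IntPS (qExpansion 1 f1) := ⟨_, hq1⟩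
  have hg := intPS_div f1 h0 hq1'
  set g := CuspForm.discriminantEquiv (toCuspForm f1 h0) with hgdef
  have hval : f1 UpperHalfPlane.I = discriminant UpperHalfPlane.I * g UpperHalfPlane.I := by
    have := discriminant_mul_discriminantEquiv_apply (toCuspForm f1 h0) UpperHalfPlane.I
    rw [hgdef, this]
    rfl
  have hfval : f UpperHalfPlane.I = c0 * E₄ UpperHalfPlane.I ^ j +
      discriminant UpperHalfPlane.I * g UpperHalfPlane.I := by
    rw [← hval, hf1]
    simp only [sub_apply, smul_apply, smul_eq_mul, he, coe_mcast, coe_pow, Pi.pow_apply]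
    ring
  have hE : E₄ UpperHalfPlane.I ^ j = ω ^ k := by
    rw [← hω, ← pow_mul, hj, mul_comm]
  rcases lt_or_ge k 12 with hk | hk
  · have hg0 : g = 0 :=
      rank_zero_iff_forall_zero.mp (levelOne_neg_weight_rank_zero (by omega)) g
    refine ⟨1728 ^ k * c0, ?_⟩
    rw [hfval, hg0, hE]
    push_cast
    simp
    ring
  · obtain ⟨z, hz⟩ := ih (k - 12) (by omega)
      (ModularForm.mcast (by omega) g) (by simpa using hg)
    have hz' : (1728 : ℂ) ^ (k - 12) * g UpperHalfPlane.I = z * ω ^ (k - 12) := hz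
    refine ⟨1728 ^ k * c0 + 1728 ^ 11 * z, ?_⟩
    have h12 : (1728 : ℂ) ^ k = 1728 ^ (k - 12) * 1728 ^ 12 := by
      rw [← pow_add]; congr 1; omega
    have hw : ω ^ k = ω ^ (k - 12) * ω ^ 12 := by
      rw [← pow_add]; congr 1; omega
    have hE3 : E₄ UpperHalfPlane.I ^ 3 = ω ^ 12 := by
      rw [← hω, ← pow_mul]
    have hd := disc_I
    rw [hE3] at hd
    rw [hfval, hE]
    push_cast
    rw [hw, h12]
    linear_combination (1728 : ℂ) ^ 12 * discriminant UpperHalfPlane.I * hz' +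
      (1728 : ℂ) ^ 11 * z * ω ^ (k - 12) * hd

end H32
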