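import Pool.Agent.H32.HeckeQ
import Pool.Agent.H32.E2s
import Pool.Agent.H32.ValI

/-!
# Sums over integer matrices of fixed determinant
-/

open UpperHalfPlane hiding I
open Complex EisensteinSeries ModularForm MatrixGroups
open scoped Real

namespace H32

/-- The triples `(a, b, d)` with `a d = N` and `0 ≤ b < d`. -/
def SN (N : ℕ) : Finset (ℕ × ℕ × ℕ) :=
  ((Finset.range (N + 1)) ×ˢ (Finset.range (N + 1)) ×ˢ (Finset.range (N + 1))).filter
    (fun s ↦ s.1 * s.2.2 = N ∧ s.2.1 < s.2.2)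

lemma mem_SN {N : ℕ} (hN : 0 < N) {s : ℕ × ℕ × ℕ} :
    s ∈ SN N ↔ s.1 * s.2.2 = N ∧ s.2.1 < s.2.2 := by
  simp only [SN, Finset.mem_filter, Finset.mem_product, Finset.mem_range, and_iff_right_iff_imp]
  rintro ⟨h1, h2⟩
  have ha : s.1 ≤ N := Nat.le_of_dvd hN ⟨_, h1.symm⟩
  have hd : s.2.2 ≤ N := Nat.le_of_dvd hN ⟨s.1, by rw [mul_comm]; exact h1.symm⟩
  omega

lemma SN_pos {N : ℕ} (hN : 0 < N) {s : ℕ × ℕ × ℕ} (hs : s ∈ SN N) : 0 < s.1 ∧ 0 < s.2.2 := by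
  obtain ⟨h1, h2⟩ := (mem_SN hN).mp hs
  refine ⟨Nat.pos_of_ne_zero fun h ↦ ?_, by omega⟩
  rw [h] at h1
  omega

lemma sum_SN {N : ℕ} (hN : 0 < N) (f : ℕ → ℕ → ℕ → ℂ) :
    ∑ s ∈ SN N, f s.1 s.2.1 s.2.2 =
      ∑ p ∈ N.divisorsAntidiagonal, ∑ b ∈ Finset.range p.2, f p.1 b p.2 := by
  rw [Finset.sum_sigma']
  refine Finset.sum_bij' (fun s _ ↦ (⟨(s.1, s.2.2), s.2.1⟩ : (_ : ℕ × ℕ) × ℕ))
    (fun p _ ↦ (p.1.1, p.2, p.1.2)) ?_ ?_ ?_ ?_ ?_
  · intro s hs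
    obtain ⟨h1, h2⟩ := (mem_SN hN).mp hs
    simp [h1, h2, hN.ne']
  · rintro ⟨⟨a, d⟩, b⟩ hp
    simp only [Finset.mem_sigma, Nat.mem_divisorsAntidiagonal, Finset.mem_range] at hp
    exact (mem_SN hN).mpr ⟨hp.1.1, hp.2⟩
  · rintro ⟨a, b, d⟩ hs; rfl
  · rintro ⟨⟨a, d⟩, b⟩ hp; rfl
  · rintro ⟨a, b, d⟩ hs; rfl

/-- The upper triangular matrix attached to a triple. -/
def toM (s : ℕ × ℕ × ℕ) : Matrix (Fin 2) (Fin 2) ℤ := !![(s.1 : ℤ), s.2.1; 0, s.2.2]

lemma det_toM (s : ℕ × ℕ × ℕ) : (toM s).det = s.1 * s.2.2 := by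
  simp [toM, Matrix.det_fin_two]

/-- Every integral matrix of determinant `N > 0` is `γ M` with `M` in our list. -/
lemma exists_rep {N : ℕ} (hN : 0 < N) (A : Matrix (Fin 2) (Fin 2) ℤ) (hA : A.det = N) :
    ∃ s ∈ SN N, ∃ γ : SL(2, ℤ), A = γ.1 * toM s := by
  set B : FixedDetMatrix (Fin 2) ℤ (N : ℤ) := ⟨A, hA⟩
  have hN' : (N : ℤ) ≠ 0 := by exact_mod_cast hN.ne'
  have key : ∀ B : FixedDetMatrix (Fin 2) ℤ (N : ℤ), ∃ s ∈ SN N, ∃ γ : SL(2, ℤ), B.1 = γ.1 * toM s := by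
    intro B
    induction B using FixedDetMatrices.induction_on hN' with
    | h0 A h1 h2 h3 h4 =>
      have hdet : A.1 0 0 * A.1 1 1 = N := by
        have := A.2
        rw [Matrix.det_fin_two, h1, mul_zero, sub_zero] at this
        exact this
      have hN2 : (0 : ℤ) < N := by exact_mod_cast hN
      have hd : 0 < A.1 1 1 := by
        rw [← hdet] at hN2
        exact (pos_iff_pos_of_mul_pos hN2).mp h2
      rw [abs_of_nonneg h3, abs_of_pos hd] at h4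
      refine ⟨((A.1 0 0).toNat, (A.1 0 1).toNat, (A.1 1 1).toNat), ?_, 1, ?_⟩
      · rw [mem_SN hN]
        constructor
        · zify
          rw [Int.toNat_of_nonneg h2.le, Int.toNat_of_nonneg hd.le]
          exact hdet
        · change (A.1 0 1).toNat < (A.1 1 1).toNat
          omega
      · ext i j
        fin_cases i <;> fin_cases j <;> simp [toM, h1, h2.le, hd.le, h3]
    | hS B hB =>
      obtain ⟨s, hs, γ, h⟩ := hB
      refine ⟨s, hs, ModularGroup.S * γ, ?_⟩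
      rw [FixedDetMatrices.smul_coe, h, Matrix.SpecialLinearGroup.coe_mul, Matrix.mul_assoc]
    | hT B hB =>
      obtain ⟨s, hs, γ, h⟩ := hB
      refine ⟨s, hs, ModularGroup.T * γ, ?_⟩
      rw [FixedDetMatrices.smul_coe, h, Matrix.SpecialLinearGroup.coe_mul, Matrix.mul_assoc]
  exact key B

lemma toM_inj {N : ℕ} (hN : 0 < N) {s t : ℕ × ℕ × ℕ} (hs : s ∈ SN N) (ht : t ∈ SN N)
    (γ : SL(2, ℤ)) (h : toM s = γ.1 * toM t) : s = t := by
  obtain ⟨a, b, d⟩ := s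
  obtain ⟨a', b', d'⟩ := t
  obtain ⟨hs1, hs2⟩ := (mem_SN hN).mp hs
  obtain ⟨ht1, ht2⟩ := (mem_SN hN).mp ht
  obtain ⟨hsa, hsd⟩ := SN_pos hN hs
  obtain ⟨hta, htd⟩ := SN_pos hN ht
  simp only at hs1 hs2 ht1 ht2 hsa hsd hta htd
  have h00 := congrFun (congrFun h 0) 0
  have h01 := congrFun (congrFun h 0) 1
  have h10 := congrFun (congrFun h 1) 0
  have h11 := congrFun (congrFun h 1) 1
  simp only [toM, Matrix.mul_apply, Fin.sum_univ_two, Matrix.of_apply, Matrix.cons_val', Matrix.cons_val_zero,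
    Matrix.cons_val_one, Matrix.cons_val_fin_one, mul_zero, add_zero] at h00 h01 h10 h11
  have hdet := γ.det_coe
  rw [Matrix.det_fin_two] at hdet
  have ha0 : (a' : ℤ) ≠ 0 := by exact_mod_cast hta.ne'
  have h10' : γ.1 1 0 = 0 := by
    rcases mul_eq_zero.mp h10.symm with h | h
    · exact h
    · exact absurd h ha0
  rw [h10'] at h11 hdet
  simp only [zero_mul, zero_add, mul_zero, sub_zero] at h11 hdet
  have hp : 0 < γ.1 0 0 := by
    have : (0 : ℤ) < γ.1 0 0 * a' := by rw [← h00]; exact_mod_cast hsa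
    exact (pos_iff_pos_of_mul_pos this).mpr (by exact_mod_cast hta)
  have h1 : γ.1 0 0 = 1 := by
    rcases Int.mul_eq_one_iff_eq_one_or_neg_one.mp hdet with h | h
    · exact h.1
    · omega
  rw [h1, one_mul] at hdet
  rw [h1, one_mul] at h00 h01
  rw [hdet, one_mul] at h11
  have haa : a = a' := by exact_mod_cast h00
  have hdd : d = d' := by exact_mod_cast h11
  subst haa hdd
  have hbb : b = b' := by
    have hb1 : (b : ℤ) % d = b := Int.emod_eq_of_lt (by positivity) (by exact_mod_cast hs2)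
    have hb2 : (b' : ℤ) % d = b' := Int.emod_eq_of_lt (by positivity) (by exact_mod_cast ht2)
    have : (b : ℤ) % d = (b' : ℤ) % d := by rw [h01]; simp
    rw [hb1, hb2] at this
    exact_mod_cast this
  rw [hbb]

/-- An integral matrix of nonzero determinant as a real invertible matrix. -/
noncomputable def toG (A : Matrix (Fin 2) (Fin 2) ℤ) : GL (Fin 2) ℝ :=
  open Classical in
  if h : (A.map (Int.cast : ℤ → ℝ)).det ≠ 0 then Matrix.GeneralLinearGroup.mkOfDetNeZero _ h else 1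

lemma toG_val {A : Matrix (Fin 2) (Fin 2) ℤ} (hA : 0 < A.det) :
    (toG A).val = A.map (Int.cast : ℤ → ℝ) := by
  have h : (A.map (Int.cast : ℤ → ℝ)).det ≠ 0 := by
    have : (A.map (Int.cast : ℤ → ℝ)).det = (A.det : ℝ) := by
      simp [Matrix.det_fin_two]
    rw [this]
    exact_mod_cast hA.ne'
  rw [toG, dif_pos h]
  rfl

lemma det_toG {A : Matrix (Fin 2) (Fin 2) ℤ} (hA : 0 < A.det) :
    (toG A).val.det = A.det := by
  rw [toG_val hA]
  simp [Matrix.det_fin_two]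

lemma toG_mul {A B : Matrix (Fin 2) (Fin 2) ℤ} (hA : 0 < A.det) (hB : 0 < B.det) :
    toG (A * B) = toG A * toG B := by
  have hAB : 0 < (A * B).det := by rw [Matrix.det_mul]; positivity
  apply Units.ext
  rw [toG_val hAB, Units.val_mul, toG_val hA, toG_val hB]
  ext i j
  simp [Matrix.mul_apply]

lemma toG_SL (γ : SL(2, ℤ)) : toG γ.1 = (γ : GL (Fin 2) ℝ) := by
  have h : 0 < γ.1.det := by rw [γ.det_coe]; norm_num
  apply Units.ext
  rw [toG_val h]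
  ext i j
  simp

/-- The scaled slash action of an integral matrix of determinant `N`. -/
noncomputable def HA (F : ℍ → ℂ) (k N : ℕ) (A : Matrix (Fin 2) (Fin 2) ℤ) (τ : ℍ) : ℂ :=
  (N / denom (toG A) τ) ^ k * F (toG A • τ)

/-- Weight `k` invariance under the modular group. -/
def WInv (F : ℍ → ℂ) (k : ℕ) : Prop :=
  ∀ (γ : SL(2, ℤ)) (τ : ℍ), F (γ • τ) = denom γ τ ^ k * F τ

lemma sigma_pos {g : GL (Fin 2) ℝ} (h : 0 < g.val.det) (z : ℂ) : σ g z = z := by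
  have h' : 0 < g.det.val := by rw [Matrix.GeneralLinearGroup.val_det_apply]; exact h
  rw [σ, if_pos h']
  rfl

lemma denom_mul' (g : GL (Fin 2) ℝ) {h : GL (Fin 2) ℝ} (hh : 0 < h.val.det) (τ : ℍ) :
    denom (g * h) τ = denom g (h • τ : ℍ) * denom h τ := by
  rw [denom_cocycle_σ, sigma_pos hh]

lemma det_SL_pos (γ : SL(2, ℤ)) : 0 < (γ : GL (Fin 2) ℝ).val.det := by
  have h : 0 < γ.1.det := by rw [γ.det_coe]; norm_num
  rw [← toG_SL, det_toG h]
  exact_mod_cast h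

lemma HA_left {F : ℍ → ℂ} {k N : ℕ} (hF : WInv F k) {A : Matrix (Fin 2) (Fin 2) ℤ}
    (hA : 0 < A.det) (γ : SL(2, ℤ)) (τ : ℍ) : HA F k N (γ.1 * A) τ = HA F k N A τ := by
  have h : 0 < γ.1.det := by rw [γ.det_coe]; norm_num
  have hA' : 0 < (toG A).val.det := by rw [det_toG hA]; exact_mod_cast hA
  have h1 : F ((γ : GL (Fin 2) ℝ) • toG A • τ) = denom γ (toG A • τ : ℍ) ^ k * F (toG A • τ) :=
    hF γ (toG A • τ)
  have h3 : denom (γ : GL (Fin 2) ℝ) (toG A • τ : ℍ) ≠ 0 := denom_ne_zero _ _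
  have h4 : denom (toG A) τ ≠ 0 := denom_ne_zero _ _
  unfold HA
  rw [toG_mul h hA, mul_smul, toG_SL, denom_mul' _ hA', h1, ← mul_assoc, ← mul_pow]
  congr 2
  field_simp

lemma HA_right {F : ℍ → ℂ} {k N : ℕ} {A : Matrix (Fin 2) (Fin 2) ℤ}
    (hA : 0 < A.det) (γ : SL(2, ℤ)) (τ : ℍ) :
    HA F k N A (γ • τ) = denom γ τ ^ k * HA F k N (A * γ.1) τ := by
  have h : 0 < γ.1.det := by rw [γ.det_coe]; norm_num
  have h3 : denom (γ : GL (Fin 2) ℝ) τ ≠ 0 := denom_ne_zero _ _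
  have h4 : denom (toG A) (γ • τ : ℍ) ≠ 0 := denom_ne_zero _ _
  unfold HA
  rw [toG_mul hA h, mul_smul, toG_SL, denom_mul' _ (det_SL_pos γ), ← mul_assoc, ← mul_pow]
  change _ = (_ * (_ / (denom (toG A) (γ • τ : ℍ) * _))) ^ k * F (toG A • γ • τ)
  congr 2
  field_simp

/-- Sums over the representatives are modular. -/
lemma sum_WInv {N : ℕ} (hN : 0 < N) (k : ℕ) (G : Matrix (Fin 2) (Fin 2) ℤ → ℍ → ℂ)
    (h1 : ∀ (A : Matrix (Fin 2) (Fin 2) ℤ), A.det = N → ∀ (γ : SL(2, ℤ)) (τ : ℍ),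
      G (γ.1 * A) τ = G A τ)
    (h2 : ∀ (A : Matrix (Fin 2) (Fin 2) ℤ), A.det = N → ∀ (γ : SL(2, ℤ)) (τ : ℍ),
      G A (γ • τ) = denom γ τ ^ k * G (A * γ.1) τ) :
    WInv (fun τ ↦ ∑ s ∈ SN N, G (toM s) τ) k := by
  intro γ τ
  simp only
  rw [Finset.mul_sum]
  have hdet : ∀ s ∈ SN N, (toM s).det = N := fun s hs ↦ by
    rw [det_toM]; exact_mod_cast ((mem_SN hN).mp hs).1
  have hex : ∀ s : {s // s ∈ SN N}, ∃ t : {s // s ∈ SN N}, ∃ δ : SL(2, ℤ),
      toM s.1 * γ.1 = δ.1 * toM t.1 := fun s ↦ by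
    obtain ⟨t, ht, δ, h⟩ := exists_rep hN (toM s.1 * γ.1) (by
      rw [Matrix.det_mul, γ.det_coe, mul_one, hdet s.1 s.2])
    exact ⟨⟨t, ht⟩, δ, h⟩
  choose f δ hf using hex
  have hinj : Function.Injective f := by
    intro s t hst
    have e1 := hf s
    have e2 := hf t
    rw [hst] at e1
    have hδ : (δ s).1 * ((δ s)⁻¹).1 = 1 := by
      rw [← Matrix.SpecialLinearGroup.coe_mul, mul_inv_cancel]; rfl
    have e3 : toM s.1 * γ.1 = ((δ s) * (δ t)⁻¹ : SL(2, ℤ)).1 * toM t.1 * γ.1 := by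
      rw [Matrix.mul_assoc, e2, e1, Matrix.SpecialLinearGroup.coe_mul, Matrix.mul_assoc,
        ← Matrix.mul_assoc _ (δ t).1, ← Matrix.SpecialLinearGroup.coe_mul, inv_mul_cancel]
      simp
    have e4 : toM s.1 = ((δ s) * (δ t)⁻¹ : SL(2, ℤ)).1 * toM t.1 := by
      have := congrArg (· * (γ⁻¹ : SL(2, ℤ)).1) e3
      simp only [Matrix.mul_assoc] at this
      rw [← Matrix.SpecialLinearGroup.coe_mul, mul_inv_cancel] at this
      simpa using this
    exact Subtype.ext (toM_inj hN s.2 t.2 _ e4)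
  have hbij : Function.Bijective f := Finite.injective_iff_bijective.mp hinj
  rw [← Finset.sum_coe_sort (SN N) (fun s ↦ G (toM s) (γ • τ)),
    ← Finset.sum_coe_sort (SN N) (fun s ↦ denom γ τ ^ k * G (toM s) τ),
    ← hbij.sum_comp (fun s ↦ denom γ τ ^ k * G (toM s.1) τ)]
  refine Finset.sum_congr rfl fun s _ ↦ ?_
  rw [h2 _ (hdet s.1 s.2), hf s, h1 _ (hdet _ (f s).2)]

end H32
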