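import Pool.Agent.H32.HeckeM

/-!
# The power sums at the point i
-/

open UpperHalfPlane hiding I
open Complex EisensteinSeries ModularForm MatrixGroups Manifold
open scoped Real

namespace H32

/-- The point `(a τ + b) / d`. -/
noncomputable def tact (s : ℕ × ℕ × ℕ) (τ : ℍ) : ℍ :=
  open Classical in
  if h : 0 < s.1 ∧ 0 < s.2.2 then act s.1 s.2.1 s.2.2 h.1 h.2 τ else τ

lemma tact_eq {a b d : ℕ} (ha : 0 < a) (hd : 0 < d) (τ : ℍ) :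
    tact (a, b, d) τ = act a b d ha hd τ := by
  rw [tact, dif_pos ⟨ha, hd⟩]

lemma coe_tact {s : ℕ × ℕ × ℕ} (ha : 0 < s.1) (hd : 0 < s.2.2) (τ : ℍ) :
    (tact s τ : ℂ) = ((s.1 : ℂ) * τ + s.2.1) / s.2.2 := by
  rw [tact, dif_pos ⟨ha, hd⟩, coe_act]

lemma im_tact {s : ℕ × ℕ × ℕ} (ha : 0 < s.1) (hd : 0 < s.2.2) (τ : ℍ) :
    (tact s τ).im = s.1 * τ.im / s.2.2 := by
  rw [tact, dif_pos ⟨ha, hd⟩, im_act]

lemma det_toM_pos {s : ℕ × ℕ × ℕ} (ha : 0 < s.1) (hd : 0 < s.2.2) : 0 < (toM s).det := by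
  rw [det_toM]
  have : 0 < s.1 * s.2.2 := Nat.mul_pos ha hd
  exact_mod_cast this

lemma denom_toM {s : ℕ × ℕ × ℕ} (ha : 0 < s.1) (hd : 0 < s.2.2) (z : ℂ) :
    denom (toG (toM s)) z = s.2.2 := by
  rw [denom, toG_val (det_toM_pos ha hd)]
  simp [toM]

lemma toG_smul {s : ℕ × ℕ × ℕ} (ha : 0 < s.1) (hd : 0 < s.2.2) (τ : ℍ) :
    toG (toM s) • τ = tact s τ := by
  have hpos := det_toM_pos ha hd
  have h1 : 0 < (toG (toM s)).det.val := by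
    rw [Matrix.GeneralLinearGroup.val_det_apply, det_toG hpos]; exact_mod_cast hpos
  ext
  rw [coe_smul_of_det_pos h1, denom_toM ha hd, coe_tact ha hd, num, toG_val hpos]
  simp [toM]

lemma HA_toM (F : ℍ → ℂ) (k : ℕ) {N : ℕ} (hN : 0 < N) {s : ℕ × ℕ × ℕ} (hs : s ∈ SN N) (τ : ℍ) :
    HA F k N (toM s) τ = (s.1 : ℂ) ^ k * F (tact s τ) := by
  obtain ⟨ha, hd⟩ := SN_pos hN hs
  have h1 := ((mem_SN hN).mp hs).1
  unfold HA
  rw [toG_smul ha hd, denom_toM ha hd]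
  congr 2
  have hd' : (s.2.2 : ℂ) ≠ 0 := by exact_mod_cast hd.ne'
  rw [div_eq_iff hd', ← h1]
  push_cast
  ring

lemma E2s_I : E2s UpperHalfPlane.I = 0 := by
  have h := E2s_smul ModularGroup.S UpperHalfPlane.I
  rw [smul_I, denom_S_I, Complex.I_sq] at h
  have : (2 : ℂ) * E2s UpperHalfPlane.I = 0 := by linear_combination h
  simpa using this

lemma WInv_E4 : WInv (fun τ ↦ E₄ τ) 4 := by
  intro γ τ
  have := modForm_smul E₄ γ τ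
  simpa using this

lemma WInv_E6 : WInv (fun τ ↦ E₆ τ) 6 := by
  intro γ τ
  have := modForm_smul E₆ γ τ
  simpa using this

lemma WInv_E2s : WInv E2s 2 := E2s_smul

/-- The monomial function attached to an integral matrix. -/
noncomputable def GG (u v w N : ℕ) (A : Matrix (Fin 2) (Fin 2) ℤ) (τ : ℍ) : ℂ :=
  (HA E2s 2 N A τ - N * E2s τ) ^ u * HA (fun τ ↦ E₄ τ) 4 N A τ ^ v *
    HA (fun τ ↦ E₆ τ) 6 N A τ ^ w

lemma GG_left (u v w N : ℕ) {A : Matrix (Fin 2) (Fin 2) ℤ} (hA : 0 < A.det) (γ : SL(2, ℤ))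
    (τ : ℍ) : GG u v w N (γ.1 * A) τ = GG u v w N A τ := by
  unfold GG
  rw [HA_left WInv_E2s hA, HA_left WInv_E4 hA, HA_left WInv_E6 hA]

lemma GG_right (u v w N : ℕ) {A : Matrix (Fin 2) (Fin 2) ℤ} (hA : 0 < A.det) (γ : SL(2, ℤ))
    (τ : ℍ) : GG u v w N A (γ • τ) =
      denom γ τ ^ (2 * u + 4 * v + 6 * w) * GG u v w N (A * γ.1) τ := by
  unfold GG
  rw [HA_right hA, HA_right hA, HA_right hA, WInv_E2s γ τ]
  have e : denom (γ : GL (Fin 2) ℝ) τ ^ 2 * HA E2s 2 N (A * γ.1) τ -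
      N * (denom (γ : GL (Fin 2) ℝ) τ ^ 2 * E2s τ) =
      denom (γ : GL (Fin 2) ℝ) τ ^ 2 * (HA E2s 2 N (A * γ.1) τ - N * E2s τ) := by ring
  rw [e, mul_pow]
  ring

lemma GG_toM (u v w : ℕ) {N : ℕ} (hN : 0 < N) {s : ℕ × ℕ × ℕ} (hs : s ∈ SN N) (τ : ℍ) :
    GG u v w N (toM s) τ =
      ((s.1 : ℂ) ^ 2 * EisensteinSeries.E2 (tact s τ) - N * EisensteinSeries.E2 τ) ^ u *
      ((s.1 : ℂ) ^ 4 * E₄ (tact s τ)) ^ v * ((s.1 : ℂ) ^ 6 * E₆ (tact s τ)) ^ w := by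
  obtain ⟨ha, hd⟩ := SN_pos hN hs
  have h1 := ((mem_SN hN).mp hs).1
  unfold GG
  rw [HA_toM _ _ hN hs, HA_toM _ _ hN hs, HA_toM _ _ hN hs]
  congr 3
  unfold E2s
  rw [im_tact ha hd]
  have hd' : (s.2.2 : ℂ) ≠ 0 := by exact_mod_cast hd.ne'
  have ha' : (s.1 : ℂ) ≠ 0 := by exact_mod_cast ha.ne'
  have hpi : (π : ℂ) ≠ 0 := by exact_mod_cast Real.pi_ne_zero
  have hy : (τ.im : ℂ) ≠ 0 := by exact_mod_cast τ.im_ne_zero
  rw [← h1]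
  push_cast
  field_simp
  ring

/-- The power sum of weight `2 u + 4 v + 6 w`. -/
lemma WInv_sum (u v w : ℕ) {N : ℕ} (hN : 0 < N) :
    WInv (fun τ ↦ ∑ s ∈ SN N, GG u v w N (toM s) τ) (2 * u + 4 * v + 6 * w) := by
  have hN' : (0 : ℤ) < N := by exact_mod_cast hN
  exact sum_WInv hN _ (GG u v w N) (fun A hA γ τ ↦ GG_left u v w N (hA ▸ hN') γ τ)
    (fun A hA γ τ ↦ GG_right u v w N (hA ▸ hN') γ τ)

lemma IntQ_E4' : IntQ (fun τ ↦ E₄ τ) := IntQ_E4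
lemma IntQ_E6' : IntQ (fun τ ↦ E₆ τ) := IntQ_E6

lemma IntQ_sum (u v w : ℕ) {N : ℕ} (hN : 0 < N) :
    IntQ (fun τ ↦ ∑ s ∈ SN N, GG u v w N (toM s) τ) := by
  have e1 : (fun τ ↦ ∑ s ∈ SN N, GG u v w N (toM s) τ) = fun τ ↦
      ∑ p ∈ N.divisorsAntidiagonal, ∑ m ∈ Finset.range (u + 1),
        ((u.choose m : ℤ) : ℂ) * ((((-(N : ℤ)) : ℤ) : ℂ) * EisensteinSeries.E2 τ) ^ (u - m) *
        ∑ b ∈ Finset.range p.2,
        (((p.1 : ℤ) : ℂ) ^ 2 * EisensteinSeries.E2 (tact (p.1, b, p.2) τ)) ^ m *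
      (((p.1 : ℤ) : ℂ) ^ 4 * E₄ (tact (p.1, b, p.2) τ)) ^ v *
      (((p.1 : ℤ) : ℂ) ^ 6 * E₆ (tact (p.1, b, p.2) τ)) ^ w := by
    ext τ
    rw [Finset.sum_congr rfl fun s hs ↦ GG_toM u v w hN hs τ]
    rw [sum_SN hN (fun a b d ↦ ((a : ℂ) ^ 2 * EisensteinSeries.E2 (tact (a, b, d) τ) -
      N * EisensteinSeries.E2 τ) ^ u * ((a : ℂ) ^ 4 * E₄ (tact (a, b, d) τ)) ^ v *
      ((a : ℂ) ^ 6 * E₆ (tact (a, b, d) τ)) ^ w)]
    refine Finset.sum_congr rfl fun p _ ↦ ?_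
    simp_rw [Finset.mul_sum]
    rw [Finset.sum_comm]
    refine Finset.sum_congr rfl fun b _ ↦ ?_
    rw [sub_eq_add_neg, add_pow, Finset.sum_mul, Finset.sum_mul]
    refine Finset.sum_congr rfl fun m _ ↦ ?_
    push_cast
    ring
  rw [e1]
  refine IntQ.sum fun p hp ↦ IntQ.sum fun m _ ↦ IntQ.mul ?_ ?_
  · exact (IntQ.const _).mul ((IntQ_E2.const_mul _).pow _)
  · have hp' := Nat.mem_divisorsAntidiagonal.mp hp
    have ha : 0 < p.1 := Nat.pos_of_ne_zero fun h ↦ by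
      rw [h, zero_mul] at hp'; exact hp'.2 hp'.1.symm
    have hd : 0 < p.2 := Nat.pos_of_ne_zero fun h ↦ by
      rw [h, mul_zero] at hp'; exact hp'.2 hp'.1.symm
    have hH : IntQ (fun τ ↦ (((p.1 : ℤ) : ℂ) ^ 2 * EisensteinSeries.E2 τ) ^ m *
      (((p.1 : ℤ) : ℂ) ^ 4 * E₄ τ) ^ v *
      (((p.1 : ℤ) : ℂ) ^ 6 * E₆ τ) ^ w) := by
      have e2 := IntQ_E2.const_mul ((p.1 : ℤ) ^ 2)
      have e4 := IntQ_E4'.const_mul ((p.1 : ℤ) ^ 4)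
      have e6 := IntQ_E6'.const_mul ((p.1 : ℤ) ^ 6)
      push_cast at e2 e4 e6 ⊢
      exact ((e2.pow m).mul (e4.pow v)).mul (e6.pow w)
    have := hH.sum_act p.1 p.2 ha hd
    simpa [tact_eq ha hd] using this

theorem hecke_sum {ω : ℂ} (hω : ω ^ 4 = E₄ UpperHalfPlane.I) {N : ℕ} (hN : 0 < N) (u v w : ℕ) :
    ∃ z : ℤ, 1728 ^ (2 * u + 4 * v + 6 * w) * ∑ s ∈ SN N,
      ((s.1 : ℂ) ^ 2 * E2s (tact s UpperHalfPlane.I)) ^ u *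
      ((s.1 : ℂ) ^ 4 * E₄ (tact s UpperHalfPlane.I)) ^ v *
      ((s.1 : ℂ) ^ 6 * E₆ (tact s UpperHalfPlane.I)) ^ w = z * ω ^ (2 * u + 4 * v + 6 * w) := by
  obtain ⟨F, hF⟩ := exists_modForm (IntQ_sum u v w hN) (WInv_sum u v w hN)
  have hF' : IntQ (fun τ ↦ F τ) := by
    have : (fun τ ↦ F τ) = fun τ ↦ ∑ s ∈ SN N, GG u v w N (toM s) τ := funext hF
    rw [this]; exact IntQ_sum u v w hN
  obtain ⟨z, hz⟩ := value_I hω _ F (intPS_of_intQ F hF')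
  refine ⟨z, ?_⟩
  rw [← hz, hF]
  congr 1
  refine Finset.sum_congr rfl fun s hs ↦ ?_
  unfold GG
  rw [E2s_I, mul_zero, sub_zero, HA_toM _ _ hN hs, HA_toM _ _ hN hs, HA_toM _ _ hN hs]

end H32
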