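import Pool.Agent.H32.Hecke

/-!
# Modular forms from power sums over integer matrices
-/

open UpperHalfPlane hiding I
open Complex EisensteinSeries ModularForm MatrixGroups Manifold
open scoped Real

namespace H32

lemma IntQ.mdiff {f : ℍ → ℂ} (hf : IntQ f) : MDiff f := by
  obtain ⟨c, hc⟩ := hf
  rw [UpperHalfPlane.mdifferentiable_iff]
  intro z hz
  have hz' : 0 < z.im := hz
  set y : ℝ := z.im / 2 with hy
  have hy0 : 0 < y := by positivity
  set U : Set ℂ := {w | y < w.im} with hU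
  have hUo : IsOpen U := isOpen_lt continuous_const Complex.continuous_im
  have hzU : z ∈ U := by change y < z.im; linarith
  set τ₀ : ℍ := ⟨(y : ℂ) * I, by simpa using hy0⟩ with hτ₀
  have h0 : ‖qq τ₀‖ = Real.exp (-2 * π * y) := by
    rw [qq_eq, Complex.norm_exp]
    congr 1
    simp [hτ₀, UpperHalfPlane.coe_mk]
  have hs : Summable fun m ↦ ‖(c m : ℂ)‖ * Real.exp (-2 * π * y) ^ m := by
    have := (hc τ₀).summable.norm
    simpa [norm_mul, norm_pow, h0] using this
  have hd : DifferentiableOn ℂ (fun w ↦ ∑' m, (c m : ℂ) * Complex.exp (2 * π * I * w) ^ m) U := by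
    refine differentiableOn_tsum_of_summable_norm hs (fun m ↦ ?_) hUo ?_
    · fun_prop
    · intro m w hw
      rw [norm_mul, norm_pow]
      gcongr
      rw [Complex.norm_exp]
      apply Real.exp_le_exp.mpr
      have hw' : y < w.im := hw
      have : (2 * π * I * w).re = -2 * π * w.im := by simp
      rw [this]
      nlinarith [Real.pi_pos]
  have heq : ∀ w ∈ U, (f ∘ UpperHalfPlane.ofComplex) w =
      ∑' m, (c m : ℂ) * Complex.exp (2 * π * I * w) ^ m := by
    intro w hw
    have hw' : 0 < w.im := lt_trans hy0 hw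
    have := (hc ⟨w, hw'⟩).tsum_eq
    rw [Function.comp_apply, UpperHalfPlane.ofComplex_apply_of_im_pos hw', ← this]
    simp [qq_eq]
  exact ((hd.congr heq).differentiableAt (hUo.mem_nhds hzU)).differentiableWithinAt

lemma IntQ.bdd {f : ℍ → ℂ} (hf : IntQ f) : IsBoundedAtImInfty f := by
  obtain ⟨c, hc⟩ := hf
  rw [UpperHalfPlane.isBoundedAtImInfty_iff]
  have h0 : ‖qq UpperHalfPlane.I‖ = Real.exp (-2 * π) := by
    rw [qq_eq, Complex.norm_exp]
    congr 1
    simp
  have hs : Summable fun m ↦ ‖(c m : ℂ)‖ * Real.exp (-2 * π) ^ m := by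
    have := (hc UpperHalfPlane.I).summable.norm
    simpa [norm_mul, norm_pow, h0] using this
  refine ⟨∑' m, ‖(c m : ℂ)‖ * Real.exp (-2 * π) ^ m, 1, fun τ hτ ↦ ?_⟩
  rw [← (hc τ).tsum_eq]
  refine tsum_of_norm_bounded hs.hasSum fun m ↦ ?_
  rw [norm_mul, norm_pow]
  gcongr
  rw [qq_eq, Complex.norm_exp]
  apply Real.exp_le_exp.mpr
  have : (2 * π * I * (τ : ℂ)).re = -2 * π * τ.im := by simp
  rw [this]
  nlinarith [Real.pi_pos]

/-- An integral weight `k` invariant function is a modular form. -/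
lemma exists_modForm {f : ℍ → ℂ} {k : ℕ} (hf : IntQ f) (hk : WInv f k) :
    ∃ F : ModularForm 𝒮ℒ (k : ℤ), ∀ τ, F τ = f τ := by
  have hsl : ∀ γ : SL(2, ℤ), f ∣[(k : ℤ)] γ = f := by
    intro γ
    ext τ
    rw [ModularForm.SL_slash_apply, hk γ τ]
    have hd : denom (γ : GL (Fin 2) ℝ) τ ≠ 0 := denom_ne_zero _ τ
    rw [zpow_neg, zpow_natCast]
    field_simp
  refine ⟨{ toFun := f
            slash_action_eq' := fun _ ⟨γ, hγ⟩ ↦ hγ ▸ hsl γ
            holo' := hf.mdiff
            bdd_at_cusps' := fun {c} hc ↦ by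
              rw [Subgroup.IsArithmetic.isCusp_iff_isCusp_SL2Z] at hc
              rw [OnePoint.isBoundedAt_iff_forall_SL2Z hc]
              intro γ _
              rw [hsl γ]
              exact hf.bdd }, fun τ ↦ rfl⟩

end H32
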