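import Pool.Agent.H32.IntQ

/-!
# Summing over translates preserves integrality of q-expansions
-/

open UpperHalfPlane hiding I
open Complex EisensteinSeries ModularForm MatrixGroups
open scoped Real

namespace H32

/-- The point `(a τ + b) / d` of the upper half-plane. -/
noncomputable def act (a b d : ℕ) (ha : 0 < a) (hd : 0 < d) (τ : ℍ) : ℍ :=
  ⟨((a : ℂ) * τ + b) / d, by
    have h1 : ((a : ℂ) * τ + b) / d = (((a : ℝ) * τ.re + b) / d : ℝ) + ((a * τ.im / d : ℝ) : ℂ) * I := by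
      apply Complex.ext <;> simp [Complex.div_natCast_re, Complex.div_natCast_im]
    rw [h1]
    have ha' : (0 : ℝ) < a := by exact_mod_cast ha
    have hd' : (0 : ℝ) < d := by exact_mod_cast hd
    have := τ.im_pos
    simp only [Complex.add_im, Complex.ofReal_im, Complex.mul_im, Complex.ofReal_re, Complex.I_im,
      Complex.I_re]
    positivity⟩

lemma coe_act (a b d : ℕ) (ha : 0 < a) (hd : 0 < d) (τ : ℍ) :
    (act a b d ha hd τ : ℂ) = ((a : ℂ) * τ + b) / d := rfl

lemma im_act (a b d : ℕ) (ha : 0 < a) (hd : 0 < d) (τ : ℍ) :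
    (act a b d ha hd τ).im = a * τ.im / d := by
  change (((a : ℂ) * τ + b) / d).im = _
  simp [Complex.div_natCast_im]

lemma sum_roots (d m : ℕ) (hd : 0 < d) :
    ∑ b ∈ Finset.range d, (Complex.exp (2 * π * I / d) ^ b) ^ m = if d ∣ m then (d : ℂ) else 0 := by
  have hprim := Complex.isPrimitiveRoot_exp d hd.ne'
  have h1 : ∀ b ∈ Finset.range d, (Complex.exp (2 * π * I / d) ^ b) ^ m =
      (Complex.exp (2 * π * I / d) ^ m) ^ b := fun b _ ↦ by
    rw [← pow_mul, ← pow_mul, mul_comm b m]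
  rw [Finset.sum_congr rfl h1]
  split_ifs with h
  · have : Complex.exp (2 * π * I / d) ^ m = 1 := (hprim.pow_eq_one_iff_dvd m).mpr h
    simp [this]
  · have hne : Complex.exp (2 * π * I / d) ^ m ≠ 1 := fun h' ↦
      h ((hprim.pow_eq_one_iff_dvd m).mp h')
    rw [geom_sum_eq hne, ← pow_mul, mul_comm m d, pow_mul, hprim.pow_eq_one, one_pow]
    simp

lemma qq_act (a b d : ℕ) (ha : 0 < a) (hd : 0 < d) (τ : ℍ) :
    qq (act a b d ha hd τ) = Complex.exp (2 * π * I * a * τ / d) *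
      Complex.exp (2 * π * I / d) ^ b := by
  rw [qq_eq, coe_act, ← Complex.exp_nat_mul, ← Complex.exp_add]
  congr 1
  have hd' : (d : ℂ) ≠ 0 := by exact_mod_cast hd.ne'
  field_simp

lemma IntQ.sum_act {G : ℍ → ℂ} (hG : IntQ G) (a d : ℕ) (ha : 0 < a) (hd : 0 < d) :
    IntQ (fun τ ↦ ∑ b ∈ Finset.range d, G (act a b d ha hd τ)) := by
  obtain ⟨c, hc⟩ := hG
  refine ⟨fun n ↦ if a ∣ n then d * c (d * (n / a)) else 0, fun τ ↦ ?_⟩
  set s : ℂ := Complex.exp (2 * π * I * a * τ / d) with hs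
  have hsd : s ^ d = qq τ ^ a := by
    rw [hs, qq_eq, ← Complex.exp_nat_mul, ← Complex.exp_nat_mul]
    congr 1
    have hd' : (d : ℂ) ≠ 0 := by exact_mod_cast hd.ne'
    field_simp
  have h1 : HasSum (fun m ↦ ∑ b ∈ Finset.range d, (c m : ℂ) * qq (act a b d ha hd τ) ^ m)
      (∑ b ∈ Finset.range d, G (act a b d ha hd τ)) :=
    hasSum_sum fun b _ ↦ hc _
  have h2 : ∀ m, ∑ b ∈ Finset.range d, (c m : ℂ) * qq (act a b d ha hd τ) ^ m =
      if d ∣ m then d * c m * s ^ m else 0 := by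
    intro m
    have : ∀ b ∈ Finset.range d, (c m : ℂ) * qq (act a b d ha hd τ) ^ m =
        c m * s ^ m * (Complex.exp (2 * π * I / d) ^ b) ^ m := fun b _ ↦ by
      rw [qq_act, mul_pow]; ring
    rw [Finset.sum_congr rfl this, ← Finset.mul_sum, sum_roots d m hd]
    split_ifs <;> ring
  rw [funext h2] at h1
  -- restrict to multiples of `d`
  have hinj : Function.Injective (fun j : ℕ ↦ d * j) := fun i j hij ↦
    Nat.eq_of_mul_eq_mul_left hd hij
  have h3 : HasSum (fun j : ℕ ↦ (d : ℂ) * c (d * j) * (qq τ ^ a) ^ j)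
      (∑ b ∈ Finset.range d, G (act a b d ha hd τ)) := by
    have h4 := (hinj.hasSum_iff (f := fun m ↦ if d ∣ m then (d : ℂ) * c m * s ^ m else 0)
      (a := ∑ b ∈ Finset.range d, G (act a b d ha hd τ)) ?_).mpr h1
    · refine h4.congr_fun fun j ↦ ?_
      change _ = if d ∣ d * j then (d : ℂ) * c (d * j) * s ^ (d * j) else 0
      rw [if_pos (dvd_mul_right d j), ← hsd, ← pow_mul]
    · intro m hm
      rw [if_neg]
      rintro ⟨j, rfl⟩
      exact hm ⟨j, rfl⟩
  have hinja : Function.Injective (fun j : ℕ ↦ a * j) := fun i j hij ↦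
    Nat.eq_of_mul_eq_mul_left ha hij
  refine (hinja.hasSum_iff ?_).mp ?_
  · intro m hm
    have : ¬ a ∣ m := by
      rintro ⟨j, rfl⟩
      exact hm ⟨j, rfl⟩
    simp [this]
  · refine h3.congr_fun fun j ↦ ?_
    change (((if a ∣ a * j then (d : ℤ) * c (d * (a * j / a)) else 0 : ℤ)) : ℂ) * qq τ ^ (a * j) = _
    rw [if_pos (dvd_mul_right a j), Nat.mul_div_cancel_left j ha, pow_mul]
    push_cast
    ring

end H32
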