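import Pool.Agent.H32.HeckeI

/-!
# Algebraic independence of τ, E2, E4, E6
-/

open UpperHalfPlane hiding I
open Complex EisensteinSeries ModularForm MatrixGroups Manifold
open scoped Real Topology

namespace H32

lemma analytic_of_mdiff {f : ℍ → ℂ} (hf : MDiff f) :
    AnalyticOnNhd ℂ (fun w ↦ f (ofComplex w)) upperHalfPlaneSet := by
  rw [UpperHalfPlane.mdifferentiable_iff] at hf
  exact DifferentiableOn.analyticOnNhd hf isOpen_upperHalfPlaneSet

lemma preconnected_H : IsPreconnected upperHalfPlaneSet := by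
  exact (convex_halfSpace_im_gt 0).isPreconnected

lemma analytic_E2 : AnalyticOnNhd ℂ (fun w ↦ E2 (ofComplex w)) upperHalfPlaneSet :=
  analytic_of_mdiff IntQ_E2.mdiff
lemma analytic_E4 : AnalyticOnNhd ℂ (fun w ↦ E₄ (ofComplex w)) upperHalfPlaneSet :=
  analytic_of_mdiff IntQ_E4'.mdiff
lemma analytic_E6 : AnalyticOnNhd ℂ (fun w ↦ E₆ (ofComplex w)) upperHalfPlaneSet :=
  analytic_of_mdiff IntQ_E6'.mdiff

lemma E6_not_zero : ¬ ∀ w ∈ upperHalfPlaneSet, E₆ (ofComplex w) = 0 := by
  intro h
  have h1 : ∀ τ : ℍ, E₆ τ = 0 := fun τ ↦ by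
    have := h τ τ.im_pos
    rwa [ofComplex_apply] at this
  apply E_ne_zero (k := 6) (by norm_num) ⟨3, rfl⟩
  ext τ
  exact h1 τ

open Polynomial in
lemma indep46 (N : ℕ) : ∀ R : Polynomial (Polynomial ℂ), R.natDegree ≤ N →
    (∀ (u : ℂ) (τ : ℍ), u ≠ 0 → R.evalEval (u ^ 4 * E₄ τ) (u ^ 6 * E₆ τ) = 0) → R = 0 := by
  induction N with
  | zero =>
    intro R hR h
    obtain ⟨p, rfl⟩ : ∃ p, R = C p := ⟨_, eq_C_of_natDegree_le_zero hR⟩
    have hp : p = 0 := by
      apply eq_zero_of_infinite_isRoot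
      have hinf : Set.Infinite (Set.range fun m : ℕ ↦ ((m : ℂ) + 1) * E₄ UpperHalfPlane.I) := by
        refine Set.infinite_range_of_injective fun a b hab ↦ ?_
        have := mul_right_cancel₀ E4_I_ne hab
        have h2 : (a : ℂ) = b := by linear_combination this
        exact_mod_cast h2
      refine hinf.mono ?_
      rintro _ ⟨m, rfl⟩
      obtain ⟨u, hu⟩ := IsAlgClosed.exists_pow_nat_eq ((m : ℂ) + 1) (n := 4) (by norm_num)
      have hm : (m : ℂ) + 1 ≠ 0 := by exact_mod_cast Nat.succ_ne_zero m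
      have hu0 : u ≠ 0 := by
        rintro rfl
        rw [zero_pow (by norm_num)] at hu
        exact hm hu.symm
      have := h u UpperHalfPlane.I hu0
      rw [evalEval_C, hu] at this
      exact this
    rw [hp, map_zero]
  | succ N ih =>
    intro R hR h
    have h0 : R.coeff 0 = 0 := by
      apply eq_zero_of_infinite_isRoot
      have hinf : Set.Infinite (Set.range fun m : ℕ ↦ ((m : ℂ) + 1) * E₄ UpperHalfPlane.I) := by
        refine Set.infinite_range_of_injective fun a b hab ↦ ?_
        have := mul_right_cancel₀ E4_I_ne hab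
        have h2 : (a : ℂ) = b := by linear_combination this
        exact_mod_cast h2
      refine hinf.mono ?_
      rintro _ ⟨m, rfl⟩
      obtain ⟨u, hu⟩ := IsAlgClosed.exists_pow_nat_eq ((m : ℂ) + 1) (n := 4) (by norm_num)
      have hm : (m : ℂ) + 1 ≠ 0 := by exact_mod_cast Nat.succ_ne_zero m
      have hu0 : u ≠ 0 := by
        rintro rfl
        rw [zero_pow (by norm_num)] at hu
        exact hm hu.symm
      have := h u UpperHalfPlane.I hu0
      rw [E6_I, mul_zero, hu, evalEval, map_zero, ← coeff_zero_eq_eval_zero] at this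
      exact this
    have hdiv : R.divX * X = R := by
      have := divX_mul_X_add R
      rwa [h0, map_zero, add_zero] at this
    have h' : ∀ (u : ℂ) (τ : ℍ), u ≠ 0 → R.divX.evalEval (u ^ 4 * E₄ τ) (u ^ 6 * E₆ τ) = 0 := by
      intro u τ hu
      have hmul : ∀ w ∈ upperHalfPlaneSet,
          (fun w ↦ R.divX.evalEval (u ^ 4 * E₄ (ofComplex w)) (u ^ 6 * E₆ (ofComplex w))) w *
          (fun w ↦ E₆ (ofComplex w)) w = 0 := by
        intro w _
        have h1 := h u (ofComplex w) hu
        rw [← hdiv, evalEval_mul, evalEval_X] at h1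
        have hu6 : u ^ 6 ≠ 0 := pow_ne_zero _ hu
        have h2 : u ^ 6 * (R.divX.evalEval (u ^ 4 * E₄ (ofComplex w)) (u ^ 6 * E₆ (ofComplex w)) *
          E₆ (ofComplex w)) = 0 := by linear_combination h1
        exact (mul_eq_zero.mp h2).resolve_left hu6
      have hana : AnalyticOnNhd ℂ (fun w ↦ R.divX.evalEval (u ^ 4 * E₄ (ofComplex w))
          (u ^ 6 * E₆ (ofComplex w))) upperHalfPlaneSet := by
        have e : (fun w ↦ R.divX.evalEval (u ^ 4 * E₄ (ofComplex w)) (u ^ 6 * E₆ (ofComplex w))) =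
            fun w ↦ ∑ i ∈ R.divX.support, (aeval (u ^ 4 * E₄ (ofComplex w)) (R.divX.coeff i)) *
              (u ^ 6 * E₆ (ofComplex w)) ^ i := by
          ext w
          rw [evalEval, eval_eq_sum (p := R.divX), Polynomial.sum, eval_finsetSum]
          refine Finset.sum_congr rfl fun i _ ↦ ?_
          simp [coe_aeval_eq_eval]
        rw [e]
        refine Finset.analyticOnNhd_fun_sum _ fun i _ ↦ ?_
        refine AnalyticOnNhd.mul ?_ ((analyticOnNhd_const.mul analytic_E6).pow i)
        exact (analyticOnNhd_const.mul analytic_E4).aeval_polynomial _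
      rcases AnalyticOnNhd.eq_zero_or_eq_zero_of_mul_eq_zero hana analytic_E6 hmul
        preconnected_H with h3 | h3
      · have := h3 τ τ.im_pos
        simpa [ofComplex_apply] using this
      · exact absurd h3 E6_not_zero
    have hdeg : R.divX.natDegree ≤ N := by
      rw [natDegree_divX_eq_natDegree_tsub_one]
      omega
    rw [← hdiv, ih _ hdeg h', zero_mul]

end H32
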