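import Pool.Agent.H32.Indep

/-!
# Algebraic independence of τ, E2, E4, E6 (continued)
-/

open UpperHalfPlane hiding I
open Complex EisensteinSeries ModularForm MatrixGroups Manifold
open scoped Real Topology
open MvPolynomial

namespace H32

/-- A polynomial in one variable obtained by substitution. -/
lemma poly_sub (P : MvPolynomial (Fin 4) ℂ) (g : Fin 4 → Polynomial ℂ) (t : ℂ) :
    (aeval g P).eval t = aeval (fun i ↦ (g i).eval t) P := by
  have h : (Polynomial.evalRingHom t).comp (aeval g : MvPolynomial (Fin 4) ℂ →ₐ[ℂ] _).toRingHom =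
      (aeval (fun i ↦ (g i).eval t) : MvPolynomial (Fin 4) ℂ →ₐ[ℂ] _).toRingHom := by
    apply MvPolynomial.ringHom_ext
    · intro r; simp
    · intro i; simp
  exact congrArg (fun f ↦ f P) h

lemma poly_zero_of_infinite {p : Polynomial ℂ} (f : ℕ → ℂ) (hf : Function.Injective f)
    (h : ∀ m, p.eval (f m) = 0) : p = 0 := by
  apply Polynomial.eq_zero_of_infinite_isRoot
  refine (Set.infinite_range_of_injective hf).mono ?_
  rintro _ ⟨m, rfl⟩
  exact h m

/-- A family of unimodular matrices. -/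
def gM (c m : ℕ) : SL(2, ℤ) := ⟨!![1, (m : ℤ); (c : ℤ), c * m + 1], by
  rw [Matrix.det_fin_two]
  simp
  ring⟩

lemma denom_gM (c m : ℕ) (τ : ℍ) :
    denom ((gM c m : SL(2, ℤ)) : GL (Fin 2) ℝ) τ = c * τ + (c * m + 1) := by
  rw [ModularGroup.denom_apply]
  simp [gM]

lemma gM_10 (c m : ℕ) : (gM c m) 1 0 = c := by
  simp [gM]

lemma smul_gM_zero (m : ℕ) (τ : ℍ) : ((gM 0 m • τ : ℍ) : ℂ) = τ + m := by
  rw [coe_specialLinearGroup_apply]
  simp [gM]

theorem indep_H (P : MvPolynomial (Fin 4) ℂ)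
    (h : ∀ τ : ℍ, aeval ![(τ : ℂ), E2 τ, E₄ τ, E₆ τ] P = 0) : P = 0 := by
  -- the first variable is free
  have ha : ∀ (t : ℂ) (τ : ℍ), aeval ![t, E2 τ, E₄ τ, E₆ τ] P = 0 := by
    intro t τ
    set g : Fin 4 → Polynomial ℂ :=
      ![Polynomial.X, Polynomial.C (E2 τ), Polynomial.C (E₄ τ), Polynomial.C (E₆ τ)] with hg
    have hev : ∀ s : ℂ, (fun i ↦ (g i).eval s) = ![s, E2 τ, E₄ τ, E₆ τ] := by
      intro s; ext i; fin_cases i <;> simp [hg]
    have hp : aeval g P = 0 := by
      refine poly_zero_of_infinite (fun m : ℕ ↦ (τ : ℂ) + m) (fun a b hab ↦ by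
        have : (a : ℂ) = b := add_left_cancel hab
        exact_mod_cast this) fun m ↦ ?_
      rw [poly_sub, hev, ← smul_gM_zero]
      have h1 := h (gM 0 m • τ)
      have hden : denom ((gM 0 m : SL(2, ℤ)) : GL (Fin 2) ℝ) τ = 1 := by
        rw [denom_gM]; simp
      have e2 : E2 (gM 0 m • τ) = E2 τ := by
        rw [E2_smul, hden, gM_10]
        simp
      have e4 : E₄ (gM 0 m • τ) = E₄ τ := by
        have := WInv_E4 (gM 0 m) τ
        simp only at this
        rw [this, hden]
        simp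
      have e6 : E₆ (gM 0 m • τ) = E₆ τ := by
        have := WInv_E6 (gM 0 m) τ
        simp only at this
        rw [this, hden]
        simp
      rwa [e2, e4, e6] at h1
    have := poly_sub P g t
    rw [hp, hev] at this
    simpa using this.symm
  -- modular transformations
  have hb1 : ∀ (t u : ℂ) (τ : ℍ) (c : ℕ), 0 < c →
      aeval ![t, u ^ 2 * E2 τ - 6 * I / π * c * u, u ^ 4 * E₄ τ, u ^ 6 * E₆ τ] P = 0 := by
    intro t u τ c hc
    set g : Fin 4 → Polynomial ℂ :=
      ![Polynomial.C t, Polynomial.X ^ 2 * Polynomial.C (E2 τ) -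
        Polynomial.C (6 * I / π * c) * Polynomial.X, Polynomial.X ^ 4 * Polynomial.C (E₄ τ),
        Polynomial.X ^ 6 * Polynomial.C (E₆ τ)] with hg
    have hev : ∀ s : ℂ, (fun i ↦ (g i).eval s) =
        ![t, s ^ 2 * E2 τ - 6 * I / π * c * s, s ^ 4 * E₄ τ, s ^ 6 * E₆ τ] := by
      intro s; ext i
      fin_cases i
      · simp [hg]
      · simp [hg]
        ring
      · simp [hg]
        ring
      · simp [hg]
        ring
    have hc' : (c : ℂ) ≠ 0 := by exact_mod_cast hc.ne'
    have hp : aeval g P = 0 := by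
      refine poly_zero_of_infinite (fun m : ℕ ↦ (c : ℂ) * τ + (c * m + 1)) (fun a b hab ↦ by
        have h1 : (c : ℂ) * ((a : ℂ) - b) = 0 := by
          simp only at hab
          linear_combination hab
        have h2 : (a : ℂ) - b = 0 := (mul_eq_zero.mp h1).resolve_left hc'
        have : (a : ℂ) = b := by linear_combination h2
        exact_mod_cast this) fun m ↦ ?_
      rw [poly_sub, hev]
      set γ : SL(2, ℤ) := gM c m with hγ
      have hden : denom (γ : GL (Fin 2) ℝ) τ = c * τ + (c * m + 1) := denom_gM c m τ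
      have h1 := ha t (γ • τ)
      have e2 := E2_smul γ τ
      have e4 := WInv_E4 γ τ
      have e6 := WInv_E6 γ τ
      have e10 : γ 1 0 = c := gM_10 c m
      simp only at e4 e6
      rw [e2, e4, e6, hden, e10] at h1
      exact_mod_cast h1
    have := poly_sub P g u
    rw [hp, hev] at this
    simpa using this.symm
  have hb2 : ∀ (t u c : ℂ) (τ : ℍ),
      aeval ![t, u ^ 2 * E2 τ - 6 * I / π * c * u, u ^ 4 * E₄ τ, u ^ 6 * E₆ τ] P = 0 := by
    intro t u c τ
    set g : Fin 4 → Polynomial ℂ :=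
      ![Polynomial.C t, Polynomial.C (u ^ 2 * E2 τ) -
        Polynomial.C (6 * I / π) * Polynomial.X * Polynomial.C u, Polynomial.C (u ^ 4 * E₄ τ),
        Polynomial.C (u ^ 6 * E₆ τ)] with hg
    have hev : ∀ s : ℂ, (fun i ↦ (g i).eval s) =
        ![t, u ^ 2 * E2 τ - 6 * I / π * s * u, u ^ 4 * E₄ τ, u ^ 6 * E₆ τ] := by
      intro s; ext i; fin_cases i <;> simp [hg]
    have hp : aeval g P = 0 := by
      refine poly_zero_of_infinite (fun m : ℕ ↦ ((m + 1 : ℕ) : ℂ)) (fun a b hab ↦ by
        simp only at hab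
        have : a + 1 = b + 1 := by exact_mod_cast hab
        omega) fun m ↦ ?_
      rw [poly_sub, hev]
      exact hb1 t u τ (m + 1) (Nat.succ_pos m)
    have := poly_sub P g c
    rw [hp, hev] at this
    simpa using this.symm
  have hb3 : ∀ (t x u : ℂ) (τ : ℍ), u ≠ 0 →
      aeval ![t, x, u ^ 4 * E₄ τ, u ^ 6 * E₆ τ] P = 0 := by
    intro t x u τ hu
    have hpi : (π : ℂ) ≠ 0 := by exact_mod_cast Real.pi_ne_zero
    have hI : Complex.I ≠ 0 := Complex.I_ne_zero
    have := hb2 t u ((u ^ 2 * E2 τ - x) * π / (6 * I * u)) τ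
    have e : u ^ 2 * E2 τ - 6 * I / π * ((u ^ 2 * E2 τ - x) * π / (6 * I * u)) * u = x := by
      field_simp
      ring
    rwa [e] at this
  -- conclusion
  have hc : ∀ t x y z : ℂ, aeval ![t, x, y, z] P = 0 := by
    intro t x y z
    set R : Polynomial (Polynomial ℂ) := aeval ![Polynomial.C (Polynomial.C t),
      Polynomial.C (Polynomial.C x), Polynomial.C Polynomial.X, Polynomial.X] P with hR
    have hev : ∀ y z : ℂ, R.evalEval y z = aeval ![t, x, y, z] P := by
      intro y z
      have h : (Polynomial.evalEvalRingHom y z).comp (aeval (![Polynomial.C (Polynomial.C t),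
          Polynomial.C (Polynomial.C x), Polynomial.C Polynomial.X, Polynomial.X] :
            Fin 4 → Polynomial (Polynomial ℂ)) :
          MvPolynomial (Fin 4) ℂ →ₐ[ℂ] Polynomial (Polynomial ℂ)).toRingHom =
          (aeval ![t, x, y, z] : MvPolynomial (Fin 4) ℂ →ₐ[ℂ] ℂ).toRingHom := by
        apply MvPolynomial.ringHom_ext
        · intro r
          simp
        · intro i
          fin_cases i <;> simp
      exact congrArg (fun f ↦ f P) h
    have hR0 : R = 0 := indep46 _ R le_rfl fun u τ hu ↦ by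
      rw [hev]; exact hb3 t x u τ hu
    rw [← hev, hR0]
    simp
  apply MvPolynomial.funext
  intro x
  have := hc (x 0) (x 1) (x 2) (x 3)
  have e : ![x 0, x 1, x 2, x 3] = x := by
    ext i; fin_cases i <;> rfl
  rw [e] at this
  simpa [aeval_eq_eval] using this

end H32
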