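import Pool.Agent.H32.Indep2

/-!
# Algebraic independence of the germs along a line
-/

open UpperHalfPlane hiding I
open Complex EisensteinSeries ModularForm MatrixGroups Manifold
open scoped Real Topology
open MvPolynomial

namespace H32

/-- The data along the line `t ↦ α + β t`, with `y(t) = c + d t`. -/
noncomputable def DD (α β c d : ℂ) (t : ℂ) : Fin 4 → ℂ :=
  ![t, E2 (ofComplex (α + β * t)) - 3 / (π * (c + d * t)), E₄ (ofComplex (α + β * t)),
    E₆ (ofComplex (α + β * t))]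

lemma analytic_DD {α β c d t₀ : ℂ} (him : 0 < (α + β * t₀).im) (hy : c + d * t₀ ≠ 0) (k : Fin 4) :
    AnalyticAt ℂ (fun t ↦ DD α β c d t k) t₀ := by
  have hlin : AnalyticAt ℂ (fun t : ℂ ↦ α + β * t) t₀ := by fun_prop
  have hpi : (π : ℂ) ≠ 0 := by exact_mod_cast Real.pi_ne_zero
  have h2 : AnalyticAt ℂ (fun t : ℂ ↦ E2 (ofComplex (α + β * t))) t₀ :=
    AnalyticAt.fun_comp (g := fun w ↦ E2 (ofComplex w)) (f := fun t : ℂ ↦ α + β * t)
      (analytic_E2 _ him) hlin
  have h4 : AnalyticAt ℂ (fun t : ℂ ↦ E₄ (ofComplex (α + β * t))) t₀ :=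
    AnalyticAt.fun_comp (g := fun w ↦ E₄ (ofComplex w)) (f := fun t : ℂ ↦ α + β * t)
      (analytic_E4 _ him) hlin
  have h6 : AnalyticAt ℂ (fun t : ℂ ↦ E₆ (ofComplex (α + β * t))) t₀ :=
    AnalyticAt.fun_comp (g := fun w ↦ E₆ (ofComplex w)) (f := fun t : ℂ ↦ α + β * t)
      (analytic_E6 _ him) hlin
  have h3 : AnalyticAt ℂ (fun t : ℂ ↦ (π : ℂ) * (c + d * t)) t₀ := by fun_prop
  have h5 : AnalyticAt ℂ (fun t : ℂ ↦ 3 / ((π : ℂ) * (c + d * t))) t₀ :=
    analyticAt_const.fun_div h3 (mul_ne_zero hpi hy)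
  fin_cases k
  · exact analyticAt_id
  · exact h2.fun_sub h5
  · exact h4
  · exact h6

/-- The polynomial obtained after clearing denominators. -/
noncomputable def QQ (α β c d : ℂ) (P : MvPolynomial (Fin 4) ℂ) : MvPolynomial (Fin 4) ℂ :=
  ∑ m ∈ P.support, C (P.coeff m) * (C β⁻¹ * (X 0 - C α)) ^ m 0 *
    ((C c + C d * (C β⁻¹ * (X 0 - C α))) * X 1 - C (3 / (π : ℂ))) ^ m 1 *
    (C c + C d * (C β⁻¹ * (X 0 - C α))) ^ (P.totalDegree - m 1) * X 2 ^ m 2 * X 3 ^ m 3

lemma eval_QQ {α β c d : ℂ} (hβ : β ≠ 0) (P : MvPolynomial (Fin 4) ℂ) {t x y z : ℂ}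
    (hy : c + d * t ≠ 0) : aeval ![α + β * t, x, y, z] (QQ α β c d P) =
      (c + d * t) ^ P.totalDegree * aeval ![t, x - 3 / (π * (c + d * t)), y, z] P := by
  have hpi : (π : ℂ) ≠ 0 := by exact_mod_cast Real.pi_ne_zero
  rw [aeval_def, aeval_def, eval₂_eq' _ _ P, QQ, eval₂_sum, Finset.mul_sum]
  refine Finset.sum_congr rfl fun m hm ↦ ?_
  have hm1 : m 1 ≤ P.totalDegree := by
    refine le_trans ?_ (le_totalDegree hm)
    rw [Finsupp.sum_fintype _ _ (by simp)]
    exact Finset.single_le_sum (f := fun l ↦ m l) (fun _ _ ↦ Nat.zero_le _) (Finset.mem_univ 1)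
  simp only [eval₂_mul, eval₂_pow, eval₂_C, eval₂_X, eval₂_sub, eval₂_add, Fin.prod_univ_four,
    Matrix.cons_val_zero, Matrix.cons_val_one, Matrix.cons_val, Algebra.algebraMap_self,
    RingHom.id_apply]
  have e1 : β⁻¹ * (α + β * t - α) = t := by field_simp; ring
  rw [e1]
  have e2 : (c + d * t) * x - 3 / (π : ℂ) = (c + d * t) * (x - 3 / (π * (c + d * t))) := by
    field_simp
  rw [e2, mul_pow]
  have e3 : (c + d * t) ^ P.totalDegree = (c + d * t) ^ m 1 * (c + d * t) ^ (P.totalDegree - m 1) := by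
    rw [← pow_add, Nat.add_sub_cancel' hm1]
  rw [e3]
  ring

theorem indep_germ {α β c d t₀ : ℂ} (hβ : β ≠ 0) (him : 0 < (α + β * t₀).im)
    (hy : c + d * t₀ ≠ 0) (P : MvPolynomial (Fin 4) ℂ)
    (h : ∀ᶠ t in 𝓝 t₀, aeval (DD α β c d t) P = 0) : P = 0 := by
  have hQ : QQ α β c d P = 0 := by
    apply indep_H
    have hana : AnalyticOnNhd ℂ (fun w ↦ aeval (![w, E2 (ofComplex w), E₄ (ofComplex w),
        E₆ (ofComplex w)] : Fin 4 → ℂ) (QQ α β c d P)) upperHalfPlaneSet := by
      intro w hw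
      refine AnalyticAt.aeval_mvPolynomial (fun i ↦ ?_) _
      fin_cases i
      · exact analyticAt_id
      · exact analytic_E2 w hw
      · exact analytic_E4 w hw
      · exact analytic_E6 w hw
    have hev : ∀ᶠ w in 𝓝 (α + β * t₀), aeval (![w, E2 (ofComplex w), E₄ (ofComplex w),
        E₆ (ofComplex w)] : Fin 4 → ℂ) (QQ α β c d P) = 0 := by
      have hcont : Filter.Tendsto (fun w : ℂ ↦ (w - α) / β) (𝓝 (α + β * t₀)) (𝓝 t₀) := by
        have h1 : Continuous fun w : ℂ ↦ (w - α) / β := by fun_prop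
        have h2 := h1.tendsto (α + β * t₀)
        have h3 : (α + β * t₀ - α) / β = t₀ := by field_simp; ring
        rwa [h3] at h2
      have hyev : ∀ᶠ t in 𝓝 t₀, c + d * t ≠ 0 := by
        have h1 : Continuous fun t : ℂ ↦ c + d * t := by fun_prop
        exact h1.continuousAt.eventually_ne hy
      filter_upwards [hcont.eventually h, hcont.eventually hyev] with w h1 h2
      have h3 : α + β * ((w - α) / β) = w := by field_simp; ring
      have h4 := eval_QQ (α := α) hβ P (x := E2 (ofComplex w)) (y := E₄ (ofComplex w))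
        (z := E₆ (ofComplex w)) h2
      rw [h3] at h4
      rw [h4]
      unfold DD at h1
      rw [h3] at h1
      rw [h1, mul_zero]
    have h0 := hana.eqOn_zero_of_preconnected_of_eventuallyEq_zero preconnected_H him hev
    intro τ
    have := h0 τ.im_pos
    simpa [ofComplex_apply] using this
  have hP : ∀ t x y z : ℂ, c + d * t ≠ 0 → aeval ![t, x, y, z] P = 0 := by
    intro t x y z ht
    have h1 := eval_QQ (α := α) hβ P (x := x + 3 / (π * (c + d * t))) (y := y) (z := z) ht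
    rw [hQ, map_zero, add_sub_cancel_right] at h1
    have h2 : (c + d * t) ^ P.totalDegree ≠ 0 := pow_ne_zero _ ht
    exact (mul_eq_zero.mp h1.symm).resolve_left h2
  have hprod : (C c + C d * X 0) * P = 0 := by
    apply MvPolynomial.funext
    intro x
    rw [map_mul, map_zero]
    by_cases hx : c + d * x 0 = 0
    · simp [hx]
    · have h1 := hP (x 0) (x 1) (x 2) (x 3) hx
      have e : ![x 0, x 1, x 2, x 3] = x := by
        ext i; fin_cases i <;> rfl
      rw [e] at h1
      have h2 : eval x P = 0 := by simpa [aeval_eq_eval] using h1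
      rw [h2, mul_zero]
  rcases mul_eq_zero.mp hprod with h1 | h1
  · exfalso
    have h2 := congrArg (eval fun _ ↦ t₀) h1
    simp at h2
    exact hy h2
  · exact h1

end H32
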