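import Mathlib

/-!
# Functions on the upper half-plane with integral q-expansions
-/

open UpperHalfPlane hiding I
open Complex EisensteinSeries ModularForm MatrixGroups
open scoped Real

namespace H32

/-- The nome. -/
noncomputable def qq (τ : ℍ) : ℂ := Function.Periodic.qParam 1 (τ : ℂ)

lemma qq_eq (τ : ℍ) : qq τ = Complex.exp (2 * π * I * τ) := by
  simp [qq, Function.Periodic.qParam]

lemma norm_qq_lt (τ : ℍ) : ‖qq τ‖ < 1 := Function.Periodic.norm_qParam_lt_one one_pos τ.im_pos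

/-- `f` has a convergent `q`-expansion with integral coefficients. -/
def IntQ (f : ℍ → ℂ) : Prop :=
  ∃ c : ℕ → ℤ, ∀ τ : ℍ, HasSum (fun m : ℕ ↦ (c m : ℂ) * qq τ ^ m) (f τ)

lemma IntQ.const (n : ℤ) : IntQ (fun _ ↦ (n : ℂ)) := by
  refine ⟨fun m ↦ if m = 0 then n else 0, fun τ ↦ ?_⟩
  convert hasSum_ite_eq 0 (n : ℂ) using 2 with m
  split_ifs with h <;> simp [h]

lemma IntQ.add {f g : ℍ → ℂ} (hf : IntQ f) (hg : IntQ g) : IntQ (fun τ ↦ f τ + g τ) := by
  obtain ⟨a, ha⟩ := hf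
  obtain ⟨b, hb⟩ := hg
  refine ⟨fun m ↦ a m + b m, fun τ ↦ ?_⟩
  convert (ha τ).add (hb τ) using 2 with m
  push_cast; ring

lemma IntQ.mul {f g : ℍ → ℂ} (hf : IntQ f) (hg : IntQ g) : IntQ (fun τ ↦ f τ * g τ) := by
  obtain ⟨a, ha⟩ := hf
  obtain ⟨b, hb⟩ := hg
  refine ⟨fun m ↦ ∑ p ∈ Finset.HasAntidiagonal.antidiagonal m, a p.1 * b p.2, fun τ ↦ ?_⟩
  have h1 := (ha τ).summable.norm
  have h2 := (hb τ).summable.norm
  have h3 := summable_norm_sum_mul_antidiagonal_of_summable_norm h1 h2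
  have h4 := tsum_mul_tsum_eq_tsum_sum_antidiagonal_of_summable_norm h1 h2
  rw [(ha τ).tsum_eq, (hb τ).tsum_eq] at h4
  change HasSum _ (f τ * g τ)
  rw [h4]
  have h5 := h3.of_norm.hasSum
  refine h5.congr_fun fun m ↦ ?_
  push_cast
  rw [Finset.sum_mul]
  refine Finset.sum_congr rfl fun p hp ↦ ?_
  rw [← (Finset.HasAntidiagonal.mem_antidiagonal.mp hp), pow_add]
  ring

lemma IntQ.const_mul {f : ℍ → ℂ} (n : ℤ) (hf : IntQ f) : IntQ (fun τ ↦ (n : ℂ) * f τ) :=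
  (IntQ.const n).mul hf

lemma IntQ.sub {f g : ℍ → ℂ} (hf : IntQ f) (hg : IntQ g) : IntQ (fun τ ↦ f τ - g τ) := by
  have := hf.add (hg.const_mul (-1))
  simpa [sub_eq_add_neg] using this

lemma IntQ.pow {f : ℍ → ℂ} (hf : IntQ f) (n : ℕ) : IntQ (fun τ ↦ f τ ^ n) := by
  induction n with
  | zero => simpa using IntQ.const 1
  | succ n ih => simpa [pow_succ] using ih.mul hf

lemma IntQ.sum {ι : Type*} {s : Finset ι} {f : ι → ℍ → ℂ} (hf : ∀ i ∈ s, IntQ (f i)) :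
    IntQ (fun τ ↦ ∑ i ∈ s, f i τ) := by
  classical
  induction s using Finset.induction_on with
  | empty => simpa using IntQ.const 0
  | insert i t hi ih =>
    simp only [Finset.sum_insert hi]
    exact (hf i (Finset.mem_insert_self _ _)).add
      (ih fun j hj ↦ hf j (Finset.mem_insert_of_mem hj))

lemma IntQ_E2 : IntQ EisensteinSeries.E2 := by
  refine ⟨fun m ↦ if m = 0 then 1 else -24 * (ArithmeticFunction.sigma 1 m : ℤ), fun τ ↦ ?_⟩
  have := EisensteinSeries.hasSum_qExpansion_E2 (z := τ)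
  convert this using 2 with m
  rw [qq_eq]
  by_cases h : m = 0 <;> simp [h]

lemma hasSum_E4 (τ : ℍ) : HasSum (fun m : ℕ ↦
    (((if m = 0 then 1 else 240 * (ArithmeticFunction.sigma 3 m : ℤ)) : ℤ) : ℂ) * qq τ ^ m)
      (E₄ τ) := by
  have h := ModularForm.hasSum_qExpansion (E₄) one_pos one_mem_strictPeriods_SL τ
  convert h using 2 with m
  rw [E_qExpansion_coeff _ ⟨2, rfl⟩, show bernoulli 4 = -1 / 30 by decide +kernel]
  congr 1
  split_ifs with h <;> norm_num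

lemma hasSum_E6 (τ : ℍ) : HasSum (fun m : ℕ ↦
    (((if m = 0 then 1 else -504 * (ArithmeticFunction.sigma 5 m : ℤ)) : ℤ) : ℂ) * qq τ ^ m)
      (E₆ τ) := by
  have h := ModularForm.hasSum_qExpansion (E₆) one_pos one_mem_strictPeriods_SL τ
  convert h using 2 with m
  rw [E_qExpansion_coeff _ ⟨3, rfl⟩, show bernoulli 6 = 1 / 42 by decide +kernel]
  congr 1
  split_ifs with h <;> norm_num

lemma IntQ_E4 : IntQ (fun τ ↦ E₄ τ) := ⟨_, hasSum_E4⟩

lemma IntQ_E6 : IntQ (fun τ ↦ E₆ τ) := ⟨_, hasSum_E6⟩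

end H32
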