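import Pool.Agent.H32.FT2

/-!
# Good directions
-/

open Complex Filter Metric
open scoped Topology Real

namespace H32

/-- The real alternating form `Im (x conj y)`. -/
noncomputable def om (x y : ℂ) : ℝ := x.im * y.re - x.re * y.im

lemma om_real_mul (l μ : ℝ) (x y : ℂ) : om (l * x) (μ * y) = l * μ * om x y := by
  simp [om]; ring

lemma om_self (x : ℂ) : om x x = 0 := by simp [om]; ring

lemma om_swap (x y : ℂ) : om x y = -om y x := by simp [om]; ring

lemma om_zero_line {x y : ℂ} (h : om x y = 0) :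
    ∃ (e : ℂ) (l μ : ℝ), x = l * e ∧ y = μ * e := by
  by_cases hx : x = 0
  · exact ⟨y, 0, 1, by simp [hx], by simp⟩
  · refine ⟨x, 1, (y.re * x.re + y.im * x.im) / Complex.normSq x, by simp, ?_⟩
    have hn : Complex.normSq x ≠ 0 := (Complex.normSq_pos.mpr hx).ne'
    have h' : x.im * y.re - x.re * y.im = 0 := h
    apply Complex.ext
    · rw [Complex.mul_re, Complex.ofReal_re, Complex.ofReal_im, zero_mul, sub_zero]
      field_simp
      rw [Complex.normSq_apply]
      linear_combination x.im * h'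
    · rw [Complex.mul_im, Complex.ofReal_re, Complex.ofReal_im, zero_mul, add_zero]
      field_simp
      rw [Complex.normSq_apply]
      linear_combination (-x.re) * h'

/-- A complex matrix which maps reals to reals is a multiple of a real matrix. -/
lemma real_matrix {p q r s : ℂ} (hdet : p * s - q * r ≠ 0) (h1 : om p r = 0) (h2 : om q s = 0)
    (h3 : om p s + om q r = 0) : ∃ (e : ℂ) (a b c d : ℝ), p = a * e ∧ q = b * e ∧ r = c * e ∧
      s = d * e := by
  obtain ⟨e, l1, l2, hp, hr⟩ := om_zero_line h1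
  obtain ⟨f, l3, l4, hq, hs⟩ := om_zero_line h2
  have h4 : (l1 * l4 - l3 * l2) * om e f = 0 := by
    rw [hp, hq, hr, hs, om_real_mul, om_real_mul, om_swap f e] at h3
    linear_combination h3
  have h5 : l1 * l4 - l3 * l2 ≠ 0 := by
    intro h
    apply hdet
    rw [hp, hq, hr, hs]
    have h' : (l1 : ℂ) * l4 - l3 * l2 = 0 := by exact_mod_cast congrArg (Complex.ofReal) h
    linear_combination e * f * h'
  have h6 : om e f = 0 := (mul_eq_zero.mp h4).resolve_left h5
  obtain ⟨u, m1, m2, he, hf⟩ := om_zero_line h6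
  refine ⟨u, l1 * m1, l3 * m2, l2 * m1, l4 * m2, ?_, ?_, ?_, ?_⟩
  · rw [hp, he]; push_cast; ring
  · rw [hq, hf]; push_cast; ring
  · rw [hr, he]; push_cast; ring
  · rw [hs, hf]; push_cast; ring

/-- The four entries of `M₁ adj(M₂)`. -/
noncomputable def QQ4 (a b c d a' b' c' d' : ℂ) : Fin 4 → ℂ :=
  ![a * d' - b * c', b * a' - a * b', c * d' - d * c', d * a' - c * b']

lemma finite_pair {a b c d a' b' c' d' : ℂ} (h1 : a * d - b * c ≠ 0) (h2 : a' * d' - b' * c' ≠ 0)
    (h : ∃ k l, om (QQ4 a b c d a' b' c' d' k) (QQ4 a b c d a' b' c' d' l) ≠ 0) :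
    {ζ : ℂ | c * ζ + d ≠ 0 ∧ c' * ζ + d' ≠ 0 ∧ ((a * ζ + b) / (c * ζ + d)).im = 0 ∧
      ((a' * ζ + b') / (c' * ζ + d')).im = 0}.Finite := by
  set p : ℂ := a * d' - b * c' with hp
  set q : ℂ := b * a' - a * b' with hq
  set r : ℂ := c * d' - d * c' with hr
  set s : ℂ := d * a' - c * b' with hs
  set P : Polynomial ℝ := Polynomial.C (om p r) * Polynomial.X ^ 2 +
    Polynomial.C (om p s + om q r) * Polynomial.X + Polynomial.C (om q s) with hP
  have hPne : P ≠ 0 := by
    intro h0
    have c0 : om q s = 0 := by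
      have := congrArg (fun f ↦ Polynomial.coeff f 0) h0
      simpa [hP, Polynomial.coeff_X, Polynomial.coeff_C] using this
    have c1 : om p s + om q r = 0 := by
      have := congrArg (fun f ↦ Polynomial.coeff f 1) h0
      simpa [hP, Polynomial.coeff_X, Polynomial.coeff_C] using this
    have c2 : om p r = 0 := by
      have := congrArg (fun f ↦ Polynomial.coeff f 2) h0
      simpa [hP, Polynomial.coeff_X, Polynomial.coeff_C] using this
    have hdet : p * s - q * r ≠ 0 := by
      have : p * s - q * r = (a * d - b * c) * (a' * d' - b' * c') := by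
        rw [hp, hq, hr, hs]; ring
      rw [this]
      exact mul_ne_zero h1 h2
    obtain ⟨e, x1, x2, x3, x4, e1, e2, e3, e4⟩ := real_matrix hdet c2 c0 c1
    obtain ⟨k, l, hkl⟩ := h
    apply hkl
    have hx : ∃ x : Fin 4 → ℝ, ∀ k, QQ4 a b c d a' b' c' d' k = x k * e := by
      refine ⟨![x1, x2, x3, x4], fun k ↦ ?_⟩
      fin_cases k
      · exact e1
      · exact e2
      · exact e3
      · exact e4
    obtain ⟨x, hx⟩ := hx
    rw [hx, hx, om_real_mul, om_self, mul_zero]
  have hroots : {x : ℝ | P.IsRoot x}.Finite := Polynomial.finite_setOfPred_isRoot hPne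
  refine (hroots.image (fun x : ℝ ↦ (d' * x - b') / (a' - c' * x))).subset ?_
  rintro ζ ⟨hζ1, hζ2, hζ3, hζ4⟩
  set x : ℝ := ((a' * ζ + b') / (c' * ζ + d')).re with hx
  have hxe : (a' * ζ + b') / (c' * ζ + d') = x := by
    apply Complex.ext
    · simp [hx]
    · simpa using hζ4
  have hxe' : a' * ζ + b' = x * (c' * ζ + d') := (div_eq_iff hζ2).mp hxe
  set y : ℝ := ((a * ζ + b) / (c * ζ + d)).re with hy
  have hye : (a * ζ + b) / (c * ζ + d) = y := by
    apply Complex.ext
    · simp [hy]
    · simpa using hζ3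
  have hye' : a * ζ + b = y * (c * ζ + d) := (div_eq_iff hζ1).mp hye
  have hdd : a' - c' * x ≠ 0 := by
    intro h0
    apply h2
    have h3 : a' = c' * x := by linear_combination h0
    have h4 : b' = d' * x := by rw [h3] at hxe'; linear_combination hxe'
    rw [h3, h4]; ring
  refine ⟨x, ?_, ?_⟩
  · -- the relation
    have e1 : (c' * ζ + d') * (p * x + q) = (a' * d' - b' * c') * (a * ζ + b) := by
      rw [hp, hq]
      linear_combination (-(a * d' - b * c')) * hxe'
    have e2 : (c' * ζ + d') * (r * x + s) = (a' * d' - b' * c') * (c * ζ + d) := by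
      rw [hr, hs]
      linear_combination (-(c * d' - d * c')) * hxe'
    have e3 : p * x + q = y * (r * x + s) := by
      have : (c' * ζ + d') * (p * x + q - y * (r * x + s)) = 0 := by
        have h5 := e1
        have h6 := e2
        linear_combination h5 - y * h6 + (a' * d' - b' * c') * hye'
      have h7 := (mul_eq_zero.mp this).resolve_left hζ2
      linear_combination h7
    have e4 : om (p * x + q) (r * x + s) = 0 := by
      rw [e3]
      have := om_real_mul y 1 (r * x + s) (r * x + s)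
      rw [om_self, mul_zero] at this
      simpa using this
    have e5 : P.eval x = om (p * x + q) (r * x + s) := by
      rw [hP]
      simp only [Polynomial.eval_add, Polynomial.eval_mul, Polynomial.eval_C, Polynomial.eval_pow,
        Polynomial.eval_X, om, Complex.add_re, Complex.add_im, Complex.mul_re, Complex.mul_im,
        Complex.ofReal_re, Complex.ofReal_im]
      ring
    change P.eval x = 0
    rw [e5, e4]
  · simp only
    rw [div_eq_iff hdd]
    linear_combination (-1) * hxe'

section dense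

variable {E : Type*} [NormedAddCommGroup E] [NormedSpace ℝ E]

lemma dense_of_line {S : Set E} (v₀ : E) (h : ∀ v : E, {x : ℝ | v + x • (v₀ - v) ∉ S}.Finite) :
    Dense S := by
  intro v
  have h1 : Dense {x : ℝ | v + x • (v₀ - v) ∉ S}ᶜ := (h v).countable.dense_compl ℝ
  have h2 : Continuous fun x : ℝ ↦ v + x • (v₀ - v) := by fun_prop
  have h3 := map_mem_closure h2 (h1 0) (t := S) (fun x hx ↦ by
    by_contra hcon
    exact hx hcon)
  simpa using h3

end dense

variable {m n : ℕ}

lemma lin_line (α : Fin (m + 1) → ℂ) (v w : Fin m → ℂ) (x : ℂ) :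
    lin α (v + x • w) = lin α v + x * lin α w := by
  unfold lin
  rw [Finset.mul_sum, ← Finset.sum_add_distrib]
  refine Finset.sum_congr rfl fun k _ ↦ ?_
  simp only [Pi.add_apply, Pi.smul_apply, smul_eq_mul]
  ring

lemma continuous_lin (α : Fin (m + 1) → ℂ) : Continuous (lin α) := by
  unfold lin
  fun_prop

lemma continuous_lf (α : Fin (m + 1) → ℂ) : Continuous (lf α) := by
  unfold lf
  exact continuous_const.add (continuous_lin α)

/-- The determinant attached to a direction. -/
noncomputable def dt (α β : Fin (m + 1) → ℂ) (t v : Fin m → ℂ) : ℂ :=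
  lin α v * lf β t - lf α t * lin β v

lemma dt_line (α β : Fin (m + 1) → ℂ) (t v w : Fin m → ℂ) (x : ℂ) :
    dt α β t (v + x • w) = dt α β t v + x * dt α β t w := by
  unfold dt
  rw [lin_line, lin_line]
  ring

lemma dt_real_line (α β : Fin (m + 1) → ℂ) (t v w : Fin m → ℂ) (x : ℝ) :
    dt α β t (v + x • w) = dt α β t v + x * dt α β t w := by
  have : (v + x • w : Fin m → ℂ) = v + (x : ℂ) • w := by
    ext k; simp
  rw [this, dt_line]

lemma continuous_dt (α β : Fin (m + 1) → ℂ) (t : Fin m → ℂ) : Continuous (dt α β t) := by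
  unfold dt
  exact ((continuous_lin α).mul continuous_const).sub (continuous_const.mul (continuous_lin β))

lemma dense_dt {α β : Fin (m + 1) → ℂ} {t : Fin m → ℂ} (h : ∃ v, dt α β t v ≠ 0) :
    Dense {v | dt α β t v ≠ 0} := by
  obtain ⟨v₀, hv₀⟩ := h
  refine dense_of_line v₀ fun v ↦ ?_
  have h1 : {x : ℝ | v + x • (v₀ - v) ∉ {v | dt α β t v ≠ 0}} ⊆
      {x : ℝ | (Polynomial.C (dt α β t v) + Polynomial.C (dt α β t (v₀ - v)) *
        Polynomial.X : Polynomial ℂ).IsRoot (x : ℂ)} := by
    intro x hx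
    simp only [Set.mem_ofPred_eq, not_not] at hx
    rw [dt_real_line] at hx
    simp only [Set.mem_ofPred_eq, Polynomial.IsRoot, Polynomial.eval_add, Polynomial.eval_C,
      Polynomial.eval_mul, Polynomial.eval_X]
    linear_combination hx
  have hne : (Polynomial.C (dt α β t v) + Polynomial.C (dt α β t (v₀ - v)) *
        Polynomial.X : Polynomial ℂ) ≠ 0 := by
    intro h0
    apply hv₀
    have h2 := congrArg (Polynomial.eval 1) h0
    simp only [Polynomial.eval_add, Polynomial.eval_C, Polynomial.eval_mul, Polynomial.eval_X,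
      mul_one, Polynomial.eval_zero] at h2
    have h3 := dt_line α β t v (v₀ - v) 1
    rw [one_smul, one_mul, add_sub_cancel] at h3
    rw [h3]; exact h2
  have h4 := (Polynomial.finite_setOfPred_isRoot hne).preimage
    (f := (fun x : ℝ ↦ (x : ℂ))) (Complex.ofReal_injective.injOn)
  exact h4.subset h1

/-- The four linear forms attached to a pair. -/
noncomputable def Qv (α β α' β' : Fin (m + 1) → ℂ) (t v : Fin m → ℂ) : Fin 4 → ℂ :=
  QQ4 (lin α v) (lf α t) (lin β v) (lf β t) (lin α' v) (lf α' t) (lin β' v) (lf β' t)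

lemma Qv_line (α β α' β' : Fin (m + 1) → ℂ) (t v w : Fin m → ℂ) (x : ℂ) (k : Fin 4) :
    Qv α β α' β' t (v + x • w) k = Qv α β α' β' t v k + x * Qv α β α' β' t w k := by
  unfold Qv QQ4
  rw [lin_line, lin_line, lin_line, lin_line]
  fin_cases k
  · simp; ring
  · simp; ring
  · simp; ring
  · simp; ring

lemma Qv_real_line (α β α' β' : Fin (m + 1) → ℂ) (t v w : Fin m → ℂ) (x : ℝ) (k : Fin 4) :
    Qv α β α' β' t (v + x • w) k = Qv α β α' β' t v k + x * Qv α β α' β' t w k := by
  have : (v + x • w : Fin m → ℂ) = v + (x : ℂ) • w := by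
    ext k; simp
  rw [this, Qv_line]

lemma continuous_Qv (α β α' β' : Fin (m + 1) → ℂ) (t : Fin m → ℂ) (k : Fin 4) :
    Continuous fun v ↦ Qv α β α' β' t v k := by
  have h1 := continuous_lin α
  have h2 := continuous_lin β
  have h3 := continuous_lin α'
  have h4 := continuous_lin β'
  unfold Qv QQ4
  fin_cases k
  · simp; fun_prop
  · simp; fun_prop
  · simp; fun_prop
  · simp; fun_prop

lemma dense_Qv {α β α' β' : Fin (m + 1) → ℂ} {t : Fin m → ℂ}
    (h : ∃ v k l, om (Qv α β α' β' t v k) (Qv α β α' β' t v l) ≠ 0) :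
    Dense {v | ∃ k l, om (Qv α β α' β' t v k) (Qv α β α' β' t v l) ≠ 0} := by
  obtain ⟨v₀, k, l, hv₀⟩ := h
  refine dense_of_line v₀ fun v ↦ ?_
  set a := Qv α β α' β' t v k
  set b := Qv α β α' β' t v l
  set a' := Qv α β α' β' t (v₀ - v) k
  set b' := Qv α β α' β' t (v₀ - v) l
  set P : Polynomial ℝ := Polynomial.C (om a b) + Polynomial.C (om a' b + om a b') * Polynomial.X +
    Polynomial.C (om a' b') * Polynomial.X ^ 2 with hP
  have hPev : ∀ x : ℝ, P.eval x = om (a + x * a') (b + x * b') := by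
    intro x
    rw [hP]
    simp only [Polynomial.eval_add, Polynomial.eval_mul, Polynomial.eval_C, Polynomial.eval_pow,
      Polynomial.eval_X, om, Complex.add_re, Complex.add_im, Complex.mul_re, Complex.mul_im,
      Complex.ofReal_re, Complex.ofReal_im]
    ring
  have hne : P ≠ 0 := by
    intro h0
    apply hv₀
    have h2 := hPev 1
    rw [h0, Polynomial.eval_zero] at h2
    have h3 := Qv_line α β α' β' t v (v₀ - v) 1 k
    have h4 := Qv_line α β α' β' t v (v₀ - v) 1 l
    rw [one_smul, one_mul, add_sub_cancel] at h3 h4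
    rw [h3, h4]
    simpa using h2.symm
  refine (Polynomial.finite_setOfPred_isRoot hne).subset ?_
  intro x hx
  simp only [Set.mem_ofPred_eq, not_exists, not_not] at hx
  have h1 := hx k l
  rw [Qv_real_line, Qv_real_line] at h1
  change P.eval x = 0
  rw [hPev]
  exact h1

theorem dense_good (A B : Fin n → Fin (m + 1) → ℂ) (t : Fin m → ℂ)
    (h1 : ∀ j, ∃ v, dt (A j) (B j) t v ≠ 0)
    (h2 : ∀ i j, i ≠ j → ∃ v k l, om (Qv (A i) (B i) (A j) (B j) t v k)
      (Qv (A i) (B i) (A j) (B j) t v l) ≠ 0) :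
    Dense {v : Fin m → ℂ | (∀ j, lin (A j) v * lf (B j) t - lf (A j) t * lin (B j) v ≠ 0) ∧
      ∀ i j, i ≠ j → PairGood (A i) (B i) (A j) (B j) t v} := by
  set S1 : Fin n → Set (Fin m → ℂ) := fun j ↦ {v | dt (A j) (B j) t v ≠ 0} with hS1
  set S2 : {x : Fin n × Fin n // x.1 ≠ x.2} → Set (Fin m → ℂ) := fun x ↦
    {v | ∃ k l, om (Qv (A x.1.1) (B x.1.1) (A x.1.2) (B x.1.2) t v k)
      (Qv (A x.1.1) (B x.1.1) (A x.1.2) (B x.1.2) t v l) ≠ 0} with hS2
  have hd1 : Dense (⋂ j, S1 j) := dense_iInter_of_isOpen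
    (fun j ↦ isOpen_ne_fun (continuous_dt _ _ _) continuous_const) fun j ↦ dense_dt (h1 j)
  have ho1 : IsOpen (⋂ j, S1 j) := isOpen_iInter_of_finite
    fun j ↦ isOpen_ne_fun (continuous_dt _ _ _) continuous_const
  have hd2 : Dense (⋂ x, S2 x) := by
    refine dense_iInter_of_isOpen (fun x ↦ ?_) fun x ↦ dense_Qv (h2 _ _ x.2)
    have : S2 x = ⋃ k, ⋃ l, {v | om (Qv (A x.1.1) (B x.1.1) (A x.1.2) (B x.1.2) t v k)
      (Qv (A x.1.1) (B x.1.1) (A x.1.2) (B x.1.2) t v l) ≠ 0} := by
      ext v; simp [hS2]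
    rw [this]
    refine isOpen_iUnion fun k ↦ isOpen_iUnion fun l ↦ isOpen_ne_fun ?_ continuous_const
    have hk := continuous_Qv (A x.1.1) (B x.1.1) (A x.1.2) (B x.1.2) t k
    have hl := continuous_Qv (A x.1.1) (B x.1.1) (A x.1.2) (B x.1.2) t l
    unfold om
    exact ((Complex.continuous_im.comp hk).mul (Complex.continuous_re.comp hl)).sub
      ((Complex.continuous_re.comp hk).mul (Complex.continuous_im.comp hl))
  have hd : Dense ((⋂ j, S1 j) ∩ ⋂ x, S2 x) := hd1.inter_of_isOpen_left hd2 ho1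
  refine hd.mono ?_
  rintro v ⟨hv1, hv2⟩
  rw [Set.mem_iInter] at hv1 hv2
  refine ⟨fun j ↦ hv1 j, fun i j hij ↦ ?_⟩
  have h3 := hv2 ⟨(i, j), hij⟩
  exact finite_pair (hv1 i) (hv1 j) h3

end H32
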