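import Pool.Agent.H32.HeckeI

/-!
# Ramanujan's formulas for the derivatives of E4 and E6
-/

open UpperHalfPlane hiding I
open Complex EisensteinSeries ModularForm MatrixGroups Manifold
open scoped Real Topology
open Derivative

namespace H32

/-- Integral `q`-expansion with prescribed constant term. -/
def IntQv (v : ℤ) (f : ℍ → ℂ) : Prop :=
  ∃ c : ℕ → ℤ, c 0 = v ∧ ∀ τ : ℍ, HasSum (fun m : ℕ ↦ (c m : ℂ) * qq τ ^ m) (f τ)

lemma IntQv.intQ {v : ℤ} {f : ℍ → ℂ} (h : IntQv v f) : IntQ f := by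
  obtain ⟨c, -, hc⟩ := h
  exact ⟨c, hc⟩

lemma IntQv.add {v w : ℤ} {f g : ℍ → ℂ} (hf : IntQv v f) (hg : IntQv w g) :
    IntQv (v + w) (fun τ ↦ f τ + g τ) := by
  obtain ⟨a, ha0, ha⟩ := hf
  obtain ⟨b, hb0, hb⟩ := hg
  refine ⟨fun m ↦ a m + b m, by simp [ha0, hb0], fun τ ↦ ?_⟩
  convert (ha τ).add (hb τ) using 2 with m
  push_cast; ring

lemma IntQv.mul {v w : ℤ} {f g : ℍ → ℂ} (hf : IntQv v f) (hg : IntQv w g) :
    IntQv (v * w) (fun τ ↦ f τ * g τ) := by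
  obtain ⟨a, ha0, ha⟩ := hf
  obtain ⟨b, hb0, hb⟩ := hg
  refine ⟨fun m ↦ ∑ p ∈ Finset.HasAntidiagonal.antidiagonal m, a p.1 * b p.2,
    by simp [ha0, hb0], fun τ ↦ ?_⟩
  have h1 := (ha τ).summable.norm
  have h2 := (hb τ).summable.norm
  have h3 := summable_norm_sum_mul_antidiagonal_of_summable_norm h1 h2
  have h4 := tsum_mul_tsum_eq_tsum_sum_antidiagonal_of_summable_norm h1 h2
  rw [(ha τ).tsum_eq, (hb τ).tsum_eq] at h4
  change HasSum _ (f τ * g τ)
  rw [h4]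
  have h5 := h3.of_norm.hasSum
  refine h5.congr_fun fun m ↦ ?_
  push_cast
  rw [Finset.sum_mul]
  refine Finset.sum_congr rfl fun p hp ↦ ?_
  rw [← (Finset.HasAntidiagonal.mem_antidiagonal.mp hp), pow_add]
  ring

lemma IntQv.const_mul {v : ℤ} {f : ℍ → ℂ} (n : ℤ) (hf : IntQv v f) :
    IntQv (n * v) (fun τ ↦ (n : ℂ) * f τ) := by
  obtain ⟨a, ha0, ha⟩ := hf
  refine ⟨fun m ↦ n * a m, by simp [ha0], fun τ ↦ ?_⟩
  refine ((ha τ).mul_left (n : ℂ)).congr_fun fun m ↦ ?_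
  push_cast; ring

lemma IntQ.D {f : ℍ → ℂ} (hf : IntQ f) : IntQv 0 (normalizedDerivOfComplex f) := by
  obtain ⟨c, hc⟩ := hf
  refine ⟨fun m ↦ m * c m, by simp, fun τ ↦ ?_⟩
  have hz' : 0 < (τ : ℂ).im := τ.im_pos
  set y : ℝ := (τ : ℂ).im / 2 with hy
  have hy0 : 0 < y := by positivity
  set U : Set ℂ := {w | y < w.im} with hU
  have hUo : IsOpen U := isOpen_lt continuous_const Complex.continuous_im
  have hzU : (τ : ℂ) ∈ U := by change y < (τ : ℂ).im; linarith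
  set τ₀ : ℍ := ⟨(y : ℂ) * I, by simpa using hy0⟩ with hτ₀
  have h0 : ‖qq τ₀‖ = Real.exp (-2 * π * y) := by
    rw [qq_eq, Complex.norm_exp]
    congr 1
    simp [hτ₀, UpperHalfPlane.coe_mk]
  have hs : Summable fun m ↦ ‖(c m : ℂ)‖ * Real.exp (-2 * π * y) ^ m := by
    have := (hc τ₀).summable.norm
    simpa [norm_mul, norm_pow, h0] using this
  have hd := hasSum_deriv_of_summable_norm (F := fun (m : ℕ) (w : ℂ) ↦
    (c m : ℂ) * Complex.exp (2 * π * I * w) ^ m) hs (fun m ↦ by fun_prop) hUo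
    (fun m w hw ↦ by
      rw [norm_mul, norm_pow]
      gcongr
      rw [Complex.norm_exp]
      apply Real.exp_le_exp.mpr
      have hw' : y < w.im := hw
      have : (2 * π * I * w).re = -2 * π * w.im := by simp
      rw [this]
      nlinarith [Real.pi_pos]) hzU
  have heq : (f ∘ UpperHalfPlane.ofComplex) =ᶠ[𝓝 (τ : ℂ)] fun w ↦
      ∑' m, (c m : ℂ) * Complex.exp (2 * π * I * w) ^ m := by
    filter_upwards [hUo.mem_nhds hzU] with w hw
    have hw' : 0 < w.im := lt_trans hy0 hw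
    have := (hc ⟨w, hw'⟩).tsum_eq
    rw [Function.comp_apply, UpperHalfPlane.ofComplex_apply_of_im_pos hw', ← this]
    simp [qq_eq]
  rw [← heq.deriv_eq] at hd
  have hpi : (2 * π * I : ℂ) ≠ 0 := by
    have : (π : ℂ) ≠ 0 := by exact_mod_cast Real.pi_ne_zero
    simp [this]
  have h5 := hd.mul_left (2 * π * I : ℂ)⁻¹
  refine h5.congr_fun fun m ↦ ?_
  have hder : HasDerivAt (fun w : ℂ ↦ (c m : ℂ) * Complex.exp (2 * π * I * w) ^ m)
      ((c m : ℂ) * (m * Complex.exp (2 * π * I * τ) ^ (m - 1) *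
        (Complex.exp (2 * π * I * τ) * (2 * π * I)))) (τ : ℂ) := by
    have h6 : HasDerivAt (fun w : ℂ ↦ 2 * π * I * w) (2 * π * I) (τ : ℂ) := by
      simpa using (hasDerivAt_id (τ : ℂ)).const_mul (2 * π * I)
    exact ((h6.cexp.pow m).const_mul _)
  rw [hder.deriv, qq_eq]
  push_cast
  rcases Nat.eq_zero_or_pos m with rfl | hm
  · simp
  · have e : Complex.exp (2 * π * I * τ) ^ m =
        Complex.exp (2 * π * I * τ) ^ (m - 1) * Complex.exp (2 * π * I * τ) := by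
      rw [← pow_succ, Nat.sub_add_cancel hm]
    rw [e]
    field_simp

lemma eq_zero_of_low_weight {f : ℍ → ℂ} {k : ℕ} (hf : IntQv 0 f) (hk : WInv f k) (hk12 : k < 12)
    (τ : ℍ) : f τ = 0 := by
  obtain ⟨F, hF⟩ := exists_modForm hf.intQ hk
  obtain ⟨c, hc0, hc⟩ := hf
  have h1 := ModularFormClass.qExpansion_coeff_unique (f := F) (c := fun m ↦ (c m : ℂ)) one_pos
    one_mem_strictPeriods_SL (fun τ ↦ by rw [hF]; simpa [qq] using hc τ) 0
  have h2 : F = 0 := by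
    apply ModularForm.sturm_bound_levelOne_nat
    have : k / 12 = 0 := by omega
    rw [this]
    have h3 : (qExpansion 1 F).coeff 0 = 0 := by
      rw [← h1]; simp [hc0]
    have h4 := PowerSeries.nat_le_order (qExpansion 1 F) 1 (fun i hi ↦ by
      have : i = 0 := by omega
      rw [this]; exact h3)
    exact lt_of_lt_of_le (by norm_num) h4
  rw [← hF, h2]
  rfl

lemma WInv_of_slash {f : ℍ → ℂ} {k : ℕ} (h : ∀ γ : SL(2, ℤ), f ∣[(k : ℤ)] γ = f) :
    WInv f k := by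
  intro γ τ
  have h1 := congrFun (h γ) τ
  rw [ModularForm.SL_slash_apply] at h1
  have hd : denom (γ : GL (Fin 2) ℝ) τ ≠ 0 := denom_ne_zero _ τ
  rw [← h1, zpow_neg, zpow_natCast]
  field_simp

lemma WInv.add {f g : ℍ → ℂ} {k : ℕ} (hf : WInv f k) (hg : WInv g k) :
    WInv (fun τ ↦ f τ + g τ) k := by
  intro γ τ
  simp only [hf γ τ, hg γ τ]
  ring

lemma IntQv_E2 : IntQv 1 E2 := by
  refine ⟨fun m ↦ if m = 0 then 1 else -24 * (ArithmeticFunction.sigma 1 m : ℤ), by simp,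
    fun τ ↦ ?_⟩
  have := EisensteinSeries.hasSum_qExpansion_E2 (z := τ)
  convert this using 2 with m
  rw [qq_eq]
  by_cases h : m = 0 <;> simp [h]

lemma IntQv_E4 : IntQv 1 (fun τ ↦ E₄ τ) := ⟨_, by simp, hasSum_E4⟩

lemma IntQv_E6 : IntQv 1 (fun τ ↦ E₆ τ) := ⟨_, by simp, hasSum_E6⟩

lemma D_E4 (τ : ℍ) : normalizedDerivOfComplex (fun τ ↦ E₄ τ) τ = (E2 τ * E₄ τ - E₆ τ) / 3 := by
  have hm : MDiff (fun τ : ℍ ↦ E₄ τ) := IntQ_E4'.mdiff
  have h1 : IntQv (3 * 0 + (-1 * (1 * 1) + 1)) (fun τ ↦ ((3 : ℤ) : ℂ) *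
      normalizedDerivOfComplex (fun τ ↦ E₄ τ) τ + (((-1 : ℤ) : ℂ) * (E2 τ * E₄ τ) + E₆ τ)) :=
    ((IntQ_E4'.D).const_mul 3).add (((IntQv_E2.mul IntQv_E4).const_mul (-1)).add IntQv_E6)
  have h2 : WInv (fun τ ↦ ((3 : ℤ) : ℂ) *
      normalizedDerivOfComplex (fun τ ↦ E₄ τ) τ + (((-1 : ℤ) : ℂ) * (E2 τ * E₄ τ) + E₆ τ)) 6 := by
    have h3 : WInv (serreDerivative 4 (fun τ ↦ E₄ τ)) 6 := by
      apply WInv_of_slash
      intro γ
      have h4 := serreDerivative_slash_invariant (k := 4) (F := fun τ ↦ E₄ τ) hm (γ := γ) (by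
        ext τ
        rw [ModularForm.SL_slash_apply]
        have := WInv_E4 γ τ
        simp only at this
        rw [this]
        have hd : denom (γ : GL (Fin 2) ℝ) τ ≠ 0 := denom_ne_zero _ τ
        rw [zpow_neg]
        have e : denom (γ : GL (Fin 2) ℝ) τ ^ (4 : ℤ) = denom (γ : GL (Fin 2) ℝ) τ ^ 4 := by
          norm_cast
        rw [e]
        field_simp)
      exact_mod_cast h4
    intro γ τ
    have h5 := h3 γ τ
    have h6 := WInv_E6 γ τ
    simp only [serreDerivative_apply] at h5 h6 ⊢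
    rw [h6]
    push_cast
    linear_combination 3 * h5
  have h3 := eq_zero_of_low_weight (by simpa using h1) h2 (by norm_num) τ
  push_cast at h3
  linear_combination h3 / 3

lemma D_E6 (τ : ℍ) : normalizedDerivOfComplex (fun τ ↦ E₆ τ) τ = (E2 τ * E₆ τ - E₄ τ ^ 2) / 2 := by
  have hm : MDiff (fun τ : ℍ ↦ E₆ τ) := IntQ_E6'.mdiff
  have h1 : IntQv (2 * 0 + (-1 * (1 * 1) + 1 * 1)) (fun τ ↦ ((2 : ℤ) : ℂ) *
      normalizedDerivOfComplex (fun τ ↦ E₆ τ) τ + (((-1 : ℤ) : ℂ) * (E2 τ * E₆ τ) + E₄ τ * E₄ τ)) :=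
    ((IntQ_E6'.D).const_mul 2).add (((IntQv_E2.mul IntQv_E6).const_mul (-1)).add
      (IntQv_E4.mul IntQv_E4))
  have h2 : WInv (fun τ ↦ ((2 : ℤ) : ℂ) *
      normalizedDerivOfComplex (fun τ ↦ E₆ τ) τ + (((-1 : ℤ) : ℂ) * (E2 τ * E₆ τ) + E₄ τ * E₄ τ))
      8 := by
    have h3 : WInv (serreDerivative 6 (fun τ ↦ E₆ τ)) 8 := by
      apply WInv_of_slash
      intro γ
      have h4 := serreDerivative_slash_invariant (k := 6) (F := fun τ ↦ E₆ τ) hm (γ := γ) (by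
        ext τ
        rw [ModularForm.SL_slash_apply]
        have := WInv_E6 γ τ
        simp only at this
        rw [this]
        have hd : denom (γ : GL (Fin 2) ℝ) τ ≠ 0 := denom_ne_zero _ τ
        rw [zpow_neg]
        have e : denom (γ : GL (Fin 2) ℝ) τ ^ (6 : ℤ) = denom (γ : GL (Fin 2) ℝ) τ ^ 6 := by
          norm_cast
        rw [e]
        field_simp)
      exact_mod_cast h4
    intro γ τ
    have h5 := h3 γ τ
    have h6 := WInv_E4 γ τ
    simp only [serreDerivative_apply] at h5 h6 ⊢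
    rw [h6]
    push_cast
    linear_combination 2 * h5
  have h3 := eq_zero_of_low_weight (by simpa using h1) h2 (by norm_num) τ
  push_cast at h3
  linear_combination h3 / 2

end H32
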