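import Pool.Agent.H32.Final2

/-!
# From the span over the Gaussian field to integral forms
-/

open Complex
open scoped Real Topology

namespace H32

variable {m n : ℕ}

lemma mem_adjoin_I {a : ℂ} (h : a ∈ Algebra.adjoin ℚ {(I : ℂ)}) :
    ∃ x y : ℚ, a = (x : ℂ) + y * I := by
  induction h using Algebra.adjoin_induction with
  | mem x hx =>
    rw [Set.mem_singleton_iff] at hx
    exact ⟨0, 1, by rw [hx]; simp⟩
  | algebraMap r => exact ⟨r, 0, by simp⟩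
  | add a b _ _ ha hb =>
    obtain ⟨x, y, rfl⟩ := ha
    obtain ⟨x', y', rfl⟩ := hb
    exact ⟨x + x', y + y', by push_cast; ring⟩
  | mul a b _ _ ha hb =>
    obtain ⟨x, y, rfl⟩ := ha
    obtain ⟨x', y', rfl⟩ := hb
    refine ⟨x * x' - y * y', x * y' + y * x', ?_⟩
    push_cast
    linear_combination (y * y' : ℂ) * Complex.I_sq

/-- The value of a form with coefficients in the Gaussian field. -/
noncomputable def qf (c : Fin (m + 1) → ℚ × ℚ) (t : Fin m → ℝ) : ℂ :=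
  lf (fun k ↦ ((c k).1 : ℂ) + (c k).2 * I) (fun k ↦ (t k : ℂ))

lemma mem_span_U {t : Fin m → ℝ} {A : ℂ}
    (hA : A ∈ Submodule.span (Algebra.adjoin ℚ {(I : ℂ)})
      (insert (1 : ℂ) (Set.range fun k ↦ (t k : ℂ)))) :
    ∃ c : Fin (m + 1) → ℚ × ℚ, A = qf c t := by
  classical
  induction hA using Submodule.span_induction with
  | mem x hx =>
    rcases hx with rfl | ⟨k, rfl⟩
    · refine ⟨Pi.single 0 (1, 0), ?_⟩
      unfold qf lf lin
      rw [Finset.sum_eq_zero]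
      · simp
      · intro k _
        beta_reduce
        rw [Pi.single_eq_of_ne (Fin.succ_ne_zero k)]
        simp
    · refine ⟨Pi.single k.succ (1, 0), ?_⟩
      unfold qf lf lin
      beta_reduce
      rw [Pi.single_eq_of_ne (Fin.succ_ne_zero k).symm, Finset.sum_eq_single k]
      · simp
      · intro i _ hi
        rw [Pi.single_eq_of_ne (fun h ↦ hi (Fin.succ_injective _ h))]
        simp
      · intro h; exact absurd (Finset.mem_univ k) h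
  | zero => exact ⟨0, by simp [qf, lf, lin]⟩
  | add x y _ _ hx hy =>
    obtain ⟨c, rfl⟩ := hx
    obtain ⟨c', rfl⟩ := hy
    refine ⟨c + c', ?_⟩
    unfold qf lf lin
    have : ∑ k : Fin m, ((((c + c') k.succ).1 : ℂ) + ((c + c') k.succ).2 * I) * (t k : ℂ) =
        ∑ k : Fin m, (((c k.succ).1 : ℂ) + (c k.succ).2 * I) * (t k : ℂ) +
        ∑ k : Fin m, (((c' k.succ).1 : ℂ) + (c' k.succ).2 * I) * (t k : ℂ) := by
      rw [← Finset.sum_add_distrib]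
      refine Finset.sum_congr rfl fun k _ ↦ ?_
      simp only [Pi.add_apply, Prod.fst_add, Prod.snd_add]
      push_cast
      ring
    rw [this]
    simp only [Pi.add_apply, Prod.fst_add, Prod.snd_add]
    push_cast
    ring
  | smul a x _ hx =>
    obtain ⟨c, rfl⟩ := hx
    obtain ⟨u, v, huv⟩ := mem_adjoin_I a.2
    refine ⟨fun k ↦ (u * (c k).1 - v * (c k).2, u * (c k).2 + v * (c k).1), ?_⟩
    rw [Algebra.smul_def]
    change (a : ℂ) * _ = _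
    rw [huv]
    unfold qf lf lin
    rw [mul_add, Finset.mul_sum]
    push_cast
    congr 1
    · linear_combination (v * (c 0).2 : ℂ) * Complex.I_sq
    · refine Finset.sum_congr rfl fun k _ ↦ ?_
      linear_combination (v * (c k.succ).2 * t k : ℂ) * Complex.I_sq

lemma exists_int (x : ℚ) {Δ : ℕ} (h : x.den ∣ Δ) : ∃ A : ℤ, x * Δ = A := by
  obtain ⟨k, rfl⟩ := h
  refine ⟨x.num * k, ?_⟩
  push_cast
  rw [← mul_assoc, Rat.mul_den_eq_num]

lemma exists_gauss (c c' : Fin (m + 1) → ℚ × ℚ) (t : Fin m → ℝ) :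
    ∃ α β : Fin (m + 1) → GaussianInt, qf c t / qf c' t =
      lf (gc α) (fun k ↦ (t k : ℂ)) / lf (gc β) (fun k ↦ (t k : ℂ)) := by
  set Δ : ℕ := (∏ k, (c k).1.den * (c k).2.den) * ∏ k, (c' k).1.den * (c' k).2.den with hΔ
  have hΔ0 : Δ ≠ 0 := by
    refine mul_ne_zero (Finset.prod_ne_zero_iff.mpr fun k _ ↦ ?_)
      (Finset.prod_ne_zero_iff.mpr fun k _ ↦ ?_)
    · exact mul_ne_zero (Rat.den_ne_zero _) (Rat.den_ne_zero _)
    · exact mul_ne_zero (Rat.den_ne_zero _) (Rat.den_ne_zero _)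
  have h1 : ∀ k, (c k).1.den * (c k).2.den ∣ Δ := fun k ↦
    (Finset.dvd_prod_of_mem (fun k ↦ (c k).1.den * (c k).2.den) (Finset.mem_univ k)).trans
      (Dvd.intro _ rfl)
  have h2 : ∀ k, (c' k).1.den * (c' k).2.den ∣ Δ := fun k ↦
    (Finset.dvd_prod_of_mem (fun k ↦ (c' k).1.den * (c' k).2.den) (Finset.mem_univ k)).trans
      (Dvd.intro_left _ rfl)
  choose A hA using fun k ↦ exists_int (c k).1 ((Dvd.intro _ rfl).trans (h1 k))
  choose B hB using fun k ↦ exists_int (c k).2 ((Dvd.intro_left _ rfl).trans (h1 k))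
  choose C hC using fun k ↦ exists_int (c' k).1 ((Dvd.intro _ rfl).trans (h2 k))
  choose D hD using fun k ↦ exists_int (c' k).2 ((Dvd.intro_left _ rfl).trans (h2 k))
  refine ⟨fun k ↦ ⟨A k, B k⟩, fun k ↦ ⟨C k, D k⟩, ?_⟩
  have hΔc : (Δ : ℂ) ≠ 0 := by exact_mod_cast hΔ0
  have key : ∀ (e : Fin (m + 1) → ℚ × ℚ) (X Y : Fin (m + 1) → ℤ) (_ : ∀ k, (e k).1 * Δ = X k)
      (_ : ∀ k, (e k).2 * Δ = Y k), lf (gc fun k ↦ (⟨X k, Y k⟩ : GaussianInt)) (fun k ↦ (t k : ℂ)) =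
      Δ * qf e t := by
    intro e X Y hX hY
    have hcoef : ∀ k, gc (fun k ↦ (⟨X k, Y k⟩ : GaussianInt)) k =
        Δ * (((e k).1 : ℂ) + (e k).2 * I) := by
      intro k
      unfold gc
      rw [GaussianInt.toComplex_def']
      have a1 : (((e k).1 * Δ : ℚ) : ℂ) = ((X k : ℚ) : ℂ) := by rw [hX]
      have a2 : (((e k).2 * Δ : ℚ) : ℂ) = ((Y k : ℚ) : ℂ) := by rw [hY]
      push_cast at a1 a2
      rw [← a1, ← a2]
      ring
    unfold qf lf lin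
    rw [mul_add, Finset.mul_sum, hcoef]
    congr 1
    refine Finset.sum_congr rfl fun k _ ↦ ?_
    rw [hcoef]
    ring
  rw [key c A B hA hB, key c' C D hC hD, mul_div_mul_left _ _ hΔc]

theorem main3 {E4 E6 J : ℂ → ℂ}
    (h4 : ∀ τ : ℂ, E4 τ = 1 + 240 * ∑' m : ℕ, ((ArithmeticFunction.sigma 3 (m + 1) : ℕ) : ℂ) *
      Complex.exp (2 * (Real.pi : ℂ) * Complex.I * ((m : ℂ) + 1) * τ))
    (h6 : ∀ τ : ℂ, E6 τ = 1 - 504 * ∑' m : ℕ, ((ArithmeticFunction.sigma 5 (m + 1) : ℕ) : ℂ) *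
      Complex.exp (2 * (Real.pi : ℂ) * Complex.I * ((m : ℂ) + 1) * τ))
    (hJ : ∀ τ : ℂ, J τ = 1728 * E4 τ ^ 3 / (E4 τ ^ 3 - E6 τ ^ 2))
    (t : Fin m → ℝ) (κ : ℝ) (hκ : 2 * n < κ)
    (happ : ∀ K : ℕ, ∃ q : ℕ, K ≤ q ∧ ∃ p : Fin m → ℤ,
      (∀ k, 0 < |t k - p k / q| ∧ |t k - p k / q| < Real.exp (-(q : ℝ) ^ κ)) ∧
      ∀ j k, j < k → |t j - p j / q| < |t k - p k / q| ^ K)
    (z : Fin n → ℂ) (him : ∀ i, 0 < (z i).im)
    (hU : ∀ i, ∃ A ∈ Submodule.span (Algebra.adjoin ℚ {(I : ℂ)})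
        (insert (1 : ℂ) (Set.range fun k ↦ (t k : ℂ))),
      ∃ B ∈ Submodule.span (Algebra.adjoin ℚ {(I : ℂ)})
        (insert (1 : ℂ) (Set.range fun k ↦ (t k : ℂ))), z i = A / B)
    (hCM : ∀ i, ¬ ∃ a b c : ℤ, a ≠ 0 ∧ (a : ℂ) * z i ^ 2 + (b : ℂ) * z i + (c : ℂ) = 0)
    (hne : ∀ i k, i ≠ k → ¬ ∃ a b c d : ℚ, 0 < a * d - b * c ∧
      z k = ((a : ℂ) * z i + (b : ℂ)) / ((c : ℂ) * z i + (d : ℂ))) :
    (∃ f : Fin (3 * n) → Fin n × Fin 4, AlgebraicIndependent ℚ (fun k ↦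
      ![z (f k).1, J (z (f k).1), deriv J (z (f k).1), deriv (deriv J) (z (f k).1)] (f k).2)) ∧
    ∀ (ρ : ℕ) (g : Fin ρ → Fin n), AlgebraicIndependent ℚ (fun k ↦ z (g k)) →
      ∃ f : Fin (3 * n + ρ - 1) → Fin n × Fin 4, AlgebraicIndependent ℚ (fun k ↦
        ![z (f k).1, J (z (f k).1), deriv J (z (f k).1), deriv (deriv J) (z (f k).1)] (f k).2) := by
  have hex : ∀ i, ∃ α β : Fin (m + 1) → GaussianInt, z i =
      lf (gc α) (fun k ↦ (t k : ℂ)) / lf (gc β) (fun k ↦ (t k : ℂ)) := by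
    intro i
    obtain ⟨A, hA, B, hB, hz⟩ := hU i
    obtain ⟨c, rfl⟩ := mem_span_U hA
    obtain ⟨c', rfl⟩ := mem_span_U hB
    obtain ⟨α, β, h⟩ := exists_gauss c c' t
    exact ⟨α, β, by rw [hz, h]⟩
  choose α β hz using hex
  exact main2 h4 h6 hJ t κ hκ happ z him hCM hne α β hz

end H32
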