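import Pool.Agent.H32.Indep3
import Pool.Agent.H32.App3

/-!
# Special points and growth
-/

open UpperHalfPlane hiding I
open Complex EisensteinSeries ModularForm MatrixGroups Manifold
open scoped Real Topology
open Filter Asymptotics

namespace H32

/-- Integral translations. -/
def uM (m : ℤ) : SL(2, ℤ) := ⟨!![1, m; 0, 1], by simp [Matrix.det_fin_two]⟩

lemma denom_uM (m : ℤ) (τ : ℍ) : denom ((uM m : SL(2, ℤ)) : GL (Fin 2) ℝ) τ = 1 := by
  rw [ModularGroup.denom_apply]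
  simp [uM]

lemma coe_smul_uM (m : ℤ) (τ : ℍ) : ((uM m • τ : ℍ) : ℂ) = τ + m := by
  rw [coe_specialLinearGroup_apply]
  simp [uM]

lemma E2s_periodic {τ τ' : ℍ} {m : ℤ} (h : (τ' : ℂ) = τ + m) : E2s τ' = E2s τ := by
  have h1 : τ' = uM m • τ := by ext; rw [h, coe_smul_uM]
  rw [h1, E2s_smul, denom_uM]; simp

lemma E4_periodic {τ τ' : ℍ} {m : ℤ} (h : (τ' : ℂ) = τ + m) : E₄ τ' = E₄ τ := by
  have h1 : τ' = uM m • τ := by ext; rw [h, coe_smul_uM]
  have := WInv_E4 (uM m) τ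
  simp only at this
  rw [h1, this, denom_uM]; simp

lemma E6_periodic {τ τ' : ℍ} {m : ℤ} (h : (τ' : ℂ) = τ + m) : E₆ τ' = E₆ τ := by
  have h1 : τ' = uM m • τ := by ext; rw [h, coe_smul_uM]
  have := WInv_E6 (uM m) τ
  simp only at this
  rw [h1, this, denom_uM]; simp

lemma exists_M {a b c d : ℚ} {Δ : ℕ} (hΔ : 0 < Δ) {A B C D : ℤ} (hA : a * Δ = A) (hB : b * Δ = B)
    (hC : c * Δ = C) (hD : d * Δ = D) {q : ℕ} (hq : 0 < q) (p : ℤ)
    (hpos : 0 < (c : ℝ) + d * ((p : ℝ) / q)) :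
    ∃ (M : ℕ × ℕ × ℕ) (N : ℕ), 0 < N ∧ M ∈ SN N ∧ (N : ℤ) = (C * q + D * p) * (Δ * q) ∧
      ∀ l, DD ((a : ℂ) + c * I) ((b : ℂ) + d * I) c d (((p : ℝ) / q : ℝ) : ℂ) l =
        ![(p : ℂ) / q, E2s (tact M UpperHalfPlane.I), E₄ (tact M UpperHalfPlane.I),
          E₆ (tact M UpperHalfPlane.I)] l := by
  have hΔR : (0 : ℝ) < Δ := by exact_mod_cast hΔ
  have hqR : (0 : ℝ) < q := by exact_mod_cast hq
  have hAR : (a : ℝ) * Δ = A := by exact_mod_cast congrArg (Rat.cast : ℚ → ℝ) hA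
  have hBR : (b : ℝ) * Δ = B := by exact_mod_cast congrArg (Rat.cast : ℚ → ℝ) hB
  have hCR : (c : ℝ) * Δ = C := by exact_mod_cast congrArg (Rat.cast : ℚ → ℝ) hC
  have hDR : (d : ℝ) * Δ = D := by exact_mod_cast congrArg (Rat.cast : ℚ → ℝ) hD
  set Y : ℤ := C * q + D * p with hY
  set X : ℤ := A * q + B * p with hX
  have hYR : (Y : ℝ) = ((c : ℝ) + d * ((p : ℝ) / q)) * (Δ * q) := by
    rw [hY]; push_cast; rw [← hCR, ← hDR]; field_simp
  have hXR : (X : ℝ) = ((a : ℝ) + b * ((p : ℝ) / q)) * (Δ * q) := by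
    rw [hX]; push_cast; rw [← hAR, ← hBR]; field_simp
  have hY0 : 0 < Y := by
    have : (0 : ℝ) < Y := by rw [hYR]; positivity
    exact_mod_cast this
  have hDq : (0 : ℤ) < Δ * q := by exact_mod_cast Nat.mul_pos hΔ hq
  have hmod0 : 0 ≤ X % (Δ * q) := Int.emod_nonneg _ hDq.ne'
  have hmod1 : X % (Δ * q) < Δ * q := Int.emod_lt_of_pos _ hDq
  set M : ℕ × ℕ × ℕ := (Y.toNat, (X % (Δ * q)).toNat, Δ * q) with hM
  have hM1 : (M.1 : ℤ) = Y := Int.toNat_of_nonneg hY0.le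
  have hM2 : (M.2.1 : ℤ) = X % (Δ * q) := Int.toNat_of_nonneg hmod0
  have hM3 : (M.2.2 : ℤ) = Δ * q := by rw [hM]; push_cast; rfl
  have hNpos : 0 < Y.toNat * (Δ * q) := by
    have : 0 < Y.toNat := by omega
    positivity
  have hMS : M ∈ SN (Y.toNat * (Δ * q)) := by
    rw [mem_SN hNpos]
    refine ⟨rfl, ?_⟩
    have : (M.2.1 : ℤ) < M.2.2 := by rw [hM2, hM3]; exact hmod1
    exact_mod_cast this
  refine ⟨M, Y.toNat * (Δ * q), hNpos, hMS, ?_, ?_⟩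
  · push_cast
    rw [Int.toNat_of_nonneg hY0.le]
  obtain ⟨h1, h2⟩ := SN_pos hNpos hMS
  -- the point
  set z : ℂ := ((a : ℂ) + c * I) + ((b : ℂ) + d * I) * (((p : ℝ) / q : ℝ) : ℂ) with hz
  have hzim : z.im = (c : ℝ) + d * ((p : ℝ) / q) := by
    rw [hz]
    simp only [Complex.add_im, Complex.mul_im, Complex.ofReal_im, Complex.ofReal_re, Complex.I_im,
      Complex.I_re, Complex.ratCast_im, Complex.ratCast_re, Complex.add_re, Complex.mul_re]
    ring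
  have hzre : z.re = (a : ℝ) + b * ((p : ℝ) / q) := by
    rw [hz]
    simp only [Complex.add_im, Complex.mul_im, Complex.ofReal_im, Complex.ofReal_re, Complex.I_im,
      Complex.I_re, Complex.ratCast_im, Complex.ratCast_re, Complex.add_re, Complex.mul_re]
    ring
  have hzpos : 0 < z.im := by rw [hzim]; exact hpos
  set τ : ℍ := ⟨z, hzpos⟩ with hτ
  have hofc : ofComplex z = τ := ofComplex_apply_of_im_pos hzpos
  have hper : (τ : ℂ) = tact M UpperHalfPlane.I + ((X / (Δ * q) : ℤ) : ℂ) := by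
    rw [coe_tact h1 h2]
    have hXd : (X : ℝ) = (Δ * q : ℝ) * ((X / (Δ * q) : ℤ) : ℝ) + ((X % (Δ * q) : ℤ) : ℝ) := by
      have := Int.mul_ediv_add_emod X (Δ * q)
      exact_mod_cast this.symm
    have hM1C : (M.1 : ℂ) = ((Y : ℝ) : ℂ) := by
      have : ((M.1 : ℤ) : ℂ) = (Y : ℂ) := by rw [hM1]
      push_cast at this ⊢; exact this
    have hM2C : (M.2.1 : ℂ) = (((X % (Δ * q) : ℤ) : ℝ) : ℂ) := by
      have : ((M.2.1 : ℤ) : ℂ) = ((X % (Δ * q) : ℤ) : ℂ) := by rw [hM2]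
      push_cast at this ⊢; exact this
    have hM3C : (M.2.2 : ℂ) = ((Δ * q : ℝ) : ℂ) := by
      rw [hM]; push_cast; rfl
    rw [hM1C, hM2C, hM3C]
    have hzz : (τ : ℂ) = (z.re : ℂ) + z.im * I := (Complex.re_add_im z).symm
    rw [hzz, hzre, hzim, UpperHalfPlane.coe_I]
    have hne : ((Δ * q : ℝ) : ℂ) ≠ 0 := by exact_mod_cast (by positivity : (0 : ℝ) < Δ * q).ne'
    rw [eq_comm, div_add' _ _ _ hne, div_eq_iff hne, hYR]
    have hXR' : ((X : ℝ) : ℂ) = (((a : ℝ) + b * ((p : ℝ) / q)) * (Δ * q) : ℝ) := by rw [hXR]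
    have hXd' : ((X : ℝ) : ℂ) = ((Δ * q : ℝ) * ((X / (Δ * q) : ℤ) : ℝ) + ((X % (Δ * q) : ℤ) : ℝ) : ℝ) := by
      rw [← hXd]
    push_cast at hXR' hXd' ⊢
    linear_combination hXR' - hXd'
  have hE2 : E2s (tact M UpperHalfPlane.I) = E2s τ := (E2s_periodic hper).symm
  have hE4 : E₄ (tact M UpperHalfPlane.I) = E₄ τ := (E4_periodic hper).symm
  have hE6 : E₆ (tact M UpperHalfPlane.I) = E₆ τ := (E6_periodic hper).symm
  intro l
  rw [hE2, hE4, hE6]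
  unfold DD
  rw [← hz, hofc]
  have him : ((τ.im : ℝ) : ℂ) = (c : ℂ) + d * (((p : ℝ) / q : ℝ) : ℂ) := by
    have : τ.im = z.im := rfl
    rw [this, hzim]; push_cast; rfl
  fin_cases l
  · simp
  · simp [E2s, him]
  · simp
  · simp

end H32
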